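import Pool.Agent.MP_fd6584_ag.D.Stmt

/-! The nef cone conjecture with push-forwards. -/

set_option autoImplicit false

open AlgebraicGeometry CategoryTheory

namespace Pool.Agent.MP_20d318_ag.CC

open Pool.Agent.MP_fd6584_ag

variable {k : Type} [Field k] {X : Scheme.{0}}

/-- Push-forward by an automorphism: the pull-back by the inverse. -/
noncomputable def push {s : X ⟶ Spec (CommRingCat.of k)} (g : Aut (Over.mk s))
    (ξ : Curve s → ℝ) : Curve s → ℝ := pullAut g.symm ξ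

variable [IsIntegral X] (s : X ⟶ Spec (CommRingCat.of k))

/-- The effective nef cone. -/
def effNef : Set (Curve s → ℝ) := {ξ | (∀ c, 0 ≤ ξ c) ∧ ξ ∈ Eff s}

/-- The nef cone conjecture for `X`. -/
def NefConj : Prop :=
  FiniteDimensional ℝ (N1 s) ∧ ∃ (R : Finset (Curve s → ℝ)) (P : Set (Curve s → ℝ)),
    (∀ r ∈ R, r ∈ Submodule.span ℚ (Set.range (deg s))) ∧
    P = PointedCone.hull ℝ (R : Set (Curve s → ℝ)) ∧ P ⊆ effNef s ∧
    effNef s = ⋃ g : Aut (Over.mk s), push g '' P ∧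
    ∀ g : Aut (Over.mk s), (∃ ξ ∈ N1 s, push g ξ ≠ ξ) → int s P ∩ push g '' int s P = ∅

end Pool.Agent.MP_20d318_ag.CC
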