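import Pool.Agent.MP_20d318_ag.CC.En3
import Pool.Agent.MP_fd6584_ag.D.Fin
import Pool.Agent.MP_20d318_ag.CC.Stmt

-- ======== part 0: formerly Pool.Agent.MP_20d318_ag.CC.C0
section MrgPart0

/-! Row C0: the cone theorem on the surface. -/

set_option autoImplicit false
set_option linter.unusedSectionVars false

namespace Pool.Agent.MP_20d318_ag.CC

open Pool.Agent.MP_20d318_ag.Lat hiding act
open Pool.Agent.MP_20d318_ag.CB

namespace C0r

variable {ι κ : Type} [Fintype ι] [Fintype κ] {Λ : Ld ι κ}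

theorem mem_PT (b : B0 Λ) (c : ι → ℤ) : c ∈ PT Λ ∅ ↔ c ∈ Λ.P := by
  refine ⟨fun ⟨_, g, hg, e⟩ => by rwa [e, prj_empty], fun h => ⟨fun e => ?_, c, h, ?_⟩⟩
  · have := b.nc.hpos c h
    rw [e, ip_zero_right] at this
    exact lt_irrefl _ this
  · rw [prj_empty]

theorem small (B : ι → ι → ℤ) {c : ι → ℤ} (hc : c ≠ 0)
    (h : ∀ v, ip B v c = 0 → ∃ m : ℤ, v = m • c) : Fintype.card ι ≤ 2 := by
  classical
  by_contra hn
  obtain ⟨i, hi⟩ := Function.ne_iff.1 hc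
  have h0 : ∀ v, ip B v c = 0 → v i = 0 → v = 0 := fun v hv hvi => by
    obtain ⟨m, rfl⟩ := h v hv
    rw [(mul_eq_zero.1 hvi).resolve_right hi, zero_smul]
  have h1 : 1 < (Finset.univ.erase i).card := by
    rw [Finset.card_erase_of_mem (Finset.mem_univ i), Finset.card_univ]; omega
  obtain ⟨j, hj, k, hk, hjk⟩ := Finset.one_lt_card.1 h1
  have hj' := (Finset.ne_of_mem_erase hj).symm
  have hk' := (Finset.ne_of_mem_erase hk).symm
  have e := h0 (ip B (Pi.single k 1) c • Pi.single j 1 - ip B (Pi.single j 1) c • Pi.single k 1)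
    (by rw [ip_sub_left, ip_smul_left, ip_smul_left]; ring) (by simp [hj', hk'])
  have e1 : ip B (Pi.single j 1) c = 0 := by simpa [hjk.symm] using congrFun e k
  simpa using congrFun (h0 _ e1 (by simp [hj'])) j

theorem tm (b : B0 Λ) (r : RC Λ ∅) (c : ι → ℤ) : ¬ Tm Λ ∅ c := fun h => by
  have hK := b.lb.KK
  have hn := b.nc.noe
  rcases r.tm c h with ⟨h1, h2⟩ | ⟨h1, h2⟩ | ⟨-, h2⟩
  · rw [KT, prj_empty] at h2
    rw [eq_neg_of_add_eq_zero_right h2, ip_neg_left, ip_neg_right, ip_smul_left, ip_smul_right,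
      h1] at hK
    omega
  · rw [KT, prj_empty] at h2
    rw [eq_neg_of_add_eq_zero_right h2, ip_neg_left, ip_neg_right, ip_smul_left, ip_smul_right,
      h1] at hK
    omega
  · have := small Λ.B h.1.1 fun v => h2 v fun e he => absurd he (Finset.notMem_empty e)
    omega

theorem ct (b : B0 Λ) (r : RC Λ ∅) (L : ι → ℝ)
    (hL : ∀ c ∈ Λ.P, ip Λ.B c c < 0 → 0 ≤ ip Λ.B L (toR c)) : L ∈ Λ.NT := fun c hc => by
  let A : AddSubmonoid (ι → ℤ) :=
    { carrier := {v | 0 ≤ ip Λ.B L (toR v)}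
      add_mem' := fun {u v} hu hv => by
        show 0 ≤ ip Λ.B L (toR (u + v))
        rw [toR_add, ip_add_right]
        exact add_nonneg hu hv
      zero_mem' := by
        show 0 ≤ ip Λ.B L (toR 0)
        rw [toR_zero, ip_zero_right] }
  refine r.two A (fun g hg => hL g ((mem_PT b g).1 hg)) (fun g hg => absurd hg (tm b r g)) ?_ c
    ((mem_PT b c).2 hc)
  show 0 ≤ ip Λ.B L (toR (-KT Λ ∅))
  have h1 : 0 ≤ ip Λ.B L (toR (∑ k, Λ.C k)) := by
    rw [toR_sum, ip_sum_right]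
    exact Finset.sum_nonneg fun k _ => hL _ (b.nc.memC k) (by rw [b.nc.m4]; norm_num)
  rw [b.nc.sumC, toR_zsmul, ip_smul_right] at h1
  rw [KT, prj_empty, toR_neg, ip_neg_right]
  push_cast at h1
  linarith

end C0r

theorem c0_stmt : C0Stmt := by
  intro ι κ _ _ Λ b r
  refine ⟨C0r.tm b r, C0r.ct b r, fun z hz h => ?_⟩
  have h1 := C0r.ct b r (toR (-z)) fun c hc hn => by
    rw [ip_toR, ip_neg_left, h c hc hn]; simp
  have h2 : ∀ c ∈ Λ.P, ip Λ.B z c = 0 := fun c hc => by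
    have := (b.lb.nefr _).1 h1 c hc
    rw [ip_neg_left] at this
    linarith [hz c hc]
  have h3 : ∀ y, ip Λ.B z y = 0 := fun y => by
    induction b.lb.gen y using AddSubgroup.closure_induction with
    | mem x hx => exact h2 x hx
    | zero => exact ip_zero_right _
    | add x y _ _ hx hy => rw [ip_add_right, hx, hy, add_zero]
    | neg x _ hx => rw [ip_neg_right, hx, neg_zero]
  exact toR_inj ((b.hg.nd _ fun y => by rw [ip_toR, h3]; simp).trans toR_zero.symm)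

end Pool.Agent.MP_20d318_ag.CC

end MrgPart0

-- ======== part 1: formerly Pool.Agent.MP_20d318_ag.CC.Mg2
section MrgPart1

/-! The maximal merging of the components. -/

set_option autoImplicit false
set_option linter.unusedSectionVars false

namespace Pool.Agent.MP_20d318_ag.CC

open Pool.Agent.MP_20d318_ag.Lat hiding act
open Pool.Agent.MP_20d318_ag.CB
open Classical

namespace Mg2

variable {ι : Type} [Fintype ι]

theorem deg {B : ι → ι → ℤ} {K : ι → ℤ} {P : Set (ι → ℤ)} {N : ℕ} {ε : ℕ → ι → ℤ}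
    (st : ST B K P N ε) {j : ℕ} (hj : j < N) : ip B K (ε j) = -1 := by
  have s : ip B (∑ i ∈ Finset.range N, ε i) (ε j) = -1 := by
    rw [ip_sum_left, Finset.sum_eq_single j
      (fun i hi h => st.orth i (Finset.mem_range.1 hi) j hj h)
      fun h => absurd (Finset.mem_range.2 hj) h]
    exact st.sq j hj
  rcases st.base with ⟨H, -, h1, h2, -⟩ | ⟨f, s', m, -, -, -, h1, -, h2, -⟩
  · rw [h2, ip_add_left, ip_smul_left, h1 j hj, s]
    norm_num
  · rw [h2, ip_add_left, ip_sub_left, ip_smul_left, ip_smul_left, (h1 j hj).1, (h1 j hj).2, s]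
    norm_num

end Mg2

theorem mg2_stmt : Mg2Stmt := by
  intro ι κ _ _ Λ N ε b mg st
  obtain ⟨J, hJ, hmax⟩ := Finset.exists_max_image ((Finset.range N).powerset.filter fun J =>
    ∃ blk c, MS Λ (J.image ε) blk c ∧ ∀ j ∈ J, ∀ k l, ip Λ.B (Λ.C k) (ε j) ≠ 0 →
      ip Λ.B (Λ.C l) (ε j) ≠ 0 → blk k = blk l) Finset.card
    ⟨∅, Finset.mem_filter.2 ⟨by simp, id, Λ.C, by simpa using mg.start, by simp⟩⟩
  obtain ⟨h1, blk, c, ms, fine⟩ := Finset.mem_filter.1 hJ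
  have sub := Finset.mem_powerset.1 h1
  have cm := ip_comm (R := ℤ) (B := Λ.B) b.nc.sym
  have pos : ∀ j < N, (∀ k, 0 ≤ ip Λ.B (Λ.C k) (ε j)) → ∀ k l, ip Λ.B (Λ.C k) (ε j) ≠ 0 →
      ip Λ.B (Λ.C l) (ε j) ≠ 0 → blk k = blk l := by
    intro j hj h0
    rcases b.lb.pat (ε j) h0 (Mg2.deg st hj) with ⟨k, -, h⟩ | ⟨k, l, kl, a1, a2, h⟩
    · intro m m' c1 c2
      rw [show m = k from by_contra fun d => c1 (h m d), show m' = k from
        by_contra fun d => c2 (h m' d)]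
    have two : ∀ m, ip Λ.B (Λ.C m) (ε j) ≠ 0 → m = k ∨ m = l := fun m c1 =>
      by_contra fun d => c1 (h m (fun e => d (Or.inl e)) fun e => d (Or.inr e))
    have both : ∀ bl : κ → κ, bl k = bl l → ∀ m m', ip Λ.B (Λ.C m) (ε j) ≠ 0 →
        ip Λ.B (Λ.C m') (ε j) ≠ 0 → bl m = bl m' := fun bl e m m' c1 c2 => by
      rcases two m c1 with rfl | rfl <;> rcases two m' c2 with rfl | rfl
      exacts [rfl, e, e.symm, rfl]
    refine both blk (by_contra fun ne => ?_)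
    have jJ : j ∉ J := fun d => ne (fine j d k l (by omega) (by omega))
    have pp : Pp Λ (J.image ε) (ε j) := fun e he => by
      obtain ⟨i, hi, rfl⟩ := Finset.mem_image.1 he
      exact st.orth j hj i (Finset.mem_range.1 (sub hi)) fun d => jJ (d ▸ hi)
    have one : ∀ m m', ip Λ.B (Λ.C m) (ε j) = 1 → blk m ≠ blk m' →
        (∀ u, ip Λ.B (Λ.C u) (ε j) ≠ 0 → u = m ∨ u = m') → ip Λ.B (ε j) (c (blk m)) = 1 := by
      intro m m' c1 c2 c3
      rw [ms.val _ _ pp, Finset.sum_eq_single m (fun u hu d => ?_) fun d => absurd (by simp) d,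
        cm, c1]
      rw [cm]
      by_contra c4
      rcases c3 u c4 with rfl | rfl
      · exact d rfl
      · exact c2 (Finset.mem_filter.1 hu).2.symm
    obtain ⟨blk', c', -, ms', e1, e2⟩ := mg.step _ blk c ms (ε j) k l pp (st.sq j hj) ne
      (one k l a1 ne two) (one l k a2 (Ne.symm ne) fun u d => (two u d).symm) fun β d1 d2 => by
        rw [ms.val _ _ pp]
        refine Finset.sum_eq_zero fun u hu => ?_
        have hu' := (Finset.mem_filter.1 hu).2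
        rw [cm]
        exact h u (fun d => d1 (by rw [← hu', d])) fun d => d2 (by rw [← hu', d])
    have := hmax (insert j J) (Finset.mem_filter.2 ⟨Finset.mem_powerset.2
      (Finset.insert_subset (Finset.mem_range.2 hj) sub), blk', c',
      by rwa [Finset.image_insert], fun i hi => by
        rcases Finset.mem_insert.1 hi with rfl | hi
        · exact both blk' e1
        · exact fun m m' c1 c2 => e2 m m' (fine i hi m m' c1 c2)⟩)
    rw [Finset.card_insert_of_notMem jJ] at this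
    omega
  refine ⟨J, blk, c, sub, ms, fun j => ?_⟩
  induction hd : N - j using Nat.strong_induction_on generalizing j with
  | _ d ih =>
  intro hj
  by_cases h0 : ∀ k, 0 ≤ ip Λ.B (Λ.C k) (ε j)
  · exact pos j hj h0
  obtain ⟨k, hk⟩ := not_forall.1 h0
  obtain ⟨i, -, h2, h3⟩ := (st.prm _ (b.nc.memC k)).resolve_left fun h => hk (h j hj)
  obtain rfl : j = i := by_contra fun e => hk (h2 j hj e)
  have key : ∀ l, ip Λ.B (Λ.C l) (ε j) ≠ 0 → blk l = blk k := by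
    intro l hl
    by_contra ne
    have z := b.nc.disj l k fun e => ne (by rw [e])
    rw [h3, ip_sub_right, ip_sum_right, Finset.sum_eq_zero fun i hi => ?_, sub_zero] at z
    · exact hl z
    obtain ⟨i1, i2⟩ := Finset.mem_Ioo.1 hi
    rw [ip_smul_right]
    by_contra c1
    exact ne (ih (N - i) (by omega) i rfl i2 l k (right_ne_zero_of_mul c1)
      (left_ne_zero_of_mul c1))
  exact fun l l' c1 c2 => (key l c1).trans (key l' c2).symm

end Pool.Agent.MP_20d318_ag.CC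

end MrgPart1

-- ======== part 2: formerly Pool.Agent.MP_20d318_ag.CC.Fr
section MrgPart2

/-! An explicit frame of the lattice of rank ten. -/

set_option autoImplicit false

namespace Pool.Agent.MP_20d318_ag.CC

open Pool.Agent.MP_20d318_ag.Lat hiding act
open Pool.Agent.MP_20d318_ag.CB

namespace Fr

variable {ι κ : Type} [Fintype ι] [Fintype κ] {Λ : Ld ι κ} {T : Finset (ι → ℤ)}

/-- Classes in a standard system. -/
theorem cls (sym : ∀ i j, Λ.B i j = Λ.B j i) (sd : SD Λ T) :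
    ∃ U : ℤ → (Fin 8 → ℤ) → ℤ → ℤ → ι → ℤ, ∀ d m a b, Pp Λ T (U d m a b) ∧
      ip Λ.B (U d m a b) Λ.K = -3 * d + ∑ j, m j + a + b ∧ ∀ d' m' a' b',
        ip Λ.B (U d m a b) (U d' m' a' b') = d * d' - ∑ j, m j * m' j - a * a' - b * b' := by
  obtain ⟨H, η, p1, p2, hh, he, ee, hk, ek⟩ := sd
  have he' : ∀ i, ip Λ.B (η i) H = 0 := fun i => (ip_comm sym _ _).trans (he i)
  have key : ∀ (d : ℤ) (m : Fin (8 + 2) → ℤ), Pp Λ T (d • H - ∑ i, m i • η i) ∧
      ip Λ.B (d • H - ∑ i, m i • η i) Λ.K = -3 * d + ∑ j, m j ∧ ∀ (d' : ℤ) (m' : Fin (8 + 2) → ℤ),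
        ip Λ.B (d • H - ∑ i, m i • η i) (d' • H - ∑ i, m' i • η i) =
          d * d' - ∑ j, m j * m' j := fun d m => by
    refine ⟨fun e h => ?_, ?_, fun d' m' => ?_⟩
    · simp only [ip_sub_left, ip_sum_left, ip_smul_left, p1 e h, fun i => p2 i e h]
      simp
    · simp only [ip_sub_left, ip_sum_left, ip_smul_left, hk, ek]
      simp [mul_comm]
    · simp only [ip_sub_left, ip_sub_right, ip_sum_left, ip_sum_right, ip_smul_left, ip_smul_right,
        hh, he, he', ee]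
      simp [mul_comm, sub_eq_add_neg]
  refine ⟨fun d m a b => d • H - ∑ i : Fin (8 + 2), Fin.append m ![a, b] i • η i,
    fun d m a b => ?_⟩
  obtain ⟨k1, k2, k3⟩ := key d (Fin.append m ![a, b])
  refine ⟨k1, k2.trans ?_, fun d' m' a' b' => (k3 _ _).trans ?_⟩ <;>
    simp only [Fin.sum_univ_add, Fin.append_left, Fin.append_right, Fin.sum_univ_two,
      Matrix.cons_val] <;> ring

theorem e8 {z : Fin 8 → ℤ} (h : z ∈ E8) : 2 * ((∑ i, z i) / 2) = ∑ i, z i ∧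
    ∀ j, 4 * ((∑ i, z i - 2 * z j) / 4) = ∑ i, z i - 2 * z j :=
  ⟨by have := h 0; omega, fun j => by have := h j; omega⟩

theorem e8_sum {z : Fin 8 → ℤ} (h : z ∈ E8) :
    ∑ j, (∑ i, z i - 2 * z j) / 4 = 3 * ((∑ i, z i) / 2) := by
  have := Finset.sum_congr rfl fun j (_ : j ∈ Finset.univ) => (e8 h).2 j
  rw [← Finset.mul_sum, Finset.sum_sub_distrib, ← Finset.mul_sum] at this
  have h2 := (e8 h).1
  simp only [Finset.sum_const, Finset.card_univ, Fintype.card_fin, nsmul_eq_mul] at this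
  omega

theorem e8_mul {z z' : Fin 8 → ℤ} (h : z ∈ E8) (h' : z' ∈ E8) :
    4 * ((∑ i, z i) / 2 * ((∑ i, z' i) / 2) -
      ∑ j, (∑ i, z i - 2 * z j) / 4 * ((∑ i, z' i - 2 * z' j) / 4)) = -∑ i, z i * z' i := by
  have e : 16 * ∑ j, (∑ i, z i - 2 * z j) / 4 * ((∑ i, z' i - 2 * z' j) / 4) =
      ∑ j, ((∑ i, z i) * ∑ i, z' i - 2 * (∑ i, z' i) * z j - 2 * (∑ i, z i) * z' j +
        4 * (z j * z' j)) := by
    rw [Finset.mul_sum]
    exact Finset.sum_congr rfl fun j _ => by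
      linear_combination (4 * ((∑ i, z' i - 2 * z' j) / 4)) * (e8 h).2 j +
        (∑ i, z i - 2 * z j) * (e8 h').2 j
  simp only [Finset.sum_add_distrib, Finset.sum_sub_distrib, ← Finset.mul_sum, Finset.sum_const,
    Finset.card_univ, Fintype.card_fin, nsmul_eq_mul, Nat.cast_ofNat] at e
  refine mul_left_cancel₀ (four_ne_zero (α := ℤ)) ?_
  linear_combination (-1) * e + (8 * ((∑ i, z' i) / 2)) * (e8 h).1 + (4 * ∑ i, z i) * (e8 h').1

end Fr

open Fr in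
theorem fr_stmt : FrStmt := by
  intro ι κ _ _ Λ T blk c b ll mg ms one sd
  obtain ⟨Ψ, hΨ⟩ := mg.stop T blk c ms one
  obtain ⟨U, hU⟩ := cls b.nc.sym sd
  have k0 : ip Λ.B (U 3 1 1 0) Λ.K = 0 := by simp [(hU _ _ _ _).2.1]
  have k1 : ip Λ.B (U 3 1 0 1) Λ.K = 0 := by simp [(hU _ _ _ _).2.1]
  let v : (Fin 8 → ℤ) → ι → ℤ := fun z => U ((∑ i, z i) / 2) (fun j => (∑ i, z i - 2 * z j) / 4) 0 0
  have k2 : ∀ z ∈ E8, ip Λ.B (v z) Λ.K = 0 := fun z h => by
    rw [(hU _ _ _ _).2.1, e8_sum h]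
    ring
  obtain ⟨a1, a2⟩ := hΨ _ (hU _ _ _ _).1 k0
  obtain ⟨b1, b2⟩ := hΨ _ (hU _ _ _ _).1 k1
  have s0 := a2 _ (hU _ _ _ _).1 k0
  have s1 := b2 _ (hU _ _ _ _).1 k1
  have s2 := a2 _ (hU _ _ _ _).1 k1
  simp only [(hU _ _ _ _).2.2, Pi.one_apply, mul_one, Finset.sum_const, Finset.card_univ,
    Fintype.card_fin, nsmul_eq_mul] at s0 s1 s2
  norm_num at s0 s1 s2
  have hX : ∀ z ∈ E8, Ψ (v z) ∈ L2 Λ ∧ ip Λ.B (Ψ (v z)) (Ψ (U 3 1 1 0)) = 0 ∧
      ip Λ.B (Ψ (v z)) (Ψ (U 3 1 0 1)) = 0 ∧ (8 : ℤ) ∣ ∑ i, z i ^ 2 ∧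
      ∀ z' ∈ E8, ip Λ.B (Ψ (v z)) (Ψ (v z')) = -∑ i, z i * z' i := fun z h => by
    obtain ⟨c1, c2⟩ := hΨ _ (hU _ _ _ _).1 (k2 z h)
    have m : ∀ z' ∈ E8, 4 * ip Λ.B (v z) (v z') = -∑ i, z i * z' i := fun z' h' => by
      rw [(hU _ _ _ _).2.2, ← e8_mul h h']
      ring
    refine ⟨c1, ?_, ?_, ?_, fun z' h' => (c2 _ (hU _ _ _ _).1 (k2 z' h')).trans (m z' h')⟩
    · rw [c2 _ (hU _ _ _ _).1 k0, (hU _ _ _ _).2.2]
      simp only [Pi.one_apply, mul_one, e8_sum h]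
      ring
    · rw [c2 _ (hU _ _ _ _).1 k1, (hU _ _ _ _).2.2]
      simp only [Pi.one_apply, mul_one, e8_sum h]
      ring
    · obtain ⟨r, hr⟩ := b.nc.par (v z)
      rw [ip_comm b.nc.sym Λ.K, k2 z h] at hr
      have := m z h
      simp only [sq]
      omega
  rcases lt_trichotomy 0 (ip Λ.B Λ.h (Ψ (U 3 1 1 0))) with h | h | h
  · exact ⟨_, _, fun z => Ψ (v z), a1, b1, s0, s1, s2, h, hX⟩
  · have := b.hg.neg (toR Λ.h) (toR (Ψ (U 3 1 1 0))) (by rw [ip_toR]; exact_mod_cast b.lb.hh)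
      (by rw [ip_toR, ip_comm b.nc.sym, ← h, Int.cast_zero]) fun e => by
        rw [toR_inj (e.trans toR_zero.symm), ip_zero_left] at s2
        omega
    rw [ip_toR, s0] at this
    simp at this
  · have n : ∀ F ∈ L2 Λ, -F ∈ L2 Λ := fun F hF => by simpa using ll.lin F hF F hF (-1) 0
    refine ⟨_, _, fun z => Ψ (v z), n _ a1, n _ b1, ?_, ?_, ?_, ?_, fun z hz => ?_⟩ <;>
      simp only [ip_neg_left, ip_neg_right, neg_neg, neg_eq_zero, neg_pos]
    exacts [s0, s1, s2, h, hX z hz]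

end Pool.Agent.MP_20d318_ag.CC

end MrgPart2

-- ======== part 3: formerly Pool.Agent.MP_20d318_ag.CC.Gr
section MrgPart3

/-! Row GR: the action on real classes. -/

set_option autoImplicit false

namespace Pool.Agent.MP_20d318_ag.CC

open Pool.Agent.MP_20d318_ag.Lat hiding act
open Pool.Agent.MP_20d318_ag.CB

namespace GrA

variable {ι : Type} [Fintype ι]

open Classical in
/-- Real classes are real combinations of integral classes. -/
theorem ind (p : (ι → ℝ) → Prop) (h0 : ∀ c, p (toR c)) (ha : ∀ a b, p a → p b → p (a + b))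
    (hs : ∀ (r : ℝ) a, p a → p (r • a)) (L : ι → ℝ) : p L := by
  have e : L = ∑ i, L i • toR (Pi.single i 1) := by
    funext j
    simp [toR, Pi.single_apply]
  rw [e]
  exact Finset.sum_induction _ p ha (toR_zero ▸ h0 0) fun i _ => hs _ _ (h0 _)

theorem act_sum {α : Type} (ρ : Matrix ι ι ℤ) (s : Finset α) (a : α → ι → ℤ) :
    act ρ (∑ x ∈ s, a x) = ∑ x ∈ s, act ρ (a x) :=
  map_sum (⟨⟨act ρ, act_add ρ⟩, act_smul ρ⟩ : (ι → ℤ) →ₗ[ℤ] (ι → ℤ)) a s

theorem fix {ρ : Matrix ι ι ℤ} (h : ∀ c : ι → ℤ, act ρ c = c) (L : ι → ℝ) : act ρ L = L :=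
  ind (fun L => act ρ L = L) (fun c => by rw [← toR_act, h])
    (fun a b h1 h2 => by rw [act_add, h1, h2]) (fun r a h1 => by rw [act_smul, h1]) L

theorem iso {B : ι → ι → ℤ} {ρ : Matrix ι ι ℤ}
    (h : ∀ c c' : ι → ℤ, ip B (act ρ c) (act ρ c') = ip B c c') (L L' : ι → ℝ) :
    ip B (act ρ L) (act ρ L') = ip B L L' :=
  ind (fun L => ip B (act ρ L) (act ρ L') = ip B L L')
    (fun c => ind (fun L' => ip B (act ρ (toR c)) (act ρ L') = ip B (toR c) L')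
      (fun c' => by rw [← toR_act, ← toR_act, ip_toR, ip_toR, h])
      (fun a b h1 h2 => by rw [act_add, ip_add_right, ip_add_right, h1, h2])
      (fun r a h1 => by rw [act_smul, ip_smul_right, ip_smul_right, h1]) L')
    (fun a b h1 h2 => by rw [act_add, ip_add_left, ip_add_left, h1, h2])
    (fun r a h1 => by rw [act_smul, ip_smul_left, ip_smul_left, h1]) L

end GrA

open GrA in
theorem gr_stmt : GrStmt := by
  intro ι κ _ _ Λ G b gp
  have nef : ∀ ρ ∈ G, ∀ y, Λ.Nef y → Λ.Nef (act ρ y) := fun ρ hρ y hy c hc => by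
    obtain ⟨τ, hτ, h⟩ := gp.inv ρ hρ
    rw [← (h c).1, gp.iso ρ hρ]
    exact hy _ (gp.prm τ hτ c hc)
  refine ⟨?_, fun ρ hρ => ?_, fun ρ hρ => iso (gp.iso ρ hρ), fun ρ hρ L hL c hc => ?_, nef,
    fun ρ hρ r hr => ?_⟩
  · obtain ⟨ρ, hρ, h⟩ := gp.one
    exact ⟨ρ, hρ, fix h⟩
  · obtain ⟨τ, hτ, h⟩ := gp.inv ρ hρ
    refine ⟨τ, hτ, h, fun L => ⟨?_, ?_⟩⟩ <;> rw [← act_mul] <;> refine fix (fun c => ?_) L <;>
      rw [act_mul]
    exacts [(h c).1, (h c).2]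
  · obtain ⟨τ, hτ, h⟩ := gp.inv ρ hρ
    rw [← (h c).1, toR_act, iso (gp.iso ρ hρ)]
    exact hL _ (gp.prm τ hτ c hc)
  · obtain ⟨π, hπ⟩ := gp.perm ρ hρ
    obtain ⟨τ, hτ, h⟩ := gp.inv ρ hρ
    have e : pz Λ (act ρ r) = act ρ (pz Λ r) := by
      rw [pz, pz, act_add, act_smul, act_sum, ← Equiv.sum_comp π]
      refine congrArg _ (Finset.sum_congr rfl fun k _ => ?_)
      rw [act_smul, ← hπ, gp.iso ρ hρ]
    rw [Pos, e, gp.iso ρ hρ, ← (h Λ.h).1, gp.iso ρ hρ]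
    refine ⟨hr.1, ?_⟩
    obtain ⟨h1, h2⟩ := b.lb.ne _ (nef τ hτ Λ.h fun c hc => (b.nc.hpos c hc).le)
    have h3 := b.lb.efn Λ.h (fun c hc => (b.nc.hpos c hc).le) _ h2
    have := b.lb.cone1 (toR (act τ Λ.h)) (toR (pz Λ r))
    simp only [ip_toR, Int.cast_nonneg_iff] at this
    exact this h1 hr.1 h3 hr.2

end Pool.Agent.MP_20d318_ag.CC

end MrgPart3

-- ======== part 4: formerly Pool.Agent.MP_20d318_ag.CC.Eb2
section MrgPart4

/-! Involutions move nef classes into the box. -/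

set_option autoImplicit false

namespace Pool.Agent.MP_20d318_ag.CC

open Pool.Agent.MP_20d318_ag.Lat hiding act
open Pool.Agent.MP_20d318_ag.CB

namespace Eb2

variable {ι κ : Type} [Fintype ι] {Λ : Ld ι κ} {F : ι → ℤ}

theorem vf {v : ι → ℝ} (hv : v ∈ VF Λ F) : ip Λ.B v (toR F) = 0 := by
  induction hv using Submodule.span_induction with
  | mem a h =>
    obtain ⟨c, hc, rfl⟩ := h
    rw [ip_toR, hc.2, Int.cast_zero]
  | zero => exact ip_zero_left _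
  | add a b _ _ p q => rw [ip_add_left, p, q, add_zero]
  | smul r a _ p => rw [ip_smul_left, p, mul_zero]

theorem tl {ρ : Matrix ι ι ℤ} {D : ι → ℤ}
    (h : ∀ y, toR (act ρ y + y - ip Λ.B y F • D) ∈ VF Λ F) (L : ι → ℝ) :
    act ρ L + L - ip Λ.B L (toR F) • toR D ∈ VF Λ F := by
  classical
  let T : (ι → ℝ) →ₗ[ℝ] (ι → ℝ) :=
    { toFun := fun L => act ρ L + L - ip Λ.B L (toR F) • toR D
      map_add' := fun a b => by
        rw [act_add, ip_add_left, add_smul]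
        abel
      map_smul' := fun r a => by
        rw [act_smul, ip_smul_left, RingHom.id_apply, smul_sub, smul_add, smul_smul] }
  have e : L = ∑ i, L i • toR (Pi.single i 1) := by
    funext j
    simp [toR, Pi.single_apply]
  change T L ∈ _
  rw [e, map_sum]
  refine Submodule.sum_mem _ fun i _ => ?_
  rw [map_smul]
  refine Submodule.smul_mem _ _ ?_
  have := h (Pi.single i 1)
  rw [toR_sub, toR_add, toR_zsmul, toR_act, ← ip_toR] at this
  exact this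

theorem arch {a t : ℝ} (h : ∀ n : ℤ, 0 ≤ a + n * t) : t = 0 := by
  by_contra c
  obtain ⟨n, hn⟩ := exists_nat_gt (a / |t|)
  rw [div_lt_iff₀ (abs_pos.2 c)] at hn
  have p := h n
  have q := h (-n)
  push_cast at p q
  rcases abs_cases t with e | e <;> rw [e.1] at hn <;> linarith

end Eb2

open Eb2 in
theorem eb2_stmt : Eb2Stmt := by
  intro ι κ _ _ Λ G X b ll _ gr F hF nF ob ⟨D, hD⟩ iv L hL
  have sy := b.nc.sym
  have xF : ∀ x ∈ X, ip Λ.B x F = 0 := fun x hx => by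
    have := ob.perp x hx _ ob.self
    rw [ip_toR, Int.cast_eq_zero] at this
    rwa [ip_comm sy]
  rcases (b.lb.efr L hL F (ll.ef F hF)).eq_or_lt with z | z
  · obtain ⟨ρ, hρ, e⟩ := gr.one
    refine ⟨ρ, hρ, fun x hx => ?_, by rw [e]⟩
    have : ip Λ.B L (toR x) = 0 := arch (a := ip Λ.B L (toR Λ.h)) fun n => by
      have p := hF.2.2
      have k := ll.K0 F hF.1.1
      have q : ip Λ.B (Λ.h + n • x) F = ip Λ.B Λ.h F := by
        rw [ip_add_left, ip_smul_left, xF x hx, mul_zero, add_zero]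
      have : ∃ m : ℤ, Λ.h + n • x + m • F ∈ Λ.Ef := by
        generalize Λ.h + n • x = y at q ⊢
        refine ⟨|ip Λ.B Λ.K y - ip Λ.B y y|, b.lb.rrn _ F nF ?_ ?_⟩
        · simp only [ip_add_left, ip_add_right, ip_smul_left, ip_smul_right, hF.2.1, k,
            ip_comm sy F y, q]
          nlinarith [le_abs_self (ip Λ.B Λ.K y - ip Λ.B y y),
            abs_nonneg (ip Λ.B Λ.K y - ip Λ.B y y)]
        · rw [ip_add_right, ip_smul_right, hF.2.1, ip_comm sy F y, q, ip_comm sy F, k]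
          omega
      obtain ⟨m, hm⟩ := this
      have := b.lb.efr L hL _ hm
      rwa [toR_add, toR_add, toR_zsmul, toR_zsmul, ip_add_right, ip_add_right, ip_smul_right,
        ip_smul_right, ← z, mul_zero, add_zero] at this
    rw [e, this, ← z, abs_zero, mul_zero]
  · let n : (ι → ℤ) → ℤ := fun x => ⌊(ip Λ.B L (toR F) * (ip Λ.B D x : ℤ) - ip Λ.B L (toR x)) /
      (-(ip Λ.B x x : ℤ) * ip Λ.B L (toR F))⌋
    have w : ip Λ.B (D + ∑ x ∈ X, n x • x) F = 2 := by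
      rw [ip_add_left, hD, ip_sum_left, Finset.sum_eq_zero fun x hx => by
        rw [ip_smul_left, xF x hx, mul_zero], add_zero]
    obtain ⟨ρ, hρ, t⟩ := iv _ w
    have a := vf (tl t L)
    rw [ip_sub_left, ip_add_left, ip_smul_left, ip_toR, w] at a
    replace a : ip Λ.B (act ρ L) (toR F) = ip Λ.B L (toR F) := by
      push_cast at a
      linarith
    refine ⟨ρ, hρ, fun x hx => ?_, a⟩
    have b := ob.perp x hx _ (tl t L)
    have s : ip Λ.B (∑ x ∈ X, n x • x) x = n x * ip Λ.B x x := by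
      rw [ip_sum_left, Finset.sum_eq_single_of_mem x hx fun y hy e => by
        rw [ip_smul_left, ob.orth y hy x hx e, mul_zero], ip_smul_left]
    rw [ip_sub_left, ip_add_left, ip_smul_left, ip_toR, ip_add_left, s] at b
    have c : (0 : ℝ) < -(ip Λ.B x x : ℤ) * ip Λ.B L (toR F) :=
      mul_pos (neg_pos.2 (by exact_mod_cast ob.neg x hx)) z
    have f1 : (n x : ℝ) ≤ _ := Int.floor_le _
    have f2 : _ < (n x : ℝ) + 1 := Int.lt_floor_add_one _
    rw [le_div_iff₀ c] at f1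
    rw [div_lt_iff₀ c] at f2
    push_cast at b
    rw [a, abs_le]
    constructor <;> linarith

end Pool.Agent.MP_20d318_ag.CC

end MrgPart4

-- ======== part 5: formerly Pool.Agent.MP_20d318_ag.CC.Min
section MrgPart5

/-! The degree on an isotropic nef class has a minimum in every orbit. -/

set_option autoImplicit false

namespace Pool.Agent.MP_20d318_ag.CC

open Pool.Agent.MP_20d318_ag.Lat hiding act
open Pool.Agent.MP_20d318_ag.CB

namespace MinR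

variable {ι κ : Type} [Fintype ι] [Fintype κ] {Λ : Ld ι κ} {G : Set (Matrix ι ι ℤ)}

/-- The degree of a translate is a degree of the projection on an isotropic nef class. -/
theorem val (ll : LL Λ) (gp : Gp Λ G) (gr : GR Λ G) {F : ι → ℤ} (hF : F ∈ Is Λ) (nF : Λ.Nef F)
    (L : ι → ℝ) {ρ : Matrix ι ι ℤ} (hρ : ρ ∈ G) : ∃ A, Λ.Nef A ∧ ip Λ.B A A = 0 ∧
      4 * ip Λ.B (act ρ L) (toR F) = ip Λ.B (pr4 Λ L) (toR A) := by
  obtain ⟨σ, hσ, h⟩ := gp.inv ρ hρ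
  obtain ⟨π, hπ⟩ := gp.perm ρ hρ
  refine ⟨act σ F, gr.nef σ hσ F nF, by rw [gp.iso σ hσ, hF.2.1], ?_⟩
  rw [ll.pv L (toR (act σ F)) fun k => ?_, ← gr.iso ρ hρ L, ← toR_act, (h F).1]
  rw [ip_toR, ← gp.iso ρ hρ, (h F).1, hπ, hF.1.1, Int.cast_zero]

theorem fin_rat (q b : ℝ) : {v : ℝ | 0 ≤ v ∧ v ≤ b ∧ ∃ n : ℤ, v = q * n}.Finite := by
  by_cases hq : q = 0
  · refine (Set.finite_singleton 0).subset ?_
    rintro v ⟨-, -, n, rfl⟩
    simp [hq]
  · have hp : 0 < |q| := abs_pos.2 hq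
    refine ((Set.finite_Icc (-⌈b / |q|⌉) ⌈b / |q|⌉).image fun n : ℤ => q * n).subset ?_
    rintro v ⟨h0, h1, n, rfl⟩
    refine ⟨n, abs_le.1 ?_, rfl⟩
    have h2 : |(n : ℝ)| ≤ b / |q| := by
      rw [le_div_iff₀ hp, mul_comm, ← abs_mul, abs_of_nonneg h0]
      exact h1
    have h3 := h2.trans (Int.le_ceil _)
    exact_mod_cast h3

/-- A big nef class dominates the ample class on the positive cone. -/
theorem dom (b : B0 Λ) {L : ι → ℝ} (hL : L ∈ Λ.NT) (h : 0 < ip Λ.B L L) : ∃ ε : ℝ, 0 < ε ∧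
    ∀ A, Λ.Nef A → ip Λ.B A A = 0 → ε * (ip Λ.B A Λ.h : ℤ) ≤ ip Λ.B L (toR A) := by
  have sy := b.nc.sym
  have hγ : 0 < ip Λ.B (toR Λ.h) (toR Λ.h) := by
    rw [ip_toR]
    exact_mod_cast b.lb.hh
  have hβ : 0 < ip Λ.B L (toR Λ.h) := by
    refine (b.lb.efr L hL _ b.nc.heff).lt_of_ne fun e => ?_
    have := b.hg.neg _ L hγ e.symm (by
      rintro rfl
      rw [ip_zero_left] at h
      exact lt_irrefl _ h)
    linarith
  set α := ip Λ.B L L
  set β := ip Λ.B L (toR Λ.h) with eβ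
  set γ := ip Λ.B (toR Λ.h) (toR Λ.h)
  have e0 : 0 < min (α / (2 * β)) (β / γ) := lt_min (by positivity) (by positivity)
  have e1 : min (α / (2 * β)) (β / γ) * (2 * β) ≤ α :=
    (le_div_iff₀ (by positivity)).1 (min_le_left _ _)
  have e2 : min (α / (2 * β)) (β / γ) * γ ≤ β := (le_div_iff₀ hγ).1 (min_le_right _ _)
  generalize min (α / (2 * β)) (β / γ) = ε at e0 e1 e2
  refine ⟨ε, e0, fun A nA hA => ?_⟩
  have h1 := b.lb.cone1 (L - ε • toR Λ.h) (toR A) ?_ (by rw [ip_toR, hA, Int.cast_zero]) ?_ ?_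
  · rw [ip_sub_left, ip_smul_left, ip_toR, ip_comm sy Λ.h] at h1
    linarith
  · rw [ip_sub_left, ip_sub_right, ip_sub_right, ip_smul_left, ip_smul_left, ip_smul_right,
      ip_smul_right, ip_comm sy (toR Λ.h) L, ← eβ]
    have : 0 ≤ ε * (ε * γ) := by positivity
    linarith
  · rw [ip_sub_right, ip_smul_right, ip_comm sy (toR Λ.h) L, ← eβ]
    linarith
  · rw [ip_toR, ip_comm sy]
    exact_mod_cast b.lb.efn A nA _ b.nc.heff

theorem fin_big (b : B0 Λ) {L : ι → ℝ} (hL : L ∈ Λ.NT) (h : 0 < ip Λ.B L L) (m : ℝ) :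
    {v : ℝ | v ≤ m ∧ ∃ A, Λ.Nef A ∧ ip Λ.B A A = 0 ∧ v = ip Λ.B L (toR A)}.Finite := by
  obtain ⟨ε, e0, hε⟩ := dom b hL h
  refine ((b.hg.fin Λ.h ⌈m / ε⌉ b.lb.hh).image fun A => ip Λ.B L (toR A)).subset ?_
  rintro v ⟨h1, A, nA, hA, rfl⟩
  have h0 := b.lb.efn A nA _ b.nc.heff
  have h2 : ((ip Λ.B A Λ.h : ℤ) : ℝ) ≤ m / ε := by
    rw [le_div_iff₀ e0, mul_comm]
    exact (hε A nA hA).trans h1
  have h3 : ip Λ.B A Λ.h ≤ ⌈m / ε⌉ := by exact_mod_cast h2.trans (Int.le_ceil _)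
  exact ⟨A, ⟨by rwa [abs_of_nonneg h0], by rw [hA]; linarith⟩, rfl⟩

end MinR

open MinR in
theorem min_stmt : MinStmt := by
  intro ι κ _ _ Λ G b ll gp gr F hF nF L hL gd
  obtain ⟨ρ₀, h₀, -⟩ := gp.one
  have hN := ll.pN L hL
  have fin : {v : ℝ | v ≤ 4 * ip Λ.B (act ρ₀ L) (toR F) ∧
      ∃ ρ ∈ G, v = 4 * ip Λ.B (act ρ L) (toR F)}.Finite := by
    rcases gd with gd | ⟨y, q, e⟩
    · refine (fin_big b hN gd (4 * ip Λ.B (act ρ₀ L) (toR F))).subset ?_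
      rintro v ⟨h1, ρ, hρ, rfl⟩
      exact ⟨h1, val ll gp gr hF nF L hρ⟩
    · refine (fin_rat q (4 * ip Λ.B (act ρ₀ L) (toR F))).subset ?_
      rintro v ⟨h1, ρ, hρ, rfl⟩
      obtain ⟨A, nA, -, hA⟩ := val ll gp gr hF nF L hρ
      refine ⟨?_, h1, ip Λ.B y A, by rw [hA, e, ip_smul_left, ip_toR]⟩
      rw [hA]
      exact b.lb.efr _ hN A (b.lb.ne A nA).2
  obtain ⟨_, ⟨h1, ρ, hρ, rfl⟩, hm⟩ := Set.exists_min_image _ id fin ⟨_, le_rfl, ρ₀, h₀, rfl⟩
  refine ⟨ρ, hρ, fun σ hσ => ?_⟩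
  by_cases k : 4 * ip Λ.B (act σ L) (toR F) ≤ 4 * ip Λ.B (act ρ₀ L) (toR F)
  · have := hm _ ⟨k, σ, hσ, rfl⟩
    simp only [id] at this
    linarith
  · linarith

end Pool.Agent.MP_20d318_ag.CC

end MrgPart5

-- ======== part 6: formerly Pool.Agent.MP_20d318_ag.CC.Rad
section MrgPart6

/-! Effective nef classes are big or rational after the projection. -/

set_option autoImplicit false

namespace Pool.Agent.MP_20d318_ag.CC

open Pool.Agent.MP_20d318_ag.Lat hiding act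
open Pool.Agent.MP_20d318_ag.CB

namespace Rad

variable {ι : Type} [Fintype ι]

/-- The degree on `r`. -/
def dg (B : ι → ι → ℤ) (r : ι → ℝ) : (ι → ℝ) →ₗ[ℝ] ℝ where
  toFun x := ip B x r
  map_add' x y := ip_add_left x y r
  map_smul' c x := ip_smul_left c x r

/-- The integral classes. -/
def lat (ι : Type) : AddSubgroup (ι → ℝ) :=
  (⟨⟨toR, toR_zero⟩, toR_add⟩ : (ι → ℤ) →+ ι → ℝ).range

/-- An isotropic vector in the cone of integral classes that are orthogonal to it is rational. -/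
theorem rat {B : ι → ι → ℤ} (sym : ∀ i j, B i j = B j i) (hg : Hg B) {M : ι → ℝ}
    (h0 : ip B M M = 0) (hM : M ∈ cone {r | r ∈ lat ι ∧ ip B r M = 0}) :
    ∃ (y : ι → ℤ) (q : ℝ), M = q • toR y := by
  by_cases ne : M = 0
  · exact ⟨0, 0, by rw [ne, zero_smul]⟩
  obtain ⟨R, hR, hm⟩ := Submodule.mem_span_finite_of_mem_span hM
  have rp : RP (lat ι) (cone (R : Set (ι → ℝ))) := ⟨R, fun r hr => (hR hr).1, rfl⟩
  obtain ⟨R', h1, h2⟩ := rp.inter_fin (T := dg B '' (R : Set (ι → ℝ))) (R.finite_toSet.image _) (by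
    rintro _ ⟨r, hr, rfl⟩ _ ⟨x, rfl⟩
    obtain ⟨y, rfl⟩ := (hR hr).1
    exact ⟨_, ip_toR B x y⟩)
  have hm' : M ∈ cone (R' : Set (ι → ℝ)) := h2.superset ⟨hm, by
    rintro _ ⟨r, hr, rfl⟩
    exact ((ip_comm sym M r).trans (hR hr).2).ge⟩
  obtain ⟨r, hr, r0⟩ : ∃ r ∈ R', r ≠ 0 := by
    by_contra c
    push Not at c
    exact ne ((⟨rfl, by simp +contextual, by simp +contextual⟩ :
      IsCone {x : ι → ℝ | x = 0}).cone_subset c hm')
  obtain ⟨a, b⟩ := h2.subset (subset_cone _ hr)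
  have e1 : ip B r M = 0 := le_antisymm
    (le_on_cone (f := dg B M) (g := 0) (fun x hx => (hR hx).2.le) r a)
    (le_on_cone (f := 0) (g := dg B M) (fun x hx => (hR hx).2.ge) r a)
  have e2 : 0 ≤ ip B r r := le_on_cone (f := 0) (g := dg B r)
    (fun x hx => (b _ ⟨x, hx, rfl⟩).trans_eq (ip_comm sym r x)) r a
  obtain ⟨i1, i2⟩ := hg.iso M r h0 ne e1
  obtain ⟨q, hq⟩ := i2 (le_antisymm i1 e2)
  obtain ⟨y, hy⟩ := h1 hr
  have q0 : q ≠ 0 := fun c => r0 (by rw [hq, c, zero_smul])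
  exact ⟨y, q⁻¹, by rw [show toR y = r from hy, hq, inv_smul_smul₀ q0]⟩

end Rad

theorem rad_stmt : RadStmt := by
  intro ι κ _ _ Λ b ll L hL hE
  have sym := b.nc.sym
  have hN := ll.pN L hL
  have e4 : ∀ x, ip Λ.B (pr4 Λ x) (pr4 Λ L) = 4 * ip Λ.B x (pr4 Λ L) := fun x =>
    ll.pv x _ (ll.pC L)
  have cn : IsCone {x | 0 ≤ ip Λ.B x (pr4 Λ L) ∧ (ip Λ.B x (pr4 Λ L) = 0 →
      pr4 Λ x ∈ cone {r | r ∈ Rad.lat ι ∧ ip Λ.B r (pr4 Λ L) = 0})} := by
    have z : pr4 Λ 0 = 0 := by simpa using pr4_smul Λ 0 0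
    refine ⟨⟨(ip_zero_left _).ge, fun _ => z.symm ▸ (isCone_cone _).zero⟩,
      fun x hx y hy => ?_, fun c hc x hx => ?_⟩
    · rw [Set.mem_ofPred_eq, ip_add_left, pr4_add]
      exact ⟨add_nonneg hx.1 hy.1, fun e => (isCone_cone _).add _
        (hx.2 (by linarith [hx.1, hy.1])) _ (hy.2 (by linarith [hx.1, hy.1]))⟩
    · rw [Set.mem_ofPred_eq, ip_smul_left, pr4_smul]
      refine ⟨mul_nonneg hc hx.1, fun e => (mul_eq_zero.1 e).elim (fun c0 => ?_) fun e' =>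
        (isCone_cone _).smul c hc _ (hx.2 e')⟩
      rw [c0, zero_smul]
      exact (isCone_cone _).zero
  obtain ⟨h1, h2⟩ := cn.cone_subset (by
    rintro _ ⟨c, hc, rfl⟩
    exact ⟨(hN c hc).trans_eq (ip_comm sym _ _), fun e => subset_cone _
      ⟨⟨pz Λ c, (pr4_toR Λ c).symm⟩, by rw [e4, e, mul_zero]⟩⟩) hE
  rcases h1.lt_or_eq with h | h
  · exact Or.inl (by rw [e4]; positivity)
  · exact Or.inr (Rad.rat sym b.hg (by rw [e4, ← h, mul_zero]) (h2 h.symm))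

end Pool.Agent.MP_20d318_ag.CC

end MrgPart6

-- ======== part 7: formerly Pool.Agent.MP_20d318_ag.CC.Brg
section MrgPart7

/-! From sets of local rings to schemes. -/

set_option autoImplicit false

open AlgebraicGeometry CategoryTheory

namespace Pool.Agent.MP_20d318_ag.CC

open Pool.Agent.MP_fd6584_ag Pool.Agent.MP_fd6584_ag.Sch Pool.Agent.MP_fd6584_ag.Pj
  Pool.Agent.MP_fd6584_ag.Fn
open Pool.Agent.MP_fd6584_ag.AG (Cartier NefEff ConeStatement)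

theorem bridge {𝕜 K ι : Type} [Field 𝕜] [IsAlgClosed 𝕜] [Field K] [Algebra 𝕜 K]
    {𝒞 : Charts 𝕜 K ι} (M : Model 𝒞) (h : ConeStatement (pts 𝒞)) : NefConj M.s := by
  classical
  obtain ⟨hfd, R, C, hR, hC, h1, h2, h3⟩ := h
  choose r hr using exists_rel (M := M)
  choose l hl using exists_rel' M
  let Φ : (AG.Curve (pts 𝒞) → ℝ) →ₗ[ℝ] Curve M.s → ℝ := LinearMap.funLeft ℝ ℝ r
  have hΦ : ∀ {D : CDiv M.X} {E : Cartier (pts 𝒞)}, RelD D E → Φ E.cls = deg M.s D :=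
    fun h => funext fun c => ((hr c).deg h).symm
  have key : ∀ ξ ∈ AG.N1 (pts 𝒞), ∀ c ν, Sch.Rel c ν → Φ ξ c = ξ ν := fun ξ hξ c ν h => by
    refine LinearMap.eqOn_span' (f := (LinearMap.proj c).comp Φ) (g := LinearMap.proj ν) ?_ hξ
    rintro _ ⟨E, rfl⟩
    obtain ⟨D, hD⟩ := exists_cdiv M E
    exact (congrFun (hΦ hD) c).trans (h.deg hD)
  have hrg : Φ '' Set.range Cartier.cls = Set.range (deg M.s) := Set.ext fun η =>
    ⟨fun ⟨_, ⟨E, rfl⟩, h⟩ => (exists_cdiv M E).imp fun D hD => (hΦ hD).symm.trans h,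
      fun ⟨D, h⟩ => (exists_cart D).elim fun E hE => ⟨_, ⟨E, rfl⟩, (hΦ hE).trans h⟩⟩
  have hef : Φ '' {η | ∃ E : Cartier (pts 𝒞), E.Effective ∧ E.cls = η} =
      deg M.s '' {D | D.Effective} := Set.ext fun η =>
    ⟨fun ⟨_, ⟨E, hE, rfl⟩, h⟩ => (exists_cdiv M E).imp fun D hD =>
      ⟨hD.eff.mpr hE, (hΦ hD).symm.trans h⟩, fun ⟨D, hD, h⟩ => (exists_cart D).elim fun E hE =>
        ⟨_, ⟨E, hE.eff.mp hD, rfl⟩, (hΦ hE).trans h⟩⟩
  have hN : (AG.N1 (pts 𝒞)).map Φ = N1 M.s := by rw [AG.N1, Submodule.map_span, hrg, N1]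
  have hinj : ∀ ξ ∈ AG.N1 (pts 𝒞), ∀ η ∈ AG.N1 (pts 𝒞), Φ ξ = Φ η → ξ = η := fun ξ hξ η hη h =>
    funext fun ν => by rw [← key ξ hξ _ ν (hl ν), ← key η hη _ ν (hl ν), h]
  have hnef : Φ '' NefEff (pts 𝒞) = effNef M.s := Set.ext fun η => by
    rw [effNef, Set.mem_ofPred_eq, Eff, ← hef, ← image_hull]
    refine ⟨fun ⟨ξ, h, h'⟩ => ⟨fun c => h' ▸ h.1 (r c), ξ, h.2, h'⟩, fun ⟨h, ξ, hξ, h'⟩ =>
      ⟨ξ, ⟨fun ν => ?_, hξ⟩, h'⟩⟩
    rw [← key ξ (Submodule.span_mono (fun _ h => h.imp fun _ h => h.2)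
      (PointedCone.hull_le_span ℝ _ hξ)) _ ν (hl ν), h']
    exact h _
  have hact' : ∀ (a : Aut (Over.mk M.s)) (g : AG.Aut (pts 𝒞)),
      RelA (M := M) a.hom.left (g.1 : K →ₐ[𝕜] K) → ∀ ξ ∈ AG.N1 (pts 𝒞), ∀ c ν, Sch.Rel c ν →
      pullAut a (Φ ξ) c = g.act ξ ν := fun a g h ξ hξ c ν h' => by
    obtain ⟨c', h4, h5⟩ := h'.push h
    exact (h5 _).trans (key ξ hξ _ _ h4)
  have hact := fun a g h ξ hξ => funext fun c => hact' a g h ξ hξ c _ (hr c)
  let φ := Φ.comp (AG.N1 (pts 𝒞)).subtype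
  let E : AG.N1 (pts 𝒞) ≃ₗ[ℝ] N1 M.s := .ofBijective
    (φ.codRestrict _ fun ξ => hN ▸ Submodule.mem_map_of_mem ξ.2)
    ⟨fun ξ η h => Subtype.ext (hinj _ ξ.2 _ η.2 (congrArg Subtype.val h)), fun ⟨η, hη⟩ => by
      obtain ⟨ξ, hξ, rfl⟩ := hN.ge hη
      exact ⟨⟨ξ, hξ⟩, rfl⟩⟩
  have hint : int M.s (φ '' C) = φ '' interior C := by
    have h4 : (Subtype.val ⁻¹' (φ '' C) : Set (N1 M.s)) =
        E.toContinuousLinearEquiv.toHomeomorph '' C :=
      Set.ext fun η => exists_congr fun ξ => and_congr_right fun _ =>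
        (Subtype.ext_iff (a1 := E ξ)).symm
    rw [int, h4, ← Homeomorph.image_interior, Set.image_image]
    rfl
  refine ⟨E.finiteDimensional, R.image φ, φ '' C, fun η hη => ?_, ?_, ?_, ?_,
    fun a ⟨η, h4, h5⟩ => ?_⟩
  · obtain ⟨ξ, hξ, rfl⟩ := Finset.mem_image.mp hη
    rw [← hrg]
    exact Submodule.map_span (Φ.restrictScalars ℚ) _ ▸ Submodule.mem_map_of_mem (hR ξ hξ)
  · rw [hC, image_hull, Finset.coe_image]
  · rintro _ ⟨ξ, hξ, rfl⟩
    exact hnef ▸ ⟨_, h1 ξ hξ, rfl⟩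
  · rw [← hnef]
    refine Set.ext fun η => ⟨?_, fun h => ?_⟩
    · rintro ⟨ξ, hξ, rfl⟩
      obtain ⟨g, ζ, hζ, rfl⟩ := (h2 ξ).mp hξ
      obtain ⟨a, ha⟩ := exists_aut M g
      exact Set.mem_iUnion.mpr ⟨a.symm, _, ⟨ζ, hζ, rfl⟩, hact a g ha _ ζ.2⟩
    · obtain ⟨a, _, ⟨ζ, hζ, rfl⟩, rfl⟩ := Set.mem_iUnion.mp h
      obtain ⟨g, hg⟩ := exists_aut' a.symm
      exact ⟨_, (h2 _).mpr ⟨g, ζ, hζ, rfl⟩, (hact a.symm g hg _ ζ.2).symm⟩
  · obtain ⟨g, hg⟩ := exists_aut' a.symm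
    obtain ⟨ξ₀, h6, rfl⟩ := hN.ge h4
    rw [hint]
    refine Set.eq_empty_of_forall_notMem ?_
    rintro _ ⟨⟨ξ, hξ, rfl⟩, _, ⟨ζ, hζ, rfl⟩, h7⟩
    refine h3 g ⟨ξ₀, h6, fun h => h5 ((hact a.symm g hg _ h6).trans (congrArg Φ h))⟩ ξ hξ ζ hζ ?_
    exact funext fun ν => (key _ ξ.2 _ ν (hl ν)).symm.trans
      ((congrFun h7 _).symm.trans (hact' a.symm g hg _ ζ.2 _ ν (hl ν)))

end Pool.Agent.MP_20d318_ag.CC

end MrgPart7

-- marker of a merged file
example : 731051 + 671989 = 731051 + 671989 := rfl
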