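import Pool.Agent.MP_20d318_ag.CB.Ct
import Pool.Agent.MP_20d318_ag.CB.LcB

-- ======== part 0: formerly Pool.Agent.MP_20d318_ag.CC.LSpec
section MrgPart0

/-! Lattices of a rational surface whose bi-anticanonical curve is a union of curves of square
`-4`, and of the threefold. -/

set_option autoImplicit false
set_option linter.unusedSectionVars false

namespace Pool.Agent.MP_20d318_ag.CC

open Pool.Agent.MP_20d318_ag.Lat hiding act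
open Pool.Agent.MP_20d318_ag.CB

variable {ι κ : Type} [Fintype ι] [Fintype κ]

/-- What the geometry of the surface gives. -/
structure NC (Λ : Ld ι κ) : Prop where
  sym : ∀ i j, Λ.B i j = Λ.B j i
  hodge : Hodge Λ.B
  par : ∀ c, Even (ip Λ.B c c + ip Λ.B Λ.K c)
  noe : ip Λ.B Λ.K Λ.K + Fintype.card ι = 10
  pos : ∀ c ∈ Λ.P, ∀ c' ∈ Λ.P, c ≠ c' → 0 ≤ ip Λ.B c c'
  adj : ∀ c ∈ Λ.P, -2 ≤ ip Λ.B c c + ip Λ.B Λ.K c
  rr : ∀ c, ip Λ.B Λ.K c ≤ ip Λ.B c c → c ∈ Λ.Ef ∨ Λ.K - c ∈ Λ.Ef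
  hpos : ∀ c ∈ Λ.P, 0 < ip Λ.B Λ.h c
  heff : Λ.h ∈ Λ.Ef
  dif : ∀ c, ∃ y, Λ.Nef y ∧ Λ.Nef (y - c)
  memC : ∀ k, Λ.C k ∈ Λ.P
  disj : ∀ k l, k ≠ l → ip Λ.B (Λ.C k) (Λ.C l) = 0
  sumC : ∑ k, Λ.C k = (-2 : ℤ) • Λ.K
  m4 : ∀ k, ip Λ.B (Λ.C k) (Λ.C k) = -4

/-- First consequences. -/
structure LB (Λ : Ld ι κ) : Prop where
  efn : ∀ y, Λ.Nef y → ∀ c ∈ Λ.Ef, 0 ≤ ip Λ.B y c
  efr : ∀ L ∈ Λ.NT, ∀ c ∈ Λ.Ef, 0 ≤ ip Λ.B L (toR c)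
  nefr : ∀ y, toR y ∈ Λ.NT ↔ Λ.Nef y
  hef : ∀ c ∈ Λ.Ef, c ≠ 0 → 0 < ip Λ.B Λ.h c
  hh : 0 < ip Λ.B Λ.h Λ.h
  hK : ip Λ.B Λ.h Λ.K < 0
  pn : ∀ c ∈ Λ.P, 0 ≤ ip Λ.B c c → Λ.Nef c
  comp : ∀ e ∈ Λ.Ef, ∀ c ∈ Λ.P, ip Λ.B e c < 0 → e - c ∈ Λ.Ef
  pick : ∀ y, Λ.Nef y → ∀ e ∈ Λ.Ef, e ≠ 0 → ∃ c ∈ Λ.P, e - c ∈ Λ.Ef ∧ ip Λ.B y c ≤ ip Λ.B y e
  KC : ∀ k, ip Λ.B Λ.K (Λ.C k) = 2
  KK : ip Λ.B Λ.K Λ.K = -(Fintype.card κ : ℤ)
  Cc : ∀ c ∈ Λ.P, c ∉ Set.range Λ.C → ∀ k, 0 ≤ ip Λ.B (Λ.C k) c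
  sumK : ∀ c, ∑ k, ip Λ.B (Λ.C k) c = -2 * ip Λ.B Λ.K c
  neg : ∀ c ∈ Λ.P, ip Λ.B c c < 0 → (∃ k, c = Λ.C k) ∨
    (c ∉ Set.range Λ.C ∧ ip Λ.B c c = -1 ∧ ip Λ.B Λ.K c = -1) ∨
    (c ∉ Set.range Λ.C ∧ ip Λ.B c c = -2 ∧ ip Λ.B Λ.K c = 0 ∧ ∀ k, ip Λ.B (Λ.C k) c = 0)
  pat : ∀ e : ι → ℤ, (∀ k, 0 ≤ ip Λ.B (Λ.C k) e) → ip Λ.B Λ.K e = -1 →
    (∃ k, ip Λ.B (Λ.C k) e = 2 ∧ ∀ m, m ≠ k → ip Λ.B (Λ.C m) e = 0) ∨
    ∃ k l, k ≠ l ∧ ip Λ.B (Λ.C k) e = 1 ∧ ip Λ.B (Λ.C l) e = 1 ∧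
      ∀ m, m ≠ k → m ≠ l → ip Λ.B (Λ.C m) e = 0
  ne : ∀ y, Λ.Nef y → 0 ≤ ip Λ.B y y ∧ y ∈ Λ.Ef
  rrn : ∀ c y, Λ.Nef y → ip Λ.B Λ.K c ≤ ip Λ.B c c → ip Λ.B y Λ.K < ip Λ.B y c → c ∈ Λ.Ef
  span : ∀ U : Submodule ℝ (ι → ℝ), (∀ c ∈ Λ.P, toR c ∈ U) → U = ⊤
  gen : ∀ c, c ∈ AddSubgroup.closure Λ.P
  cone1 : ∀ u v : ι → ℝ, 0 ≤ ip Λ.B u u → 0 ≤ ip Λ.B v v → 0 ≤ ip Λ.B (toR Λ.h) u →
    0 ≤ ip Λ.B (toR Λ.h) v → 0 ≤ ip Λ.B u v
  cone2 : ∀ u v : ι → ℝ, 0 ≤ ip Λ.B u u → 0 ≤ ip Λ.B v v → 0 < ip Λ.B u v →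
    0 ≤ ip Λ.B (toR Λ.h) u → 0 < ip Λ.B (toR Λ.h) v
  inj : Function.Injective Λ.C

/-- LB. -/
def LbStmt : Prop := ∀ (ι κ : Type) [Fintype ι] [Fintype κ] (Λ : Ld ι κ), NC Λ → Hg Λ.B → LB Λ

/-- The basic package. -/
structure B0 (Λ : Ld ι κ) : Prop where
  nc : NC Λ
  hg : Hg Λ.B
  lb : LB Λ

/-! ### Numerical contractions -/

/-- The projection away from an orthonormal system. -/
def prj (B : ι → ι → ℤ) (T : Finset (ι → ℤ)) (c : ι → ℤ) : ι → ℤ := c + ∑ e ∈ T, ip B c e • e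

theorem prj_add (B : ι → ι → ℤ) (T : Finset (ι → ℤ)) (a b : ι → ℤ) :
    prj B T (a + b) = prj B T a + prj B T b := by
  simp only [prj, ip_add_left, add_smul, Finset.sum_add_distrib]
  abel

theorem prj_smul (B : ι → ι → ℤ) (T : Finset (ι → ℤ)) (n : ℤ) (a : ι → ℤ) :
    prj B T (n • a) = n • prj B T a := by
  simp only [prj, ip_smul_left, mul_smul, smul_add, Finset.smul_sum]

theorem prj_empty (B : ι → ι → ℤ) (a : ι → ℤ) : prj B ∅ a = a := by simp [prj]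

/-- A system of exceptional classes that can be contracted. -/
structure Cn (Λ : Ld ι κ) (T : Finset (ι → ℤ)) : Prop where
  ef : ∀ e ∈ T, e ∈ Λ.Ef
  sq : ∀ e ∈ T, ip Λ.B e e = -1
  K : ∀ e ∈ T, ip Λ.B Λ.K e = -1
  orth : ∀ e ∈ T, ∀ e' ∈ T, e ≠ e' → ip Λ.B e e' = 0
  prm : ∀ c ∈ Λ.P, prj Λ.B T c = 0 ∨ ∀ e ∈ T, 0 ≤ ip Λ.B c e

/-- The prime divisors of the contracted surface. -/
def PT (Λ : Ld ι κ) (T : Finset (ι → ℤ)) : Set (ι → ℤ) :=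
  {g | g ≠ 0 ∧ ∃ c ∈ Λ.P, g = prj Λ.B T c}

/-- The effective classes of the contracted surface. -/
def ET (Λ : Ld ι κ) (T : Finset (ι → ℤ)) : AddSubmonoid (ι → ℤ) := AddSubmonoid.closure (PT Λ T)

/-- The canonical class of the contracted surface. -/
def KT (Λ : Ld ι κ) (T : Finset (ι → ℤ)) : ι → ℤ := prj Λ.B T Λ.K

/-- Orthogonal to `T`. -/
def Pp (Λ : Ld ι κ) (T : Finset (ι → ℤ)) (v : ι → ℤ) : Prop := ∀ e ∈ T, ip Λ.B v e = 0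

open Classical in
/-- The contracted surface. -/
structure RB (Λ : Ld ι κ) (T : Finset (ι → ℤ)) : Prop where
  perp : ∀ c, Pp Λ T (prj Λ.B T c)
  adjn : ∀ v c, Pp Λ T v → ip Λ.B v (prj Λ.B T c) = ip Λ.B v c
  fix : ∀ v, Pp Λ T v → prj Λ.B T v = v
  KTe : KT Λ T = Λ.K - ∑ e ∈ T, e
  KK : ip Λ.B (KT Λ T) (KT Λ T) = ip Λ.B Λ.K Λ.K + T.card
  Kv : ∀ v, Pp Λ T v → ip Λ.B (KT Λ T) v = ip Λ.B Λ.K v
  sq : ∀ c c', ip Λ.B (prj Λ.B T c) (prj Λ.B T c') =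
    ip Λ.B c c' + ∑ e ∈ T, ip Λ.B c e * ip Λ.B c' e
  Kc : ∀ c, ip Λ.B Λ.K (prj Λ.B T c) = ip Λ.B Λ.K c - ∑ e ∈ T, ip Λ.B c e
  pp : ∀ g ∈ ET Λ T, Pp Λ T g
  sub : ∀ g ∈ ET Λ T, g ∈ Λ.Ef
  map : ∀ c ∈ Λ.Ef, prj Λ.B T c ∈ ET Λ T
  pos : ∀ g ∈ PT Λ T, ∀ g' ∈ PT Λ T, g ≠ g' → 0 ≤ ip Λ.B g g'
  adj : ∀ g ∈ PT Λ T, -2 ≤ ip Λ.B g g + ip Λ.B Λ.K g
  rr : ∀ v, Pp Λ T v → ip Λ.B Λ.K v ≤ ip Λ.B v v → v ∈ ET Λ T ∨ KT Λ T - v ∈ ET Λ T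
  nef : ∀ g ∈ PT Λ T, 0 ≤ ip Λ.B g g → Λ.Nef g
  step : ∀ e ∈ PT Λ T, ip Λ.B e e = -1 → ip Λ.B Λ.K e = -1 → e ∉ T ∧ Cn Λ (insert e T)
  card : T.card ≤ Fintype.card ι

/-- RB. -/
def RbStmt : Prop := ∀ (ι κ : Type) [Fintype ι] [Fintype κ] (Λ : Ld ι κ) (T : Finset (ι → ℤ)),
  B0 Λ → Cn Λ T → RB Λ T

/-- The curves at which the induction stops. -/
def Tm (Λ : Ld ι κ) (T : Finset (ι → ℤ)) (c : ι → ℤ) : Prop :=
  c ∈ PT Λ T ∧ ip Λ.B c c + ip Λ.B Λ.K c = -2 ∧ 0 ≤ ip Λ.B c c ∧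
    ∀ g ∈ PT Λ T, g ≠ c → ip Λ.B c c < ip Λ.B c g

/-- The cone theorem on the contracted surface. -/
structure RC (Λ : Ld ι κ) (T : Finset (ι → ℤ)) : Prop where
  one : ∀ A : AddSubmonoid (ι → ℤ), (∀ c ∈ PT Λ T, ip Λ.B c c < 0 → c ∈ A) →
    (∀ c, Tm Λ T c → c ∈ A) → ∀ c ∈ PT Λ T, ip Λ.B c c + ip Λ.B Λ.K c = -2 → c ∈ A
  two : ∀ A : AddSubmonoid (ι → ℤ), (∀ c ∈ PT Λ T, ip Λ.B c c < 0 → c ∈ A) →
    (∀ c, Tm Λ T c → c ∈ A) → -KT Λ T ∈ A → ∀ c ∈ PT Λ T, c ∈ A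
  tm : ∀ c, Tm Λ T c → (ip Λ.B c c = 2 ∧ (2 : ℤ) • c + KT Λ T = 0) ∨
    (ip Λ.B c c = 1 ∧ (3 : ℤ) • c + KT Λ T = 0) ∨
    (ip Λ.B c c = 0 ∧ ∀ v, Pp Λ T v → ip Λ.B v c = 0 → ∃ m : ℤ, v = m • c)

/-- RC. -/
def RcStmt : Prop := ∀ (ι κ : Type) [Fintype ι] [Fintype κ] (Λ : Ld ι κ) (T : Finset (ι → ℤ)),
  B0 Λ → Cn Λ T → RB Λ T → RC Λ T

/-- The cone theorem on the surface. -/
structure C0 (Λ : Ld ι κ) : Prop where
  tm : ∀ c, ¬ Tm Λ ∅ c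
  ct : ∀ L : ι → ℝ, (∀ c ∈ Λ.P, ip Λ.B c c < 0 → 0 ≤ ip Λ.B L (toR c)) → L ∈ Λ.NT
  zn : ∀ z, Λ.Nef z → (∀ c ∈ Λ.P, ip Λ.B c c < 0 → ip Λ.B z c = 0) → z = 0

/-- C0. -/
def C0Stmt : Prop := ∀ (ι κ : Type) [Fintype ι] [Fintype κ] (Λ : Ld ι κ), B0 Λ → RC Λ ∅ → C0 Λ

/-- Conic classes for which all the components are sections. -/
def HC (Λ : Ld ι κ) : Set (ι → ℤ) :=
  {b | Λ.Nef b ∧ ip Λ.B b b = 0 ∧ ip Λ.B Λ.K b = -2 ∧ ∀ k, ip Λ.B (Λ.C k) b = 1}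

/-- The hypotheses on the coefficients. -/
structure KH (Λ : Ld ι κ) (L N : ι → ℝ) (xh x : κ → ℝ) : Prop where
  nt : L ∈ Λ.NT
  nk : ∀ k, L - xh k • toR (Λ.C k) ∈ Λ.NT
  x0 : ∀ k, 0 ≤ x k
  xx : ∀ k, x k ≤ xh k
  p2 : ∀ k, ∑ l, x l + xh k ≤ ∑ l, xh l
  hc : ∀ b ∈ HC Λ, ∑ l, x l ≤ ip Λ.B L (toR b)
  eq : N = L - ∑ k, x k • toR (Λ.C k)

/-- A maximal contraction of classes of negative degree. -/
structure KM (Λ : Ld ι κ) (N : ι → ℝ) (T : Finset (ι → ℤ)) : Prop where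
  cn : Cn Λ T
  lt : ∀ e ∈ T, ip Λ.B N (toR e) < 0
  pat : ∀ e ∈ T, ∃ k l, k ≠ l ∧ ip Λ.B (Λ.C k) e = 1 ∧ ip Λ.B (Λ.C l) e = 1 ∧
    ∀ m, m ≠ k → m ≠ l → ip Λ.B (Λ.C m) e = 0
  mem : ∀ k, prj Λ.B T (Λ.C k) ∈ PT Λ T
  inj : ∀ k l, k ≠ l → prj Λ.B T (Λ.C k) ≠ prj Λ.B T (Λ.C l) ∨
    0 ≤ ip Λ.B (prj Λ.B T (Λ.C k)) (prj Λ.B T (Λ.C k))
  rat : ∀ k, ip Λ.B (prj Λ.B T (Λ.C k)) (prj Λ.B T (Λ.C k)) +
    ip Λ.B Λ.K (prj Λ.B T (Λ.C k)) = -2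
  np : ∀ k, ip Λ.B (prj Λ.B T (Λ.C k)) (prj Λ.B T (Λ.C k)) ≤ 0 →
    0 ≤ ip Λ.B N (toR (prj Λ.B T (Λ.C k)))
  lu : ∀ k, 0 ≤ ip Λ.B (prj Λ.B T (Λ.C k)) (prj Λ.B T (Λ.C k)) →
    (∀ l, l ≠ k → ip Λ.B (prj Λ.B T (Λ.C k)) (prj Λ.B T (Λ.C k)) ≤
      ip Λ.B (prj Λ.B T (Λ.C k)) (prj Λ.B T (Λ.C l))) → 0 ≤ ip Λ.B N (toR (prj Λ.B T (Λ.C k)))
  three : T = ∅ ∨ 3 ≤ Fintype.card κ
  neg : ∀ c ∈ PT Λ T, ip Λ.B c c < 0 → 0 ≤ ip Λ.B N (toR c)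

/-- KA. -/
def KaStmt : Prop := RbStmt → ∀ (ι κ : Type) [Fintype ι] [Fintype κ] (Λ : Ld ι κ)
  (L N : ι → ℝ) (xh x : κ → ℝ), B0 Λ → KH Λ L N xh x → ∃ T, KM Λ N T

/-- KB: the curves at which the induction stops. -/
def KbStmt : Prop := ∀ (ι κ : Type) [Fintype ι] [Fintype κ] (Λ : Ld ι κ)
  (L N : ι → ℝ) (xh x : κ → ℝ) (T : Finset (ι → ℤ)), B0 Λ → C0 Λ → KH Λ L N xh x → KM Λ N T →
  RB Λ T → RC Λ T → ∀ c, Tm Λ T c → 0 ≤ ip Λ.B N (toR c)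

/-- The decomposition of `L - ∑ x k • C k`. -/
def KEY (Λ : Ld ι κ) : Prop := ∀ (L N : ι → ℝ) (xh x : κ → ℝ), KH Λ L N xh x →
  ∃ T : Finset (ι → ℤ), (∀ e ∈ T, e ∈ Λ.Ef ∧ ip Λ.B N (toR e) < 0) ∧
    N + ∑ e ∈ T, ip Λ.B N (toR e) • toR e ∈ Λ.NT

/-- KC. -/
def KcStmt : Prop := RbStmt → RcStmt → KaStmt → KbStmt → ∀ (ι κ : Type) [Fintype ι] [Fintype κ]
  (Λ : Ld ι κ), B0 Λ → C0 Λ → KEY Λ

/-! ### The linear program -/

/-- LP. -/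
def LpStmt : Prop := ∀ (R : Type) [Field R] [LinearOrder R] [IsStrictOrderedRing R]
  (a : Fin 4 → Fin 4 → R) (t s : R), (∀ k j, 0 ≤ a k j) → (∀ k, ∑ j, a k j ≤ t) →
  (∀ (e : Equiv.Perm (Fin 4)) j j', a (e 0) j + a (e 1) j + a (e 2) j' + a (e 3) j' ≤ s) →
  (∀ e : Equiv.Perm (Fin 4), ∑ j, a (e j) j ≤ s + t) →
  ∃ x y : Fin 4 → R, (∀ k, 0 ≤ x k) ∧ (∀ j, 0 ≤ y j) ∧ (∀ k j, a k j ≤ x k + y j) ∧
    ∑ j, y j ≤ t ∧ ∑ k, x k ≤ s ∧ ∀ k, ∃ j, x k ≤ a k j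

/-- The choice of the coefficients. -/
structure XYc {R : Type} [Field R] [LinearOrder R] (a : κ → Fin 4 → R) (t : R) (xh x : κ → R)
    (y : Fin 4 → R) : Prop where
  x0 : ∀ k, 0 ≤ x k
  y0 : ∀ j, 0 ≤ y j
  le : ∀ k j, a k j ≤ x k + y j
  sy : ∑ j, y j ≤ t
  att : ∀ k, ∃ j, xh k = a k j
  ub : ∀ k j, a k j ≤ xh k
  xx : ∀ k, x k ≤ xh k
  p2 : ∀ k, ∑ l, x l + xh k ≤ ∑ l, xh l
  lp : ∀ s : R, Nonempty (Fin 4 ≃ κ) →
    (∀ (e : Fin 4 ≃ κ) j j', a (e 0) j + a (e 1) j + a (e 2) j' + a (e 3) j' ≤ s) →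
    (∀ e : Fin 4 ≃ κ, ∑ j, a (e j) j ≤ s + t) → ∑ k, x k ≤ s

/-- The coefficients exist. -/
def XY : Prop := ∀ (R κ : Type) [Field R] [LinearOrder R] [IsStrictOrderedRing R] [Fintype κ]
  [Nonempty κ] (a : κ → Fin 4 → R) (t : R), (∀ k j, 0 ≤ a k j) → (∀ k, ∑ j, a k j ≤ t) →
    ∃ xh x y, XYc a t xh x y

/-- XY. -/
def XyStmt : Prop := LpStmt → XY

/-- The nef cone of the threefold. -/
def NN (Λ : Ld ι κ) : Set (W ι κ ℝ) := Λ.NX ∩ {D | ∀ b ∈ HC Λ, ∀ e : Fin 4 ≃ κ,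
  ∑ j, D.2.2 (e j) j ≤ ip Λ.B D.1 (toR b) + D.2.1}

/-- Conic classes. -/
structure XN (Λ : Ld ι κ) : Prop where
  four : ∀ b ∈ HC Λ, Nonempty (Fin 4 ≃ κ)
  nk : ∀ D ∈ Λ.NX, ∀ k j, D.1 - D.2.2 k j • toR (Λ.C k) ∈ Λ.NT
  s2 : ∀ D ∈ Λ.NX, ∀ b ∈ HC Λ, ∀ (e : Fin 4 ≃ κ) j j', D.2.2 (e 0) j + D.2.2 (e 1) j +
    D.2.2 (e 2) j' + D.2.2 (e 3) j' ≤ ip Λ.B D.1 (toR b)
  vert : ∀ b ∈ HC Λ, ∀ c ∈ Λ.P, ip Λ.B c b = 0 → ∀ k, ip Λ.B (Λ.C k) c ≠ 0 → c = b ∨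
    (ip Λ.B c c = -1 ∧ ip Λ.B Λ.K c = -1 ∧ ip Λ.B (Λ.C k) c = 1 ∧ ∃ m, m ≠ k ∧
      ip Λ.B (Λ.C m) c = 1 ∧ ∀ m', m' ≠ k → m' ≠ m → ip Λ.B (Λ.C m') c = 0)
  cone : IsCone (NN Λ)

/-- XN. -/
def XnStmt : Prop := ∀ (ι κ : Type) [Fintype ι] [Fintype κ] (Λ : Ld ι κ), B0 Λ → XN Λ

/-- LCA: the nef criterion. -/
def LcAStmt : Prop := XY → ∀ (ι κ : Type) [Fintype ι] [Fintype κ] (Λ : Ld ι κ), B0 Λ → XN Λ →
  KEY Λ → ∀ D ∈ NN Λ, ∀ Z, Λ.Cur Z → 0 ≤ ipW Λ.B D (toRW Z)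

/-- LCB: effectivity and spanning. -/
def LcBStmt : Prop := XY → ∀ (ι κ : Type) [Fintype ι] [Fintype κ] (Λ : Ld ι κ), B0 Λ → XN Λ →
  KEY Λ → (∀ D : W ι κ ℤ, toRW D ∈ NN Λ → toRW D ∈ cone (toRW '' Λ.EG)) ∧
    Submodule.span ℝ (NN Λ ∩ Set.range toRW) = ⊤

/-! ### The lattice of rank ten -/

/-- Four times the projection away from the components. -/
def pr4 (Λ : Ld ι κ) (L : ι → ℝ) : ι → ℝ :=
  (4 : ℝ) • L + ∑ k, ip Λ.B L (toR (Λ.C k)) • toR (Λ.C k)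

/-- The same for integral classes. -/
def pz (Λ : Ld ι κ) (y : ι → ℤ) : ι → ℤ := (4 : ℤ) • y + ∑ k, ip Λ.B y (Λ.C k) • Λ.C k

theorem pr4_toR (Λ : Ld ι κ) (y : ι → ℤ) : pr4 Λ (toR y) = toR (pz Λ y) := by
  simp only [pr4, pz, toR_add, toR_zsmul, toR_sum, ip_toR, Int.cast_ofNat]

theorem pr4_add (Λ : Ld ι κ) (a b : ι → ℝ) : pr4 Λ (a + b) = pr4 Λ a + pr4 Λ b := by
  simp only [pr4, ip_add_left, add_smul, Finset.sum_add_distrib, smul_add]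
  abel

theorem pr4_smul (Λ : Ld ι κ) (r : ℝ) (a : ι → ℝ) : pr4 Λ (r • a) = r • pr4 Λ a := by
  simp only [pr4, ip_smul_left, mul_smul, smul_add, Finset.smul_sum, smul_comm r (4 : ℝ) a]

/-- Twice the lattice of rank ten. -/
def L2 (Λ : Ld ι κ) : Set (ι → ℤ) := {F | (∀ k, ip Λ.B F (Λ.C k) = 0) ∧
  ∃ (v : ι → ℤ) (b : κ → ℤ), F = (2 : ℤ) • v + ∑ k, b k • Λ.C k}

/-- Twice the effective simple roots. -/
def Rt (Λ : Ld ι κ) : Set (ι → ℤ) := {R | (∃ θ ∈ Λ.P, ip Λ.B θ θ = -2 ∧ R = (2 : ℤ) • θ) ∨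
  ∃ e ∈ Λ.P, ∃ k l, k ≠ l ∧ ip Λ.B e e = -1 ∧ ip Λ.B (Λ.C k) e = 1 ∧ ip Λ.B (Λ.C l) e = 1 ∧
    R = (4 : ℤ) • e + Λ.C k + Λ.C l}

/-- Positive isotropic vectors. -/
def Is (Λ : Ld ι κ) : Set (ι → ℤ) := {F | F ∈ L2 Λ ∧ ip Λ.B F F = 0 ∧ 0 < ip Λ.B Λ.h F}

/-- Hyperbolic pairs. -/
def Pr (Λ : Ld ι κ) (G G' : ι → ℤ) : Prop := G ∈ Is Λ ∧ G' ∈ Is Λ ∧ ip Λ.B G G' = 4

/-- Pairs adjacent to `F`. -/
def Ad (Λ : Ld ι κ) (F G G' : ι → ℤ) : Prop := Pr Λ G G' ∧ ip Λ.B G F = 4 ∧ ip Λ.B G' F = 4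

open Classical in
/-- The basic properties. -/
structure LL (Λ : Ld ι κ) : Prop where
  lin : ∀ F ∈ L2 Λ, ∀ F' ∈ L2 Λ, ∀ m n : ℤ, m • F + n • F' ∈ L2 Λ
  four : ∀ F ∈ L2 Λ, ∀ F' ∈ L2 Λ, (4 : ℤ) ∣ ip Λ.B F F'
  two : ∀ c, (∀ k, ip Λ.B c (Λ.C k) = 0) → (2 : ℤ) • c ∈ L2 Λ
  K0 : ∀ F, (∀ k, ip Λ.B F (Λ.C k) = 0) → ip Λ.B Λ.K F = 0
  rt : ∀ R ∈ Rt Λ, R ∈ L2 Λ ∧ R ∈ Λ.Ef ∧ ip Λ.B R R = -8
  ef : ∀ F ∈ Is Λ, F ∈ Λ.Ef
  nef : ∀ F ∈ L2 Λ, 0 ≤ ip Λ.B F F → 0 < ip Λ.B Λ.h F → (∀ R ∈ Rt Λ, 0 ≤ ip Λ.B F R) → Λ.Nef F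
  pair : ∀ G G', Pr Λ G G' → Λ.Nef (G + G') →
    (Λ.Nef G ∧ (Λ.Nef G' ∨ G' - G ∈ Rt Λ)) ∨ (Λ.Nef G' ∧ G - G' ∈ Rt Λ)
  half : ∀ F ∈ Is Λ, ∃ (J : Finset κ) (G₁ G₂ : ι → ℤ), G₁ ∈ Λ.Ef ∧ G₂ ∈ Λ.Ef ∧
    F = (2 : ℤ) • G₁ + ∑ i ∈ J, Λ.C i ∧ F = (2 : ℤ) • G₂ + ∑ i ∈ Jᶜ, Λ.C i
  prim : ∀ F F', Pr Λ F F' → ∀ c ∈ L2 Λ, ip Λ.B c F = 0 → 0 ≤ ip Λ.B c c → ∃ m : ℤ, c = m • F
  deg2 : ∀ F F', Pr Λ F F' → ∃ D, ip Λ.B D F = 2
  pC : ∀ L k, ip Λ.B (pr4 Λ L) (toR (Λ.C k)) = 0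
  pv : ∀ L v, (∀ k, ip Λ.B v (toR (Λ.C k)) = 0) → ip Λ.B (pr4 Λ L) v = 4 * ip Λ.B L v
  pN : ∀ L ∈ Λ.NT, pr4 Λ L ∈ Λ.NT

/-- LL. -/
def LlStmt : Prop := ∀ (ι κ : Type) [Fintype ι] [Fintype κ] (Λ : Ld ι κ), B0 Λ → LL Λ

/-- The exceptional classes of the tower of blow-ups, in their order. -/
structure ST (B : ι → ι → ℤ) (K : ι → ℤ) (P : Set (ι → ℤ)) (N : ℕ) (ε : ℕ → ι → ℤ) : Prop where
  sq : ∀ j < N, ip B (ε j) (ε j) = -1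
  orth : ∀ i < N, ∀ j < N, i ≠ j → ip B (ε i) (ε j) = 0
  ef : ∀ j < N, ε j ∈ AddSubmonoid.closure P
  prm : ∀ c ∈ P, (∀ j < N, 0 ≤ ip B c (ε j)) ∨ ∃ i < N, (∀ j < N, j ≠ i → 0 ≤ ip B c (ε j)) ∧
    c = ε i - ∑ j ∈ Finset.Ioo i N, ip B c (ε j) • ε j
  base : (∃ H, ip B H H = 1 ∧ (∀ j < N, ip B H (ε j) = 0) ∧
      K = (-3 : ℤ) • H + ∑ j ∈ Finset.range N, ε j ∧
      ∀ v, v = ip B v H • H - ∑ j ∈ Finset.range N, ip B v (ε j) • ε j) ∨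
    ∃ (f s : ι → ℤ) (m : ℤ), ip B f f = 0 ∧ ip B f s = 1 ∧ ip B s s = m ∧
      (∀ j < N, ip B f (ε j) = 0 ∧ ip B s (ε j) = 0) ∧ (∀ c ∈ P, 0 ≤ ip B f c) ∧
      K = (m - 2) • f - (2 : ℤ) • s + ∑ j ∈ Finset.range N, ε j ∧
      ∀ v, ∃ β : ℤ, v = ip B v f • s + β • f - ∑ j ∈ Finset.range N, ip B v (ε j) • ε j

/-- The analogue of `L2` after some components have been merged. -/
def LM (Λ : Ld ι κ) (T : Finset (ι → ℤ)) (c : κ → ι → ℤ) : Set (ι → ℤ) :=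
  {F | (∀ β, ip Λ.B F (c β) = 0) ∧
    ∃ (v : ι → ℤ) (b : κ → ℤ), Pp Λ T v ∧ F = (2 : ℤ) • v + ∑ β, b β • c β}

open Classical in
/-- The components are grouped in blocks with classes `c`. -/
structure MS (Λ : Ld ι κ) (T : Finset (ι → ℤ)) (blk : κ → κ) (c : κ → ι → ℤ) : Prop where
  pp : ∀ β, Pp Λ T (c β)
  val : ∀ β v, Pp Λ T v → ip Λ.B v (c β) = ∑ k with blk k = β, ip Λ.B v (Λ.C k)
  sq : ∀ k, ip Λ.B (c (blk k)) (c (blk k)) = -4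
  zero : ∀ β, β ∉ Set.range blk → c β = 0
  orth : ∀ β β', β ≠ β' → ip Λ.B (c β) (c β') = 0
  card : T.card + (Finset.univ.image blk).card = Fintype.card κ
  iso : ∃ Ψ : (ι → ℤ) → ι → ℤ, ∀ F ∈ LM Λ T c, Ψ F ∈ L2 Λ ∧
    ∀ F' ∈ LM Λ T c, ip Λ.B (Ψ F) (Ψ F') = ip Λ.B F F'

open Classical in
/-- The merging of blocks. -/
structure MG (Λ : Ld ι κ) : Prop where
  start : MS Λ ∅ id Λ.C
  step : ∀ T blk c, MS Λ T blk c → ∀ (e : ι → ℤ) (k l : κ), Pp Λ T e → ip Λ.B e e = -1 →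
    blk k ≠ blk l → ip Λ.B e (c (blk k)) = 1 → ip Λ.B e (c (blk l)) = 1 →
    (∀ β, β ≠ blk k → β ≠ blk l → ip Λ.B e (c β) = 0) →
      ∃ blk' c', e ∉ T ∧ MS Λ (insert e T) blk' c' ∧ blk' k = blk' l ∧
        ∀ m m', blk m = blk m' → blk' m = blk' m'
  stop : ∀ T blk c, MS Λ T blk c → (∀ k l, blk k = blk l) → ∃ Ψ : (ι → ℤ) → ι → ℤ,
    ∀ v, Pp Λ T v → ip Λ.B v Λ.K = 0 → Ψ v ∈ L2 Λ ∧
      ∀ w, Pp Λ T w → ip Λ.B w Λ.K = 0 → ip Λ.B (Ψ v) (Ψ w) = 4 * ip Λ.B v w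

/-- MG1. -/
def Mg1Stmt : Prop := ∀ (ι κ : Type) [Fintype ι] [Fintype κ] (Λ : Ld ι κ), B0 Λ → MG Λ

open Classical in
/-- Every exceptional class lives in one block. -/
def MT (Λ : Ld ι κ) (N : ℕ) (ε : ℕ → ι → ℤ) : Prop := ∃ (J : Finset ℕ) (blk : κ → κ)
  (c : κ → ι → ℤ), J ⊆ Finset.range N ∧ MS Λ (J.image ε) blk c ∧ ∀ j < N, ∀ k l,
    ip Λ.B (Λ.C k) (ε j) ≠ 0 → ip Λ.B (Λ.C l) (ε j) ≠ 0 → blk k = blk l

/-- MG2. -/
def Mg2Stmt : Prop := ∀ (ι κ : Type) [Fintype ι] [Fintype κ] (Λ : Ld ι κ) (N : ℕ)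
  (ε : ℕ → ι → ℤ), B0 Λ → MG Λ → ST Λ.B Λ.K Λ.P N ε → MT Λ N ε

/-- A standard system orthogonal to `T`. -/
def SD (Λ : Ld ι κ) (T : Finset (ι → ℤ)) : Prop := ∃ (H : ι → ℤ) (η : Fin 10 → ι → ℤ),
  Pp Λ T H ∧ (∀ i, Pp Λ T (η i)) ∧ ip Λ.B H H = 1 ∧ (∀ i, ip Λ.B H (η i) = 0) ∧
    (∀ i j, ip Λ.B (η i) (η j) = if i = j then -1 else 0) ∧ ip Λ.B H Λ.K = -3 ∧
    ∀ i, ip Λ.B (η i) Λ.K = -1

/-- MG3: one block, and a standard system. -/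
def Mg3Stmt : Prop := ∀ (ι κ : Type) [Fintype ι] [Fintype κ] (Λ : Ld ι κ) (N : ℕ)
  (ε : ℕ → ι → ℤ), B0 Λ → MG Λ → ST Λ.B Λ.K Λ.P N ε → MT Λ N ε →
    ∃ T blk c, MS Λ T blk c ∧ (∀ k l, blk k = blk l) ∧ SD Λ T

/-- The doubled coordinates of the points of the lattice `E₈`. -/
def E8 : Set (Fin 8 → ℤ) := {z | ∀ j, (4 : ℤ) ∣ ∑ i, z i - 2 * z j}

/-- CV1: the midpoints of the edges cover the space. -/
def Cv1Stmt : Prop := ∀ p : Fin 8 → ℝ, ∃ z ∈ E8, ∃ z' ∈ E8, ∑ i, (z i - z' i) ^ 2 = 8 ∧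
  ∑ i, (p i - ((z i : ℝ) + z' i) / 4) ^ 2 ≤ 1 / 2

/-- The adjacent pairs cut out a part of the positive cone. -/
structure COV (Λ : Ld ι κ) (F : ι → ℤ) : Prop where
  mem : F ∈ Is Λ
  ex : ∃ G G', Ad Λ F G G'
  cov : ∀ L : ι → ℝ, (∀ k, ip Λ.B L (toR (Λ.C k)) = 0) → 0 < ip Λ.B L (toR F) →
    (∀ G G', Ad Λ F G G' → ip Λ.B L (toR F) ≤ ip Λ.B L (toR (G + G'))) → 0 ≤ ip Λ.B L L

/-- A frame of the lattice of rank ten. -/
def FR (Λ : Ld ι κ) : Prop := ∃ (F₀ F₁ : ι → ℤ) (X : (Fin 8 → ℤ) → ι → ℤ), F₀ ∈ L2 Λ ∧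
  F₁ ∈ L2 Λ ∧ ip Λ.B F₀ F₀ = 0 ∧ ip Λ.B F₁ F₁ = 0 ∧ ip Λ.B F₀ F₁ = 4 ∧ 0 < ip Λ.B Λ.h F₀ ∧
    ∀ z ∈ E8, X z ∈ L2 Λ ∧ ip Λ.B (X z) F₀ = 0 ∧ ip Λ.B (X z) F₁ = 0 ∧ (8 : ℤ) ∣ ∑ i, z i ^ 2 ∧
      ∀ z' ∈ E8, ip Λ.B (X z) (X z') = -∑ i, z i * z' i

/-- FR. -/
def FrStmt : Prop := ∀ (ι κ : Type) [Fintype ι] [Fintype κ] (Λ : Ld ι κ) (T : Finset (ι → ℤ))
  (blk : κ → κ) (c : κ → ι → ℤ), B0 Λ → LL Λ → MG Λ → MS Λ T blk c → (∀ k l, blk k = blk l) →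
    SD Λ T → FR Λ

/-- CV2. -/
def Cv2Stmt : Prop := Cv1Stmt → ∀ (ι κ : Type) [Fintype ι] [Fintype κ] (Λ : Ld ι κ), B0 Λ →
  LL Λ → FR Λ → ∃ F, COV Λ F

/-- DS1: descent by reflections. -/
def Ds1Stmt : Prop := ∀ (ι κ : Type) [Fintype ι] [Fintype κ] (Λ : Ld ι κ), B0 Λ → LL Λ →
  (∃ F, COV Λ F) → ∃ F, COV Λ F ∧ Λ.Nef F

/-- DS2: it is enough to consider the pairs whose sum is nef. -/
def Ds2Stmt : Prop := ∀ (ι κ : Type) [Fintype ι] [Fintype κ] (Λ : Ld ι κ), B0 Λ → LL Λ →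
  ∀ F ∈ Is Λ, Λ.Nef F → ∀ L ∈ Λ.NT,
    (∀ G G', Ad Λ F G G' → Λ.Nef (G + G') → ip Λ.B L (toR F) ≤ ip Λ.B L (toR (G + G'))) →
    ∀ G G', Ad Λ F G G' → ip Λ.B L (toR F) ≤ ip Λ.B L (toR (G + G'))

/-! ### Automorphisms -/

/-- The span of the prime divisors orthogonal to `F`. -/
def VF (Λ : Ld ι κ) (F : ι → ℤ) : Submodule ℝ (ι → ℝ) :=
  Submodule.span ℝ (toR '' {c | c ∈ Λ.P ∧ ip Λ.B c F = 0})

/-- The span of the prime divisors orthogonal to `F` and `H`. -/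
def VH (Λ : Ld ι κ) (F H : ι → ℤ) : Submodule ℝ (ι → ℝ) :=
  Submodule.span ℝ (toR '' {c | c ∈ Λ.P ∧ ip Λ.B c F = 0 ∧ ip Λ.B c H = 0})

/-- A group of automorphisms. -/
structure Gp (Λ : Ld ι κ) (G : Set (Matrix ι ι ℤ)) : Prop where
  one : ∃ ρ ∈ G, ∀ c : ι → ℤ, act ρ c = c
  mul : ∀ ρ ∈ G, ∀ ρ' ∈ G, ρ * ρ' ∈ G
  inv : ∀ ρ ∈ G, ∃ ρ' ∈ G, ∀ c : ι → ℤ, act ρ (act ρ' c) = c ∧ act ρ' (act ρ c) = c
  iso : ∀ ρ ∈ G, ∀ c c' : ι → ℤ, ip Λ.B (act ρ c) (act ρ c') = ip Λ.B c c'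
  prm : ∀ ρ ∈ G, ∀ c ∈ Λ.P, act ρ c ∈ Λ.P
  perm : ∀ ρ ∈ G, ∃ π : Equiv.Perm κ, ∀ k, act ρ (Λ.C k) = Λ.C (π k)

/-- The projection is in the closed positive cone. -/
def Pos (Λ : Ld ι κ) (r : ι → ℤ) : Prop :=
  0 ≤ ip Λ.B (pz Λ r) (pz Λ r) ∧ 0 ≤ ip Λ.B Λ.h (pz Λ r)

/-- The projection is big or rational. -/
def Gd (Λ : Ld ι κ) (L : ι → ℝ) : Prop :=
  0 < ip Λ.B (pr4 Λ L) (pr4 Λ L) ∨ ∃ (y : ι → ℤ) (q : ℝ), pr4 Λ L = q • toR y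

/-- The action on real classes. -/
structure GR (Λ : Ld ι κ) (G : Set (Matrix ι ι ℤ)) : Prop where
  one : ∃ ρ ∈ G, ∀ L : ι → ℝ, act ρ L = L
  inv : ∀ ρ ∈ G, ∃ ρ' ∈ G, (∀ c : ι → ℤ, act ρ (act ρ' c) = c ∧ act ρ' (act ρ c) = c) ∧
    ∀ L : ι → ℝ, act ρ (act ρ' L) = L ∧ act ρ' (act ρ L) = L
  iso : ∀ ρ ∈ G, ∀ L L' : ι → ℝ, ip Λ.B (act ρ L) (act ρ L') = ip Λ.B L L'
  nt : ∀ ρ ∈ G, ∀ L ∈ Λ.NT, act ρ L ∈ Λ.NT
  nef : ∀ ρ ∈ G, ∀ y, Λ.Nef y → Λ.Nef (act ρ y)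
  pos : ∀ ρ ∈ G, ∀ r, Pos Λ r → Pos Λ (act ρ r)

/-- GR. -/
def GrStmt : Prop := ∀ (ι κ : Type) [Fintype ι] [Fintype κ] (Λ : Ld ι κ)
  (G : Set (Matrix ι ι ℤ)), B0 Λ → Gp Λ G → GR Λ G

/-- The involution attached to a hyperbolic plane. -/
structure UI (Λ : Ld ι κ) (F H : ι → ℤ) (ρ : Matrix ι ι ℤ) : Prop where
  inv : ∀ c : ι → ℤ, act ρ (act ρ c) = c
  fF : act ρ F = F
  fH : act ρ H = H
  orb : ∀ y, toR ((2 : ℤ) • (act ρ y + y) - ip Λ.B y F • H) ∈ VF Λ F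
  fib : ∀ c ∈ Λ.P, ip Λ.B c F = 0 → ip Λ.B c H ≠ 0 →
    ∃ q : ℝ, toR (c + act ρ c) - q • toR F ∈ VH Λ F H

/-- What the geometry gives on automorphisms. -/
structure AD (Λ : Ld ι κ) (G : Set (Matrix ι ι ℤ)) : Prop where
  gp : Gp Λ G
  fib : ∀ F F', Pr Λ F F' → Λ.Nef F → ∀ c ∈ Λ.P, ip Λ.B c F = 0 → F - c ∈ Λ.Ef
  iv : ∀ F F', Pr Λ F F' → Λ.Nef F → ∀ D, ip Λ.B D F = 2 →
    ∃ ρ ∈ G, ∀ y, toR (act ρ y + y - ip Λ.B y F • D) ∈ VF Λ F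
  ui : ∀ F F', Pr Λ F F' → Λ.Nef F → (Λ.Nef F' ∨ F' - F ∈ Rt Λ) → ∃ ρ ∈ G, UI Λ F (F + F') ρ

/-- SYM. -/
def SymStmt : Prop := ∀ (ι κ : Type) [Fintype ι] [Fintype κ] (Λ : Ld ι κ)
  (G : Set (Matrix ι ι ℤ)), B0 Λ → Gp Λ G → GR Λ G → ∀ ρ ∈ G, ∀ F₀ F F', Λ.Nef F₀ →
  Ad Λ F₀ F F' → UI Λ F (F + F') ρ → ∀ L ∈ Λ.NT,
    ip Λ.B (act ρ L) (toR F₀) ≤ 2 * ip Λ.B L (toR (F + F')) - ip Λ.B L (toR F₀)

/-- An orthogonal system that spans the orthogonal of `F` together with `VF`. -/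
structure OBF (Λ : Ld ι κ) (F : ι → ℤ) (X : Finset (ι → ℤ)) : Prop where
  neg : ∀ x ∈ X, ip Λ.B x x < 0
  orth : ∀ x ∈ X, ∀ x' ∈ X, x ≠ x' → ip Λ.B x x' = 0
  perp : ∀ x ∈ X, ∀ v ∈ VF Λ F, ip Λ.B v (toR x) = 0
  span : ∀ r : ι → ℝ, ip Λ.B r (toR F) = 0 → (∀ x ∈ X, ip Λ.B r (toR x) = 0) → r ∈ VF Λ F
  self : toR F ∈ VF Λ F

/-- The box. -/
def BoxF (Λ : Ld ι κ) (F : ι → ℤ) (X : Finset (ι → ℤ)) : Set (ι → ℝ) :=
  {L | ∀ x ∈ X, |ip Λ.B L (toR x)| ≤ -(ip Λ.B x x : ℤ) * ip Λ.B L (toR F)}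

/-- EB1. -/
def Eb1Stmt : Prop := ∀ (ι κ : Type) [Fintype ι] [Fintype κ] (Λ : Ld ι κ), B0 Λ → LL Λ →
  ∀ F ∈ Is Λ, Λ.Nef F → (∀ c ∈ Λ.P, ip Λ.B c F = 0 → F - c ∈ Λ.Ef) →
    {c | c ∈ Λ.P ∧ ip Λ.B c F = 0}.Finite ∧ ∃ X, OBF Λ F X

/-- EB2: translations move nef classes into the box. -/
def Eb2Stmt : Prop := ∀ (ι κ : Type) [Fintype ι] [Fintype κ] (Λ : Ld ι κ)
  (G : Set (Matrix ι ι ℤ)) (X : Finset (ι → ℤ)), B0 Λ → LL Λ → Gp Λ G → GR Λ G → ∀ F ∈ Is Λ,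
  Λ.Nef F → OBF Λ F X → (∃ D, ip Λ.B D F = 2) → (∀ D, ip Λ.B D F = 2 →
    ∃ ρ ∈ G, ∀ y, toR (act ρ y + y - ip Λ.B y F • D) ∈ VF Λ F) → ∀ L ∈ Λ.NT,
      ∃ ρ ∈ G, act ρ L ∈ BoxF Λ F X ∧ ip Λ.B (act ρ L) (toR F) = ip Λ.B L (toR F)

/-- MIN: the degree on `F` has a minimum in every orbit. -/
def MinStmt : Prop := ∀ (ι κ : Type) [Fintype ι] [Fintype κ] (Λ : Ld ι κ)
  (G : Set (Matrix ι ι ℤ)), B0 Λ → LL Λ → Gp Λ G → GR Λ G → ∀ F ∈ Is Λ, Λ.Nef F → ∀ L ∈ Λ.NT,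
  Gd Λ L → ∃ ρ ∈ G, ∀ ρ' ∈ G, ip Λ.B (act ρ L) (toR F) ≤ ip Λ.B (act ρ' L) (toR F)

/-- Q1: the region cut out by the box and the adjacent pairs. -/
def Q1Stmt : Prop := ∀ (ι κ : Type) [Fintype ι] [Fintype κ] (Λ : Ld ι κ) (F : ι → ℤ)
  (X : Finset (ι → ℤ)), B0 Λ → LL Λ → COV Λ F → {c | c ∈ Λ.P ∧ ip Λ.B c F = 0}.Finite →
  OBF Λ F X → ∃ R : Finset (ι → ℤ), (∀ r ∈ R, Pos Λ r) ∧ ∀ L ∈ BoxF Λ F X,
    0 ≤ ip Λ.B L (toR F) → (∀ c ∈ Λ.P, ip Λ.B c F = 0 → 0 ≤ ip Λ.B (pr4 Λ L) (toR c) ∧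
      ip Λ.B (pr4 Λ L) (toR c) ≤ 4 * ip Λ.B L (toR F)) →
    (∀ G G', Ad Λ F G G' → ip Λ.B L (toR F) ≤ ip Λ.B L (toR (G + G'))) →
      L ∈ cone (toR '' (R : Set (ι → ℤ)))

/-- A finite set of positive classes whose cone meets every orbit. -/
def CvG (Λ : Ld ι κ) (G : Set (Matrix ι ι ℤ)) : Prop := ∃ R : Finset (ι → ℤ),
  (∀ r ∈ R, Pos Λ r) ∧ ∀ L ∈ Λ.NT, Gd Λ L → ∃ ρ ∈ G, act ρ L ∈ cone (toR '' (R : Set (ι → ℤ)))

/-- EN2: the subgroup that fixes the components. -/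
def En2Stmt : Prop := ∀ (ι κ : Type) [Fintype ι] [Fintype κ] (Λ : Ld ι κ)
  (G : Set (Matrix ι ι ℤ)), B0 Λ → Gp Λ G → GR Λ G → CvG Λ G →
    CvG Λ {ρ | ρ ∈ G ∧ ∀ k, act ρ (Λ.C k) = Λ.C k}

/-- EN3: the nef cone is rational polyhedral over a positive cone. -/
def En3Stmt : Prop := ∀ (ι κ : Type) [Fintype ι] [Fintype κ] (Λ : Ld ι κ)
  (R : Finset (ι → ℤ)), B0 Λ → LL Λ → C0 Λ → (∀ r ∈ R, Pos Λ r) →
    RP (LW ι κ) (NN Λ ∩ {D | D.1 ∈ cone (toR '' (R : Set (ι → ℤ)))})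

/-- RAD: effective nef classes are big or rational. -/
def RadStmt : Prop := ∀ (ι κ : Type) [Fintype ι] [Fintype κ] (Λ : Ld ι κ), B0 Λ → LL Λ →
  ∀ L ∈ Λ.NT, L ∈ cone (toR '' Λ.P) → Gd Λ L

/-- The conclusions of the lattice rows. -/
structure LC (Λ : Ld ι κ) (G : Set (Matrix ι ι ℤ)) : Prop where
  lca : ∀ D ∈ NN Λ, ∀ Z, Λ.Cur Z → 0 ≤ ipW Λ.B D (toRW Z)
  lcb : ∀ D : W ι κ ℤ, toRW D ∈ NN Λ → toRW D ∈ cone (toRW '' Λ.EG)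
  spn : Submodule.span ℝ (NN Λ ∩ Set.range toRW) = ⊤
  cov : ∃ R : Finset (W ι κ ℝ), (R : Set (W ι κ ℝ)) ⊆ LW ι κ ∧ cone (R : Set (W ι κ ℝ)) ⊆ NN Λ ∧
    ∀ D ∈ NN Λ, D.1 ∈ cone (toR '' Λ.P) → ∃ ρ ∈ G, (∀ k, act ρ (Λ.C k) = Λ.C k) ∧
      (actW ρ D ∈ NN Λ → actW ρ D ∈ cone (R : Set (W ι κ ℝ)))

/-- All lattice rows. -/
structure LMods : Prop where
  hg : HgStmt
  lb : LbStmt
  rb : RbStmt
  rc : RcStmt
  c0 : C0Stmt
  ka : KaStmt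
  kb : KbStmt
  kc : KcStmt
  lp : LpStmt
  xy : XyStmt
  xn : XnStmt
  lcA : LcAStmt
  lcB : LcBStmt
  ll : LlStmt
  mg1 : Mg1Stmt
  mg2 : Mg2Stmt
  mg3 : Mg3Stmt
  fr : FrStmt
  cv1 : Cv1Stmt
  cv2 : Cv2Stmt
  ds1 : Ds1Stmt
  ds2 : Ds2Stmt
  gr : GrStmt
  sym : SymStmt
  eb1 : Eb1Stmt
  eb2 : Eb2Stmt
  min : MinStmt
  q1 : Q1Stmt
  en2 : En2Stmt
  en3 : En3Stmt
  rad : RadStmt

variable {Λ : Ld ι κ}

theorem cn_empty : Cn Λ ∅ :=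
  ⟨by simp, by simp, by simp, by simp, fun _ _ => Or.inr (by simp)⟩

theorem LMods.b0 (m : LMods) (h : NC Λ) : B0 Λ :=
  have hg := m.hg ι Λ.B h.sym h.hodge
  ⟨h, hg, m.lb ι κ Λ h hg⟩

theorem LMods.c0' (m : LMods) (h : B0 Λ) : C0 Λ :=
  m.c0 ι κ Λ h (m.rc ι κ Λ ∅ h cn_empty (m.rb ι κ Λ ∅ h cn_empty))

theorem LMods.cvg (m : LMods) (h : B0 Λ) {N : ℕ} {ε : ℕ → ι → ℤ} (st : ST Λ.B Λ.K Λ.P N ε)
    {G : Set (Matrix ι ι ℤ)} (a : AD Λ G) : CvG Λ G := by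
  have ll := m.ll ι κ Λ h
  have mg := m.mg1 ι κ Λ h
  have gr := m.gr ι κ Λ G h a.gp
  obtain ⟨T, blk, c, h1, h2, h3⟩ := m.mg3 ι κ Λ N ε h mg st (m.mg2 ι κ Λ N ε h mg st)
  obtain ⟨F, hF, nF⟩ := m.ds1 ι κ Λ h ll (m.cv2 m.cv1 ι κ Λ h ll
    (m.fr ι κ Λ T blk c h ll mg h1 h2 h3))
  obtain ⟨G₀, G₀', ad⟩ := hF.ex
  have pr : Pr Λ F G₀ := ⟨hF.mem, ad.1.1, (ip_comm h.nc.sym _ _).trans ad.2.1⟩
  obtain ⟨fin, X, ob⟩ := m.eb1 ι κ Λ h ll F hF.mem nF (a.fib F G₀ pr nF)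
  obtain ⟨R, hR, hc⟩ := m.q1 ι κ Λ F X h ll hF fin ob
  refine ⟨R, hR, fun L hL gd => ?_⟩
  obtain ⟨ρ, hρ, hm⟩ := m.min ι κ Λ G h ll a.gp gr F hF.mem nF L hL gd
  obtain ⟨τ, hτ, hb, he⟩ := m.eb2 ι κ Λ G X h ll a.gp gr F hF.mem nF ob (ll.deg2 F G₀ pr)
    (a.iv F G₀ pr nF) _ (gr.nt ρ hρ L hL)
  have hN := gr.nt τ hτ _ (gr.nt ρ hρ L hL)
  refine ⟨τ * ρ, a.gp.mul τ hτ ρ hρ, ?_⟩
  rw [act_mul]
  have hE := ll.ef F hF.mem
  refine hc _ hb (h.lb.efr _ hN F hE) (fun c hc h0 => ⟨ll.pN _ hN c hc, ?_⟩)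
    (m.ds2 ι κ Λ h ll F hF.mem nF _ hN fun A A' hA nA => ?_)
  · have h4 := h.lb.efr _ (ll.pN _ hN) _ (a.fib F G₀ pr nF c hc h0)
    rw [toR_sub, ip_sub_right, ll.pv _ _ fun k => by rw [ip_toR, hF.mem.1.1 k, Int.cast_zero]]
      at h4
    linarith
  · have key : ∀ A A', Ad Λ F A A' → Λ.Nef A → (Λ.Nef A' ∨ A' - A ∈ Rt Λ) →
        ip Λ.B (act τ (act ρ L)) (toR F) ≤ ip Λ.B (act τ (act ρ L)) (toR (A + A')) := by
      intro A A' hA n1 n2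
      obtain ⟨σ, hσ, hu⟩ := a.ui A A' hA.1 n1 n2
      have h5 := m.sym ι κ Λ G h a.gp gr σ hσ F A A' nF hA hu _ hN
      have h6 := hm _ (a.gp.mul σ hσ _ (a.gp.mul τ hτ ρ hρ))
      rw [act_mul, act_mul] at h6
      linarith
    rcases ll.pair A A' hA.1 nA with ⟨n1, n2⟩ | ⟨n1, n2⟩
    · exact key A A' hA n1 n2
    · rw [add_comm A]
      exact key A' A ⟨⟨hA.1.2.1, hA.1.1, (ip_comm h.nc.sym _ _).trans hA.1.2.2⟩, hA.2.2, hA.2.1⟩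
        n1 (Or.inr n2)

theorem LMods.lc (m : LMods) (h : NC Λ) {N : ℕ} {ε : ℕ → ι → ℤ} (st : ST Λ.B Λ.K Λ.P N ε)
    {G : Set (Matrix ι ι ℤ)} (a : AD Λ G) : LC Λ G := by
  have b := m.b0 h
  have c0 := m.c0' b
  have ll := m.ll ι κ Λ b
  have xn := m.xn ι κ Λ b
  have key := m.kc m.rb m.rc m.ka m.kb ι κ Λ b c0
  have h2 := m.lcB (m.xy m.lp) ι κ Λ b xn key
  refine ⟨m.lcA (m.xy m.lp) ι κ Λ b xn key, h2.1, h2.2, ?_⟩
  obtain ⟨R, hR, hc⟩ := m.en2 ι κ Λ G b a.gp (m.gr ι κ Λ G b a.gp) (m.cvg b st a)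
  obtain ⟨R', h3, h4⟩ := m.en3 ι κ Λ R b ll c0 hR
  refine ⟨R', h3, h4.subset.trans Set.inter_subset_left, fun D hD hE => ?_⟩
  obtain ⟨ρ, hρ, h5⟩ := hc D.1 hD.1.2.2.1 (m.rad ι κ Λ b ll D.1 hD.1.2.2.1 hE)
  exact ⟨ρ, hρ.1, hρ.2, fun h6 => h4.superset ⟨h6, h5⟩⟩

end Pool.Agent.MP_20d318_ag.CC

end MrgPart0

-- ======== part 1: formerly Pool.Agent.MP_20d318_ag.CC.Lb
section MrgPart1

/-! First consequences of the structure of the lattice. -/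

set_option autoImplicit false

namespace Pool.Agent.MP_20d318_ag.CC

open Pool.Agent.MP_20d318_ag.CB

namespace Lb

variable {ι κ : Type} [Fintype ι] [Fintype κ] {Λ : Ld ι κ}

omit [Fintype κ] in
theorem efn {y : ι → ℤ} (hy : Λ.Nef y) {c : ι → ℤ} (hc : c ∈ Λ.Ef) : 0 ≤ ip Λ.B y c := by
  induction hc using AddSubmonoid.closure_induction with
  | mem x hx => exact hy x hx
  | zero => rw [ip_zero_right]
  | add x z _ _ h1 h2 => rw [ip_add_right]; omega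

omit [Fintype κ] in
theorem efr {L : ι → ℝ} (hL : L ∈ Λ.NT) {c : ι → ℤ} (hc : c ∈ Λ.Ef) :
    0 ≤ ip Λ.B L (toR c) := by
  induction hc using AddSubmonoid.closure_induction with
  | mem x hx => exact hL x hx
  | zero => rw [toR_zero, ip_zero_right]
  | add x z _ _ h1 h2 => rw [toR_add, ip_add_right]; linarith

omit [Fintype ι] [Fintype κ] in
theorem pk {e : ι → ℤ} (he : e ∈ Λ.Ef) : e = 0 ∨ ∃ c ∈ Λ.P, e - c ∈ Λ.Ef := by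
  induction he using AddSubmonoid.closure_induction with
  | mem x hx => exact .inr ⟨x, hx, by rw [sub_self]; exact zero_mem _⟩
  | zero => exact .inl rfl
  | add x z _ hz h1 h2 =>
    rcases h1 with rfl | ⟨c, hc, h⟩
    · rwa [zero_add]
    · exact .inr ⟨c, hc, by rw [add_sub_right_comm]; exact add_mem h hz⟩

omit [Fintype ι] in
theorem two_cases {f : κ → ℤ} (h0 : ∀ k, 0 ≤ f k) (h : ∑ k, f k = 2) :
    (∃ k, f k = 2 ∧ ∀ l, l ≠ k → f l = 0) ∨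
      ∃ k l, k ≠ l ∧ f k = 1 ∧ f l = 1 ∧ ∀ j, j ≠ k → j ≠ l → f j = 0 := by
  classical
  by_cases hn : ∃ k, ∀ l, l ≠ k → f l = 0
  · obtain ⟨k, hk⟩ := hn
    rw [Finset.sum_eq_single k (fun l _ e => hk l e) (by simp)] at h
    exact Or.inl ⟨k, h, hk⟩
  push Not at hn
  obtain ⟨k, -, hk⟩ := Finset.exists_ne_zero_of_sum_ne_zero (h.trans_ne two_ne_zero)
  obtain ⟨l, n, hl⟩ := hn k
  rw [← Finset.add_sum_erase _ _ (Finset.mem_univ k),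
    ← Finset.add_sum_erase _ _ (Finset.mem_erase.2 ⟨n, Finset.mem_univ l⟩)] at h
  have a := Finset.sum_nonneg (s := (Finset.univ.erase k).erase l) fun j _ => h0 j
  have := h0 k
  have := h0 l
  exact Or.inr ⟨k, l, n.symm, by omega, by omega, fun j j1 j2 =>
    (Finset.sum_eq_zero_iff_of_nonneg fun j _ => h0 j).1
      (by omega : ∑ j ∈ (Finset.univ.erase k).erase l, f j = 0) j (by simp [j1, j2])⟩

variable (N : NC Λ)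
include N

theorem hn : Λ.Nef Λ.h := fun c hc => (N.hpos c hc).le

theorem hef {c : ι → ℤ} (hc : c ∈ Λ.Ef) (h0 : c ≠ 0) : 0 < ip Λ.B Λ.h c := by
  obtain ⟨g, hg, h⟩ := (pk hc).resolve_left h0
  have h1 := efn (hn N) h
  have h2 := N.hpos g hg
  rw [ip_sub_right] at h1
  omega

theorem hh : 0 < ip Λ.B Λ.h Λ.h := hef N N.heff fun h => by
  have := N.hpos _ (N.memC Λ.k0)
  rw [h, ip_zero_left] at this
  exact lt_irrefl _ this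

theorem sumK (c : ι → ℤ) : ∑ k, ip Λ.B (Λ.C k) c = -2 * ip Λ.B Λ.K c := by
  rw [← ip_sum_left, N.sumC, ip_smul_left]

theorem hC (k : κ) : 0 < ip Λ.B (Λ.C k) Λ.h := by
  rw [ip_comm N.sym]
  exact N.hpos _ (N.memC k)

theorem hK : ip Λ.B Λ.h Λ.K < 0 := by
  have h := Finset.sum_pos (s := Finset.univ) (fun k _ => hC N k) ⟨Λ.k0, Finset.mem_univ _⟩
  rw [sumK N, ip_comm N.sym] at h
  omega

theorem comp {e : ι → ℤ} (he : e ∈ Λ.Ef) {c : ι → ℤ} (hc : c ∈ Λ.P) :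
    e - c ∈ Λ.Ef ∨ 0 ≤ ip Λ.B e c := by
  induction he using AddSubmonoid.closure_induction with
  | mem x hx =>
    by_cases h : x = c
    · exact .inl (by rw [h, sub_self]; exact zero_mem _)
    · exact .inr (N.pos x hx c hc h)
  | zero => exact .inr (ip_zero_left _).ge
  | add x z hx hz h1 h2 =>
    rcases h1 with h1 | h1
    · exact .inl (by rw [add_sub_right_comm]; exact add_mem h1 hz)
    · rcases h2 with h2 | h2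
      · exact .inl (by rw [add_sub_assoc]; exact add_mem hx h2)
      · exact .inr (by rw [ip_add_left]; omega)

theorem CK (k : κ) : ip Λ.B (Λ.C k) (Λ.C k) = -2 * ip Λ.B Λ.K (Λ.C k) := by
  rw [← sumK N, Finset.sum_eq_single k (fun l _ h => N.disj l k h) (by simp)]

theorem Cc {c : ι → ℤ} (hc : c ∈ Λ.P) (h : c ∉ Set.range Λ.C) (k : κ) :
    0 ≤ ip Λ.B (Λ.C k) c := N.pos _ (N.memC k) c hc fun e => h ⟨k, e⟩

theorem nef_ef {z : ι → ℤ} (hz : Λ.Nef z) (h : 0 ≤ ip Λ.B z z) : z ∈ Λ.Ef := by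
  have h1 : 0 ≤ ∑ k, ip Λ.B (Λ.C k) z :=
    Finset.sum_nonneg fun k _ => (hz _ (N.memC k)).trans_eq (ip_comm N.sym _ _)
  rw [sumK N] at h1
  refine (N.rr z (by omega)).resolve_right fun e => ?_
  have h2 := efn (hn N) e
  have h3 := hK N
  have h4 := efn hz N.heff
  rw [ip_sub_right, ip_comm N.sym Λ.h z] at h2
  omega

theorem comb {y : ι → ℤ} (hy : Λ.Nef y) {a b : ℤ} (ha : 0 ≤ a) (hb : 0 ≤ b)
    (h : 0 ≤ a * (a * ip Λ.B y y + b * ip Λ.B y Λ.h) +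
      b * (a * ip Λ.B y Λ.h + b * ip Λ.B Λ.h Λ.h)) :
    0 ≤ a * ip Λ.B y y + b * ip Λ.B y Λ.h := by
  have h1 : Λ.Nef (a • y + b • Λ.h) := fun c hc => by
    rw [ip_add_left, ip_smul_left, ip_smul_left]
    exact add_nonneg (mul_nonneg ha (hy c hc)) (mul_nonneg hb (hn N c hc))
  have h2 := efn hy (nef_ef N h1 (by
    simpa only [ip_add_left, ip_add_right, ip_smul_left, ip_smul_right, ip_comm N.sym Λ.h y]
      using h))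
  rwa [ip_add_right, ip_smul_right, ip_smul_right] at h2

theorem ne {y : ι → ℤ} (hy : Λ.Nef y) : 0 ≤ ip Λ.B y y := by
  by_contra hs
  replace hs := not_le.1 hs
  have ha := efn hy N.heff
  have hp := hh N
  rcases ha.lt_or_eq with ha | ha
  · have := comb N hy (a := 2 * ip Λ.B y Λ.h) (b := -ip Λ.B y y) (by omega) (by omega)
      (by nlinarith [mul_pos (mul_pos_of_neg_of_neg hs hs) hp])
    nlinarith [mul_pos ha (neg_pos.2 hs)]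
  · have := comb N hy (a := 1) (b := -ip Λ.B y y) (by omega) (by omega)
      (by
        rw [← ha]
        nlinarith [mul_nonneg (mul_self_nonneg (ip Λ.B y y)) (show 0 ≤ ip Λ.B Λ.h Λ.h - 1 by omega),
          mul_nonneg (neg_pos.2 hs).le (show 0 ≤ -ip Λ.B y y - 1 by omega)])
    rw [← ha] at this
    omega

theorem KC (k : κ) : ip Λ.B Λ.K (Λ.C k) = 2 := by
  have h1 := CK N k
  have h2 := N.m4 k
  omega

theorem KK : ip Λ.B Λ.K Λ.K = -(Fintype.card κ : ℤ) := by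
  have h := sumK N Λ.K
  rw [Finset.sum_congr rfl fun k _ => (ip_comm N.sym _ _).trans (KC N k), Finset.sum_const,
    Finset.card_univ, nsmul_eq_mul] at h
  omega

theorem neg {c : ι → ℤ} (hc : c ∈ Λ.P) (h : ip Λ.B c c < 0) : (∃ k, c = Λ.C k) ∨
    (c ∉ Set.range Λ.C ∧ ip Λ.B c c = -1 ∧ ip Λ.B Λ.K c = -1) ∨
    (c ∉ Set.range Λ.C ∧ ip Λ.B c c = -2 ∧ ip Λ.B Λ.K c = 0 ∧ ∀ k, ip Λ.B (Λ.C k) c = 0) := by
  have h1 := N.adj c hc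
  obtain ⟨m, h2⟩ := N.par c
  by_cases hr : c ∈ Set.range Λ.C
  · obtain ⟨k, rfl⟩ := hr
    exact .inl ⟨k, rfl⟩
  · have h3 := Finset.sum_nonneg (s := Finset.univ) fun k _ => Cc N hc hr k
    have h4 := sumK N c
    by_cases h5 : ip Λ.B c c = -1
    · exact .inr (.inl ⟨hr, h5, by omega⟩)
    · refine .inr (.inr ⟨hr, by omega, by omega, fun k => ?_⟩)
      exact (Finset.sum_eq_zero_iff_of_nonneg fun k _ => Cc N hc hr k).1 (by omega) k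
        (Finset.mem_univ k)

theorem gen (c : ι → ℤ) : c ∈ AddSubgroup.closure Λ.P := by
  have sub : ∀ z, Λ.Nef z → z ∈ AddSubgroup.closure Λ.P := fun z hz =>
    AddSubmonoid.closure_le (S := (AddSubgroup.closure Λ.P).toAddSubmonoid).2
      AddSubgroup.subset_closure (nef_ef N hz (ne N hz))
  obtain ⟨y, h1, h2⟩ := N.dif c
  have := sub_mem (sub _ h1) (sub _ h2)
  rwa [sub_sub_cancel] at this

theorem span (U : Submodule ℝ (ι → ℝ)) (h : ∀ c ∈ Λ.P, toR c ∈ U) : U = ⊤ := by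
  classical
  have all : ∀ c, toR c ∈ U := fun c => by
    have hc := gen N c
    induction hc using AddSubgroup.closure_induction with
    | mem x hx => exact h x hx
    | zero => rw [toR_zero]; exact zero_mem _
    | add x z _ _ h1 h2 => rw [toR_add]; exact add_mem h1 h2
    | neg x _ h1 => rw [toR_neg]; exact neg_mem h1
  refine eq_top_iff.2 fun v _ => ?_
  have e : v = ∑ i, v i • toR (Pi.single i 1) := by
    funext j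
    simp [toR, Finset.sum_apply, Pi.single_apply]
  rw [e]
  exact sum_mem fun i _ => U.smul_mem _ (all _)

theorem cone1 (H : Hg Λ.B) (u v : ι → ℝ) (hu : 0 ≤ ip Λ.B u u) (hv : 0 ≤ ip Λ.B v v)
    (a : 0 ≤ ip Λ.B (toR Λ.h) u) (b : 0 ≤ ip Λ.B (toR Λ.h) v) : 0 ≤ ip Λ.B u v := by
  have p : 0 < ip Λ.B (toR Λ.h) (toR Λ.h) := by rw [ip_toR]; exact_mod_cast hh N
  have le : ∀ w, ip Λ.B (toR Λ.h) w = 0 → w = 0 ∨ ip Λ.B w w < 0 := fun w hw =>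
    or_iff_not_imp_left.2 (H.neg _ w p ((ip_comm N.sym _ _).trans hw))
  rcases a.eq_or_lt with a | a
  · rw [(le u a.symm).resolve_right (not_lt.2 hu), ip_zero_left]
  rcases b.eq_or_lt with b | b
  · rw [(le v b.symm).resolve_right (not_lt.2 hv), ip_zero_right]
  have h1 : ip Λ.B (ip Λ.B (toR Λ.h) v • u - ip Λ.B (toR Λ.h) u • v)
      (ip Λ.B (toR Λ.h) v • u - ip Λ.B (toR Λ.h) u • v) ≤ 0 := by
    rcases le (ip Λ.B (toR Λ.h) v • u - ip Λ.B (toR Λ.h) u • v) (by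
      rw [ip_sub_right, ip_smul_right, ip_smul_right]; ring) with e | e
    · rw [e, ip_zero_left]
    · exact e.le
  simp only [ip_sub_left, ip_sub_right, ip_smul_left, ip_smul_right, ip_comm N.sym v u] at h1
  refine nonneg_of_mul_nonneg_right (b := ip Λ.B u v) ?_ (mul_pos a b)
  nlinarith [mul_nonneg (mul_self_nonneg (ip Λ.B (toR Λ.h) v)) hu,
    mul_nonneg (mul_self_nonneg (ip Λ.B (toR Λ.h) u)) hv]

end Lb

open Lb in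
theorem lb_stmt : LbStmt := fun _ _ _ _ Λ N H =>
  { efn := fun _ hy _ hc => efn hy hc
    efr := fun _ hL _ hc => efr hL hc
    nefr := fun y => forall₂_congr fun c _ => by rw [ip_toR, Int.cast_nonneg_iff]
    hef := fun _ hc => hef N hc
    hh := hh N
    hK := hK N
    pn := fun c hc h c' hc' => by
      by_cases e : c = c'
      · exact e ▸ h
      · exact N.pos c hc c' hc' e
    comp := fun _ he _ hc h => (comp N he hc).resolve_right (not_le.2 h)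
    pick := fun y hy e he h0 => by
      obtain ⟨c, hc, h⟩ := (pk he).resolve_left h0
      have := efn hy h
      rw [ip_sub_right] at this
      exact ⟨c, hc, h, by omega⟩
    KC := KC N
    KK := KK N
    Cc := fun _ hc => Cc N hc
    sumK := sumK N
    neg := fun _ hc => neg N hc
    pat := fun e h0 h1 => two_cases h0 (by rw [sumK N, h1]; rfl)
    ne := fun _ hy => ⟨ne N hy, nef_ef N hy (ne N hy)⟩
    rrn := fun c y hy h1 h2 => (N.rr c h1).resolve_right fun e => by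
      have := efn hy e
      rw [ip_sub_right] at this
      omega
    span := span N
    gen := gen N
    cone1 := cone1 N H
    cone2 := fun u v hu hv huv a => not_le.1 fun b => by
      have := cone1 N H u (-v) hu (by rwa [ip_neg_left, ip_neg_right, neg_neg]) a
        (by rw [ip_neg_right]; linarith)
      rw [ip_neg_right] at this
      linarith
    inj := fun k l e => by_contra fun h => by
      have h1 := N.disj k l h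
      have h2 := N.m4 l
      rw [e] at h1
      omega }

end Pool.Agent.MP_20d318_ag.CC

end MrgPart1

-- ======== part 2: formerly Pool.Agent.MP_20d318_ag.CC.Xy
section MrgPart2

/-! The choice of the coefficients. -/

set_option autoImplicit false
set_option linter.unusedSectionVars false

namespace Pool.Agent.MP_20d318_ag.CC

namespace XyA

variable {κ R : Type} [Fintype κ] [Field R] [LinearOrder R] [IsStrictOrderedRing R]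
  {a : κ → Fin 4 → R} {t : R} {xh : κ → R}

/-- Removal of the largest row. -/
theorem optA [Nonempty κ] (h0 : ∀ k j, 0 ≤ a k j) (ht : ∀ k, ∑ j, a k j ≤ t)
    (ub : ∀ k j, a k j ≤ xh k) :
    ∃ (x : κ → R) (y : Fin 4 → R), (∀ k, 0 ≤ x k) ∧ (∀ j, 0 ≤ y j) ∧ (∀ k j, a k j ≤ x k + y j) ∧
      ∑ j, y j ≤ t ∧ (∀ k, x k ≤ xh k) ∧ ∀ k, ∑ l, x l + xh k ≤ ∑ l, xh l := by
  classical
  obtain ⟨m, hm⟩ := Finite.exists_max xh
  have hx : ∀ k, 0 ≤ xh k := fun k => (h0 k 0).trans (ub k 0)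
  refine ⟨Function.update xh m 0, a m, fun k => ?_, h0 m, fun k j => ?_, ht m, fun k => ?_,
    fun k => ?_⟩
  · by_cases e : k = m
    · simp [e]
    · simp [e, hx]
  · by_cases e : k = m
    · simp [e]
    · rw [Function.update_of_ne e]
      exact (ub k j).trans (le_add_of_nonneg_right (h0 m j))
  · by_cases e : k = m
    · simp [e, hx]
    · simp [e]
  · rw [Finset.sum_update_of_mem (Finset.mem_univ m), zero_add, Finset.sdiff_singleton_eq_erase,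
      ← Finset.sum_erase_add _ xh (Finset.mem_univ m)]
    exact add_le_add_right (hm k) _

/-- The solution of the linear program. -/
theorem optB (lp : LpStmt) (e0 : Fin 4 ≃ κ) (h0 : ∀ k j, 0 ≤ a k j) (ht : ∀ k, ∑ j, a k j ≤ t)
    (ub : ∀ k j, a k j ≤ xh k) :
    ∃ (x : κ → R) (y : Fin 4 → R), (∀ k, 0 ≤ x k) ∧ (∀ j, 0 ≤ y j) ∧ (∀ k j, a k j ≤ x k + y j) ∧
      ∑ j, y j ≤ t ∧ (∀ k, x k ≤ xh k) ∧ ∀ s : R,
      (∀ (e : Fin 4 ≃ κ) j j', a (e 0) j + a (e 1) j + a (e 2) j' + a (e 3) j' ≤ s) →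
      (∀ e : Fin 4 ≃ κ, ∑ j, a (e j) j ≤ s + t) → ∑ k, x k ≤ s := by
  obtain ⟨p, hp⟩ := Finite.exists_max fun p : Equiv.Perm (Fin 4) × Fin 4 × Fin 4 =>
    a (e0 (p.1 0)) p.2.1 + a (e0 (p.1 1)) p.2.1 + a (e0 (p.1 2)) p.2.2 + a (e0 (p.1 3)) p.2.2
  obtain ⟨q, hq⟩ := Finite.exists_max fun q : Equiv.Perm (Fin 4) => ∑ j, a (e0 (q j)) j
  obtain ⟨x, y, k1, k2, k3, k4, k5, k6⟩ := lp R (fun k => a (e0 k)) t
    (max (a (e0 (p.1 0)) p.2.1 + a (e0 (p.1 1)) p.2.1 + a (e0 (p.1 2)) p.2.2 +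
      a (e0 (p.1 3)) p.2.2) (∑ j, a (e0 (q j)) j - t)) (fun k => h0 _) (fun k => ht _)
    (fun e j j' => (hp (e, j, j')).trans (le_max_left _ _))
    (fun e => (hq e).trans (sub_le_iff_le_add.1 (le_max_right _ _)))
  refine ⟨fun k => x (e0.symm k), y, fun k => k1 _, k2, fun k j => ?_, k4, fun k => ?_,
    fun s h1 h2 => ?_⟩
  · simpa using k3 (e0.symm k) j
  · obtain ⟨j, hj⟩ := k6 (e0.symm k)
    exact hj.trans (by simpa using ub k j)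
  · rw [Equiv.sum_comp e0.symm x]
    exact k5.trans (max_le (h1 (p.1.trans e0) _ _) (sub_le_iff_le_add.2 (h2 (q.trans e0))))

end XyA

theorem xy_stmt : XyStmt := by
  intro lp R κ _ _ _ _ _ a t h0 ht
  choose j hj using fun k => Finite.exists_max (a k)
  obtain ⟨x, y, k1, k2, k3, k4, k5, k6⟩ := XyA.optA (xh := fun k => a k (j k)) h0 ht hj
  by_cases he : Nonempty (Fin 4 ≃ κ)
  · obtain ⟨x', y', l1, l2, l3, l4, l5, l6⟩ := XyA.optB (xh := fun k => a k (j k)) lp he.some h0 ht hj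
    rcases le_total (∑ k, x k) (∑ k, x' k) with h | h
    · exact ⟨_, x, y, k1, k2, k3, k4, fun k => ⟨_, rfl⟩, hj, k5, k6,
        fun s _ h1 h2 => h.trans (l6 s h1 h2)⟩
    · exact ⟨_, x', y', l1, l2, l3, l4, fun k => ⟨_, rfl⟩, hj, l5,
        fun k => (add_le_add_left h _).trans (k6 k), fun s _ => l6 s⟩
  · exact ⟨_, x, y, k1, k2, k3, k4, fun k => ⟨_, rfl⟩, hj, k5, k6, fun s h => absurd h he⟩

end Pool.Agent.MP_20d318_ag.CC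

end MrgPart2

-- ======== part 3: formerly Pool.Agent.MP_20d318_ag.CC.Mg3
section MrgPart3

/-! One block, and a standard system. -/

set_option autoImplicit false
set_option linter.unusedSectionVars false

namespace Pool.Agent.MP_20d318_ag.CC

open Pool.Agent.MP_20d318_ag.Lat hiding act
open Pool.Agent.MP_20d318_ag.CB

namespace Mg3

variable {ι κ : Type} [Fintype ι] [Fintype κ] {Λ : Ld ι κ} {T S : Finset (ι → ℤ)}
  {f s : ι → ℤ} {m : ℤ}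

/-- An orthonormal system orthogonal to `T`. -/
structure ON (Λ : Ld ι κ) (T S : Finset (ι → ℤ)) : Prop where
  pp : ∀ e ∈ S, Pp Λ T e
  sq : ∀ e ∈ S, ip Λ.B e e = -1
  orth : ∀ e ∈ S, ∀ e' ∈ S, e ≠ e' → ip Λ.B e e' = 0
  K : ∀ e ∈ S, ip Λ.B e Λ.K = -1

theorem sd (h : ON Λ T S) (hc : S.card = 10) {H : ι → ℤ} (h1 : Pp Λ T H) (h2 : ip Λ.B H H = 1)
    (h3 : ∀ e ∈ S, ip Λ.B H e = 0) (h4 : ip Λ.B H Λ.K = -3) : SD Λ T := by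
  let e := (S.equivFinOfCardEq hc).symm
  refine ⟨H, fun i => e i, h1, fun i => h.pp _ (e i).2, h2, fun i => h3 _ (e i).2, fun i j => ?_,
    h4, fun i => h.K _ (e i).2⟩
  split_ifs with k
  · rw [k]
    exact h.sq _ (e j).2
  · exact h.orth _ (e i).2 _ (e j).2 fun v => k (e.injective (Subtype.ext v))

theorem ins (sy : ∀ i j, Λ.B i j = Λ.B j i) (h : ON Λ T S) {v : ι → ℤ} (h1 : Pp Λ T v)
    (h2 : ip Λ.B v v = -1) (h3 : ip Λ.B v Λ.K = -1) (h4 : ∀ e ∈ S, ip Λ.B v e = 0) :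
    ON Λ T (insert v S) ∧ (insert v S).card = S.card + 1 := by
  refine ⟨⟨?_, ?_, ?_, ?_⟩, Finset.card_insert_of_notMem fun k => by have := h4 v k; omega⟩
  · simpa only [Finset.forall_mem_insert] using ⟨h1, h.pp⟩
  · simpa only [Finset.forall_mem_insert] using ⟨h2, h.sq⟩
  · simp only [Finset.forall_mem_insert]
    exact ⟨⟨fun k => absurd rfl k, fun e k _ => h4 e k⟩,
      fun e k => ⟨fun _ => by rw [ip_comm sy, h4 e k], h.orth e k⟩⟩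
  · simpa only [Finset.forall_mem_insert] using ⟨h3, h.K⟩

/-- A ruled base. -/
structure RU (Λ : Ld ι κ) (T S : Finset (ι → ℤ)) (f s : ι → ℤ) (m : ℤ) : Prop where
  on : ON Λ T S
  pf : Pp Λ T f
  ps : Pp Λ T s
  ff : ip Λ.B f f = 0
  fs : ip Λ.B f s = 1
  ss : ip Λ.B s s = m
  fK : ip Λ.B f Λ.K = -2
  sK : ip Λ.B s Λ.K = -m - 2
  o : ∀ e ∈ S, ip Λ.B f e = 0 ∧ ip Λ.B s e = 0

theorem pp_sub {u v : ι → ℤ} (h : Pp Λ T u) (k : Pp Λ T v) : Pp Λ T (u - v) := fun e he => by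
  rw [ip_sub_left, h e he, k e he, sub_zero]

theorem RU.elem (sy : ∀ i j, Λ.B i j = Λ.B j i) (h : RU Λ T S f s m) {η : ι → ℤ} (k : η ∈ S) :
    RU Λ (insert (f - η) T) (S.erase η) f (s - η) (m - 1) ∧ ip Λ.B (f - η) (f - η) = -1 ∧
      ip Λ.B (f - η) Λ.K = -1 := by
  have c := ip_comm (R := ℤ) sy
  obtain ⟨a1, a2⟩ := h.o η k
  have a3 := h.on.sq η k
  have a4 := h.on.K η k
  have a5 : ∀ e ∈ S.erase η, ip Λ.B e η = 0 := fun e he =>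
    h.on.orth e (Finset.mem_of_mem_erase he) η k (Finset.ne_of_mem_erase he)
  have m' : ∀ {e}, e ∈ S.erase η → e ∈ S := Finset.mem_of_mem_erase
  have p : ∀ v, Pp Λ T v → ip Λ.B v f = ip Λ.B v η → Pp Λ (insert (f - η) T) v := fun v h1 h2 => by
    simpa only [Pp, Finset.forall_mem_insert] using ⟨by rw [ip_sub_right, h2, sub_self], h1⟩
  refine ⟨⟨⟨fun e he => p e (h.on.pp e (m' he)) ?_, fun e he => h.on.sq e (m' he),
    fun e he e' he' => h.on.orth e (m' he) e' (m' he'), fun e he => h.on.K e (m' he)⟩,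
    p f h.pf (by rw [h.ff, a1]), p _ (pp_sub h.ps (h.on.pp η k)) ?_, h.ff, ?_, ?_, h.fK, ?_,
    fun e he => ⟨(h.o e (m' he)).1, ?_⟩⟩, ?_, ?_⟩
  · rw [a5 e he, c, (h.o e (m' he)).1]
  · rw [ip_sub_left, ip_sub_left, c s, c η f, h.fs, a1, a2, a3]; ring
  · rw [ip_sub_right, h.fs, a1]; ring
  · rw [ip_sub_left, ip_sub_right, ip_sub_right, c η s, h.ss, a2, a3]; ring
  · rw [ip_sub_left, h.sK, a4]; ring
  · rw [ip_sub_left, (h.o e (m' he)).2, c, a5 e he]; ring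
  · rw [ip_sub_left, ip_sub_right, ip_sub_right, c η f, h.ff, a1, a3]; ring
  · rw [ip_sub_left, h.fK, a4]; ring

theorem RU.odd (sy : ∀ i j, Λ.B i j = Λ.B j i) (h : RU Λ T S f s m) (hc : S.card = 9) {r : ℤ}
    (hm : m = 2 * r - 1) : SD Λ T := by
  have c := ip_comm (R := ℤ) sy
  have p : ∀ r : ℤ, Pp Λ T (s - r • f) := fun r e he => by
    rw [ip_sub_left, ip_smul_left, h.ps e he, h.pf e he]; ring
  have q : ∀ r r' : ℤ, ip Λ.B (s - r • f) (s - r' • f) = m - r - r' := fun r r' => by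
    simp only [ip_sub_left, ip_sub_right, ip_smul_left, ip_smul_right, c s f, h.ff, h.fs, h.ss]
    ring
  have u : ∀ r : ℤ, ip Λ.B (s - r • f) Λ.K = -m - 2 + 2 * r := fun r => by
    rw [ip_sub_left, ip_smul_left, h.sK, h.fK]; ring
  have w : ∀ r : ℤ, ∀ e ∈ S, ip Λ.B (s - r • f) e = 0 := fun r e he => by
    rw [ip_sub_left, ip_smul_left, (h.o e he).1, (h.o e he).2]; ring
  obtain ⟨i1, i2⟩ := ins sy h.on (p r) (by rw [q]; omega) (by rw [u]; omega) (w r)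
  refine sd i1 (by omega) (p (r - 1)) (by rw [q]; omega) ?_ (by rw [u]; omega)
  simpa only [Finset.forall_mem_insert] using ⟨by rw [q]; omega, w _⟩

theorem RU.fin (sy : ∀ i j, Λ.B i j = Λ.B j i) (h : RU Λ T S f s m) (hc : S.card = 9) :
    SD Λ T := by
  rcases Int.emod_two_eq_zero_or_one m with k | k
  · obtain ⟨η, hη⟩ := Finset.card_pos.1 (show 0 < S.card by omega)
    obtain ⟨g, g1, g2⟩ := h.elem sy hη
    have p : ∀ v, Pp Λ (insert (f - η) T) v → Pp Λ T v := fun v hv e he =>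
      hv e (Finset.mem_insert_of_mem he)
    have z := Finset.mem_insert_self (f - η) T
    obtain ⟨i1, i2⟩ := ins sy (T := T) ⟨fun e he => p e (g.on.pp e he), g.on.sq, g.on.orth, g.on.K⟩
      (pp_sub h.pf (h.on.pp η hη)) g1 g2 fun e he => by rw [ip_comm sy, g.on.pp e he _ z]
    refine RU.odd sy (r := m / 2) ⟨i1, h.pf, p _ g.ps, g.ff, g.fs, g.ss, g.fK, g.sK, ?_⟩
      (by rw [i2, Finset.card_erase_of_mem hη]; omega) (by omega)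
    simpa only [Finset.forall_mem_insert] using ⟨⟨g.pf _ z, g.ps _ z⟩, g.o⟩
  · exact h.odd sy hc (r := (m + 1) / 2) (by omega)

end Mg3

open Classical Mg3 Finset in
theorem mg3_stmt : Mg3Stmt := by
  intro ι κ _ _ Λ N ε b mg st ⟨J, blk, c, hJ, ms, hb⟩
  have sy := b.nc.sym
  have cm := ip_comm (R := ℤ) sy
  have hs : ∀ j < N, ip Λ.B (ε j) (∑ i ∈ range N, ε i) = -1 := fun j hj => by
    rw [ip_sum_right, sum_eq_single j (fun i hi k => st.orth j hj i (mem_range.1 hi) k.symm)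
      fun k => absurd (mem_range.2 hj) k, st.sq j hj]
  have h0 : ∀ v, (∀ j < N, ip Λ.B v (ε j) = 0) → ip Λ.B v (∑ i ∈ range N, ε i) = 0 ∧
      Pp Λ (J.image ε) v := fun v hv => ⟨by
    rw [ip_sum_right]; exact sum_eq_zero fun i hi => hv i (mem_range.1 hi), fun e he => by
    obtain ⟨j, hj, rfl⟩ := mem_image.1 he
    exact hv j (mem_range.1 (hJ hj))⟩
  have eK : ∀ j < N, ip Λ.B (ε j) Λ.K = -1 := fun j hj => by
    rcases st.base with ⟨H, -, h1, h2, -⟩ | ⟨f, s, m, -, -, -, h1, -, h2, -⟩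
    · rw [h2, ip_add_right, ip_smul_right, cm _ H, h1 j hj, hs j hj]; ring
    · rw [h2, ip_add_right, ip_sub_right, ip_smul_right, ip_smul_right, cm _ f, cm _ s,
        (h1 j hj).1, (h1 j hj).2, hs j hj]; ring
  have sK : ∀ v, ∑ k, ip Λ.B v (Λ.C k) = -2 * ip Λ.B v Λ.K := fun v => by
    rw [cm v, ← b.lb.sumK]
    exact sum_congr rfl fun k _ => cm _ _
  have pe : ∀ j ∈ range N \ J, Pp Λ (J.image ε) (ε j) := fun j hj e he => by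
    obtain ⟨i, hi, rfl⟩ := mem_image.1 he
    obtain ⟨j1, j2⟩ := mem_sdiff.1 hj
    exact st.orth j (mem_range.1 j1) i (mem_range.1 (hJ hi)) fun k => j2 (k ▸ hi)
  have xb : ∀ j < N, ∃ k, ∀ β, ∑ l with blk l = β, ip Λ.B (ε j) (Λ.C l) =
      if β = blk k then 2 else 0 := fun j hj => by
    have h2 := sK (ε j)
    rw [eK j hj] at h2
    obtain ⟨k, -, hk⟩ := exists_ne_zero_of_sum_ne_zero (h2.trans_ne (by norm_num))
    have h3 : ∀ l, ip Λ.B (ε j) (Λ.C l) ≠ 0 → blk l = blk k := fun l hl =>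
      hb j hj l k (by rwa [cm]) (by rwa [cm])
    refine ⟨k, fun β => ?_⟩
    split_ifs with e
    · rw [e, sum_filter_of_ne fun l _ => h3 l, h2]; norm_num
    · exact sum_eq_zero fun l hl => by_contra fun v => e ((mem_filter.1 hl).2.symm.trans (h3 l v))
  have yJ : ∀ β, ∀ j ∈ J, ip Λ.B (c β) (ε j) = 0 := fun β j hj => ms.pp β _ (mem_image_of_mem ε hj)
  have yS : ∀ j ∈ range N \ J, ∃ k, ∀ β, ip Λ.B (c β) (ε j) = if β = blk k then 2 else 0 :=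
    fun j hj => by
      obtain ⟨k, hk⟩ := xb j (mem_range.1 (mem_sdiff.1 hj).1)
      exact ⟨k, fun β => by rw [cm, ms.val β _ (pe j hj), hk]⟩
  have yr : ∀ g : ℕ → ℤ, (∀ j ∈ J, g j = 0) → ∑ j ∈ range N, g j = ∑ j ∈ range N \ J, g j :=
    fun g hg => by rw [← sum_sdiff hJ, sum_eq_zero hg, add_zero]
  have y0 : ∀ β β', β ≠ β' → ∑ j ∈ range N, ip Λ.B (c β) (ε j) * ip Λ.B (c β') (ε j) = 0 :=
    fun β β' e => by
      rw [yr _ fun j hj => by rw [yJ β j hj, zero_mul]]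
      refine sum_eq_zero fun j hj => ?_
      obtain ⟨k, hk⟩ := yS j hj
      rw [hk, hk]
      split_ifs with u v
      exacts [absurd (u.trans v.symm) e, by ring, by ring, by ring]
  have y4 : ∀ β, (∀ j ∈ range N \ J, ip Λ.B (c β) (ε j) = 2) →
      ∑ j ∈ range N, ip Λ.B (c β) (ε j) * ip Λ.B (c β) (ε j) = 4 * (range N \ J).card :=
    fun β e => by
      rw [yr _ fun j hj => by rw [yJ β j hj, zero_mul],
        sum_congr rfl fun j hj => by rw [e j hj], sum_const]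
      simp [mul_comm]
  have nz : ∀ k, ∑ l with blk l = blk k, Λ.C l ≠
      -∑ j ∈ range N, ip Λ.B (∑ l with blk l = blk k, Λ.C l) (ε j) • ε j := fun k e => by
    have i1 : 0 < ip Λ.B Λ.h (∑ l with blk l = blk k, Λ.C l) := by
      rw [ip_sum_right]
      exact sum_pos (fun l _ => b.nc.hpos _ (b.nc.memC l)) ⟨k, by simp⟩
    rw [e, ip_neg_right, ip_sum_right] at i1
    refine absurd (sum_nonneg fun j hj => ?_) (not_le.2 (neg_pos.1 i1))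
    have hj := mem_range.1 hj
    obtain ⟨k', hk⟩ := xb j hj
    rw [ip_smul_right, cm _ (ε j), ip_sum_right, hk]
    refine mul_nonneg (by split_ifs <;> norm_num) (b.lb.hef _ (st.ef j hj) fun v => ?_).le
    have := st.sq j hj
    rw [v, ip_zero_left] at this
    omega
  have on : ON Λ (J.image ε) ((range N \ J).image ε) := by
    refine ⟨?_, ?_, ?_, ?_⟩ <;> simp only [forall_mem_image]
    · exact pe
    · exact fun j hj => st.sq j (mem_range.1 (mem_sdiff.1 hj).1)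
    · exact fun i hi j hj e => st.orth i (mem_range.1 (mem_sdiff.1 hi).1) j
        (mem_range.1 (mem_sdiff.1 hj).1) fun v => e (by rw [v])
    · exact fun j hj => eK j (mem_range.1 (mem_sdiff.1 hj).1)
  have cd : ((range N \ J).image ε).card = (range N \ J).card :=
    card_image_of_injOn fun i hi j hj e => by_contra fun v => by
      have hi := mem_range.1 (mem_sdiff.1 hi).1
      have := st.orth i hi j (mem_range.1 (mem_sdiff.1 hj).1) v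
      rw [← e, st.sq i hi] at this
      omega
  have vl : ∀ β v, Pp Λ (J.image ε) v → ip Λ.B (∑ l with blk l = β, Λ.C l) v = ip Λ.B (c β) v :=
    fun β v hv => by rw [cm, cm (c β), ms.val β v hv, ip_sum_right]
  have one : (∀ k l, blk k = blk l) → (∀ v, Pp Λ (J.image ε) v →
      ip Λ.B (c (blk Λ.k0)) v = -2 * ip Λ.B v Λ.K) ∧
      ∀ j ∈ range N \ J, ip Λ.B (c (blk Λ.k0)) (ε j) = 2 := fun h => ⟨fun v hv => by
    rw [cm, ms.val _ v hv, filter_true_of_mem fun l _ => h l _, sK], fun j hj => by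
    obtain ⟨k, hk⟩ := yS j hj
    rw [hk, if_pos (h _ _)]⟩
  have oe : ∀ v, (∀ j < N, ip Λ.B v (ε j) = 0) → ∀ e ∈ (range N \ J).image ε, ip Λ.B v e = 0 :=
    fun v hv => by
      simp only [forall_mem_image]
      exact fun j hj => hv j (mem_range.1 (mem_sdiff.1 hj).1)
  rcases st.base with ⟨H, h1, h2, h3, h4⟩ | ⟨f, s, m, h1, h2, h3, h4, h5, h6, h7⟩
  · have q : ∀ v w, ip Λ.B v w = ip Λ.B v H * ip Λ.B w H -
        ∑ j ∈ range N, ip Λ.B v (ε j) * ip Λ.B w (ε j) := fun v w => by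
      conv_lhs => rw [cm, h4 v]
      simp only [ip_sub_right, ip_smul_right, ip_sum_right]
    have HK : ip Λ.B H Λ.K = -3 := by rw [h3, ip_add_right, ip_smul_right, h1, (h0 H h2).1]; ring
    have a0 : ∀ k, ip Λ.B (c (blk k)) H ≠ 0 := fun k e => nz k (by
      conv_lhs => rw [h4 (∑ l with blk l = blk k, Λ.C l), vl _ H (h0 H h2).2, e, zero_smul,
        zero_sub])
    have o : ∀ k l, blk k = blk l := fun k l => by_contra fun e => by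
      have := q (c (blk k)) (c (blk l))
      rw [ms.orth _ _ e, y0 _ _ e, sub_zero] at this
      exact mul_ne_zero (a0 k) (a0 l) this.symm
    have := q (c (blk Λ.k0)) (c (blk Λ.k0))
    rw [ms.sq, y4 _ (one o).2, (one o).1 H (h0 H h2).2, HK] at this
    exact ⟨_, blk, c, ms, o, sd on (by omega) (h0 H h2).2 h1 (oe H h2) HK⟩
  · obtain ⟨f0, pf⟩ := h0 f fun j hj => (h4 j hj).1
    obtain ⟨s0, ps⟩ := h0 s fun j hj => (h4 j hj).2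
    have dec : ∀ v, v = ip Λ.B v f • s + (ip Λ.B v s - m * ip Λ.B v f) • f -
        ∑ j ∈ range N, ip Λ.B v (ε j) • ε j := fun v => by
      obtain ⟨β, e⟩ := h7 v
      have : ip Λ.B s v = ip Λ.B v f * m + β := by
        conv_lhs => rw [e]
        simp only [ip_sub_right, ip_add_right, ip_smul_right, ip_sum_right, h3, cm s f, h2]
        rw [sum_eq_zero fun j hj => by rw [(h4 j (mem_range.1 hj)).2, mul_zero]]
        ring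
      rwa [cm v s, this, show ip Λ.B v f * m + β - m * ip Λ.B v f = β by ring]
    have q : ∀ v w, ip Λ.B v w = ip Λ.B v f * ip Λ.B w s +
        (ip Λ.B v s - m * ip Λ.B v f) * ip Λ.B w f -
        ∑ j ∈ range N, ip Λ.B v (ε j) * ip Λ.B w (ε j) := fun v w => by
      conv_lhs => rw [cm, dec v]
      simp only [ip_sub_right, ip_add_right, ip_smul_right, ip_sum_right]
    have fK : ip Λ.B f Λ.K = -2 := by
      rw [h6, ip_add_right, ip_sub_right, ip_smul_right, ip_smul_right, h1, h2, f0]; ring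
    have sK' : ip Λ.B s Λ.K = -m - 2 := by
      rw [h6, ip_add_right, ip_sub_right, ip_smul_right, ip_smul_right, cm s f, h2, h3, s0]; ring
    have ru : RU Λ _ _ f s m := ⟨on, pf, ps, h1, h2, h3, fK, sK', fun e he =>
      ⟨oe f (fun j hj => (h4 j hj).1) e he, oe s (fun j hj => (h4 j hj).2) e he⟩⟩
    by_cases o : ∀ k l, blk k = blk l
    · have := q (c (blk Λ.k0)) (c (blk Λ.k0))
      rw [ms.sq, y4 _ (one o).2, (one o).1 f pf, (one o).1 s ps, fK, sK'] at this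
      exact ⟨_, blk, c, ms, o, ru.fin sy (by omega)⟩
    have sv : ∀ v, Pp Λ (J.image ε) v → ∑ β, ip Λ.B (c β) v = -2 * ip Λ.B v Λ.K := fun v hv => by
      rw [← sK, ← sum_fiberwise univ blk fun k => ip Λ.B v (Λ.C k)]
      exact sum_congr rfl fun β _ => by rw [cm, ms.val β v hv]
    have q0 : ∀ β β', β ≠ β' → ip Λ.B (c β) f * ip Λ.B (c β') s +
        (ip Λ.B (c β) s - m * ip Λ.B (c β) f) * ip Λ.B (c β') f = 0 := fun β β' e => by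
      have := q (c β) (c β')
      rw [ms.orth _ _ e, y0 _ _ e, sub_zero] at this
      exact this.symm
    have ty : ∀ k, (ip Λ.B (c (blk k)) f = 1 ∧ 2 * ip Λ.B (c (blk k)) s = m - 4) ∨
        (ip Λ.B (c (blk k)) f = 3 ∧ 2 * ip Λ.B (c (blk k)) s = 3 * m + 12) ∨
        (ip Λ.B (c (blk k)) f = 4 ∧ 2 * ip Λ.B (c (blk k)) s = 4 * m + 8) := fun k => by
      have i1 := sum_eq_single (s := univ) (f := fun β => ip Λ.B (c (blk k)) f * ip Λ.B (c β) s +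
        (ip Λ.B (c (blk k)) s - m * ip Λ.B (c (blk k)) f) * ip Λ.B (c β) f) (blk k)
        (fun β _ e => q0 _ _ e.symm) fun v => absurd (mem_univ _) v
      rw [sum_add_distrib, ← mul_sum, ← mul_sum, sv f pf, sv s ps, fK, sK'] at i1
      have p : ∀ l, 0 ≤ ip Λ.B f (Λ.C l) := fun l => h5 _ (b.nc.memC l)
      have i2 : 0 ≤ ip Λ.B (c (blk k)) f := by
        rw [cm, ms.val _ f pf]; exact sum_nonneg fun l _ => p l
      have i3 : ip Λ.B (c (blk k)) f ≤ 4 := by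
        rw [cm, ms.val _ f pf, show (4 : ℤ) = -2 * ip Λ.B f Λ.K by rw [fK]; rfl, ← sK]
        exact sum_le_sum_of_subset_of_nonneg (filter_subset _ _) fun l _ _ => p l
      have i4 : ¬(ip Λ.B (c (blk k)) f = 0 ∧ ip Λ.B (c (blk k)) s = 0) := fun e => nz k (by
        conv_lhs => rw [dec (∑ l with blk l = blk k, Λ.C l), vl _ f pf, vl _ s ps, e.1, e.2]
        simp)
      generalize ip Λ.B (c (blk k)) f = α at *
      generalize ip Λ.B (c (blk k)) s = σ at *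
      interval_cases α <;> omega
    have two : ∀ k l, blk k ≠ blk l → ip Λ.B (c (blk k)) f + ip Λ.B (c (blk l)) f = 4 ∧
        ip Λ.B (c (blk k)) f ≠ ip Λ.B (c (blk l)) f := fun k l e => by
      have := q0 _ _ e
      rcases ty k with u | u | u <;> rcases ty l with v | v | v <;> rw [u.1, v.1] at this ⊢ <;>
        omega
    obtain ⟨k, l, e, u, v⟩ : ∃ k l, blk k ≠ blk l ∧ (ip Λ.B (c (blk k)) f = 3 ∧
        2 * ip Λ.B (c (blk k)) s = 3 * m + 12) ∧ ip Λ.B (c (blk l)) f = 1 ∧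
        2 * ip Λ.B (c (blk l)) s = m - 4 := by
      push Not at o
      obtain ⟨k, l, e⟩ := o
      have := two k l e
      rcases ty k with u | u | u <;> rcases ty l with v | v | v
      exacts [by omega, ⟨l, k, e.symm, v, u⟩, by omega, ⟨k, l, e, u, v⟩, by omega, by omega,
        by omega, by omega, by omega]
    have al : ∀ x, blk x = blk k ∨ blk x = blk l := fun x => by_contra fun w => by
      have i1 := two x k fun t => w (Or.inl t)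
      have i2 := two x l fun t => w (Or.inr t)
      omega
    have i1 := q (c (blk l)) (c (blk l))
    rw [ms.sq, v.1] at i1
    have z : ∀ j ∈ range N, ip Λ.B (c (blk l)) (ε j) = 0 := fun j hj => mul_self_eq_zero.1
      ((sum_eq_zero_iff_of_nonneg fun j _ => mul_self_nonneg (ip Λ.B (c (blk l)) (ε j))).1
        (by omega) j hj)
    have w : ∀ j ∈ range N \ J, ip Λ.B (c (blk k)) (ε j) = 2 := fun j hj => by
      obtain ⟨x, hx⟩ := yS j hj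
      have := z j (mem_sdiff.1 hj).1
      rw [hx] at this ⊢
      rcases al x with t | t
      · rw [if_pos t.symm]
      · rw [if_pos t.symm] at this; omega
    have i2 := q (c (blk k)) (c (blk k))
    rw [ms.sq, u.1, y4 _ w] at i2
    obtain ⟨j, hj⟩ := card_pos.1 (show 0 < (range N \ J).card by omega)
    have hj' := mem_image_of_mem ε hj
    obtain ⟨g, g1, -⟩ := ru.elem sy hj'
    obtain ⟨blk', c', -, ms', r1, r2⟩ := mg.step _ blk c ms (f - ε j) k l (pp_sub pf (pe j hj)) g1 e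
      (by rw [cm, ip_sub_right, u.1, w j hj]; ring)
      (by rw [cm, ip_sub_right, v.1, z j (mem_sdiff.1 hj).1]; ring)
      fun β t1 t2 => by
        rw [ms.zero β, ip_zero_right]
        rintro ⟨x, rfl⟩
        exact (al x).elim t1 t2
    have r3 : ∀ x, blk' x = blk' k := fun x => (al x).elim (r2 _ _) fun t => (r2 _ _ t).trans r1.symm
    exact ⟨_, blk', c', ms', fun x y => (r3 x).trans (r3 y).symm,
      g.fin sy (by rw [card_erase_of_mem hj']; omega)⟩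

end Pool.Agent.MP_20d318_ag.CC

end MrgPart3

-- ======== part 4: formerly Pool.Agent.MP_20d318_ag.CC.En3
section MrgPart4

/-! The nef cone is rational polyhedral over a positive cone. -/

set_option autoImplicit false
set_option linter.unusedSectionVars false

namespace Pool.Agent.MP_20d318_ag.CC

open Pool.Agent.MP_20d318_ag.Lat hiding act
open Pool.Agent.MP_20d318_ag.CB

namespace En3

variable {ι κ : Type} [Fintype ι] [Fintype κ]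

/-- Forget the surface part. -/
def dr : W ι κ ℝ →ₗ[ℝ] W ι κ ℝ :=
  LinearMap.inr ℝ (ι → ℝ) (ℝ × (κ → Fin 4 → ℝ)) ∘ₗ LinearMap.snd ℝ (ι → ℝ) (ℝ × (κ → Fin 4 → ℝ))

theorem dr_mem {x : W ι κ ℝ} (hx : x ∈ LW ι κ) : dr x ∈ LW ι κ := by
  induction hx using AddSubgroup.closure_induction with
  | mem x hx =>
    obtain ⟨D, rfl⟩ := hx
    refine AddSubgroup.subset_closure ⟨(0, D.2), ?_⟩
    simp [toRW, dr, toR_zero]
  | zero => rw [map_zero]; exact zero_mem _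
  | add x y _ _ a b => rw [map_add]; exact add_mem a b
  | neg x _ a => rw [map_neg]; exact neg_mem a

theorem rp_base (R : Finset (ι → ℤ)) :
    RP (LW ι κ) {D : W ι κ ℝ | D.1 ∈ cone (toR '' (R : Set (ι → ℤ)))} := by
  classical
  obtain ⟨S, hS, hU⟩ := EndB3.rp_univ (ι := ι) (κ := κ)
  set R' : Finset (W ι κ ℝ) := R.image (fun r => toRW (r, 0, 0)) ∪ S.image dr with hR'
  have hc := isCone_cone (R' : Set (W ι κ ℝ))
  have e : ∀ r : ι → ℤ, (toRW (r, 0, 0) : W ι κ ℝ) = (toR r, 0) := fun r => by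
    simp [toRW, Prod.ext_iff, funext_iff]
  refine ⟨R', fun x hx => ?_, Set.Subset.antisymm ?_ fun D hD => ?_⟩
  · rcases Finset.mem_union.1 hx with hx | hx
    · obtain ⟨r, -, rfl⟩ := Finset.mem_image.1 hx
      exact AddSubgroup.subset_closure ⟨_, rfl⟩
    · obtain ⟨y, hy, rfl⟩ := Finset.mem_image.1 hx
      exact dr_mem (hS hy)
  · refine ((isCone_cone (toR '' (R : Set (ι → ℤ)))).preimage
      (LinearMap.fst ℝ (ι → ℝ) (ℝ × (κ → Fin 4 → ℝ)))).cone_subset fun x hx => ?_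
    rcases Finset.mem_union.1 hx with hx | hx
    · obtain ⟨r, hr, rfl⟩ := Finset.mem_image.1 hx
      exact subset_cone _ ⟨r, hr, rfl⟩
    · obtain ⟨y, -, rfl⟩ := Finset.mem_image.1 hx
      exact (isCone_cone _).zero
  · have h1 : D.1 ∈ (LinearMap.inl ℝ (ι → ℝ) (ℝ × (κ → Fin 4 → ℝ))) ⁻¹'
        cone (R' : Set (W ι κ ℝ)) := by
      refine (hc.preimage _).cone_subset ?_ hD
      rintro _ ⟨r, hr, rfl⟩
      refine subset_cone _ (Finset.mem_union_left _ (Finset.mem_image.2 ⟨r, hr, ?_⟩))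
      exact e r
    have h2 : D ∈ dr ⁻¹' cone (R' : Set (W ι κ ℝ)) := by
      refine (hc.preimage _).cone_subset (R := (S : Set (W ι κ ℝ))) (fun y hy => ?_)
        (hU ▸ Set.mem_univ D)
      exact subset_cone _ (Finset.mem_union_right _ (Finset.mem_image_of_mem _ hy))
    have := hc.add _ h1 _ h2
    simpa [dr] using this

/-- The classes against which degrees are bounded below. -/
def A (Λ : Ld ι κ) : Set (ι → ℤ) :=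
  {c | (∀ k, |ip Λ.B (Λ.C k) c| ≤ 4) ∧ -4 ≤ ip Λ.B c c ∧ 0 ≤ ip Λ.B Λ.h c}

/-- Bounded below on `A`. -/
def G (Λ : Ld ι κ) : Set (ι → ℝ) := {L | ∃ β : ℝ, ∀ c ∈ A Λ, -β ≤ ip Λ.B L (toR c)}

variable {Λ : Ld ι κ}

theorem G_cone : IsCone (G Λ) := by
  refine ⟨⟨0, fun c _ => by simp [ip_zero_left]⟩, ?_, ?_⟩
  · rintro x ⟨a, ha⟩ y ⟨b, hb⟩
    refine ⟨a + b, fun c hc => ?_⟩
    rw [ip_add_left]
    linarith [ha c hc, hb c hc]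
  · rintro t ht x ⟨a, ha⟩
    refine ⟨t * a, fun c hc => ?_⟩
    rw [ip_smul_left, ← mul_neg]
    exact mul_le_mul_of_nonneg_left (ha c hc) ht

theorem G_C (t : ℝ) (k : κ) : t • toR (Λ.C k) ∈ G Λ := by
  refine ⟨|t| * 4, fun c hc => ?_⟩
  rw [ip_smul_left, ip_toR]
  have h1 : |((ip Λ.B (Λ.C k) c : ℤ) : ℝ)| ≤ 4 := by exact_mod_cast hc.1 k
  have h2 := neg_abs_le (t * ((ip Λ.B (Λ.C k) c : ℤ) : ℝ))
  rw [abs_mul] at h2
  have h3 := mul_le_mul_of_nonneg_left h1 (abs_nonneg t)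
  linarith

theorem G_sub {L : ι → ℝ} (hL : L ∈ G Λ) (t : κ → ℝ) : L - ∑ k, t k • toR (Λ.C k) ∈ G Λ := by
  rw [sub_eq_add_neg, ← Finset.sum_neg_distrib]
  refine G_cone.add _ hL _ (G_cone.sum_mem _ _ fun k _ => ?_)
  rw [← neg_smul]
  exact G_C _ k

theorem G_pos (b : B0 Λ) {r : ι → ℤ} (hr : Pos Λ r) : toR r ∈ G Λ := by
  have h1 : toR (pz Λ r) ∈ G Λ := by
    refine ⟨2 * ((ip Λ.B (pz Λ r) Λ.h : ℤ) : ℝ), fun c hc => ?_⟩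
    have hh := b.lb.hh
    have k1 : 0 ≤ ip Λ.B (c + (2 : ℤ) • Λ.h) (c + (2 : ℤ) • Λ.h) := by
      simp only [ip_add_left, ip_add_right, ip_smul_left, ip_smul_right, ip_comm b.nc.sym c Λ.h]
      have := hc.2.1
      have := hc.2.2
      omega
    have k2 : 0 ≤ ip Λ.B Λ.h (c + (2 : ℤ) • Λ.h) := by
      simp only [ip_add_right, ip_smul_right]
      have := hc.2.2
      omega
    have := b.lb.cone1 (toR (pz Λ r)) (toR (c + (2 : ℤ) • Λ.h))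
      (by rw [ip_toR]; exact_mod_cast hr.1) (by rw [ip_toR]; exact_mod_cast k1)
      (by rw [ip_toR]; exact_mod_cast hr.2) (by rw [ip_toR]; exact_mod_cast k2)
    rw [ip_toR, ip_add_right, ip_smul_right] at this
    rw [ip_toR]
    have h3 : -(2 * ip Λ.B (pz Λ r) Λ.h) ≤ ip Λ.B (pz Λ r) c := by
      have : (0 : ℤ) ≤ ip Λ.B (pz Λ r) c + 2 * ip Λ.B (pz Λ r) Λ.h := by exact_mod_cast this
      omega
    exact_mod_cast h3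
  have h2 := G_cone.smul (1 / 4 : ℝ) (by norm_num) _
    (G_sub h1 fun k => ip Λ.B (toR r) (toR (Λ.C k)))
  rw [← pr4_toR, pr4, add_sub_cancel_right, smul_smul] at h2
  norm_num at h2
  exact h2

theorem neg_mem (b : B0 Λ) {c : ι → ℤ} (hc : c ∈ Λ.P) (h : ip Λ.B c c < 0) : c ∈ A Λ := by
  classical
  have h0 := (b.nc.hpos c hc).le
  rcases b.lb.neg c hc h with ⟨l, rfl⟩ | ⟨b1, b2, b3⟩ | ⟨-, b2, -, b3⟩
  · refine ⟨fun k => ?_, (b.nc.m4 l).ge, h0⟩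
    by_cases e : k = l
    · rw [e, b.nc.m4]
      norm_num
    · rw [b.nc.disj k l e]
      norm_num
  · refine ⟨fun k => ?_, by omega, h0⟩
    have s := b.lb.sumK c
    have l := Finset.single_le_sum (f := fun k => ip Λ.B (Λ.C k) c)
      (fun k _ => b.lb.Cc c hc b1 k) (Finset.mem_univ k)
    have p := b.lb.Cc c hc b1 k
    rw [abs_of_nonneg p]
    omega
  · refine ⟨fun k => ?_, by omega, h0⟩
    rw [b3 k]
    norm_num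

theorem hc_mem (b : B0 Λ) {c : ι → ℤ} (hc : c ∈ HC Λ) : c ∈ A Λ := by
  refine ⟨fun k => ?_, by rw [hc.2.1]; norm_num, ?_⟩
  · rw [hc.2.2.2 k]
    norm_num
  · rw [ip_comm b.nc.sym]
    exact b.lb.efn c hc.1 _ b.nc.heff

open Classical in
/-- The degrees of a curve in a quartic del Pezzo fibre. -/
noncomputable def Zb (e : Fin 4 ≃ κ) (c : ι → ℤ) : W ι κ ℤ :=
  (c, 1, fun k j => if k = e j then 1 else 0)

theorem fn_Zb (e : Fin 4 ≃ κ) (c : ι → ℤ) (D : W ι κ ℝ) :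
    EndB3.fn Λ.B (Zb e c) D = ip Λ.B D.1 (toR c) + D.2.1 - ∑ j, D.2.2 (e j) j := by
  classical
  simp only [EndB3.fn, ipW, Zb, toRW, LinearMap.coe_mk, AddHom.coe_mk, Int.cast_one, mul_one]
  rw [Finset.sum_comm]
  simp [apply_ite (Int.cast : ℤ → ℝ)]

end En3

open En3 EndB3 in
theorem en3_stmt : En3Stmt := by
  intro ι κ _ _ Λ R b _ c0 hR
  classical
  have q3 := rp_base (κ := κ) R
  obtain ⟨S, hS, hQ⟩ := id q3
  have hg : ∀ r ∈ S, r.1 ∈ G Λ := fun r hr => by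
    have : r ∈ cone (S : Set (W ι κ ℝ)) := subset_cone _ hr
    rw [hQ] at this
    refine G_cone.cone_subset ?_ this
    rintro _ ⟨y, hy, rfl⟩
    exact G_pos b (hR y hy)
  have hT := fun o : Option (Fin 4) => dick S {c | c ∈ Λ.P ∧ ip Λ.B c c < 0}
    (fun c => fn Λ.B (Zc Λ o c)) (fun r hr c _ => fn_int _ _ r (hS hr)) fun r hr => by
      obtain ⟨β, hβ⟩ := G_sub (hg r hr) fun k => o.elim 0 (r.2.2 k)
      simp only [fn_Zc]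
      exact ⟨β, fun c hc => hβ c (neg_mem b hc.1 hc.2)⟩
  have hT' := fun e : Fin 4 ≃ κ => dick S (HC Λ)
    (fun c => fn Λ.B (Zb e c)) (fun r hr c _ => fn_int _ _ r (hS hr)) fun r hr => by
      obtain ⟨β, hβ⟩ := hg r hr
      simp only [fn_Zb]
      refine ⟨β - r.2.1 + ∑ j, r.2.2 (e j) j, fun c hc => ?_⟩
      linarith [hβ c (hc_mem b hc)]
  choose T t1 t2 t3 using hT
  choose U u1 u2 u3 using hT'
  have fin : (Set.univ ×ˢ (⋃ o, T o) : Set (Option (Fin 4) × (ι → ℤ))).Finite :=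
    Set.finite_univ.prod (Set.finite_iUnion t2)
  have fin' : (Set.univ ×ˢ (⋃ e, U e) : Set ((Fin 4 ≃ κ) × (ι → ℤ))).Finite :=
    Set.finite_univ.prod (Set.finite_iUnion u2)
  have q4 := rp_fam Λ.B (rp_fam Λ.B q3 fin fun p => Zc Λ p.1 p.2) fin' fun p => Zb p.1 p.2
  have q5 := rp_fam Λ.B q4 Set.finite_univ fun p : κ × Fin 4 =>
    (0, 0, Pi.single p.1 (Pi.single p.2 (-1)))
  have q6 := rp_fam Λ.B q5 Set.finite_univ fun k : κ => (0, 1, Pi.single k 1)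
  have e5 : ∀ (p : κ × Fin 4) (D : W ι κ ℝ),
      fn Λ.B (0, 0, Pi.single p.1 (Pi.single p.2 (-1))) D = D.2.2 p.1 p.2 := fun p D => by
    simp [fn, ipW, toRW, toR_zero, ip_zero_right, Pi.single_apply, ite_apply,
      apply_ite (Int.cast : ℤ → ℝ)]
  have e6 : ∀ (k : κ) (D : W ι κ ℝ),
      fn Λ.B (0, 1, Pi.single k 1) D = D.2.1 - ∑ j, D.2.2 k j := fun k D => by
    simp [fn, ipW, toRW, toR_zero, ip_zero_right, Pi.single_apply, ite_apply,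
      apply_ite (Int.cast : ℤ → ℝ)]
  refine (Set.ext fun D => ?_ : _ = NN Λ ∩ {D | D.1 ∈ cone (toR '' (R : Set (ι → ℤ)))}) ▸ q6
  simp only [Set.mem_inter_iff, Set.mem_ofPred_eq, e5, e6, fn_Zc, fn_Zb, Set.mem_univ,
    forall_true_left, sub_nonneg]
  constructor
  · rintro ⟨⟨⟨⟨a1, a2⟩, a5⟩, a3⟩, a4⟩
    have a0 : D ∈ cone (S : Set (W ι κ ℝ)) := by
      rw [hQ]
      exact a1
    have nef : ∀ o, M Λ o D ∈ Λ.NT := fun o => c0.ct _ fun c hc h => by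
      obtain ⟨c', k1, k2⟩ := t3 o c ⟨hc, h⟩
      have := k2 D a0
      rw [fn_Zc, fn_Zc] at this
      exact (a2 (o, c') ⟨trivial, Set.mem_iUnion.2 ⟨o, k1⟩⟩).trans this
    refine ⟨⟨⟨fun k j => a3 (k, j), a4, M_none Λ D ▸ nef none, fun j => nef (some j)⟩,
      fun c hc e => ?_⟩, a1⟩
    obtain ⟨c', k1, k2⟩ := u3 e c hc
    have := k2 D a0
    rw [fn_Zb, fn_Zb] at this
    have h5 := a5 (e, c') ⟨trivial, Set.mem_iUnion.2 ⟨e, k1⟩⟩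
    dsimp only at h5
    linarith
  · rintro ⟨⟨⟨a1, a2, a3, a4⟩, a6⟩, a5⟩
    refine ⟨⟨⟨⟨a5, ?_⟩, ?_⟩, fun p => a1 _ _⟩, a2⟩
    · rintro ⟨o, c⟩ ⟨-, hc⟩
      obtain ⟨o', h⟩ := Set.mem_iUnion.1 hc
      have cP : c ∈ Λ.P := (t1 o' h).1
      cases o with
      | none => exact (M_none Λ D).symm ▸ a3 c cP
      | some j => exact a4 j c cP
    · rintro ⟨e, c⟩ ⟨-, hc⟩
      obtain ⟨e', h⟩ := Set.mem_iUnion.1 hc
      exact a6 c (u1 e' h) e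

end Pool.Agent.MP_20d318_ag.CC

end MrgPart4

-- marker of a merged file
example : 731051 + 19814 = 731051 + 19814 := rfl
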