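import Pool.Agent.MP_fd6584_ag.D.Fin
import Pool.Agent.MP_20d318_ag.CC.En3

/-! The geometry of a rational surface whose bi-anticanonical curve is a union of curves of square
`-4`, and of the threefold. -/

set_option autoImplicit false
set_option linter.unusedSectionVars false

namespace Pool.Agent.MP_20d318_ag.CC

open Pool.Agent.MP_20d318_ag.CB Pool.Agent.MP_20d318_ag.CB.P
open Pool.Agent.MP_fd6584_ag.Fn Pool.Agent.CBk MvPolynomial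
open Pool.Agent.MP_fd6584_ag.AG hiding deg_inv deg_congr deg_of_unit deg_mul deg_prod deg_zpow
  deg_eq_zero deg_nonneg deg_div deg_pow
open Pool.Agent.MP_20d318_ag.RS (jac)
open Pool.Agent.MP_20d318_ag.CB.P.TransA (pc)
open scoped IntermediateField

/-! ### Tools on a surface -/

section tools

variable {k M I : Type} [Field k] [Field M] [Algebra k M] [Fintype I] (S : Sd k M I)

/-- Sections and their zeros. -/
structure TA : Prop where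
  dn : ∀ D ψ, ∀ O ∈ S.T, ∀ O' ∈ S.T, O ≤ O' → IsU O (ψ * S.lb D O) → IsU O' (ψ * S.lb D O')
  dm : ∀ D, ∀ ψ ∈ S.Sec D, ∀ O ∈ S.T, ∀ O' ∈ S.T, O ≤ O' → ψ * S.lb D O' ∈ mx O' →
    ψ * S.lb D O ∈ mx O
  sec : ∀ D ψ, (∀ P : Place k M, plO P ∈ S.T → ψ * S.lb D (plO P) ∈ plO P) → ψ ∈ S.Sec D
  above : ∀ D, ∀ ψ ∈ S.Sec D, ψ ≠ 0 → ∀ O ∈ S.T, ψ * S.lb D O ∈ mx O →
    ∃ P : Place k M, plO P ∈ S.T ∧ O ≤ plO P ∧ ψ * S.lb D (plO P) ∈ mx (plO P)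
  sum : ∀ D, ∀ ψ ∈ S.Sec D, ψ ≠ 0 → ∃ s : Finset (Place k M),
    (∀ P, P ∈ s ↔ plO P ∈ S.T ∧ ψ * S.lb D (plO P) ∈ mx (plO P)) ∧
    D = ∑ P ∈ s, P.ord (ψ * S.lb D (plO P)) • S.cl P
  van : ∀ c φ P, S.Prm c φ P → ∀ D, ∀ ψ ∈ S.Sec D, ip S.B D c < 0 → ψ / φ ∈ S.Sec (D - c)
  dvd : ∀ c φ P, S.Prm c φ P → ∀ D, ∀ ψ ∈ S.Sec D, ψ ≠ 0 → ψ * S.lb D (plO P) ∈ mx (plO P) →
    D - c ∈ S.Ef
  prm : ∀ c φ P, S.Prm c φ P → ∀ ψ ∈ S.Sec c, ψ ≠ 0 → ψ * S.lb c (plO P) ∈ mx (plO P) →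
    S.Prm c ψ P
  rat : ∀ P : Place k M, plO P ∈ S.T → ∃ O ∈ S.T, RatPt O ∧ O ≤ plO P
  zer : ∀ c φ P, S.Prm c φ P → ∀ D, ∀ ψ ∈ S.Sec D, ip S.B D c ≠ 0 →
    ∃ O ∈ S.T, RatPt O ∧ O ≤ plO P ∧ ψ * S.lb D O ∈ mx O
  meet : ∀ c φ P c' φ' P', S.Prm c φ P → S.Prm c' φ' P' → P ≠ P' →
    (ip S.B c c' ≠ 0 ↔ ∃ O ∈ S.T, O ≤ plO P ∧ O ≤ plO P')
  neg : ∀ c φ P φ' P', S.Prm c φ P → S.Prm c φ' P' → ip S.B c c < 0 → P = P'
  comb : ∀ O ∈ S.T, RatPt O → ∀ D, ∀ ψ ∈ S.Sec D, ∀ ψ' ∈ S.Sec D, IsU O (ψ' * S.lb D O) →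
    ∃ a : k, (ψ - a • ψ') * S.lb D O ∈ mx O
  h00 : ∀ D, D ∉ S.Ef → S.h0 D = 0
  h01 : ∀ D, S.h0 D ≤ 1 → ∀ ψ ∈ S.Sec D, ψ ≠ 0 → ∀ ψ' ∈ S.Sec D, ∃ a : k, ψ' = a • ψ
  h02 : ∀ D, 2 ≤ S.h0 D → ∀ ψ, ∃ ψ' ∈ S.Sec D, ∀ a : k, ψ' ≠ a • ψ

/-- TA. -/
def TaStmt : Prop := ∀ (k M I : Type) [Field k] [NeZero (2 : k)] [IsAlgClosed k] [Field M]
  [Algebra k M] [Fintype I] (S : Sd k M I), SAll S → TA S

/-- Places and subfields. -/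
structure TB : Prop where
  nc : ∀ P : Place k M, plO P ∈ S.T → ∀ O ∈ S.T, O ≤ plO P → ∀ b ∈ plO P, b ≠ 0 → b⁻¹ ∈ mx O →
    Ind (plO P) ![b]
  cj : ∀ (σ : M ≃ₐ[k] M) (t u a b : M) (P Q : Place k M), (∀ m, σ (σ m) = m) →
    (∀ m, σ m = m → m ∈ k⟮t, u⟯) → t ∈ k⟮b, a⟯ → u ∈ k⟮b, a⟯ → Ind (plO P) ![b] →
    Ind (plO Q) ![b] → a ≠ 0 → a ∈ mx (plO P) → a ∈ mx (plO Q) → Q = P ∨ Q = pc σ P
  ind2 : ∀ (O : Subalgebra k M) (t u : M) (c : k), t - algebraMap k M c ≠ 0 →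
    t - algebraMap k M c ∈ mx O → Ind O ![u] → AlgebraicIndependent k ![t, u]
  plc : ∀ σ ρ, Ac S σ ρ → (∀ m, σ (σ m) = m) → ∀ c φ P, S.Prm c φ P →
    ∃ φ', S.Prm (act ρ c) φ' (pc σ P)
  fix : ∀ (σ : M ≃ₐ[k] M) (t : M) (P : Place k M), σ t = t → Ind (plO P) ![t] →
    Ind (plO (pc σ P)) ![t]
  cht : ∀ (t u : M) (P : Place k M), k⟮t, u⟯ = ⊤ → Ind (plO P) ![t] → u ∈ plO P →
    Cht (plO P) t u
  dep : ∀ c φ P, S.Prm c φ P → ∀ D, ip S.B D c = 1 → ∀ x ∈ S.Sec D, ∀ y ∈ S.Sec D,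
    ∀ z ∈ S.Sec D, ∃ α β γ : k, ¬ (α = 0 ∧ β = 0 ∧ γ = 0) ∧
      (α • x + β • y + γ • z) * S.lb D (plO P) ∈ mx (plO P)
  jump : ∀ c φ P, S.Prm c φ P → ∀ D, S.h0 (D - c) < S.h0 D →
    ∃ x ∈ S.Sec D, IsU (plO P) (x * S.lb D (plO P))

/-- TB. -/
def TbStmt : Prop := ∀ (k M I : Type) [Field k] [NeZero (2 : k)] [IsAlgClosed k] [Field M]
  [Algebra k M] [Fintype I] (S : Sd k M I), SAll S → TB S

/-- The common part of two members of a linear system can be removed. -/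
def GC : Prop := ∀ D, ∀ ψ ∈ S.Sec D, ∀ ψ' ∈ S.Sec D, ψ ≠ 0 → ψ' ≠ 0 →
  ∃ (s : Finset (Place k M)) (z : M) (N : I → ℤ), z ≠ 0 ∧
    (∀ P, P ∈ s ↔ plO P ∈ S.T ∧ ψ * S.lb D (plO P) ∈ mx (plO P) ∧
      ψ' * S.lb D (plO P) ∈ mx (plO P)) ∧
    D = N + ∑ P ∈ s, min (P.ord (ψ * S.lb D (plO P))) (P.ord (ψ' * S.lb D (plO P))) • S.cl P ∧
    ψ / z ∈ S.Sec N ∧ ψ' / z ∈ S.Sec N ∧ ∀ P : Place k M, plO P ∈ S.T →
      IsU (plO P) (ψ / z * S.lb N (plO P)) ∨ IsU (plO P) (ψ' / z * S.lb N (plO P))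

/-- GCD. -/
def GcdStmt : Prop := ∀ (k M I : Type) [Field k] [NeZero (2 : k)] [IsAlgClosed k] [Field M]
  [Algebra k M] [Fintype I] (S : Sd k M I), SAll S → TA S → GC S

end tools

/-- ST: the tower with its exceptional classes. -/
def StStmt : Prop := ∀ (k M : Type) [Field k] [NeZero (2 : k)] [IsAlgClosed k] [Field M]
  [Algebra k M] (T : Set (Subalgebra k M)), RS.Tower T → ∃ (I : Type) (_ : Fintype I)
    (S : Sd k M I) (N : ℕ) (ε : ℕ → I → ℤ), S.T = T ∧ Surf S ∧ ST S.B S.K S.PP N ε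

/-- PA: the components of the curve. -/
def PaxStmt : Prop := ∀ (k M I : Type) [Field k] [NeZero (2 : k)] [IsAlgClosed k] [Field M]
  [Algebra k M] [Fintype I] (S : Sd k M I) (D₁ D₂ : Derivation k M M) (φ : M), SAll S →
  (∀ O ∈ S.T, ∀ a ∈ O, ∀ b ∈ O, φ * jac D₁ D₂ a b ^ 2 ∈ O) →
  (∀ O ∈ S.T, ∃ a ∈ O, ∃ b ∈ O, φ * jac D₁ D₂ a b ^ 2 ∉ mx2 O) → S.K ≠ 0 →
    ∃ (κ : Type) (_ : Fintype κ) (p : Pd k M I κ), p.toSd = S ∧ p.φ = φ ∧ PairA p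

/-- PC: the two cases. -/
def PcxStmt : Prop := ∀ (k M I κ : Type) [Field k] [NeZero (2 : k)] [IsAlgClosed k]
  [Field M] [Algebra k M] [Fintype I] [Fintype κ] (p : Pd k M I κ), Pair0 p →
    (∃ i, Pair { p with k0 := i }) ∨ ∀ i, ip p.B (p.C i) (p.C i) = -4

/-! ### Elliptic pencils -/

variable (k : Type) {M : Type} [Field k] [Field M] [Algebra k M] in
/-- The equations of the fibres of `t`. -/
def Fr (t r : M) : Prop := r = t⁻¹ ∨ ∃ α : k, r = t - algebraMap k M α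

section pair

variable {k M I κ : Type} [Field k] [Field M] [Algebra k M] [Fintype I] [Fintype κ]
  (p : Pd k M I κ)

/-- All the components have square `-4`. -/
structure Cob : Prop extends Pair0 p where
  b0 : B0 p.ld
  ll : LL p.ld
  ta : TA p.toSd
  tb : TB p.toSd

/-- A member `2 G + C_J` of the system `F`. -/
structure Hf (F : I → ℤ) (J : Finset κ) (G : I → ℤ) (a : M) : Prop where
  sec : a ∈ p.Sec G
  ne : a ≠ 0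
  eq : F = (2 : ℤ) • G + ∑ i ∈ J, p.C i

/-- Its equation. -/
noncomputable def hs (J : Finset κ) (a : M) : M := a ^ 2 * ∏ i ∈ J, p.ψ i

/-- Members of different types do not meet. -/
def Par (F : I → ℤ) : Prop := ∀ J J' G G' a a', Hf p F J G a → Hf p F J' G' a' → J ≠ J' →
  ∀ O ∈ p.T, IsU O (hs p J a * p.lb F O) ∨ IsU O (hs p J' a' * p.lb F O)

/-- The proper components of the members of `F`. -/
def Cmp (F : I → ℤ) : Set (Place k M) := {P | plO P ∈ p.T ∧ F - p.cl P ∈ p.Ef ∧ p.cl P ≠ F}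

/-- A pencil with a prime member. -/
structure Pn (F : I → ℤ) (ψ ψ' : M) : Prop where
  sq : ip p.B F F = 0
  vC : ∀ i, ip p.B (p.C i) F = 0
  sec : ψ ∈ p.Sec F
  sec' : ψ' ∈ p.Sec F
  ne : ψ ≠ 0
  ne' : ψ' ≠ 0
  nc : ∀ c : k, ψ ≠ c • ψ'
  ex : ∃ (τ : k) (P₀ : Place k M), τ ≠ 0 ∧ p.Prm F (ψ - τ • ψ') P₀

/-- The map to the line. -/
structure PcA (F : I → ℤ) (ψ ψ' t : M) : Prop extends Pn p F ψ ψ' where
  eq : t = ψ / ψ'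
  mem : F ∈ p.PP
  nef : p.ld.Nef F
  KF : ip p.B p.K F = 0
  bpf : ∀ O ∈ p.T, IsU O (ψ * p.lb F O) ∨ IsU O (ψ' * p.lb F O)
  gen : ∃ (τ : k) (φ : M) (P₀ : Place k M), τ ≠ 0 ∧ p.Prm F φ P₀ ∧
    P₀.ord (t - algebraMap k M τ) = 1 ∧
    ∀ P : Place k M, plO P ∈ p.T → 0 < P.ord (t - algebraMap k M τ) → P = P₀
  reg : ∀ O ∈ p.T, t ∈ O ∨ t⁻¹ ∈ O
  hor : ∀ c φ P, p.Prm c φ P → (ip p.B c F ≠ 0 ↔ Ind (plO P) ![t])
  pl : ∀ P : Place k M, Ind (plO P) ![t] → plO P ∈ p.T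
  su : ∀ P : Place k M, Ind (plO P) ![t] → ∀ i, IsU (plO P) (p.s i (plO P))

/-- The fibres. -/
structure PcB (F : I → ℤ) (ψ ψ' t : M) : Prop extends PcA p F ψ ψ' t where
  vt : ∀ P : Place k M, plO P ∈ p.T → ¬ Ind (plO P) ![t] → ∃ r, Fr k t r ∧ 0 < P.ord r
  mb : ∀ r, Fr k t r → ∃ χ ∈ p.Sec F, χ ≠ 0 ∧ (χ = ψ' ∨ ∃ α : k, χ = ψ - α • ψ') ∧
    ∀ P : Place k M, plO P ∈ p.T → (0 < P.ord r ↔ χ * p.lb F (plO P) ∈ mx (plO P)) ∧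
      (0 < P.ord r → P.ord r = P.ord (χ * p.lb F (plO P)))
  fd : ∀ r, Fr k t r → ∃ s : Finset (Place k M), (∀ P, P ∈ s ↔ plO P ∈ p.T ∧ 0 < P.ord r) ∧
    F = ∑ P ∈ s, P.ord r • p.cl P ∧ ∀ P ∈ s, ip p.B (p.cl P) F = 0
  fib : ∀ c ∈ p.PP, ip p.B c F = 0 → F - c ∈ p.Ef

/-- The constants of the generic fibre. -/
structure PcF (F : I → ℤ) (ψ ψ' t : M) : Prop extends PcB p F ψ ψ' t where
  alg : ∀ r : M, (∀ P : Place k M, Ind (plO P) ![t] → r ∈ plO P) → r ∈ k⟮t⟯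

/-- The pencil spanned by two complementary members. -/
structure Hs (F : I → ℤ) (J J' : Finset κ) (G G' : I → ℤ) (a a' t : M) : Prop where
  h : Hf p F J G a
  cpl : ∀ i, i ∈ J' ↔ i ∉ J
  pc : PcF p F (hs p J a) (hs p J' a') t
  gk : G + G' = F + p.K
  one : ∀ s ∈ p.Sec (F + p.K), ∃ c : k, s = c • (a * a')
  zd : ∀ P : Place k M, plO P ∈ p.T → 0 < P.ord t → ∀ O ∈ p.T, O ≤ plO P →
    IsU O (a' * p.lb G' O) ∧ ∀ i ∈ J', IsU O (p.s i O)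
  zo : ∀ P : Place k M, plO P ∈ p.T → 0 < P.ord t → (∀ i, IsU (plO P) (p.s i (plO P))) →
    P.ord t = 2 * P.ord (a * p.lb G (plO P))
  zg : ∀ β : k, β ≠ 0 → ∀ P : Place k M, plO P ∈ p.T → 0 < P.ord (t - algebraMap k M β) →
    ∀ O ∈ p.T, O ≤ plO P → IsU O (a * p.lb G O) ∧ IsU O (a' * p.lb G' O) ∧ ∀ i, IsU O (p.s i O)
  hz : ∀ P : Place k M, Ind (plO P) ![t] →
    IsU (plO P) (a * p.lb G (plO P)) ∧ IsU (plO P) (a' * p.lb G' (plO P))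

/-- The same, in both orders. -/
structure Hq (F : I → ℤ) (J J' : Finset κ) (G G' : I → ℤ) (a a' t : M) : Prop where
  l : Hs p F J J' G G' a a' t
  r : Hs p F J' J G' G a' a t⁻¹

/-- The degree of the map `(t, s / s')` is at most the degree on the fibres. -/
def In2F (F : I → ℤ) (t : M) : Prop := ∀ D, ∀ s ∈ p.Sec D, ∀ s' ∈ p.Sec D, s' ≠ 0 →
  AlgebraicIndependent k ![t, s / s'] → FiniteDimensional k⟮t, s / s'⟯ M ∧
    (Module.finrank k⟮t, s / s'⟯ M : ℤ) ≤ ip p.B D F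

/-- The group. -/
def GG : Set (Matrix I I ℤ) := {ρ | ∃ σ, Form p σ ∧ Ac p.toSd σ ρ}

/-- Its properties. -/
structure GP : Prop where
  gp : Gp p.ld (GG p)
  sg : ∀ ρ ∈ GG p, (∀ i, act ρ (p.C i) = p.C i) → ∃ σ, Sg p σ ρ
  inv : ∀ σ ρ, Ac p.toSd σ ρ → (∀ m, σ (σ m) = m) → ∀ c : I → ℤ, act ρ (act ρ c) = c

/-- The involution over `k(t, u)` and its action. -/
structure Uc (F : I → ℤ) (t u : M) (σ : M ≃ₐ[k] M) (ρ : Matrix I I ℤ) : Prop where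
  iv : Iv p t u σ
  ac : Ac p.toSd σ ρ
  fF : act ρ F = F
  perm : ∃ π : Equiv.Perm κ, ∀ i, act ρ (p.C i) = p.C (π i)

/-- The components of the fibre `r = 0` that meet `H` are conjugate. -/
def Cr (H : I → ℤ) (σ : M ≃ₐ[k] M) (r : M) : Prop := ∀ P Q : Place k M, plO P ∈ p.T →
  plO Q ∈ p.T → 0 < P.ord r → 0 < Q.ord r → ip p.B (p.cl P) H ≠ 0 → ip p.B (p.cl Q) H ≠ 0 →
    Q = P ∨ Q = pc σ P

/-- The data that define the involution attached to `H`. -/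
def UD (F H : I → ℤ) (t : M) : Prop := ∃ D, ∃ s ∈ p.Sec D, ∃ s' ∈ p.Sec D, ip p.B D F = 2 ∧
  s' ≠ 0 ∧ AlgebraicIndependent k ![t, s / s'] ∧ toR ((2 : ℤ) • D - H) ∈ VF p.ld F ∧
    ∀ σ ρ, Uc p F t (s / s') σ ρ → act ρ H = H ∧ ∀ r, Fr k t r → Cr p H σ r

/-- The class attached to a section `e` of the pencil. -/
def D2 (F e : I → ℤ) (i j : κ) : I → ℤ := F + p.K + (2 : ℤ) • e + (p.C i + p.C j)

/-- The class fixed by the involution. -/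
def H2 (F e : I → ℤ) (i j : κ) : I → ℤ := (2 : ℤ) • F + (4 : ℤ) • e + (p.C i + p.C j)

/-- The obvious section. -/
noncomputable def s2 (a a' φ : M) (i j : κ) : M := a * a' * φ ^ 2 * (p.ψ i * p.ψ j)

/-- A section of the pencil that meets two components. -/
structure U2 (F : I → ℤ) (J J' : Finset κ) (G G' : I → ℤ) (a a' t : M) (e : I → ℤ) (φ : M)
    (E : Place k M) (i j : κ) (s : M) : Prop where
  hq : Hq p F J J' G G' a a' t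
  prm : p.Prm e φ E
  iJ : i ∈ J
  jJ : j ∈ J'
  sq : ip p.B e e = -1
  Ci : ip p.B (p.C i) e = 1
  Cj : ip p.B (p.C j) e = 1
  Cm : ∀ m, m ≠ i → m ≠ j → ip p.B (p.C m) e = 0
  eF : ip p.B e F = 1
  ua : ∀ O ∈ p.T, O ≤ plO E → IsU O (a * p.lb G O) ∧ IsU O (a' * p.lb G' O)
  sec : s ∈ p.Sec (D2 p F e i j)
  sec' : s2 p a a' φ i j ∈ p.Sec (D2 p F e i j)
  ne' : s2 p a a' φ i j ≠ 0
  fac : ∀ O ∈ p.T, s2 p a a' φ i j * p.lb (D2 p F e i j) O =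
    a * p.lb G O * (a' * p.lb G' O) * (φ * p.lb e O) ^ 2 * (p.s i O * p.s j O)
  us : ∀ O ∈ p.T, O ≤ plO E ∨ p.s i O ∈ mx O ∨ p.s j O ∈ mx O →
    IsU O (s * p.lb (D2 p F e i j) O)

/-- Four members of a pencil. -/
def sg (l : k) (s₀ s₃ : M) (j : Fin 4) : M := ![s₀, s₀ - s₃, s₀ - l • s₃, s₃] j

/-- The cross-ratio of the four sections of a conic bundle. -/
structure GA (b : I → ℤ) (e : Fin 4 ≃ κ) (l : k) (A : I → ℤ) (s₀ s₃ : M) : Prop where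
  hb : b ∈ HC p.ld
  eq : A = (2 : ℤ) • b - p.K - p.C (e 2)
  mem : ∀ j, sg l s₀ s₃ j ∈ p.Sec A
  dv : ∀ j, j ≠ 2 → sg l s₀ s₃ j / p.ψ (e j) ∈ p.Sec (A - p.C (e j))
  un : ∀ j, j ≠ 2 → ∀ j', j' ≠ j → ∀ O ∈ p.T, p.s (e j) O ∈ mx O →
    IsU O (sg l s₀ s₃ j' * p.lb A O)

/-- The fibre with the given cross-ratio. -/
structure GB (b : I → ℤ) (e : Fin 4 ≃ κ) (l : k) (A : I → ℤ) (s₀ s₃ φ : M) (P : Place k M)
    (y : Subalgebra k M) : Prop extends GA p b e l A s₀ s₃ where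
  prm : p.Prm b φ P
  ind : Ind (plO P) ![s₀ / s₃]
  ug : ∀ j, IsU (plO P) (sg l s₀ s₃ j * p.lb A (plO P))
  ok : ∀ j, j ≠ 2 → ∀ R ∈ p.T, R ≤ plO P → ∃ v, IsU R v ∧
    sg l s₀ s₃ j * p.lb A R = v * p.s (e j) R
  ym : y ∈ p.T
  yl : y ≤ plO P
  y2 : p.s (e 2) y ∈ mx y
  ys : sg l s₀ s₃ 2 * p.lb A y ∈ mx y
  y3 : IsU y (s₃ * p.lb A y)

/-- A coordinate on a fibre that takes the four values at the four components. -/
structure G1 (b : I → ℤ) (e : Fin 4 ≃ κ) (l : k) (A : I → ℤ) (s₀ s₃ φ : M) (P : Place k M) :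
    Prop where
  prm : p.Prm b φ P
  m0 : s₀ ∈ p.Sec A
  m3 : s₃ ∈ p.Sec A
  ind : Ind (plO P) ![s₀ / s₃]
  Cb : ∀ i, ip p.B (p.C i) b = 1
  bb : ip p.B b b = 0
  cg : ∀ j, ∀ R ∈ p.T, R ≤ plO P →
    ∃ v, IsU R v ∧ sg l s₀ s₃ j * p.lb A R - v * p.s (e j) R ∈ mx (plO P)

variable {p} {F G G' : I → ℤ} {J J' : Finset κ} {a a' t ψ ψ' : M}

theorem s_mem (h : Pair0 p) {O : Subalgebra k M} (hO : O ∈ p.T) (i : κ) : p.s i O ∈ O :=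
  h.all.a1.pmem _ _ _ (h.prm i).choose_spec O hO

theorem Hf.fac (h : Pair0 p) (H : Hf p F J G a) {O : Subalgebra k M} (hO : O ∈ p.T) :
    hs p J a * p.lb F O = (a * p.lb G O) ^ 2 * ∏ i ∈ J, p.s i O := by
  have g := h.all.a1.gne O hO
  rw [H.eq, p.lb_add g, p.lb_zsmul, p.lb_sum g, zpow_ofNat]
  simp only [hs, Pd.s, Finset.prod_mul_distrib]
  ring

theorem Hf.mem (h : Pair0 p) (H : Hf p F J G a) : hs p J a ∈ p.Sec F := fun O hO => by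
  rw [H.fac h hO]
  exact O.mul_mem (O.pow_mem (H.sec O hO) 2) (O.prod_mem fun i _ => s_mem h hO i)

theorem Hf.hs_ne (h : Pair0 p) (H : Hf p F J G a) : hs p J a ≠ 0 :=
  mul_ne_zero (pow_ne_zero 2 H.ne) (Finset.prod_ne_zero_iff.2 fun i _ => (h.prm i).choose_spec.1)

theorem vf_C (h : Cob p) (hF : ∀ i, ip p.B (p.C i) F = 0) (i : κ) :
    toR (p.C i) ∈ VF p.ld F := Submodule.subset_span ⟨_, ⟨h.b0.nc.memC i, hF i⟩, rfl⟩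

theorem vf_K (h : Cob p) (hF : ∀ i, ip p.B (p.C i) F = 0) : toR ((2 : ℤ) • p.K) ∈ VF p.ld F := by
  rw [show (2 : ℤ) • p.K = -∑ i, p.C i by rw [h.sumC]; simp, toR_neg, toR_sum]
  exact neg_mem (sum_mem fun i _ => vf_C h hF i)

theorem Pn.symm (h : Pn p F ψ ψ') : Pn p F ψ' ψ := by
  refine ⟨h.sq, h.vC, h.sec', h.sec, h.ne', h.ne, fun c e => ?_, ?_⟩
  · have hc : c ≠ 0 := fun z => h.ne' (by rw [e, z, zero_smul])
    exact h.nc c⁻¹ (by rw [e, smul_smul, inv_mul_cancel₀ hc, one_smul])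
  · obtain ⟨τ, P, h0, h1, h2, h3⟩ := h.ex
    have hc : algebraMap k M (-τ⁻¹) ≠ 0 := (map_ne_zero _).2 (neg_ne_zero.2 (inv_ne_zero h0))
    have e : ψ' - τ⁻¹ • ψ = algebraMap k M (-τ⁻¹) * (ψ - τ • ψ') := by
      rw [← Algebra.smul_def, smul_sub, smul_smul, neg_mul, inv_mul_cancel₀ h0]
      simp only [neg_smul, one_smul]
      ring
    refine ⟨τ⁻¹, P, inv_ne_zero h0, e ▸ mul_ne_zero hc h1, h2, fun Q hQ => ?_⟩
    rw [← h3 Q hQ, e, mul_assoc]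
    by_cases z : (ψ - τ • ψ') * p.lb F (plO Q) = 0
    · rw [z, mul_zero]
    · rw [Q.ord_mul hc z, Q.ord_const, zero_add]

theorem Hq.symm (h : Hq p F J J' G G' a a' t) : Hq p F J' J G' G a' a t⁻¹ :=
  ⟨h.r, (inv_inv t).symm ▸ h.l⟩

theorem s2_comm (a a' φ : M) (i j : κ) : s2 p a' a φ j i = s2 p a a' φ i j := by
  simp only [s2, mul_comm]

theorem D2_comm (F e : I → ℤ) (i j : κ) : D2 p F e j i = D2 p F e i j := by
  simp only [D2, add_comm]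

theorem H2_comm (F e : I → ℤ) (i j : κ) : H2 p F e j i = H2 p F e i j := by
  simp only [H2, add_comm]

theorem U2.symm {e : I → ℤ} {φ s : M} {E : Place k M} {i j : κ}
    (h : U2 p F J J' G G' a a' t e φ E i j s) : U2 p F J' J G' G a' a t⁻¹ e φ E j i s where
  hq := h.hq.symm
  prm := h.prm
  iJ := h.jJ
  jJ := h.iJ
  sq := h.sq
  Ci := h.Cj
  Cj := h.Ci
  Cm m a b := h.Cm m b a
  eF := h.eF
  ua O a b := (h.ua O a b).symm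
  sec := by rw [D2_comm]; exact h.sec
  sec' := by rw [D2_comm, s2_comm]; exact h.sec'
  ne' := by rw [s2_comm]; exact h.ne'
  fac O hO := by rw [D2_comm, s2_comm, h.fac O hO]; ring
  us O a b := by rw [D2_comm]; exact h.us O a (b.imp_right Or.symm)

end pair

/-- PAR. -/
def ParStmt : Prop := ∀ (k M I κ : Type) [Field k] [NeZero (2 : k)] [IsAlgClosed k] [Field M]
  [Algebra k M] [Fintype I] [Fintype κ] (p : Pd k M I κ) (F F' : I → ℤ), Cob p → GC p.toSd →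
  Pr p.ld F F' → p.ld.Nef F → Par p F

/-- HALF. -/
def HalfStmt : Prop := ∀ (k M I κ : Type) [Field k] [NeZero (2 : k)] [IsAlgClosed k] [Field M]
  [Algebra k M] [Fintype I] [Fintype κ] (p : Pd k M I κ) (F F' : I → ℤ), Cob p → Pr p.ld F F' →
  p.ld.Nef F → Par p F → (Cmp p F).Finite

/-- PN1. -/
def Pn1Stmt : Prop := ∀ (k M I κ : Type) [Field k] [NeZero (2 : k)] [IsAlgClosed k] [Field M]
  [Algebra k M] [Fintype I] [Fintype κ] (p : Pd k M I κ) (F G G' : I → ℤ) (J J' : Finset κ)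
  (a a' : M), Cob p → F ∈ Is p.ld → Par p F → (Cmp p F).Finite → Hf p F J G a →
  Hf p F J' G' a' → J ≠ J' → Pn p F (hs p J a) (hs p J' a')

/-- PEN2. -/
def Pen2Stmt : Prop := ∀ (k M I κ : Type) [Field k] [NeZero (2 : k)] [IsAlgClosed k] [Field M]
  [Algebra k M] [Fintype I] [Fintype κ] (p : Pd k M I κ) (F : I → ℤ) (ψ ψ' : M), Cob p →
  Pn p F ψ ψ' → PcA p F ψ ψ' (ψ / ψ')

/-- PEN3. -/
def Pen3Stmt : Prop := ∀ (k M I κ : Type) [Field k] [NeZero (2 : k)] [IsAlgClosed k] [Field M]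
  [Algebra k M] [Fintype I] [Fintype κ] (p : Pd k M I κ) (F : I → ℤ) (ψ ψ' t : M), Cob p →
  PcA p F ψ ψ' t → PcB p F ψ ψ' t

/-- ALG. -/
def AlgStmt : Prop := ∀ (k M I κ : Type) [Field k] [NeZero (2 : k)] [IsAlgClosed k] [Field M]
  [Algebra k M] [Fintype I] [Fintype κ] (p : Pd k M I κ) (F : I → ℤ) (ψ ψ' t : M), Cob p →
  PcB p F ψ ψ' t → PcF p F ψ ψ' t

/-- HT. -/
def HtStmt : Prop := ∀ (k M I κ : Type) [Field k] [NeZero (2 : k)] [IsAlgClosed k] [Field M]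
  [Algebra k M] [Fintype I] [Fintype κ] (p : Pd k M I κ) (F G G' : I → ℤ) (J J' : Finset κ)
  (a a' t : M), Cob p → Hf p F J G a → Hf p F J' G' a' → (∀ i, i ∈ J' ↔ i ∉ J) →
  PcF p F (hs p J a) (hs p J' a') t → Hs p F J J' G G' a a' t

/-- INV12. -/
def Inv12Stmt : Prop := ∀ (k M I κ : Type) [Field k] [NeZero (2 : k)] [IsAlgClosed k] [Field M]
  [Algebra k M] [Fintype I] [Fintype κ] (p : Pd k M I κ) (F : I → ℤ) (ψ ψ' t : M), Cob p →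
  PcF p F ψ ψ' t → In2F p F t ∧ ∀ D, ip p.B D F = 2 → ∃ m : ℤ, ∃ s ∈ p.Sec (D + m • F),
    ∃ s' ∈ p.Sec (D + m • F), s' ≠ 0 ∧ AlgebraicIndependent k ![t, s / s']

/-- INV3. -/
def Inv3xStmt : Prop := ∀ (k M I κ : Type) [Field k] [NeZero (2 : k)] [IsAlgClosed k] [Field M]
  [Algebra k M] [Fintype I] [Fintype κ] (p : Pd k M I κ) (F : I → ℤ) (ψ ψ' t u : M), Cob p →
  PcF p F ψ ψ' t → AlgebraicIndependent k ![t, u] → k⟮t, u⟯ ≠ ⊤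

/-- INV4. -/
def Inv4xStmt : Prop := ∀ (k M I κ : Type) [Field k] [NeZero (2 : k)] [IsAlgClosed k] [Field M]
  [Algebra k M] [Fintype I] [Fintype κ] (p : Pd k M I κ) (F : I → ℤ) (ψ ψ' t u : M), Cob p →
  PcF p F ψ ψ' t → AlgebraicIndependent k ![t, u] → k⟮t, u⟯ ≠ ⊤ →
  FiniteDimensional k⟮t, u⟯ M → Module.finrank k⟮t, u⟯ M ≤ 2 → ∃ σ, Iv p t u σ

/-- ORB. -/
def OrbxStmt : Prop := ∀ (k M I κ : Type) [Field k] [NeZero (2 : k)] [IsAlgClosed k] [Field M]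
  [Algebra k M] [Fintype I] [Fintype κ] (p : Pd k M I κ) (F D : I → ℤ) (ψ ψ' t s s' : M)
  (σ : M ≃ₐ[k] M) (ρ : Matrix I I ℤ), Cob p → PcF p F ψ ψ' t → In2F p F t → ip p.B D F = 2 →
  s ∈ p.Sec D → s' ∈ p.Sec D → s' ≠ 0 → Iv p t (s / s') σ → Ac p.toSd σ ρ →
    act ρ F = F ∧ ∀ y, toR (act ρ y + y - ip p.B y F • D) ∈ VF p.ld F

/-- GRP. -/
def GrpStmt : Prop := ∀ (k M I κ : Type) [Field k] [NeZero (2 : k)] [IsAlgClosed k] [Field M]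
  [Algebra k M] [Fintype I] [Fintype κ] (p : Pd k M I κ), Cob p → GP p

/-- FIBC. -/
def FibcStmt : Prop := ∀ (k M I κ : Type) [Field k] [NeZero (2 : k)] [IsAlgClosed k] [Field M]
  [Algebra k M] [Fintype I] [Fintype κ] (p : Pd k M I κ) (F H : I → ℤ) (ψ ψ' t u : M)
  (σ : M ≃ₐ[k] M) (ρ : Matrix I I ℤ), Cob p → PcF p F ψ ψ' t → Uc p F t u σ ρ →
  (∀ r, Fr k t r → Cr p H σ r) → ∀ c ∈ p.PP, ip p.B c F = 0 → ip p.B c H ≠ 0 →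
    ∃ q : ℝ, toR (c + act ρ c) - q • toR F ∈ VH p.ld F H

/-- UN: two pencils. -/
def UnStmt : Prop := ∀ (k M I κ : Type) [Field k] [NeZero (2 : k)] [IsAlgClosed k] [Field M]
  [Algebra k M] [Fintype I] [Fintype κ] (p : Pd k M I κ) (F G G' F₂ E E' : I → ℤ)
  (J J' L L' : Finset κ) (a a' t b b' t₂ : M), Cob p → Hq p F J J' G G' a a' t →
  Hq p F₂ L L' E E' b b' t₂ → ip p.B F F₂ = 4 → UD p F (F + F₂) t

/-- US1: a pencil and a curve of square `-2`. -/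
def Us1Stmt : Prop := ∀ (k M I κ : Type) [Field k] [NeZero (2 : k)] [IsAlgClosed k] [Field M]
  [Algebra k M] [Fintype I] [Fintype κ] (p : Pd k M I κ) (F G G' θ : I → ℤ)
  (J J' : Finset κ) (a a' t : M), Cob p → Hq p F J J' G G' a a' t → θ ∈ p.PP →
  ip p.B θ θ = -2 → ip p.B θ F = 2 → UD p F ((2 : ℤ) • F + (2 : ℤ) • θ) t

/-- US2A: a pencil and a curve of square `-1`. -/
def Us2aStmt : Prop := ∀ (k M I κ : Type) [Field k] [NeZero (2 : k)] [IsAlgClosed k] [Field M]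
  [Algebra k M] [Fintype I] [Fintype κ] (p : Pd k M I κ) (F G G' e : I → ℤ)
  (J J' : Finset κ) (a a' t φ : M) (E : Place k M) (i j : κ), Cob p → Hq p F J J' G G' a a' t →
  p.Prm e φ E → i ≠ j → ip p.B e e = -1 → ip p.B (p.C i) e = 1 → ip p.B (p.C j) e = 1 →
  ip p.B e F = 1 →
    (∃ s, U2 p F J J' G G' a a' t e φ E i j s) ∨ ∃ s, U2 p F J J' G G' a a' t e φ E j i s

/-- US2B. -/
def Us2bStmt : Prop := ∀ (k M I κ : Type) [Field k] [NeZero (2 : k)] [IsAlgClosed k] [Field M]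
  [Algebra k M] [Fintype I] [Fintype κ] (p : Pd k M I κ) (F G G' e : I → ℤ)
  (J J' : Finset κ) (a a' t φ s : M) (E : Place k M) (i j : κ), Cob p →
  U2 p F J J' G G' a a' t e φ E i j s → AlgebraicIndependent k ![t, s / s2 p a a' φ i j] ∧
    ∀ σ ρ, Uc p F t (s / s2 p a a' φ i j) σ ρ → act ρ (H2 p F e i j) = H2 p F e i j

/-- US2C. -/
def Us2cStmt : Prop := ∀ (k M I κ : Type) [Field k] [NeZero (2 : k)] [IsAlgClosed k] [Field M]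
  [Algebra k M] [Fintype I] [Fintype κ] (p : Pd k M I κ) (F G G' e : I → ℤ)
  (J J' : Finset κ) (a a' t φ s : M) (E : Place k M) (i j : κ) (σ : M ≃ₐ[k] M), Cob p →
  U2 p F J J' G G' a a' t e φ E i j s → (∀ m, σ (σ m) = m) →
  (∀ m, σ m = m → m ∈ k⟮t, s / s2 p a a' φ i j⟯) →
    ∀ β : k, Cr p (H2 p F e i j) σ (t - algebraMap k M β)

/-- GA. -/
def GaStmt : Prop := ∀ (k M I κ : Type) [Field k] [NeZero (2 : k)] [IsAlgClosed k] [Field M]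
  [Algebra k M] [Fintype I] [Fintype κ] (p : Pd k M I κ) (b : I → ℤ) (e : Fin 4 ≃ κ) (l : k),
  Cob p → b ∈ HC p.ld → l ≠ 0 → l ≠ 1 → ∃ A s₀ s₃, GA p b e l A s₀ s₃

/-- GB1. -/
def Gb1Stmt : Prop := ∀ (k M I κ : Type) [Field k] [NeZero (2 : k)] [IsAlgClosed k] [Field M]
  [Algebra k M] [Fintype I] [Fintype κ] (p : Pd k M I κ) (b A : I → ℤ) (e : Fin 4 ≃ κ) (l : k)
  (s₀ s₃ : M), Cob p → XN p.ld → GA p b e l A s₀ s₃ → ∃ φ P y, GB p b e l A s₀ s₃ φ P y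

/-- GB2. -/
def Gb2Stmt : Prop := ∀ (k M I κ : Type) [Field k] [NeZero (2 : k)] [IsAlgClosed k] [Field M]
  [Algebra k M] [Fintype I] [Fintype κ] (p : Pd k M I κ) (b A : I → ℤ) (e : Fin 4 ≃ κ) (l : k)
  (s₀ s₃ φ : M) (P : Place k M) (y : Subalgebra k M), Cob p → GB p b e l A s₀ s₃ φ P y →
    G1 p b e l A s₀ s₃ φ P

/-! ### The threefold -/

/-- GR2A: the graphs. -/
def Gr2aStmt : Prop := ∀ (k M K I κ : Type) [Field k] [NeZero (2 : k)]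
  [IsAlgClosed k] [Field M] [Field K] [Algebra k M] [Algebra k K] [Fintype I] [Fintype κ]
  (p : Pd k M I κ) (ι : M →ₐ[k] K) (l : k) (ζ w : K) (P : Place k M) (u : M),
  XAll p ι l ζ w → plO P ∈ p.T → Ind (plO P) ![u] →
    ∃ ν : Curve (XX p ι ζ w), pr ι p.T ν.gen = plO P ∧ ζ - ι u ∈ mx ν.gen

open Classical in
/-- GR2B: their degrees. -/
def Gr2bStmt : Prop := ∀ (k M K I κ : Type) [Field k] [NeZero (2 : k)]
  [IsAlgClosed k] [Field M] [Field K] [Algebra k M] [Algebra k K] [Fintype I] [Fintype κ]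
  (p : Pd k M I κ) (ι : M →ₐ[k] K) (l : k) (ζ w : K) (b A : I → ℤ) (e : Fin 4 ≃ κ) (s₀ s₃ φ : M)
  (P : Place k M) (ν : Curve (XX p ι ζ w)), XAll p ι l ζ w → G1 p b e l A s₀ s₃ φ P →
  pr ι p.T ν.gen = plO P → ζ - ι (s₀ / s₃) ∈ mx ν.gen → ∃ n : ℕ, 0 < n ∧
    ZZ p ι l ζ ν = (n • b, (n : ℤ), fun i j => if i = e j then (n : ℤ) else 0)

/-- EFF: classes of divisors, and of effective divisors. -/
def EffStmt : Prop := ∀ (k M K I κ : Type) [Field k] [NeZero (2 : k)]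
  [IsAlgClosed k] [Field M] [Field K] [Algebra k M] [Algebra k K] [Fintype I] [Fintype κ]
  (p : Pd k M I κ) (ι : M →ₐ[k] K) (l : k) (ζ w : K), XAll p ι l ζ w → MW p l →
  (∀ O ∈ XX p ι ζ w, Nrm O) → ∀ C : Cartier (XX p ι ζ w), ∃ (N : ℤ) (D : W I κ ℤ), 0 < N ∧
    (∀ ν : Curve (XX p ι ζ w), N * ν.deg C.f = ipW p.B D (ZZ p ι l ζ ν)) ∧
    (C.Effective → (2 : ℤ) • D.1 ∈ p.Ef)

open Classical in
/-- What the geometry of `X` supplies. -/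
structure GeoC {k K I κ : Type} [Field k] [Field K] [Algebra k K] [Fintype I] [Fintype κ]
    (X : Set (Subalgebra k K)) (Λ : Ld I κ) (Z : Curve X → W I κ ℤ) (G : Set (Matrix I I ℤ)) :
    Prop where
  b0 : B0 Λ
  xn : XN Λ
  lc : LC Λ G
  cart : ∀ D : W I κ ℤ, ∃ C : Cartier X, ∀ ν, ν.deg C.f = ipW Λ.B D (Z ν)
  cls : ∀ C : Cartier X, ∃ (N : ℤ) (D : W I κ ℤ), 0 < N ∧
    (∀ ν, N * ν.deg C.f = ipW Λ.B D (Z ν)) ∧ (C.Effective → (2 : ℤ) • D.1 ∈ Λ.Ef)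
  eff : ∀ D ∈ Λ.EG, ∃ C : Cartier X, C.Effective ∧ ∀ ν, ν.deg C.f = ipW Λ.B D (Z ν)
  cur : ∀ ν, Λ.Cur (Z ν)
  tE : ∀ i j, ∃ ν, ∃ n : ℤ, 0 < n ∧
    Z ν = (0, 0, fun i' j' => if i' = i ∧ j' = j then -n else 0)
  tC : ∀ i, ∃ ν, ∃ n : ℤ, 0 < n ∧ Z ν = (0, n, fun i' _ => if i' = i then n else 0)
  tT : ∀ c ∈ Λ.P, ∀ j, ∃ ν, ∃ n : ℕ, 0 < n ∧
    Z ν = (n • c, 0, fun i j' => if j' = j then ip Λ.B (Λ.C i) (n • c) else 0)
  tG : ∀ c ∈ Λ.P, ∃ ν, ∃ n : ℕ, 0 < n ∧ Z ν = (n • c, 0, 0)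
  tH : ∀ b ∈ HC Λ, ∀ e : Fin 4 ≃ κ, ∃ ν, ∃ n : ℕ, 0 < n ∧
    Z ν = (n • b, (n : ℤ), fun i j => if i = e j then (n : ℤ) else 0)
  aut : ∀ ρ ∈ G, (∀ i, act ρ (Λ.C i) = Λ.C i) → ∃ g : Aut X, ∀ (D : W I κ ℤ) ν,
    ipW Λ.B D (Z (ν.push (g.1 : K →ₐ[k] K) fun O => (g.2 O).1)) = ipW Λ.B (actW ρ D) (Z ν)

/-- GLUE. -/
def GluexStmt : Prop := ∀ (k K I κ : Type) [Field k] [Field K] [Algebra k K] [Fintype I]
  [Fintype κ] (X : Set (Subalgebra k K)) (Λ : Ld I κ) (Z : Curve X → W I κ ℤ)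
  (G : Set (Matrix I I ℤ)), GeoC X Λ Z G → ConeStatement X

/-- All geometric rows. -/
structure GMods : Prop where
  ta : TaStmt
  tb : TbStmt
  gcd : GcdStmt
  st : StStmt
  pax : PaxStmt
  pcx : PcxStmt
  par : ParStmt
  half : HalfStmt
  pn1 : Pn1Stmt
  pen2 : Pen2Stmt
  pen3 : Pen3Stmt
  alg : AlgStmt
  ht : HtStmt
  inv12 : Inv12Stmt
  inv3x : Inv3xStmt
  inv4x : Inv4xStmt
  orbx : OrbxStmt
  grp : GrpStmt
  fibc : FibcStmt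
  un : UnStmt
  us1 : Us1Stmt
  us2a : Us2aStmt
  us2b : Us2bStmt
  us2c : Us2cStmt
  ga : GaStmt
  gb1 : Gb1Stmt
  gb2 : Gb2Stmt
  gr2a : Gr2aStmt
  gr2b : Gr2bStmt
  eff : EffStmt
  gluex : GluexStmt

end Pool.Agent.MP_20d318_ag.CC
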