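import Pool.Agent.MP_20d318_ag.CC.Spec

/-! The assembly of the rows. -/

set_option autoImplicit false
set_option linter.unusedSectionVars false

namespace Pool.Agent.MP_20d318_ag.CC

open Pool.Agent.MP_20d318_ag.CB Pool.Agent.MP_20d318_ag.CB.P
open Pool.Agent.MP_fd6584_ag.Fn Pool.Agent.CBk
open Pool.Agent.MP_fd6584_ag.AG hiding deg_inv deg_congr deg_of_unit deg_mul deg_prod deg_zpow
  deg_eq_zero deg_nonneg deg_div deg_pow
open Pool.Agent.MP_20d318_ag.RS (jac)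
open scoped IntermediateField

variable {k M K I κ : Type} [Field k] [NeZero (2 : k)] [IsAlgClosed k] [Field M] [Field K]
  [Algebra k M] [Algebra k K] [Fintype I] [Fintype κ] {p : Pd k M I κ}

theorem nc_of (h : Pair0 p) (h4 : ∀ i, ip p.B (p.C i) (p.C i) = -4) : NC p.ld := by
  have A := h.all
  refine ⟨A.s.sym, A.s.hodge, A.s.par, A.s.noe, A.a2.pos, A.a4.adj, A.a4.rr, A.a1.hpos,
    A.a2.heff, fun c => ?_, fun i => ?_, h.disj, h.sumC, h4⟩
  · obtain ⟨c', h1, h2⟩ := A.s.dif (-c)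
    exact ⟨c', A.a2.gg _ h1, by rw [sub_eq_add_neg]; exact A.a2.gg _ h2⟩
  · obtain ⟨P, hP⟩ := h.prm i
    exact ⟨_, P, hP⟩

theorem GMods.cob (m : GMods) (n : LMods) (h : Pair0 p) (h4 : ∀ i, ip p.B (p.C i) (p.C i) = -4) :
    Cob p :=
  have b := n.b0 (nc_of h h4)
  ⟨h, b, n.ll I κ p.ld b, m.ta k M I _ h.all, m.tb k M I _ h.all⟩

theorem GMods.pcf (m : GMods) (h : Cob p) {F : I → ℤ} {ψ ψ' : M} (H : Pn p F ψ ψ') :
    PcF p F ψ ψ' (ψ / ψ') :=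
  m.alg k M I κ p F ψ ψ' _ h (m.pen3 k M I κ p F ψ ψ' _ h (m.pen2 k M I κ p F ψ ψ' h H))

theorem GMods.hq (m : GMods) (h : Cob p) {F F' : I → ℤ} (pr : Pr p.ld F F') (n : p.ld.Nef F) :
    ∃ J J' G G' a a' t, Hq p F J J' G G' a a' t := by
  classical
  obtain ⟨J, G, G', e1, e2, e3, e4⟩ := h.ll.half F pr.1
  obtain ⟨a, a1, a2⟩ := h.all.a2.eff2 G e1
  obtain ⟨a', a1', a2'⟩ := h.all.a2.eff2 G' e2
  obtain ⟨J', c, e5⟩ : ∃ J' : Finset κ, (∀ i, i ∈ J' ↔ i ∉ J) ∧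
    F = (2 : ℤ) • G' + ∑ i ∈ J', p.C i := ⟨_, fun i => Finset.mem_compl, e4⟩
  have H : Hf p F J G a := ⟨a1, a2, e3⟩
  have H' : Hf p F J' G' a' := ⟨a1', a2', e5⟩
  have par := m.par k M I κ p F F' h (m.gcd k M I _ h.all h.ta) pr n
  have pn := m.pn1 k M I κ p F G G' J J' a a' h pr.1 par (m.half k M I κ p F F' h pr n par) H H'
    fun e => by have := c p.k0; rw [e] at this; tauto
  refine ⟨J, J', G, G', a, a', _, m.ht k M I κ p F G G' J J' a a' _ h H H' c (m.pcf h pn),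
    m.ht k M I κ p F G' G J' J a' a _ h H' H (fun i => by rw [c, not_not]) ?_⟩
  rw [inv_div]
  exact m.pcf h pn.symm

theorem GMods.inv (m : GMods) (h : Cob p) {F D : I → ℤ} {ψ ψ' t s s' : M} (H : PcF p F ψ ψ' t)
    (hD : ip p.B D F = 2) (hs : s ∈ p.Sec D) (hs' : s' ∈ p.Sec D) (h0 : s' ≠ 0)
    (hi : AlgebraicIndependent k ![t, s / s']) : ∃ σ ρ, Uc p F t (s / s') σ ρ ∧ ρ ∈ GG p ∧
      ∀ y, toR (act ρ y + y - ip p.B y F • D) ∈ VF p.ld F := by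
  have h2 := (m.inv12 k M I κ p F ψ ψ' t h H).1
  obtain ⟨h3, h4⟩ := h2 _ s hs s' hs' h0 hi
  rw [hD] at h4
  obtain ⟨σ, hσ⟩ := m.inv4x k M I κ p F ψ ψ' t _ h H hi (m.inv3x k M I κ p F ψ ψ' t _ h H hi) h3
    (by exact_mod_cast h4)
  obtain ⟨ρ, hρ⟩ := act_stmt k M I p.toSd σ h.all (reg_stmt res_stmt div_stmt k M I κ p σ
    h.toPair0 (exc_stmt der_stmt k M I κ p h.toPair0) hσ.form)
  obtain ⟨h5, h6⟩ := m.orbx k M I κ p F D ψ ψ' t s s' σ ρ h H h2 hD hs hs' h0 hσ hρ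
  exact ⟨σ, ρ, ⟨hσ, hρ, h5, (m.grp k M I κ p h).gp.perm ρ ⟨σ, hσ.form, hρ⟩⟩, ⟨σ, hσ.form, hρ⟩, h6⟩

theorem GMods.ud2 (m : GMods) (h : Cob p) {F G G' e : I → ℤ} {J J' : Finset κ} {a a' t φ s : M}
    {E : Place k M} {i j : κ} (u : U2 p F J J' G G' a a' t e φ E i j s) :
    UD p F (H2 p F e i j) t := by
  have pc := u.hq.l.pc
  obtain ⟨h1, h2⟩ := m.us2b k M I κ p F G G' e J J' a a' t φ s E i j h u
  refine ⟨_, s, u.sec, _, u.sec', ?_, u.ne', h1, ?_, fun σ ρ c => ⟨h2 σ ρ c, ?_⟩⟩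
  · simp only [D2, ip_add_left, ip_smul_left, pc.sq, pc.KF, pc.vC, u.eF]
    norm_num
  · rw [show (2 : ℤ) • D2 p F e i j - H2 p F e i j = (2 : ℤ) • p.K + (p.C i + p.C j) by
      simp only [D2, H2]; module, toR_add, toR_add]
    exact add_mem (vf_K h pc.vC) (add_mem (vf_C h pc.vC i) (vf_C h pc.vC j))
  · rintro r (rfl | ⟨β, rfl⟩)
    · have := m.us2c k M I κ p F G' G e J' J a' a t⁻¹ φ s E j i σ h u.symm c.iv.inv (fun x hx => by
        rw [s2_comm]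
        refine IntermediateField.adjoin_le_iff.2 ?_ (c.iv.fix x hx)
        rintro _ (rfl | rfl)
        · exact inv_mem_iff.1 (IntermediateField.subset_adjoin _ _ (Or.inl rfl))
        · exact IntermediateField.subset_adjoin _ _ (Or.inr rfl)) 0
      rwa [map_zero, sub_zero, H2_comm] at this
    · exact m.us2c k M I κ p F G G' e J J' a a' t φ s E i j σ h u c.iv.inv c.iv.fix β

theorem GMods.ad (m : GMods) (h : Cob p) : AD p.ld (GG p) := by
  have sym := ip_comm (R := ℤ) h.all.s.sym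
  refine ⟨(m.grp k M I κ p h).gp, fun F F' pr n => ?_, fun F F' pr n D hD => ?_,
    fun F F' pr n hc => ?_⟩
  · obtain ⟨J, J', G, G', a, a', t, q⟩ := m.hq h pr n
    exact q.l.pc.fib
  · obtain ⟨J, J', G, G', a, a', t, q⟩ := m.hq h pr n
    have pc := q.l.pc
    obtain ⟨r, s, hs, s', hs', h0, hi⟩ := (m.inv12 k M I κ p F _ _ t h pc).2 D hD
    obtain ⟨σ, ρ, -, h1, h2⟩ := m.inv h pc (D := D + r • F) (by
      rw [ip_add_left, ip_smul_left, pc.sq, mul_zero, add_zero]; exact hD) hs hs' h0 hi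
    refine ⟨ρ, h1, fun y => ?_⟩
    have e : act ρ y + y - ip p.ld.B y F • D = (act ρ y + y - ip p.B y F • (D + r • F)) +
        (ip p.B y F * r) • F := by
      rw [smul_add, mul_smul]
      change _ - ip p.B y F • D = _
      abel
    rw [e, toR_add, toR_zsmul]
    exact add_mem (h2 y) (Submodule.smul_mem _ _ (Submodule.subset_span ⟨_, ⟨pc.mem, pc.sq⟩, rfl⟩))
  · obtain ⟨J, J', G, G', a, a', t, q⟩ := m.hq h pr n
    have pc := q.l.pc
    have e4 : ip p.B F F' = 4 := pr.2.2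
    have ud : UD p F (F + F') t := by
      rcases hc with n' | ⟨θ, h1, h2, h3⟩ | ⟨e, ⟨φ, E, h1⟩, i, j, h2, h3, h4, h5, h6⟩
      · obtain ⟨L, L', E, E', b, b', t', q'⟩ := m.hq h
          (⟨pr.2.1, pr.1, (sym _ _).trans e4⟩ : Pr p.ld F' F) n'
        exact m.un k M I κ p F G G' F' E E' J J' L L' a a' t b b' t' h q q' e4
      · obtain rfl : F' = F + (2 : ℤ) • θ := by rw [← h3]; abel
        rw [ip_add_right, ip_smul_right, pc.sq, sym] at e4
        rw [← add_assoc, ← two_zsmul]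
        exact m.us1 k M I κ p F G G' θ J J' a a' t h q h1 h2 (by omega)
      · obtain rfl : F' = F + ((4 : ℤ) • e + p.C i + p.C j) := by
          change F' - F = (4 : ℤ) • e + p.C i + p.C j at h6
          rw [← h6]; abel
        rw [ip_add_right, ip_add_right, ip_add_right, ip_smul_right, pc.sq, sym F (p.C i),
          sym F (p.C j), pc.vC, pc.vC, sym] at e4
        rw [show F + (F + ((4 : ℤ) • e + p.C i + p.C j)) = H2 p F e i j by
          simp only [H2]; module]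
        rcases m.us2a k M I κ p F G G' e J J' a a' t φ E i j h q h1 h2 h3 h4 h5 (by omega) with
          ⟨s, u⟩ | ⟨s, u⟩
        · exact m.ud2 h u
        · rw [H2_comm]
          exact m.ud2 h u
    obtain ⟨D, s, hs, s', hs', hD, h0, hi, h1, h2⟩ := ud
    obtain ⟨σ, ρ, uc, h3, h4⟩ := m.inv h pc hD hs hs' h0 hi
    obtain ⟨h5, h6⟩ := h2 σ ρ uc
    refine ⟨ρ, h3, (m.grp k M I κ p h).inv σ ρ uc.ac uc.iv.inv, uc.fF, h5, fun y => ?_,
      m.fibc k M I κ p F _ _ _ t _ σ ρ h pc uc h6⟩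
    have e : (2 : ℤ) • (act ρ y + y) - ip p.ld.B y F • (F + F') =
        (2 : ℤ) • (act ρ y + y - ip p.B y F • D) + ip p.B y F • ((2 : ℤ) • D - (F + F')) := by
      change _ - ip p.B y F • _ = _
      module
    rw [e, toR_add, toR_zsmul, toR_zsmul]
    exact add_mem (Submodule.smul_mem _ _ (h4 y)) (Submodule.smul_mem _ _ h1)

variable {ι : M →ₐ[k] K} {l : k} {ζ w : K}

theorem xAll (h : Pair0 p) (he : Ext p ι l ζ w) : XAll p ι l ζ w :=
  have h1 := xLoc_stmt dimUp_stmt k M K I κ p ι l ζ w h he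
  ⟨h, he, h1, xDiv_stmt k M K I κ p ι l ζ w h he h1⟩

theorem GMods.cone (m : GMods) (n : LMods) (h : Pair0 p) {N : ℕ} {ε : ℕ → I → ℤ}
    (st : ST p.B p.K p.PP N ε) (he : Ext p ι l ζ w) (hs : XSm p ι ζ w) :
    ConeStatement (XX p ι ζ w) := by
  rcases m.pcx k M I κ p h with ⟨i, hi⟩ | h4
  · exact hi.cone (l := l) ⟨he.l0, he.l1, he.tr, he.eq, he.top⟩ ⟨hs.sm, hs.nrm, hs.can⟩
  have c := m.cob n h h4
  have hx := xAll h he
  have hc := xCur_stmt k M K I κ p ι l ζ w hx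
  have ht := xTest_stmt up_stmt curve_stmt k M K I κ p ι l ζ w hx hc
  have xn := n.xn I κ p.ld c.b0
  refine m.gluex k K I κ _ p.ld (fun ν => ZZ p ι l ζ ν) (GG p) ⟨c.b0, xn,
    n.lc c.b0.nc st (m.ad c), fun D => ⟨⟨_, hx.div.cartW D⟩, fun ν => hx.div.degW ν D⟩,
    m.eff k M K I κ p ι l ζ w hx (mw_stmt k M I κ p l h he.l0 he.l1) hs.nrm,
    hx.div.eff, hc.cur, ht.tE, ht.tC, ht.tT, ht.tG, fun b hb e => ?_, fun ρ hρ h1 => ?_⟩
  · obtain ⟨A, s₀, s₃, h1⟩ := m.ga k M I κ p b e l c hb he.l0 he.l1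
    obtain ⟨φ, P, y, h2⟩ := m.gb1 k M I κ p b A e l s₀ s₃ c xn h1
    have h3 := m.gb2 k M I κ p b A e l s₀ s₃ φ P y c h2
    obtain ⟨ν, h4, h5⟩ := m.gr2a k M K I κ p ι l ζ w P _ hx h3.prm.2.1 h3.ind
    exact ⟨ν, m.gr2b k M K I κ p ι l ζ w b A e s₀ s₃ φ P ν hx h3 h4 h5⟩
  · obtain ⟨σ, h2⟩ := (m.grp k M I κ p c).sg ρ hρ h1
    exact sigX_stmt k M K I κ p ι l ζ w σ ρ hx h2

omit [NeZero (2 : k)] [IsAlgClosed k] in
theorem K_ne {B : I → I → ℤ} {K : I → ℤ} {P : Set (I → ℤ)} {N : ℕ} {ε : ℕ → I → ℤ}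
    (h : ST B K P N ε) : K ≠ 0 := fun e => by
  rcases h.base with ⟨H, h1, h2, h3, -⟩ | ⟨f, s, m, h1, h2, -, h3, -, h4, -⟩
  · have := congrArg (ip B H) h3
    rw [e, ip_zero_right, ip_add_right, ip_smul_right, h1, ip_sum_right,
      Finset.sum_eq_zero fun j hj => h2 j (Finset.mem_range.1 hj)] at this
    omega
  · have := congrArg (ip B f) h4
    rw [e, ip_zero_right, ip_add_right, ip_sub_right, ip_smul_right, ip_smul_right, h1, h2,
      ip_sum_right, Finset.sum_eq_zero fun j hj => (h3 j (Finset.mem_range.1 hj)).1] at this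
    omega

theorem GMods.pair (m : GMods) {T : Set (Subalgebra k M)} {D₁ D₂ : Derivation k M M} {φ : M}
    (hT : RS.Tower T) (h1 : RS.BiAnti T D₁ D₂ φ) (h2 : RS.SmoothZero T D₁ D₂ φ) :
    ∃ (I κ : Type) (_ : Fintype I) (_ : Fintype κ) (p : Pd k M I κ) (N : ℕ) (ε : ℕ → I → ℤ),
      p.T = T ∧ p.φ = φ ∧ Pair0 p ∧ ST p.B p.K p.PP N ε := by
  obtain ⟨I, _, S, N, ε, rfl, hS, st⟩ := m.st k M T hT
  obtain ⟨κ, _, p, rfl, rfl, hp⟩ := m.pax k M I S D₁ D₂ φ (sAll hS) h1 h2 (K_ne st)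
  exact ⟨I, κ, inferInstance, inferInstance, p, N, ε, rfl, rfl,
    ⟨hp, pb_stmt plane_stmt k M I κ p hp⟩, st⟩

end Pool.Agent.MP_20d318_ag.CC
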