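import Pool.Agent.MP_20d318_ag.CC.Spec
import Pool.Agent.MP_fd6584_ag.MV.RowsS
import Pool.Agent.MP_fd6584_ag.MV.RowsT

/-! Classes of divisors on the threefold, and of effective divisors. -/

set_option autoImplicit false
set_option linter.unusedSectionVars false

namespace Pool.Agent.MP_20d318_ag.CC

open Pool.Agent.MP_20d318_ag.CB Pool.Agent.MP_20d318_ag.CB.P
open Pool.Agent.MP_fd6584_ag.Fn Pool.Agent.CBk
open Pool.Agent.MP_fd6584_ag.AG hiding deg_inv deg_congr deg_of_unit deg_mul deg_prod deg_zpow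
  deg_eq_zero deg_nonneg deg_div deg_pow

namespace EffR

open XAlg Polynomial

theorem gauss : MVg.GaussStmt := by
  intro k M K _ _ _ _ _ ι P y htr
  have hR : IsLocalRing (plO P) := (plO_isVal P).isLocalRing
  obtain ⟨V, hV, hd, h⟩ := exists_val_ev ι (plO P) y htr _
    (resid_loc.comp (IsScalarTower.toAlgHom k (IsLocalRing.ResidueField (plO P))
      (RatFunc (IsLocalRing.ResidueField (plO P))))) RatFunc.X
  have key : ∀ (p : (plO P)[X]) (j : ℕ), p.coeff j = 1 → IsU V (ev (ι.comp (plO P).val) y p) := by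
    intro p j hj
    refine isU_of_not_mx (h p).1 fun hm => ?_
    have h1 := (h p).2.1 hm
    have h2 : p.map (resid (plO P) : plO P →+* IsLocalRing.ResidueField (plO P)) = 0 := by
      refine transcendental_iff.1 RatFunc.transcendental_X _ ?_
      rw [aeval_def, eval₂_map]
      exact h1
    have h3 := congrArg (fun q => q.coeff j) h2
    simp only [coeff_map, hj, map_one, coeff_zero] at h3
    exact one_ne_zero h3
  refine ⟨V, hV, hd, fun c => ?_, fun H hH i => ?_⟩
  · have h1 := key (X - C (algebraMap k _ c)) 1 (by rw [coeff_sub, coeff_X_one, coeff_C_succ, sub_zero])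
    rwa [map_sub, ev_X, ev_C, AlgHom.commutes] at h1
  · by_cases h0 : H = 0
    · rw [h0, coeff_zero]
      exact zero_mem _
    obtain ⟨j, hj, hmin⟩ := H.support.exists_min_image (fun i => P.ord (H.coeff i))
      (nonempty_support_iff.2 h0)
    have ha : H.coeff j ≠ 0 := mem_support_iff.1 hj
    have hm : ∀ i, H.coeff i / H.coeff j ∈ plO P := fun i => by
      by_cases hi : H.coeff i = 0
      · rw [hi, zero_div]
        exact zero_mem _
      · rw [mem_plO_ord, P.ord_div hi ha]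
        exact sub_nonneg.2 (hmin i (mem_support_iff.2 hi))
    obtain ⟨p, hp⟩ := (mem_lifts (f := ((plO P).val : plO P →+* M)) (H * C (H.coeff j)⁻¹)).1
      ((lifts_iff_coeff_lifts _).2 fun i => ⟨⟨_, hm i⟩, by rw [coeff_mul_C]; exact div_eq_mul_inv _ _⟩)
    have hp1 : p.coeff j = 1 := by
      have h1 := congrArg (fun q => q.coeff j) hp
      simp only [coeff_map, coeff_mul_C, mul_inv_cancel₀ ha] at h1
      exact Subtype.ext h1
    have hu := key p j hp1
    have e : ev (ι.comp (plO P).val) y p = H.eval₂ (ι : M →+* K) y * (ι (H.coeff j))⁻¹ := by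
      have h1 : ev (ι.comp (plO P).val) y p
          = (p.map ((plO P).val : plO P →+* M)).eval₂ (ι : M →+* K) y := by
        rw [eval₂_map]
        rfl
      rw [h1, hp, eval₂_mul, eval₂_C, map_inv₀]
      rfl
    have h2 : H.coeff j ∈ V.comap ι := by
      have h3 := hu.div_mem hH
      have h4 : H.eval₂ (ι : M →+* K) y ≠ 0 := left_ne_zero_of_mul (e ▸ hu.ne)
      rw [e, div_mul_cancel_left₀ h4, inv_inv] at h3
      exact h3
    rw [← (plO_isVal P).eq_of_dom hd] at h2
    have h5 := (plO P).mul_mem (hm i) h2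
    rwa [div_mul_cancel₀ _ ha] at h5

end EffR

theorem eff_stmt : EffStmt := by
  intro k M K I κ _ _ _ _ _ _ _ _ _ p ι l ζ w h hM hN C
  have hX := h.loc.fine.toGood
  obtain ⟨N, D, μ, h0, hμ, hu⟩ := MVg.clsw_stmt k M K I κ p ι l ζ w h hM ⟨h.loc.fine, hN⟩ C.f C.isCart
  refine ⟨N, D, Int.natCast_pos.2 h0, fun ν => ?_, fun hC => ?_⟩
  · rw [← h.div.degW, ← deg_cmul hX (h.div.cartW D) hμ, ← deg_pow hX C.isCart]
    exact deg_congr hX (C.isCart.pow N) ((isCart_const hμ).mul (h.div.cartW D)) hu ν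
  obtain ⟨θ, hθ⟩ := MVg.tha_stmt k M K I κ p ι l ζ w h
  have s1 : MVg.Sc (XX p ι ζ w) (lbW p ι l ζ D) μ := fun O hO => by
    have h1 := O.mul_mem (hu O hO).inv_mem (O.pow_mem (hC O hO) N)
    rwa [inv_div, div_mul_cancel₀ _ (pow_ne_zero N (C.isCart.ne hO))] at h1
  have s2 : MVg.Sc (XX p ι ζ w) (lbW p ι l ζ D) (θ μ) := fun O hO => by
    have h1 : θ (μ * lbW p ι l ζ D (O.comap (θ : K →ₐ[k] K))) ∈ O := s1 _ (hθ.mem O hO)
    have h2 := hθ.lb D O hO
    have h3 := O.mul_mem h1 h2.inv_mem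
    rwa [map_mul, inv_div, mul_assoc, mul_div_cancel₀ _ (div_ne_zero_iff.1 h2.1).1] at h3
  have s3 : MVg.Sc (XX p ι ζ w) (lbW p ι l ζ (D + D)) (μ * θ μ) := fun O hO => by
    rw [MVg.lbW_add h hO, mul_mul_mul_comm]
    exact O.mul_mem (s1 O hO) (s2 O hO)
  obtain ⟨A, B, hB, e⟩ := hθ.fix (μ * θ μ) (by rw [map_mul, hθ.inv, mul_comm])
  obtain ⟨G, hG⟩ := MVg.poly_stmt k M K I κ p ι l ζ w h (D + D) A B hB (e ▸ s3)
  rw [← e] at hG
  have hG0 : G ≠ 0 := fun z => mul_ne_zero hμ ((map_ne_zero θ).2 hμ) (by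
    rw [hG, z, Polynomial.eval₂_zero])
  rw [two_smul]
  exact h.t.all.a2.eff1 _ _ ((MVg.coef_stmt EffR.gauss k M K I κ p ι l ζ w h (D + D) G
    (hG ▸ s3)).1 G.natDegree) (Polynomial.leadingCoeff_ne_zero.2 hG0)

end Pool.Agent.MP_20d318_ag.CC
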