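import Pool.Agent.MP_20d318_ag.CC.En3

/-! The basic properties of the lattice of rank ten. -/

set_option autoImplicit false
set_option linter.unusedSectionVars false

namespace Pool.Agent.MP_20d318_ag.CC

open Pool.Agent.MP_20d318_ag.Lat hiding act
open Pool.Agent.MP_20d318_ag.CB

namespace Ll

variable {ι κ : Type} [Fintype ι] [Fintype κ] {Λ : Ld ι κ} (H : B0 Λ)

include H

theorem cm {R : Type} [CommRing R] (a b : ι → R) : ip Λ.B a b = ip Λ.B b a := ip_comm H.nc.sym a b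

theorem sC (b : κ → ℤ) (l : κ) : ip Λ.B (∑ k, b k • Λ.C k) (Λ.C l) = -4 * b l := by
  rw [ip_sum_left, Finset.sum_eq_single l (fun k _ h => by
    rw [ip_smul_left, H.nc.disj k l h, mul_zero]) (by simp), ip_smul_left, H.nc.m4, mul_comm]

theorem sCR (b : κ → ℝ) (l : κ) :
    ip Λ.B (∑ k, b k • toR (Λ.C k)) (toR (Λ.C l)) = -4 * b l := by
  rw [ip_sum_left, Finset.sum_eq_single l (fun k _ h => by
    rw [ip_smul_left, ip_toR, H.nc.disj k l h, Int.cast_zero, mul_zero]) (by simp), ip_smul_left,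
    ip_toR, H.nc.m4, mul_comm]
  norm_num

theorem sO {F : ι → ℤ} (hF : ∀ k, ip Λ.B F (Λ.C k) = 0) (b : κ → ℤ) :
    ip Λ.B (∑ k, b k • Λ.C k) F = 0 := by
  rw [ip_sum_left]
  exact Finset.sum_eq_zero fun k _ => by rw [ip_smul_left, cm H, hF, mul_zero]

theorem four : ∀ F ∈ L2 Λ, ∀ F' ∈ L2 Λ, (4 : ℤ) ∣ ip Λ.B F F' := by
  rintro F ⟨h, v, b, e⟩ F' ⟨h', v', b', e'⟩
  have k1 : ∀ k, ip Λ.B v (Λ.C k) = 2 * b k := fun k => by
    have := h k
    rw [e, ip_add_left, ip_smul_left, sC H] at this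
    omega
  have k2 : ip Λ.B v F' = 2 * (ip Λ.B v v' + ∑ k, b' k * b k) := by
    rw [e', ip_add_right, ip_smul_right, ip_sum_right, mul_add, Finset.mul_sum]
    exact congrArg _ (Finset.sum_congr rfl fun k _ => by rw [ip_smul_right, k1]; ring)
  exact ⟨_, by rw [e, ip_add_left, ip_smul_left, sO H h', k2, add_zero, ← mul_assoc]; rfl⟩

theorem two (c : ι → ℤ) (h : ∀ k, ip Λ.B c (Λ.C k) = 0) : (2 : ℤ) • c ∈ L2 Λ :=
  ⟨fun k => by rw [ip_smul_left, h, mul_zero], c, 0, by simp⟩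

theorem K0 (F : ι → ℤ) (h : ∀ k, ip Λ.B F (Λ.C k) = 0) : ip Λ.B Λ.K F = 0 := by
  have := H.lb.sumK F
  rw [Finset.sum_eq_zero fun k _ => by rw [cm H, h]] at this
  omega

theorem efP {c : ι → ℤ} (h : c ∈ Λ.P) : c ∈ Λ.Ef := AddSubmonoid.subset_closure h

theorem rt : ∀ R ∈ Rt Λ, R ∈ L2 Λ ∧ R ∈ Λ.Ef ∧ ip Λ.B R R = -8 := by
  classical
  rintro R (⟨θ, h1, h2, rfl⟩ | ⟨e, h1, k, l, hkl, h2, h3, h4, rfl⟩)
  · refine ⟨two H θ fun k => ?_, by rw [two_smul]; exact add_mem (efP H h1) (efP H h1),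
      by rw [ip_smul_left, ip_smul_right, h2]; rfl⟩
    rcases H.lb.neg θ h1 (by omega) with ⟨k, rfl⟩ | h | h
    · have := H.nc.m4 k
      omega
    · omega
    · rw [cm H, h.2.2.2]
  · have h5 : ∀ m, m ≠ k → m ≠ l → ip Λ.B (Λ.C m) e = 0 := fun m a1 a2 => by
      rcases H.lb.neg e h1 (by omega) with ⟨k, rfl⟩ | h | h
      · have := H.nc.m4 k
        omega
      · have a3 := Finset.sum_le_sum_of_subset_of_nonneg (f := fun i => ip Λ.B (Λ.C i) e)
          (Finset.subset_univ {m, k, l}) fun i _ _ => H.lb.Cc e h1 h.1 i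
        rw [H.lb.sumK, Finset.sum_insert (by simp [a1, a2]), Finset.sum_pair hkl] at a3
        have := H.lb.Cc e h1 h.1 m
        omega
      · omega
    have h6 : ∀ m, ip Λ.B ((4 : ℤ) • e + Λ.C k + Λ.C l) (Λ.C m) = 0 := fun m => by
      rw [ip_add_left, ip_add_left, ip_smul_left, cm H e]
      by_cases a1 : m = k
      · rw [a1, h3, H.nc.m4, H.nc.disj l k hkl.symm]
        rfl
      by_cases a2 : m = l
      · rw [a2, h4, H.nc.m4, H.nc.disj k l hkl]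
        rfl
      rw [h5 m a1 a2, H.nc.disj k m (Ne.symm a1), H.nc.disj l m (Ne.symm a2)]
      rfl
    refine ⟨⟨h6, (2 : ℤ) • e, Pi.single k 1 + Pi.single l 1, ?_⟩, add_mem (add_mem ?_
      (efP H (H.nc.memC k))) (efP H (H.nc.memC l)), ?_⟩
    · simp only [Pi.add_apply, add_smul, Finset.sum_add_distrib, Pi.single_apply, ite_smul,
        one_smul, zero_smul, Finset.sum_ite_eq', Finset.mem_univ, if_true, smul_smul, add_assoc]
      rfl
    · exact (natCast_zsmul e 4).symm ▸ nsmul_mem (efP H h1) 4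
    · rw [ip_add_right, ip_add_right, h6, h6, ip_smul_right, ip_add_left, ip_add_left,
        ip_smul_left, h2, h3, h4]
      rfl

theorem c1 {u v : ι → ℤ} (h1 : 0 ≤ ip Λ.B u u) (h2 : 0 ≤ ip Λ.B v v) (h3 : 0 ≤ ip Λ.B Λ.h u)
    (h4 : 0 ≤ ip Λ.B Λ.h v) : 0 ≤ ip Λ.B u v := by
  have := H.lb.cone1 (toR u) (toR v)
  simp only [ip_toR, Int.cast_nonneg_iff] at this
  exact this h1 h2 h3 h4

theorem nef : ∀ F ∈ L2 Λ, 0 ≤ ip Λ.B F F → 0 < ip Λ.B Λ.h F → (∀ R ∈ Rt Λ, 0 ≤ ip Λ.B F R) →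
    Λ.Nef F := by
  intro F hF h1 h2 h3 c hc
  have h4 := H.nc.hpos c hc
  rcases le_or_gt 0 (ip Λ.B c c) with h | h
  · exact c1 H h1 h h2.le h4.le
  rcases H.lb.neg c hc h with ⟨k, rfl⟩ | ⟨a1, a2, a3⟩ | ⟨-, a2, -⟩
  · exact (hF.1 k).ge
  · rcases H.lb.pat c (H.lb.Cc c hc a1) a3 with ⟨k, b1, -⟩ | ⟨k, l, b1, b2, b3, -⟩
    · have b2 := H.nc.hpos _ (H.nc.memC k)
      have := c1 H (v := (2 : ℤ) • c + Λ.C k) h1 (by
        simp only [ip_add_left, ip_add_right, ip_smul_left, ip_smul_right]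
        rw [cm H c (Λ.C k), a2, b1, H.nc.m4]
        decide) h2.le (by rw [ip_add_right, ip_smul_right]; omega)
      rw [ip_add_right, ip_smul_right, hF.1] at this
      omega
    · have := h3 _ (Or.inr ⟨c, hc, k, l, b1, a2, b2, b3, rfl⟩)
      rw [ip_add_right, ip_add_right, ip_smul_right, hF.1, hF.1] at this
      omega
  · have := h3 _ (Or.inl ⟨c, hc, a2, rfl⟩)
    rw [ip_smul_right] at this
    omega

theorem key {G G' : ι → ℤ} (h : Pr Λ G G') (hn : Λ.Nef (G + G')) (h' : ¬Λ.Nef G') :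
    G' - G ∈ Rt Λ := by
  obtain ⟨⟨a1, a2, -⟩, ⟨b1, b2, b3⟩, h3⟩ := h
  obtain ⟨R, r1, r2⟩ : ∃ R ∈ Rt Λ, ip Λ.B G' R < 0 := by
    by_contra k
    exact h' (nef H G' b1 b2.ge b3 fun R hR => not_lt.1 fun l => k ⟨R, hR, l⟩)
  obtain ⟨r3, r4, r5⟩ := rt H R r1
  obtain ⟨α, hα⟩ := four H G a1 R r3
  obtain ⟨β, hβ⟩ := four H G' b1 R r3
  have h4 := H.lb.efn _ hn R r4
  rw [ip_add_left] at h4
  have h5 : ip Λ.B G' G = 4 := (cm H _ _).trans h3
  have h6 : ip Λ.B (R - β • G - α • G') (G + G') = 0 := by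
    simp only [ip_add_right, ip_sub_left, ip_smul_left]
    rw [cm H R, cm H R, hα, hβ, a2, b2, h3, h5]
    ring
  have h7 : ip Λ.B (R - β • G - α • G') (R - β • G - α • G') = -8 - 8 * (α * β) := by
    simp only [ip_sub_right, ip_sub_left, ip_smul_left, ip_smul_right]
    rw [cm H R G, cm H R G', hα, hβ, a2, b2, h3, h5, r5]
    ring
  have h8 : α * β ≤ -1 := by nlinarith
  have h9 : R - β • G - α • G' = 0 := by
    by_contra k
    have := H.hg.neg (toR (G + G')) (toR (R - β • G - α • G'))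
    simp only [ip_toR, Int.cast_pos, Int.cast_lt_zero, Int.cast_eq_zero] at this
    have := this (by simp only [ip_add_left, ip_add_right]; omega) h6
      fun l => k (toR_inj (l.trans toR_zero.symm))
    omega
  rw [h9, ip_zero_left] at h7
  obtain rfl : β = -1 := by nlinarith
  obtain rfl : α = 1 := by omega
  rw [show G' - G = R by rw [← sub_eq_zero, ← neg_eq_zero, ← h9]; module]
  exact r1

theorem pair (G G' : ι → ℤ) (h : Pr Λ G G') (hn : Λ.Nef (G + G')) :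
    (Λ.Nef G ∧ (Λ.Nef G' ∨ G' - G ∈ Rt Λ)) ∨ (Λ.Nef G' ∧ G - G' ∈ Rt Λ) := by
  by_cases k : Λ.Nef G
  · exact Or.inl ⟨k, or_iff_not_imp_left.2 (key H h hn)⟩
  have k1 := key H ⟨h.2.1, h.1, (cm H _ _).trans h.2.2⟩ (add_comm G G' ▸ hn) k
  refine Or.inr ⟨by_contra fun l => ?_, k1⟩
  have pos : ∀ R ∈ Rt Λ, 0 < ip Λ.B Λ.h R := fun R hR => H.lb.hef R (rt H R hR).2.1 fun e => by
    have := (rt H R hR).2.2
    rw [e, ip_zero_left] at this
    omega
  have k2 := pos _ k1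
  have k3 := pos _ (key H h hn l)
  rw [ip_sub_right] at k2 k3
  omega

theorem pC (L : ι → ℝ) (k : κ) : ip Λ.B (pr4 Λ L) (toR (Λ.C k)) = 0 := by
  rw [pr4, ip_add_left, ip_smul_left, sCR H]
  ring

theorem pv (L v : ι → ℝ) (h : ∀ k, ip Λ.B v (toR (Λ.C k)) = 0) :
    ip Λ.B (pr4 Λ L) v = 4 * ip Λ.B L v := by
  rw [pr4, ip_add_left, ip_smul_left, ip_sum_left,
    Finset.sum_eq_zero fun k _ => by rw [ip_smul_left, cm H _ v, h, mul_zero], add_zero]

theorem pN : ∀ L ∈ Λ.NT, pr4 Λ L ∈ Λ.NT := by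
  intro L hL c hc
  by_cases h : c ∈ Set.range Λ.C
  · obtain ⟨k, rfl⟩ := h
    exact (pC H L k).ge
  rw [pr4, ip_add_left, ip_smul_left, ip_sum_left]
  exact add_nonneg (mul_nonneg (by norm_num) (hL c hc)) (Finset.sum_nonneg fun k _ => by
    rw [ip_smul_left, ip_toR]
    exact mul_nonneg (hL _ (H.nc.memC k)) (Int.cast_nonneg (H.lb.Cc c hc h k)))

theorem hnef : Λ.Nef Λ.h := fun c hc => (H.nc.hpos c hc).le

theorem half1 {F G : ι → ℤ} (hF : F ∈ Is Λ) {J : Finset κ}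
    (e : F = (2 : ℤ) • G + ∑ i ∈ J, Λ.C i) : G ∈ Λ.Ef := by
  obtain ⟨⟨a1, -⟩, a2, a3⟩ := hF
  have y0 : ∀ k, ip Λ.B (pz Λ Λ.h) (Λ.C k) = 0 := fun k => by
    have := pC H (toR Λ.h) k
    rwa [pr4_toR, ip_toR, Int.cast_eq_zero] at this
  have y1 : ip Λ.B (pz Λ Λ.h) F = 4 * ip Λ.B Λ.h F := by
    rw [pz, ip_add_left, ip_smul_left, sO H a1, add_zero]
  have z : ∀ u, (∀ k, ip Λ.B u (Λ.C k) = 0) → ip Λ.B u F = 2 * ip Λ.B u G := fun u hu => by
    rw [e, ip_add_right, ip_smul_right, ip_sum_right, Finset.sum_eq_zero fun k _ => hu k, add_zero]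
  have g1 : ∀ k ∈ J, ip Λ.B G (Λ.C k) = 2 := fun k hk => by
    have := a1 k
    rw [e, ip_add_left, ip_smul_left, ip_sum_left, Finset.sum_eq_single k
      (fun l _ h => H.nc.disj l k h) (fun h => absurd hk h), H.nc.m4] at this
    omega
  have g2 : ip Λ.B G F = 2 * ip Λ.B G G + ∑ _i ∈ J, 2 := by
    rw [e, ip_add_right, ip_smul_right, ip_sum_right, Finset.sum_congr rfl g1]
  have g3 : ip Λ.B Λ.K F = 2 * ip Λ.B Λ.K G + ∑ _i ∈ J, 2 := by
    rw [e, ip_add_right, ip_smul_right, ip_sum_right, Finset.sum_congr rfl fun k _ => H.lb.KC k]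
  have g4 := z F a1
  have g5 := z _ y0
  rw [cm H G F] at g2
  rw [K0 H F a1] at g3
  exact H.lb.rrn G _ ((H.lb.nefr _).1 (pr4_toR Λ Λ.h ▸ pN H _ ((H.lb.nefr _).2 (hnef H))))
    (by omega) (by rw [cm H _ Λ.K, K0 H _ y0]; omega)

end Ll

open Ll in
theorem ll_stmt : LlStmt := by
  classical
  intro ι κ _ _ Λ H
  refine ⟨?_, four H, two H, K0 H, rt H, fun F hF => H.lb.rrn F _ (hnef H) ?_
    (H.lb.hK.trans hF.2.2), nef H, pair H, fun F hF => ?_, ?_, ?_, pC H, pv H, pN H⟩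
  · rintro F ⟨h, v, b, e⟩ F' ⟨h', v', b', e'⟩ m n
    refine ⟨fun k => by rw [ip_add_left, ip_smul_left, ip_smul_left, h, h']; simp,
      m • v + n • v', m • b + n • b', ?_⟩
    simp only [e, e', Pi.add_apply, Pi.smul_apply, smul_eq_mul, add_smul, mul_smul,
      Finset.sum_add_distrib, ← Finset.smul_sum]
    module
  · rw [K0 H F hF.1.1, hF.2.1]
  · obtain ⟨v, b, e⟩ := hF.1.2
    have e1 : F = (2 : ℤ) • (v + ∑ k, (b k / 2) • Λ.C k) + ∑ i ∈ {k | b k % 2 = 1}, Λ.C i := by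
      rw [e, smul_add, Finset.smul_sum, Finset.sum_filter, add_assoc, ← Finset.sum_add_distrib]
      refine congrArg _ (Finset.sum_congr rfl fun k _ => ?_)
      rw [smul_smul]
      split_ifs with h
      · rw [← add_one_zsmul, show 2 * (b k / 2) + 1 = b k by omega]
      · rw [add_zero, show 2 * (b k / 2) = b k by omega]
    generalize v + ∑ k, (b k / 2) • Λ.C k = G at e1
    generalize ({k | b k % 2 = 1} : Finset κ) = J at e1
    have e2 : F = (2 : ℤ) • (G + Λ.K + ∑ i ∈ J, Λ.C i) + ∑ i ∈ Jᶜ, Λ.C i := by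
      have := (Finset.sum_add_sum_compl J Λ.C).trans H.nc.sumC
      rw [e1, eq_sub_of_add_eq' this]
      module
    exact ⟨J, G, _, half1 H hF e1, half1 H hF e2, by convert e1, by convert e2⟩
  · rintro F F' ⟨⟨a1, a2, a3⟩, ⟨b1, -, -⟩, h3⟩ c hc h1 h2
    have := H.hg.iso (toR F) (toR c) (by rw [ip_toR, a2, Int.cast_zero]) (fun e => by
      rw [toR_inj (e.trans toR_zero.symm), ip_zero_right] at a3
      omega) (by rw [ip_toR, h1, Int.cast_zero])
    rw [ip_toR] at this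
    obtain ⟨q, hq⟩ := this.2 (le_antisymm this.1 (Int.cast_nonneg h2))
    obtain ⟨m, hm⟩ := four H c hc F' b1
    have k := congrArg (fun u => ip Λ.B u (toR F')) hq
    simp only [ip_smul_left, ip_toR, hm, h3] at k
    push_cast at k
    exact ⟨m, toR_inj (by rw [hq, toR_zsmul, show q = m by linarith])⟩
  · rintro F F' ⟨⟨a1, -, -⟩, ⟨⟨-, v, b, e⟩, -, -⟩, h3⟩
    rw [cm H, e, ip_add_left, ip_smul_left, sO H a1.1] at h3
    exact ⟨v, by omega⟩

end Pool.Agent.MP_20d318_ag.CC
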