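import Pool.Agent.MP_20d318_ag.CC.En3

/-! A linear program on four by four matrices. -/

set_option autoImplicit false
set_option linter.unusedSectionVars false

namespace Pool.Agent.MP_20d318_ag.CC

namespace LpA

def D3 (a b c : Fin 4) : Prop := a ≠ b ∧ a ≠ c ∧ b ≠ c

instance (a b c : Fin 4) : Decidable (D3 a b c) := inferInstanceAs (Decidable (_ ∧ _))

def D4 (a b c d : Fin 4) : Prop := D3 b c d ∧ a ≠ b ∧ a ≠ c ∧ a ≠ d

instance (a b c d : Fin 4) : Decidable (D4 a b c d) := inferInstanceAs (Decidable (_ ∧ _))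

theorem ex3 : ∀ b c d, D3 b c d → ∃ a, D4 a b c d := by decide

theorem ex2 : ∀ a b, a ≠ b → ∃ c d, D4 a b c d := by decide

theorem ex1 : ∀ a, ∃ b c d, D4 a b c d := by decide

theorem inj4 : ∀ a b c d, D4 a b c d → Function.Injective ![a, b, c, d] := by decide +kernel

theorem split : ∀ k0 k1 k2 k3, D4 k0 k1 k2 k3 → ∀ e1 e2 e3, D3 e1 e2 e3 →
    ∃ p0 q0, ((p0 = k0 ∧ q0 = k1) ∨ (p0 = k1 ∧ q0 = k0)) ∧
    ∃ p1 q1, ((p1 = e1 ∧ q1 = k2) ∨ (p1 = k2 ∧ q1 = e1)) ∧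
    ∃ p2 q2, ((p2 = e2 ∧ q2 = k3) ∨ (p2 = k3 ∧ q2 = e2)) ∧ D4 p0 p1 p2 e3 ∧ D3 q0 q1 q2 := by
  have : ∀ k0 k1 k2 k3, D4 k0 k1 k2 k3 → ∀ e1 e2 e3, D3 e1 e2 e3 → ∃ b0 b1 b2 : Bool,
      D4 (cond b0 k0 k1) (cond b1 e1 k2) (cond b2 e2 k3) e3 ∧
      D3 (cond b0 k1 k0) (cond b1 k2 e1) (cond b2 k3 e2) := by decide +kernel
  intro k0 k1 k2 k3 h e1 e2 e3 h'
  obtain ⟨b0, b1, b2, a⟩ := this k0 k1 k2 k3 h e1 e2 e3 h'
  exact ⟨_, _, by cases b0 <;> simp, _, _, by cases b1 <;> simp, _, _, by cases b2 <;> simp, a⟩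

theorem exch : ∀ k0 k1 k2 k3, D4 k0 k1 k2 k3 → ∀ e1 e2 e3, D3 e1 e2 e3 →
    D4 k0 e1 e2 e3 ∨ D4 k1 e1 e2 e3 ∨ D4 k2 e1 e2 e3 ∨ (D4 e1 k3 e2 e3 ∧
      (e1 = k0 ∨ e1 = k1 ∨ e1 = k2)) := by decide +kernel

theorem types : ∀ c0 c1 c2 c3 : Fin 4, D4 c0 c1 c2 c3 ∨ ∃ k0 k1,
    ![c0, c1, c2, c3] k0 = ![c0, c1, c2, c3] k1 ∧ ∃ k2 k3, D4 k0 k1 k2 k3 ∧
      (![c0, c1, c2, c3] k2 = ![c0, c1, c2, c3] k3 ∨
        D3 (![c0, c1, c2, c3] k0) (![c0, c1, c2, c3] k2) (![c0, c1, c2, c3] k3) ∨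
        (![c0, c1, c2, c3] k0 = ![c0, c1, c2, c3] k2 ∧
          ![c0, c1, c2, c3] k0 ≠ ![c0, c1, c2, c3] k3)) := by decide +kernel

theorem perm1 {a b c d : Fin 4} (h : D4 a b c d) :
    ∃ e : Equiv.Perm (Fin 4), e 0 = a ∧ e 1 = b ∧ e 2 = c ∧ e 3 = d :=
  ⟨Equiv.ofBijective _ (Finite.injective_iff_bijective.1 (inj4 a b c d h)), rfl, rfl, rfl, rfl⟩

theorem perm2 {a b c d a' b' c' d' : Fin 4} (h : D4 a b c d) (h' : D4 a' b' c' d') :
    ∃ e : Equiv.Perm (Fin 4), e a = a' ∧ e b = b' ∧ e c = c' ∧ e d = d' := by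
  obtain ⟨e, rfl, rfl, rfl, rfl⟩ := perm1 h
  obtain ⟨e', rfl, rfl, rfl, rfl⟩ := perm1 h'
  exact ⟨e.symm.trans e', by simp⟩

theorem conflict (g : Equiv.Perm (Fin 4)) (j : Fin 4) (hj : j ≠ 0) :
    (∀ c, g c = c) ∨ ∃ c, c ≠ j ∧ g c ≠ 0 ∧ g c ≠ c := by
  refine or_iff_not_imp_right.2 fun h => ?_
  have h1 : ∀ c, c ≠ j → g c ≠ 0 → g c = c := fun c a b => by_contra fun d => h ⟨c, a, b, d⟩
  have h0 : g 0 = 0 := by_contra fun a => a (h1 0 hj.symm a)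
  have h2 : ∀ c, c ≠ j → g c = c := fun c a => by
    by_cases b : c = 0
    · rw [b, h0]
    · exact h1 c a fun d => b (g.injective (d.trans h0.symm))
  intro c
  by_cases a : g c = j
  · exact by_contra fun b => b (h2 c fun d => b (a.trans d.symm))
  · exact g.injective (h2 _ a)

variable {R : Type} [Field R] [LinearOrder R] [IsStrictOrderedRing R]

theorem sum4 (f : Fin 4 → R) {a b c d : Fin 4} (h : D4 a b c d) :
    ∑ i, f i = f a + f b + f c + f d := by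
  obtain ⟨e, rfl, rfl, rfl, rfl⟩ := perm1 h
  rw [← Equiv.sum_comp e, Fin.sum_univ_four]

theorem water {ι : Type} (U : ι → R) (hU : ∀ i, 0 ≤ U i) (S : Finset ι) :
    ∀ t, 0 ≤ t → t ≤ ∑ i ∈ S, U i → ∃ l, 0 ≤ l ∧ ∑ i ∈ S, min (U i) l = t := by
  classical
  induction S using Finset.induction_on_min_value U with
  | empty => exact fun t a b => ⟨0, le_rfl, le_antisymm a b⟩
  | insert a S ha hm ih =>
    intro t h0 ht
    have hn : (0 : R) ≤ S.card := Nat.cast_nonneg _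
    rw [Finset.sum_insert ha] at ht
    by_cases h : t ≤ (S.card + 1) * U a
    · have h1 : t / (S.card + 1) ≤ U a := by rwa [div_le_iff₀' (by linarith)]
      refine ⟨t / (S.card + 1), by positivity, ?_⟩
      rw [Finset.sum_insert ha, min_eq_right h1,
        Finset.sum_congr rfl fun i hi => min_eq_right (h1.trans (hm i hi)), Finset.sum_const,
        nsmul_eq_mul]
      field_simp
      ring
    · have h2 := mul_nonneg hn (hU a)
      obtain ⟨l, hl, e⟩ := ih (t - U a) (by linarith) (by linarith)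
      refine ⟨l, hl, ?_⟩
      have h3 : ∑ i ∈ S, min (U i) l ≤ S.card * l := by
        rw [← nsmul_eq_mul]
        exact Finset.sum_le_card_nsmul _ _ _ fun i _ => min_le_right _ _
      have h4 : U a ≤ l := not_lt.1 fun b => by
        have := mul_le_mul_of_nonneg_left b.le hn
        linarith
      rw [Finset.sum_insert ha, e, min_eq_left h4]
      ring

/-- The hypotheses, for distinct indices. -/
structure Hy (a : Fin 4 → Fin 4 → R) (t s : R) : Prop where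
  nn : ∀ k j, 0 ≤ a k j
  row : ∀ k {j j'}, j ≠ j' → a k j + a k j' ≤ t
  two : ∀ {k0 k1 k2 k3}, D4 k0 k1 k2 k3 → ∀ j j', a k0 j + a k1 j + a k2 j' + a k3 j' ≤ s
  per : ∀ e : Equiv.Perm (Fin 4), ∑ j, a (e j) j ≤ s + t

/-- The column part of the solution. -/
structure Yy (a : Fin 4 → Fin 4 → R) (t s : R) (y : Fin 4 → R) : Prop where
  nn : ∀ j, 0 ≤ y j
  sum : ∑ j, y j = t
  ub : ∀ {j0 j1 j2 j3 k1 k2 k3}, D4 j0 j1 j2 j3 → D3 k1 k2 k3 →
    y j0 + (a k1 j1 + a k2 j2 + a k3 j3) ≤ s + t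
  ti : ∀ {j0 j1 j2 j3}, D4 j0 j1 j2 j3 → (∀ j, y j ≤ y j0) ∨ ∃ k1 k2 k3, D3 k1 k2 k3 ∧
    y j0 + (a k1 j1 + a k2 j2 + a k3 j3) = s + t

variable {a : Fin 4 → Fin 4 → R} {t s : R} {y : Fin 4 → R}

theorem Hy.one (h : Hy a t s) (k j : Fin 4) : a k j ≤ t := by
  obtain ⟨j', -, -, -, b, -⟩ := ex1 j
  linarith [h.row k b, h.nn k j']

theorem Hy.tri (h : Hy a t s) {k1 k2 k3 : Fin 4} (d : D3 k1 k2 k3) (j j' : Fin 4) :
    a k1 j + a k2 j' + a k3 j' ≤ s := by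
  obtain ⟨k0, b⟩ := ex3 _ _ _ d
  linarith [h.two b j j', h.nn k0 j]

theorem Hy.pair (h : Hy a t s) {k l : Fin 4} (d : k ≠ l) (j j' : Fin 4) : a k j + a l j' ≤ s := by
  obtain ⟨c, c', b, b1, b2, -⟩ := ex2 _ _ d
  linarith [h.tri ⟨b1, b2, b.1⟩ j j', h.nn c j']

theorem Hy.four (h : Hy a t s) {j0 j1 j2 j3 k0 k1 k2 k3 : Fin 4} (d : D4 j0 j1 j2 j3)
    (d' : D4 k0 k1 k2 k3) : a k0 j0 + a k1 j1 + a k2 j2 + a k3 j3 ≤ s + t := by
  obtain ⟨e, rfl, rfl, rfl, rfl⟩ := perm2 d d'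
  rw [← sum4 (fun j => a (e j) j) d]
  exact h.per e

theorem Hy.ent (h : Hy a t s) (e : Equiv.Perm (Fin 4)) {j c : Fin 4} (d : j ≠ c) :
    ∑ i, a (e i) i - a (e j) j - s ≤ a (e c) c := by
  obtain ⟨c2, c3, b⟩ := ex2 _ _ d
  rw [sum4 _ b]
  linarith [h.pair (e.injective.ne b.1.2.2) c2 c3]

theorem Hy.exy (h : Hy a t s) : ∃ y, Yy a t s y := by
  have h0 : 0 ≤ t := (h.nn 0 0).trans (h.one 0 0)
  have hs : 0 ≤ s := by linarith [h.pair (show (0 : Fin 4) ≠ 1 by decide) 0 0, h.nn 0 0, h.nn 1 0]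
  choose E _ hE using fun j => Finset.exists_max_image Finset.univ
    (fun e : Equiv.Perm (Fin 4) => ∑ i, a (e i) i - a (e j) j) Finset.univ_nonempty
  have ht : t ≤ ∑ j, (s + t - (∑ i, a (E j i) i - a (E j j) j)) := by
    by_cases b : ∀ j, E j = E 0
    · have := h.per (E 0)
      simp only [b, Fin.sum_univ_four] at this ⊢
      linarith
    obtain ⟨j, hj⟩ := not_forall.1 b
    have hj0 : j ≠ 0 := fun e => hj (by rw [e])
    obtain ⟨c, c1, c2, c3⟩ := (conflict ((E j).trans (E 0).symm) j hj0).resolve_left fun e =>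
      hj (Equiv.ext fun c => (Equiv.symm_apply_eq _).1 (e c))
    obtain ⟨j2, j3, d⟩ := ex2 _ _ hj0
    have e1 := h.ent (E j) c1.symm
    have e2 := h.ent (E 0) c2.symm
    have e3 := (h.ent (E j2) d.1.2.2).trans (h.one _ _)
    have e4 := (h.ent (E j3) d.1.2.2.symm).trans (h.one _ _)
    have e5 := h.row (E j c) c3
    rw [Equiv.trans_apply, Equiv.apply_symm_apply] at e2
    rw [Equiv.trans_apply] at e5
    rw [sum4 _ d]
    linarith
  have hU : ∀ j, 0 ≤ s + t - (∑ i, a (E j i) i - a (E j j) j) := fun j => by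
    linarith [h.per (E j), h.nn (E j j) j]
  obtain ⟨l, hl, e⟩ := water _ hU Finset.univ t h0 ht
  refine ⟨_, fun j => le_min (hU j) hl, e, fun {j0 j1 j2 j3 k1 k2 k3} d d' => ?_,
    fun {j0 j1 j2 j3} d => ?_⟩
  · obtain ⟨k0, d''⟩ := ex3 _ _ _ d'
    obtain ⟨e, rfl, rfl, rfl, rfl⟩ := perm2 d d''
    have := hE j0 e (Finset.mem_univ _)
    rw [sum4 (fun j => a (e j) j) d] at this
    linarith [min_le_left (s + t - (∑ i, a (E j0 i) i - a (E j0 j0) j0)) l]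
  · rcases le_total (s + t - (∑ i, a (E j0 i) i - a (E j0 j0) j0)) l with b | b
    · refine Or.inr ⟨E j0 j1, E j0 j2, E j0 j3, ⟨(E j0).injective.ne d.1.1,
        (E j0).injective.ne d.1.2.1, (E j0).injective.ne d.1.2.2⟩, ?_⟩
      rw [min_eq_left b, sum4 (fun j => a (E j0 j) j) d]
      ring
    · exact Or.inl fun j => (min_le_right _ _).trans (min_eq_right b).ge

theorem t211 (h : Hy a t s) (g : Yy a t s y) {j0 j1 j2 k0 k1 k2 k3 : Fin 4} (d : D3 j0 j1 j2)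
    (d' : D4 k0 k1 k2 k3) :
    a k0 j0 - y j0 + (a k1 j0 - y j0) + (a k2 j1 - y j1) + (a k3 j2 - y j2) ≤ s := by
  obtain ⟨j3, e⟩ := ex3 _ _ _ d
  have e' : D4 j0 j1 j2 j3 := ⟨⟨d.2.2, e.2.2.1.symm, e.2.2.2.symm⟩, d.1, d.2.1, e.2.1.symm⟩
  have hs := (sum4 y e).symm.trans g.sum
  rcases g.ti e' with b | ⟨e1, e2, e3, b, c⟩
  · linarith [b j3, h.one k3 j2,
      h.tri ⟨d'.2.2.1.symm, d'.1.1.symm, d'.2.1⟩ j1 j0]
  · obtain ⟨p0, q0, h0, p1, q1, h1, p2, q2, h2, hp, hq⟩ := split _ _ _ _ d' _ _ _ b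
    have f1 := h.four e' hp
    have f2 := g.ub e hq
    rcases h0 with ⟨rfl, rfl⟩ | ⟨rfl, rfl⟩ <;> rcases h1 with ⟨rfl, rfl⟩ | ⟨rfl, rfl⟩ <;>
      rcases h2 with ⟨rfl, rfl⟩ | ⟨rfl, rfl⟩ <;> linarith

theorem t31 (h : Hy a t s) (g : Yy a t s y) {j0 j1 k0 k1 k2 k3 : Fin 4} (d : j0 ≠ j1)
    (d' : D4 k0 k1 k2 k3) :
    a k0 j0 - y j0 + (a k1 j0 - y j0) + (a k2 j0 - y j0) + (a k3 j1 - y j1) ≤ s := by
  obtain ⟨j2, j3, e⟩ := ex2 _ _ d
  have hs := (sum4 y e).symm.trans g.sum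
  obtain ⟨⟨n12, n13, n23⟩, n01, n02, n03⟩ := id d'
  have m0 := h.tri ⟨n13.symm, n23.symm, n12⟩ j1 j0
  have m1 := h.tri ⟨n03.symm, n23.symm, n02⟩ j1 j0
  have m2 := h.tri ⟨n03.symm, n13.symm, n01⟩ j1 j0
  have y0 := g.nn j0
  have y1 := g.nn j1
  rcases g.ti e with b | ⟨e1, e2, e3, b, c⟩
  · linarith [b j2, b j3, h.one k0 j0]
  · rcases exch _ _ _ _ d' _ _ _ b with f | f | f | ⟨f, rfl | rfl | rfl⟩
    · linarith [h.four e f]
    · linarith [h.four e f]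
    · linarith [h.four e f]
    · linarith [h.four e f, h.tri ⟨n01, n02, n12⟩ j1 j0]
    · linarith [h.four e f, h.tri ⟨n01.symm, n12, n02⟩ j1 j0]
    · linarith [h.four e f, h.tri ⟨n02.symm, n12.symm, n01⟩ j1 j0]

theorem full (h : Hy a t s) (g : Yy a t s y) (c : Fin 4 → Fin 4) :
    ∑ k, (a k (c k) - y (c k)) ≤ s := by
  have e : ![c 0, c 1, c 2, c 3] = c := funext fun i => by fin_cases i <;> rfl
  have := types (c 0) (c 1) (c 2) (c 3)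
  rw [e] at this
  rcases this with b | ⟨k0, k1, e1, k2, k3, d, e2 | e2 | ⟨e2, e3⟩⟩
  · have := (sum4 y b).symm.trans g.sum
    rw [Fin.sum_univ_four]
    linarith [h.four b (show D4 0 1 2 3 by decide)]
  all_goals rw [sum4 _ d, ← e1]
  · rw [← e2]
    linarith [h.two d (c k0) (c k2), g.nn (c k0), g.nn (c k2)]
  · exact t211 h g e2 d
  · rw [← e2]
    exact t31 h g e3 d

theorem part (h : Hy a t s) (g : Yy a t s y) (c : Fin 4 → Fin 4) (x : Fin 4 → R)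
    (h1 : ∀ k, x k ≤ a k (c k)) (h2 : ∀ k, x k = 0 ∨ x k = a k (c k) - y (c k)) :
    ∑ k, x k ≤ s := by
  by_cases b : ∀ k, x k = a k (c k) - y (c k)
  · rw [Finset.sum_congr rfl fun k _ => b k]
    exact full h g c
  obtain ⟨k0, b⟩ := not_forall.1 b
  obtain ⟨k1, k2, k3, d⟩ := ex1 k0
  obtain ⟨n12, n13, n23⟩ := d.1
  rw [sum4 _ d, (h2 k0).resolve_right b]
  have a1 := h1 k1
  have a2 := h1 k2
  have a3 := h1 k3
  rcases h2 k1 with b1 | b1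
  · linarith [h.pair n23 (c k2) (c k3)]
  rcases h2 k2 with b2 | b2
  · linarith [h.pair n13 (c k1) (c k3)]
  rcases h2 k3 with b3 | b3
  · linarith [h.pair n12 (c k1) (c k2)]
  by_cases e1 : c k1 = c k2
  · rw [e1] at a1
    linarith [h.tri ⟨n13.symm, n23.symm, n12⟩ (c k3) (c k2)]
  by_cases e2 : c k1 = c k3
  · rw [e2] at a1
    linarith [h.tri ⟨n12.symm, n23, n13⟩ (c k2) (c k3)]
  by_cases e3 : c k2 = c k3
  · rw [e3] at a2
    linarith [h.tri d.1 (c k1) (c k3)]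
  obtain ⟨j, e⟩ := ex3 _ _ _ ⟨e1, e2, e3⟩
  linarith [g.ub e d.1, (sum4 y e).symm.trans g.sum]

end LpA

open LpA in
theorem lp_stmt : LpStmt := by
  intro R _ _ _ a t s h0 h1 h2 h3
  have h : Hy a t s := ⟨h0, fun k j j' d => by
    obtain ⟨c, c', e⟩ := ex2 _ _ d
    have := h1 k
    rw [sum4 _ e] at this
    linarith [h0 k c, h0 k c'], fun d j j' => by
    obtain ⟨e, rfl, rfl, rfl, rfl⟩ := perm1 d
    exact h2 e j j', h3⟩
  obtain ⟨y, g⟩ := h.exy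
  choose c _ hc using fun k => Finset.exists_max_image Finset.univ (fun j => a k j - y j)
    Finset.univ_nonempty
  have hx : ∀ k, max 0 (a k (c k) - y (c k)) ≤ a k (c k) := fun k =>
    max_le (h0 _ _) (sub_le_self _ (g.nn _))
  exact ⟨fun k => max 0 (a k (c k) - y (c k)), y, fun k => le_max_left _ _, g.nn,
    fun k j => sub_le_iff_le_add.1 ((hc k j (Finset.mem_univ _)).trans (le_max_right _ _)),
    g.sum.le, part h g c _ hx fun k => max_choice _ _, fun k => ⟨c k, hx k⟩⟩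

end Pool.Agent.MP_20d318_ag.CC
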