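import Pool.Agent.MP_20d318_ag.CC.En3

/-! Merging two blocks by a reflection. -/

set_option autoImplicit false
set_option linter.unusedSectionVars false

namespace Pool.Agent.MP_20d318_ag.CC

open Pool.Agent.MP_20d318_ag.Lat hiding act
open Pool.Agent.MP_20d318_ag.CB

namespace Mg1

variable {ι κ : Type} [Fintype ι] [Fintype κ] {Λ : Ld ι κ} {T : Finset (ι → ℤ)} {blk : κ → κ}
  {c : κ → ι → ℤ}

theorem start (h : B0 Λ) : MS Λ ∅ id Λ.C := by
  classical
  refine ⟨fun β e he => absurd he (by simp), fun β v _ => ?_, h.nc.m4,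
    fun β hβ => absurd ⟨β, rfl⟩ hβ, h.nc.disj, by simp,
    id, fun F hF => ⟨⟨hF.1, ?_⟩, fun _ _ => rfl⟩⟩
  · simp [Finset.sum_filter]
  · obtain ⟨v, b, -, e⟩ := hF.2
    exact ⟨v, b, e⟩

theorem stop (h : B0 Λ) (m : MS Λ T blk c) (h1 : ∀ k l, blk k = blk l) :
    ∃ Ψ : (ι → ℤ) → ι → ℤ, ∀ v, Pp Λ T v → ip Λ.B v Λ.K = 0 → Ψ v ∈ L2 Λ ∧
      ∀ w, Pp Λ T w → ip Λ.B w Λ.K = 0 → ip Λ.B (Ψ v) (Ψ w) = 4 * ip Λ.B v w := by
  classical
  obtain ⟨Ψ, hΨ⟩ := m.iso
  have key : ∀ v, Pp Λ T v → ip Λ.B v Λ.K = 0 → (2 : ℤ) • v ∈ LM Λ T c := fun v hv hK => by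
    refine ⟨fun β => ?_, v, 0, hv, by simp⟩
    by_cases hβ : β ∈ Set.range blk
    · obtain ⟨k, rfl⟩ := hβ
      rw [ip_smul_left, m.val _ v hv, Finset.filter_true_of_mem fun l _ => h1 l k,
        ← ip_sum_right, h.nc.sumC, ip_smul_right, hK]
      simp
    · rw [m.zero β hβ, ip_zero_right]
  refine ⟨fun v => Ψ ((2 : ℤ) • v), fun v hv hK => ⟨(hΨ _ (key v hv hK)).1, fun w hw hK' => ?_⟩⟩
  rw [(hΨ _ (key v hv hK)).2 _ (key w hw hK'), ip_smul_left, ip_smul_right]
  ring

open Classical in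
theorem step (h : B0 Λ) (m : MS Λ T blk c) (e : ι → ℤ) (k l : κ) (pe : Pp Λ T e)
    (ee : ip Λ.B e e = -1) (ne : blk k ≠ blk l) (e1 : ip Λ.B e (c (blk k)) = 1)
    (e2 : ip Λ.B e (c (blk l)) = 1)
    (e0 : ∀ β, β ≠ blk k → β ≠ blk l → ip Λ.B e (c β) = 0) :
    ∃ blk' c', e ∉ T ∧ MS Λ (insert e T) blk' c' ∧ blk' k = blk' l ∧
      ∀ m m', blk m = blk m' → blk' m = blk' m' := by
  have cm : ∀ a b : ι → ℤ, ip Λ.B a b = ip Λ.B b a := ip_comm h.nc.sym
  have eT : e ∉ T := fun he => by
    have := pe e he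
    omega
  obtain ⟨blk', hb⟩ : ∃ blk' : κ → κ, ∀ m, blk' m = if blk m = blk l then blk k else blk m :=
    ⟨_, fun _ => rfl⟩
  obtain ⟨c', hc⟩ : ∃ c' : κ → ι → ℤ, ∀ β, c' β = c β +
      (if β = blk k then c (blk l) + (2 : ℤ) • e else 0) - if β = blk l then c (blk l) else 0 :=
    ⟨_, fun _ => rfl⟩
  have c1 : c' (blk k) = c (blk k) + (c (blk l) + (2 : ℤ) • e) := by simp [hc, ne]
  have c2 : c' (blk l) = 0 := by simp [hc, ne.symm]
  have c0 : ∀ β, β ≠ blk k → β ≠ blk l → c' β = c β := fun β a b => by simp [hc, a, b]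
  have tri : ∀ β, β = blk k ∨ β = blk l ∨ (β ≠ blk k ∧ β ≠ blk l) := fun β => by tauto
  have s1 := m.sq k
  have s2 := m.sq l
  have o12 := m.orth _ _ ne
  have o21 := m.orth _ _ ne.symm
  have f1 := (cm _ _).trans e1
  have f2 := (cm _ _).trans e2
  have sub : ∀ {v}, Pp Λ (insert e T) v → Pp Λ T v := fun hv x hx =>
    hv x (Finset.mem_insert_of_mem hx)
  have pp : ∀ β, Pp Λ (insert e T) (c' β) := fun β x hx => by
    rcases Finset.mem_insert.1 hx with rfl | hx
    · rcases tri β with rfl | rfl | ⟨a, b⟩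
      · rw [c1, ip_add_left, ip_add_left, ip_smul_left, f1, f2, ee]
        rfl
      · rw [c2, ip_zero_left]
      · rw [c0 β a b, cm, e0 β a b]
    · rcases tri β with rfl | rfl | ⟨a, b⟩
      · rw [c1, ip_add_left, ip_add_left, ip_smul_left, m.pp _ x hx, m.pp _ x hx, pe x hx]
        rfl
      · rw [c2, ip_zero_left]
      · rw [c0 β a b, m.pp β x hx]
  have o1 : ∀ β, β ≠ blk k → ip Λ.B (c' (blk k)) (c' β) = 0 := fun β a => by
    by_cases b : β = blk l
    · rw [b, c2, ip_zero_right]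
    · rw [c1, c0 β a b, ip_add_left, ip_add_left, ip_smul_left, e0 β a b, m.orth _ _ (Ne.symm a),
        m.orth _ _ (Ne.symm b)]
      rfl
  have bk : blk' k = blk k := by simp [hb]
  have bl : blk' l = blk k := by simp [hb]
  refine ⟨blk', c', eT, ⟨pp, fun β v hv => ?_, fun n => ?_, fun β hβ => ?_, fun β β' hβ => ?_, ?_,
    ?_⟩, bk.trans bl.symm, fun n n' hn => by rw [hb, hb, hn]⟩
  · have hv' := sub hv
    rcases tri β with rfl | rfl | ⟨a, b⟩
    · rw [c1, ip_add_right, ip_add_right, ip_smul_right, hv e (Finset.mem_insert_self _ _),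
        mul_zero, add_zero, m.val _ v hv', m.val _ v hv', Finset.sum_filter, Finset.sum_filter,
        Finset.sum_filter, ← Finset.sum_add_distrib]
      refine Finset.sum_congr rfl fun n _ => ?_
      rw [hb]
      by_cases a : blk n = blk l
      · simp [a, ne.symm]
      · simp [a]
    · rw [c2, ip_zero_right, Finset.filter_false_of_mem, Finset.sum_empty]
      intro n _
      rw [hb]
      split_ifs with a
      exacts [ne, a]
    · rw [c0 β a b, m.val β v hv']
      refine Finset.sum_congr (Finset.filter_congr fun n _ => ?_) fun _ _ => rfl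
      rw [hb]
      split_ifs with d
      · exact iff_of_false (d ▸ Ne.symm b) (Ne.symm a)
      · rfl
  · have q : ip Λ.B (c' (blk k)) (c' (blk k)) = -4 := by
      simp only [c1, ip_add_left, ip_add_right, ip_smul_left, ip_smul_right, s1, s2, o12, o21, e1,
        e2, f1, f2, ee]
      rfl
    rw [hb]
    split_ifs with a
    · exact q
    · by_cases b : blk n = blk k
      · rwa [b]
      · rw [c0 _ b a, m.sq]
  · rcases tri β with rfl | rfl | ⟨a, b⟩
    · exact absurd ⟨k, bk⟩ hβ
    · exact c2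
    · rw [c0 β a b]
      refine m.zero β ?_
      rintro ⟨n, rfl⟩
      exact hβ ⟨n, by rw [hb, if_neg b]⟩
  · rcases tri β with rfl | rfl | ⟨a, b⟩
    · exact o1 β' (Ne.symm hβ)
    · rw [c2, ip_zero_left]
    · rcases tri β' with rfl | rfl | ⟨a', b'⟩
      · rw [cm, o1 β a]
      · rw [c2, ip_zero_right]
      · rw [c0 β a b, c0 β' a' b', m.orth β β' hβ]
  · have im : Finset.univ.image blk' = (Finset.univ.image blk).erase (blk l) := by
      ext β
      simp only [Finset.mem_image, Finset.mem_univ, true_and, Finset.mem_erase]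
      constructor
      · rintro ⟨n, rfl⟩
        rw [hb]
        split_ifs with a
        exacts [⟨ne, k, rfl⟩, ⟨a, n, rfl⟩]
      · rintro ⟨a, n, rfl⟩
        exact ⟨n, by rw [hb, if_neg a]⟩
    have := Finset.card_erase_add_one (Finset.mem_image_of_mem blk (Finset.mem_univ l))
    have := m.card
    rw [Finset.card_insert_of_notMem eT, im]
    omega
  · obtain ⟨Ψ, hΨ⟩ := m.iso
    obtain ⟨u, hu⟩ : ∃ u, u = c (blk l) + (2 : ℤ) • e := ⟨_, rfl⟩
    have uu : ip Λ.B u u = -4 := by
      simp only [hu, ip_add_left, ip_add_right, ip_smul_left, ip_smul_right, s2, e2, f2, ee]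
      rfl
    have key : ∀ F ∈ LM Λ (insert e T) c', ip Λ.B F u = 2 * (ip Λ.B F u / 2) ∧
        F + (ip Λ.B F u / 2) • u ∈ LM Λ T c := by
      rintro F ⟨h0, v, b, hv, hF⟩
      have hS : ∑ β, b β • c' β = ∑ β, b β • c β + b (blk k) • u - b (blk l) • c (blk l) := by
        simp only [hc, hu, smul_sub, smul_add (b _) (c _) (ite _ _ _), smul_ite, smul_zero,
          Finset.sum_sub_distrib, Finset.sum_add_distrib, Finset.sum_ite_eq', Finset.mem_univ,
          if_true]
      have Fe : ip Λ.B F e = 0 := by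
        rw [hF, ip_add_left, ip_smul_left, hv e (Finset.mem_insert_self _ _), ip_sum_left]
        simp only [ip_smul_left, pp _ e (Finset.mem_insert_self _ _), mul_zero,
          Finset.sum_const_zero, add_zero]
      have Fu : ip Λ.B F u = ip Λ.B F (c (blk l)) := by
        rw [hu, ip_add_right, ip_smul_right, Fe, mul_zero, add_zero]
      have ul : ip Λ.B u (c (blk l)) = -2 := by
        rw [hu, ip_add_left, ip_smul_left, s2, e2]
        rfl
      have ev : ip Λ.B F (c (blk l)) = 2 * (ip Λ.B v (c (blk l)) - b (blk k)) := by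
        rw [hF, hS, ip_add_left, ip_sub_left, ip_add_left, ip_sum_left,
          Finset.sum_eq_single (blk l)
            (fun β _ a => by rw [ip_smul_left, m.orth _ _ a, mul_zero]) (by simp)]
        simp only [ip_smul_left, ul]
        ring
      obtain ⟨a, ha⟩ : ∃ a, ip Λ.B F u = 2 * a := ⟨_, Fu.trans ev⟩
      have hd : ip Λ.B F u / 2 = a := by omega
      rw [hd]
      refine ⟨ha, fun β => ?_, v + (b (blk k) + a) • e,
        fun β => b β + if β = blk l then b (blk k) + a - b (blk l) else 0, fun x hx => ?_, ?_⟩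
      · rw [ip_add_left, ip_smul_left]
        rcases tri β with rfl | rfl | ⟨p, q⟩
        · have := h0 (blk k)
          rw [c1, ip_add_right, ← hu, ha] at this
          rw [hu, ip_add_left, ip_smul_left, o21, e1]
          linarith
        · rw [← Fu, ha, ul]
          ring
        · have := h0 β
          rw [c0 β p q] at this
          rw [this, hu, ip_add_left, ip_smul_left, e0 β p q, m.orth _ _ (Ne.symm q)]
          ring
      · rw [ip_add_left, ip_smul_left, sub hv x hx, pe x hx]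
        ring
      · simp only [add_smul (b _) (ite _ _ _), ite_smul, zero_smul, Finset.sum_add_distrib,
          Finset.sum_ite_eq', Finset.mem_univ, if_true]
        rw [hF, hS, hu]
        module
    refine ⟨fun F => Ψ (F + (ip Λ.B F u / 2) • u), fun F hF =>
      ⟨(hΨ _ (key F hF).2).1, fun F' hF' => ?_⟩⟩
    rw [(hΨ _ (key F hF).2).2 _ (key F' hF').2]
    have a := (key F hF).1
    have a' := (key F' hF').1
    simp only [ip_add_left, ip_add_right, ip_smul_left, ip_smul_right, uu, cm u F']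
    generalize ip Λ.B F u / 2 = x at *
    generalize ip Λ.B F' u / 2 = y at *
    rw [a, a']
    ring

end Mg1

theorem mg1_stmt : Mg1Stmt := fun _ _ _ _ _ h =>
  ⟨Mg1.start h, fun _ _ _ m e k l => Mg1.step h m e k l, fun _ _ _ m => Mg1.stop h m⟩

end Pool.Agent.MP_20d318_ag.CC
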