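import Pool.Agent.MP_20d318_ag.CC.En3
import Pool.Agent.MP_20d318_ag.CB.LcB
import Mathlib.Data.Fin.Tuple.Sort

-- ======== part 0: formerly Pool.Agent.MP_20d318_ag.CC.Rb
section MrgPart0

/-! Row RB: bookkeeping of a numerical contraction. -/

set_option autoImplicit false
set_option linter.unusedSectionVars false

namespace Pool.Agent.MP_20d318_ag.CC

open Pool.Agent.MP_20d318_ag.Lat hiding act
open Pool.Agent.MP_20d318_ag.CB

namespace Rb

variable {ι κ : Type} [Fintype ι] [Fintype κ] {Λ : Ld ι κ} {T : Finset (ι → ℤ)}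

theorem ipr (B : ι → ι → ℤ) (T : Finset (ι → ℤ)) (v c : ι → ℤ) :
    ip B v (prj B T c) = ip B v c + ∑ e ∈ T, ip B c e * ip B v e := by
  simp only [prj, ip_add_right, ip_sum_right, ip_smul_right]

theorem one (cn : Cn Λ T) (a : (ι → ℤ) → ℤ) {e : ι → ℤ} (he : e ∈ T) :
    ∑ x ∈ T, a x * ip Λ.B e x = -a e := by
  rw [Finset.sum_eq_single_of_mem e he fun x hx hne => by rw [cn.orth e he x hx hne.symm, mul_zero],
    cn.sq e he, mul_neg_one]

theorem perp (b : B0 Λ) (cn : Cn Λ T) (c : ι → ℤ) : Pp Λ T (prj Λ.B T c) := fun e he => by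
  rw [ip_comm b.nc.sym, ipr, one cn _ he, ip_comm b.nc.sym e c, add_neg_cancel]

theorem adjn (v c : ι → ℤ) (hv : Pp Λ T v) : ip Λ.B v (prj Λ.B T c) = ip Λ.B v c := by
  rw [ipr, Finset.sum_eq_zero fun e he => by rw [hv e he, mul_zero], add_zero]

theorem fix (v : ι → ℤ) (hv : Pp Λ T v) : prj Λ.B T v = v := by
  rw [prj, Finset.sum_eq_zero fun e he => by rw [hv e he, zero_smul], add_zero]

theorem sq (b : B0 Λ) (cn : Cn Λ T) (c c' : ι → ℤ) : ip Λ.B (prj Λ.B T c) (prj Λ.B T c') =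
    ip Λ.B c c' + ∑ e ∈ T, ip Λ.B c e * ip Λ.B c' e := by
  rw [adjn _ _ (perp b cn c), ip_comm b.nc.sym, ipr, ip_comm b.nc.sym c' c]

theorem Kc (cn : Cn Λ T) (c : ι → ℤ) :
    ip Λ.B Λ.K (prj Λ.B T c) = ip Λ.B Λ.K c - ∑ e ∈ T, ip Λ.B c e := by
  rw [ipr, sub_eq_add_neg, ← Finset.sum_neg_distrib]
  congr 1
  exact Finset.sum_congr rfl fun e he => by rw [cn.K e he, mul_neg_one]

theorem prj_zero (B : ι → ι → ℤ) (T : Finset (ι → ℤ)) : prj B T 0 = 0 := by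
  simp [prj, ip_zero_left]

theorem pp (b : B0 Λ) (cn : Cn Λ T) (g : ι → ℤ) (hg : g ∈ ET Λ T) : Pp Λ T g := by
  induction hg using AddSubmonoid.closure_induction with
  | mem x hx => obtain ⟨-, c, -, rfl⟩ := hx; exact perp b cn c
  | zero => exact fun e _ => ip_zero_left e
  | add x y _ _ hx hy => exact fun e he => by rw [ip_add_left, hx e he, hy e he, add_zero]

/-- The primes of the contracted surface come from primes that are nonnegative on `T`. -/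
theorem src (cn : Cn Λ T) {g : ι → ℤ} (hg : g ∈ PT Λ T) :
    ∃ c ∈ Λ.P, g = prj Λ.B T c ∧ ∀ e ∈ T, 0 ≤ ip Λ.B c e := by
  obtain ⟨h0, c, hc, rfl⟩ := hg
  exact ⟨c, hc, rfl, (cn.prm c hc).resolve_left h0⟩

theorem sub (cn : Cn Λ T) (g : ι → ℤ) (hg : g ∈ ET Λ T) : g ∈ Λ.Ef := by
  refine (AddSubmonoid.closure_le.2 fun x hx => ?_ : ET Λ T ≤ Λ.Ef) hg
  obtain ⟨c, hc, rfl, h⟩ := src cn hx
  refine add_mem (AddSubmonoid.subset_closure hc) (sum_mem fun e he => ?_)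
  obtain ⟨n, hn⟩ := Int.eq_ofNat_of_zero_le (h e he)
  rw [hn, natCast_zsmul]
  exact nsmul_mem (cn.ef e he) n

theorem map (c : ι → ℤ) (hc : c ∈ Λ.Ef) : prj Λ.B T c ∈ ET Λ T := by
  induction hc using AddSubmonoid.closure_induction with
  | mem x hx =>
    by_cases h : prj Λ.B T x = 0
    · rw [h]; exact zero_mem _
    · exact AddSubmonoid.subset_closure ⟨h, x, hx, rfl⟩
  | zero => rw [prj_zero]; exact zero_mem _
  | add x y _ _ hx hy => rw [prj_add]; exact add_mem hx hy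

theorem pos (b : B0 Λ) (cn : Cn Λ T) (g : ι → ℤ) (hg : g ∈ PT Λ T) (g' : ι → ℤ)
    (hg' : g' ∈ PT Λ T) (hne : g ≠ g') : 0 ≤ ip Λ.B g g' := by
  obtain ⟨c, hc, rfl, h⟩ := src cn hg
  obtain ⟨c', hc', rfl, h'⟩ := src cn hg'
  rw [sq b cn]
  exact add_nonneg (b.nc.pos c hc c' hc' fun e => hne (by rw [e]))
    (Finset.sum_nonneg fun e he => mul_nonneg (h e he) (h' e he))

theorem adj (b : B0 Λ) (cn : Cn Λ T) (g : ι → ℤ) (hg : g ∈ PT Λ T) :
    -2 ≤ ip Λ.B g g + ip Λ.B Λ.K g := by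
  obtain ⟨c, hc, rfl, -⟩ := src cn hg
  have h1 := b.nc.adj c hc
  have h2 : ∑ e ∈ T, ip Λ.B c e ≤ ∑ e ∈ T, ip Λ.B c e * ip Λ.B c e :=
    Finset.sum_le_sum fun e _ => Int.le_self_sq _ |>.trans_eq (pow_two _)
  rw [sq b cn, Kc cn]
  linarith

theorem card (cn : Cn Λ T) : T.card ≤ Fintype.card ι := by
  classical
  have h : LinearIndependent ℤ (fun e : T => (e : ι → ℤ)) := by
    rw [Fintype.linearIndependent_iff]
    intro g hg e
    have h1 := congrArg (ip Λ.B e.1) hg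
    rw [ip_sum_right, ip_zero_right, Finset.sum_eq_single_of_mem e (Finset.mem_univ e)
      fun x _ hne => by
        rw [ip_smul_right, cn.orth e e.2 x x.2 fun k => hne (Subtype.ext k.symm), mul_zero],
      ip_smul_right, cn.sq e e.2] at h1
    omega
  simpa using h.fintype_card_le_finrank

end Rb

open Rb in
theorem rb_stmt : RbStmt := by
  intro ι κ _ _ Λ T b cn
  have pt : ∀ g ∈ PT Λ T, Pp Λ T g := fun g hg => pp b cn g (AddSubmonoid.subset_closure hg)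
  refine ⟨perp b cn, adjn, fix, ?_, ?_, fun v hv => ?_, sq b cn, Kc cn, pp b cn, sub cn, map,
    pos b cn, adj b cn, fun v hv h => ?_, fun g hg h c hc => ?_, fun e he h1 h2 => ?_, card cn⟩
  · rw [KT, prj, sub_eq_add_neg, ← Finset.sum_neg_distrib]
    congr 1
    exact Finset.sum_congr rfl fun e he => by rw [cn.K e he, neg_one_smul]
  · rw [KT, sq b cn, Finset.sum_congr rfl fun e he => by rw [cn.K e he]]
    simp
  · rw [KT, ip_comm b.nc.sym, adjn _ _ hv, ip_comm b.nc.sym]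
  · rcases b.nc.rr v h with k | k
    · exact Or.inl (fix v hv ▸ map v k)
    · have k1 := map (T := T) _ k
      rw [sub_eq_add_neg, prj_add, ← neg_one_smul ℤ v, prj_smul, fix v hv, neg_one_smul,
        ← sub_eq_add_neg] at k1
      exact Or.inr k1
  · rw [← adjn g c (pt g hg)]
    by_cases h0 : prj Λ.B T c = 0
    · rw [h0, ip_zero_right]
    · by_cases h1 : g = prj Λ.B T c
      · rw [← h1]; exact h
      · exact pos b cn g hg _ ⟨h0, c, hc, rfl⟩ h1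
  · have pe := pt e he
    have hn : e ∉ T := fun k => by have := pe e k; omega
    refine ⟨hn, fun x hx => ?_, fun x hx => ?_, fun x hx => ?_, fun x hx y hy hne => ?_,
      fun c hc => ?_⟩
    · rcases Finset.mem_insert.1 hx with rfl | hx
      · exact sub cn _ (AddSubmonoid.subset_closure he)
      · exact cn.ef x hx
    · rcases Finset.mem_insert.1 hx with rfl | hx
      · exact h1
      · exact cn.sq x hx
    · rcases Finset.mem_insert.1 hx with rfl | hx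
      · exact h2
      · exact cn.K x hx
    · rcases Finset.mem_insert.1 hx with kx | kx <;> rcases Finset.mem_insert.1 hy with ky | ky
      · exact absurd (kx.trans ky.symm) hne
      · rw [kx]; exact pe y ky
      · rw [ip_comm b.nc.sym, ky]; exact pe x kx
      · exact cn.orth x kx y ky hne
    · have e1 : ip Λ.B c e = ip Λ.B e (prj Λ.B T c) := by rw [adjn e c pe, ip_comm b.nc.sym]
      have e2 : ∀ T' : Finset (ι → ℤ), (∑ x ∈ T', ip Λ.B c x • x =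
          ip Λ.B c e • e + ∑ x ∈ T, ip Λ.B c x • x) →
          prj Λ.B T' c = prj Λ.B T c + ip Λ.B c e • e := fun T' h => by
        rw [prj, prj, h]; abel
      rw [e2 _ (Finset.sum_insert hn), e1]
      by_cases h0 : prj Λ.B T c = 0
      · left; rw [h0, ip_zero_right, zero_smul, add_zero]
      · by_cases h3 : e = prj Λ.B T c
        · left; rw [← h3, h1, neg_one_smul, add_neg_cancel]
        · right
          intro x hx
          rcases Finset.mem_insert.1 hx with rfl | hx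
          · rw [e1]; exact pos b cn _ he _ ⟨h0, c, hc, rfl⟩ h3
          · exact (cn.prm c hc).resolve_left h0 x hx

end Pool.Agent.MP_20d318_ag.CC

end MrgPart0

-- ======== part 1: formerly Pool.Agent.MP_20d318_ag.CC.Rc
section MrgPart1

/-! The cone theorem on the contracted surface. -/

set_option autoImplicit false
set_option linter.unusedSectionVars false

namespace Pool.Agent.MP_20d318_ag.CC

open Pool.Agent.MP_20d318_ag.Lat hiding act
open Pool.Agent.MP_20d318_ag.CB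

namespace Rc

variable {ι κ : Type} [Fintype ι] [Fintype κ] {Λ : Ld ι κ} {T : Finset (ι → ℤ)}

theorem pp_add {a b : ι → ℤ} (ha : Pp Λ T a) (hb : Pp Λ T b) : Pp Λ T (a + b) := fun e he => by
  rw [ip_add_left, ha e he, hb e he, add_zero]

theorem pp_sub {a b : ι → ℤ} (ha : Pp Λ T a) (hb : Pp Λ T b) : Pp Λ T (a - b) := fun e he => by
  rw [ip_sub_left, ha e he, hb e he, sub_zero]

theorem pp_smul {a : ι → ℤ} (m : ℤ) (ha : Pp Λ T a) : Pp Λ T (m • a) := fun e he => by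
  rw [ip_smul_left, ha e he, mul_zero]

theorem mem {g : ι → ℤ} (hg : g ∈ PT Λ T) : g ∈ ET Λ T := AddSubmonoid.subset_closure hg

theorem nn (h : B0 Λ) (R : RB Λ T) {y e : ι → ℤ} (hy : Λ.Nef y) (he : e ∈ ET Λ T) :
    0 ≤ ip Λ.B y e := h.lb.efn y hy e (R.sub e he)

theorem h0 (h : B0 Λ) (R : RB Λ T) {e : ι → ℤ} (he : e ∈ ET Λ T) : 0 ≤ ip Λ.B Λ.h e :=
  nn h R (fun c hc => (h.nc.hpos c hc).le) he

theorem hp (h : B0 Λ) (R : RB Λ T) {g : ι → ℤ} (hg : g ∈ PT Λ T) : 0 < ip Λ.B Λ.h g :=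
  h.lb.hef g (R.sub g (mem hg)) hg.1

theorem hK (h : B0 Λ) (C : Cn Λ T) (R : RB Λ T) : ip Λ.B Λ.h (KT Λ T) < 0 := by
  have h1 := h.lb.hK
  have h2 : 0 ≤ ∑ e ∈ T, ip Λ.B Λ.h e := Finset.sum_nonneg fun e he =>
    h.lb.efn _ (fun c hc => (h.nc.hpos c hc).le) e (C.ef e he)
  rw [R.KTe, ip_sub_right, ip_sum_right]
  omega

theorem cK (h : B0 Λ) (R : RB Λ T) {c : ι → ℤ} (hc : c ∈ PT Λ T) :
    ip Λ.B c (KT Λ T) = ip Λ.B Λ.K c :=
  (ip_comm h.nc.sym _ _).trans (R.Kv c (R.pp c (mem hc)))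

/-- Adjoint classes are effective. -/
theorem adjn (h : B0 Λ) (R : RB Λ T) {c : ι → ℤ} (hc : c ∈ PT Λ T) {m : ℤ} (m0 : 0 < m)
    (m1 : 0 ≤ m * ip Λ.B c c + ip Λ.B Λ.K c) : m • c + KT Λ T ∈ ET Λ T := by
  have cm := ip_comm (R := ℤ) h.nc.sym
  have pc := R.pp c (mem hc)
  have pv : Pp Λ T (m • c + KT Λ T) := pp_add (pp_smul m pc) (R.perp _)
  refine (R.rr _ pv ?_).resolve_right fun k => ?_
  · rw [← R.Kv _ pv]
    simp only [ip_add_left, ip_add_right, ip_smul_left, ip_smul_right, cK h R hc, R.Kv c pc]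
    nlinarith [mul_nonneg m0.le m1]
  · have h1 := h0 h R k
    rw [ip_sub_right, ip_add_right, ip_smul_right] at h1
    nlinarith [mul_pos m0 (hp h R hc)]

/-- A prime class which is not rational has an effective adjoint class. -/
theorem irr (h : B0 Λ) (R : RB Λ T) {c : ι → ℤ} (hc : c ∈ PT Λ T)
    (k : ip Λ.B c c + ip Λ.B Λ.K c ≠ -2) : c + KT Λ T ∈ ET Λ T := by
  have h1 := R.adj c hc
  obtain ⟨r, h2⟩ := h.nc.par c
  have h3 := adjn h R hc one_pos (by omega)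
  rwa [one_smul] at h3

/-- An effective class is a multiple of the nef class `c` or has another component. -/
theorem other (h : B0 Λ) (R : RB Λ T) {c : ι → ℤ} (hc : Λ.Nef c) {e : ι → ℤ} (he : e ∈ ET Λ T) :
    (∃ m : ℤ, 0 ≤ m ∧ e = m • c) ∨ ∃ g ∈ PT Λ T, g ≠ c ∧ ip Λ.B c g ≤ ip Λ.B c e := by
  induction he using AddSubmonoid.closure_induction with
  | mem g hg =>
    by_cases k : g = c
    · exact Or.inl ⟨1, zero_le_one, by rw [k, one_smul]⟩
    · exact Or.inr ⟨g, hg, k, le_rfl⟩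
  | zero => exact Or.inl ⟨0, le_rfl, by rw [zero_smul]⟩
  | add a b ha hb i1 i2 =>
    have h1 := nn h R hc ha
    have h2 := nn h R hc hb
    rw [ip_add_right]
    rcases i1 with ⟨m, m0, rfl⟩ | ⟨g, g1, g2, g3⟩
    · rcases i2 with ⟨m', m1, rfl⟩ | ⟨g, g1, g2, g3⟩
      · exact Or.inl ⟨m + m', add_nonneg m0 m1, by rw [add_smul]⟩
      · exact Or.inr ⟨g, g1, g2, by omega⟩
    · exact Or.inr ⟨g, g1, g2, by omega⟩

/-- The components of a nef rational class are rational. -/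
theorem parts (h : B0 Λ) (R : RB Λ T) {A : AddSubmonoid (ι → ℤ)} {c : ι → ℤ} (hc : c ∈ PT Λ T)
    (nef : Λ.Nef c) (rat : ip Λ.B c c + ip Λ.B Λ.K c = -2)
    (ih : ∀ g ∈ PT Λ T, ip Λ.B g g + ip Λ.B Λ.K g = -2 → ip Λ.B Λ.h g < ip Λ.B Λ.h c → g ∈ A)
    {e : ι → ℤ} (he : e ∈ ET Λ T) :
    c - e ∈ ET Λ T → ip Λ.B Λ.h e < ip Λ.B Λ.h c → e ∈ A := by
  induction he using AddSubmonoid.closure_induction with
  | mem g hg =>
    refine fun k1 k2 => ih g hg (by_contra fun k3 => ?_) k2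
    have h1 := nn h R nef (add_mem k1 (irr h R hg k3))
    rw [← add_assoc, sub_add_cancel, ip_add_right, cK h R hc] at h1
    omega
  | zero => exact fun _ _ => zero_mem A
  | add a b ha hb i1 i2 =>
    intro k1 k2
    have h1 := h0 h R ha
    have h2 := h0 h R hb
    have h3 : c - a = c - (a + b) + b := by abel
    have h4 : c - b = c - (a + b) + a := by abel
    rw [ip_add_right] at k2
    exact add_mem (i1 (h3 ▸ add_mem k1 hb) (by omega)) (i2 (h4 ▸ add_mem k1 ha) (by omega))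

theorem one (h : B0 Λ) (R : RB Λ T) (A : AddSubmonoid (ι → ℤ))
    (hn : ∀ c ∈ PT Λ T, ip Λ.B c c < 0 → c ∈ A) (ht : ∀ c, Tm Λ T c → c ∈ A) (d : ℕ) :
    ∀ c ∈ PT Λ T, ip Λ.B c c + ip Λ.B Λ.K c = -2 → ip Λ.B Λ.h c < d → c ∈ A := by
  have cm := ip_comm (R := ℤ) h.nc.sym
  induction d with
  | zero => exact fun c hc _ k => absurd (hp h R hc) (by omega)
  | succ d ih =>
    intro c hc rat k
    by_contra hA
    have n0 : 0 ≤ ip Λ.B c c := not_lt.1 fun k => hA (hn c hc k)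
    have nef := R.nef c hc n0
    obtain ⟨g, g1, g2, g3⟩ : ∃ g ∈ PT Λ T, g ≠ c ∧ ip Λ.B c g ≤ ip Λ.B c c := by
      by_contra m
      exact hA (ht c ⟨hc, rat, n0, fun g g1 g2 => not_le.1 fun g3 => m ⟨g, g1, g2, g3⟩⟩)
    have g4 := R.adj g g1
    have g5 : c - g ∈ ET Λ T := by
      refine (R.rr _ (pp_sub (R.pp c (mem hc)) (R.pp g (mem g1))) ?_).resolve_right fun k => ?_
      · simp only [ip_sub_left, ip_sub_right, cm g c]
        omega
      · have h1 := nn h R nef k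
        rw [ip_sub_right, ip_sub_right, cK h R hc] at h1
        omega
    have g6 := h.lb.hef _ (R.sub _ g5) (sub_ne_zero.2 g2.symm)
    have g7 := hp h R g1
    have p := fun e he => parts h R hc nef rat (fun x x1 x2 x3 => ih x x1 x2 (by omega)) (e := e) he
    have g8 := p _ g5 (by rw [sub_sub_cancel]; exact mem g1) (by rw [ip_sub_right]; omega)
    rw [ip_sub_right] at g6
    have g9 := add_mem g8 (p g (mem g1) g5 (by omega))
    rw [sub_add_cancel] at g9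
    exact hA g9

/-- From prime classes of small degree to effective classes of small degree. -/
theorem small (h : B0 Λ) (R : RB Λ T) {A : AddSubmonoid (ι → ℤ)} {d : ℤ}
    (ih : ∀ g ∈ PT Λ T, ip Λ.B Λ.h g < d → g ∈ A) {e : ι → ℤ} (he : e ∈ ET Λ T) :
    ip Λ.B Λ.h e < d → e ∈ A := by
  induction he using AddSubmonoid.closure_induction with
  | mem g hg => exact ih g hg
  | zero => exact fun _ => zero_mem A
  | add a b ha hb i1 i2 =>
    have h1 := h0 h R ha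
    have h2 := h0 h R hb
    rw [ip_add_right]
    exact fun k => add_mem (i1 (by omega)) (i2 (by omega))

theorem two (h : B0 Λ) (C : Cn Λ T) (R : RB Λ T) (A : AddSubmonoid (ι → ℤ))
    (hr : ∀ c ∈ PT Λ T, ip Λ.B c c + ip Λ.B Λ.K c = -2 → c ∈ A) (hk : -KT Λ T ∈ A) (d : ℕ) :
    ∀ c ∈ PT Λ T, ip Λ.B Λ.h c < d → c ∈ A := by
  induction d with
  | zero => exact fun c hc k => absurd (hp h R hc) (by omega)
  | succ d ih =>
    intro c hc k
    by_cases rat : ip Λ.B c c + ip Λ.B Λ.K c = -2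
    · exact hr c hc rat
    have h1 := hK h C R
    have h2 := add_mem (small h R ih (irr h R hc rat) (by rw [ip_add_right]; omega)) hk
    rwa [add_neg_cancel_right] at h2

theorem tm (h : B0 Λ) (R : RB Λ T) {c : ι → ℤ} (t : Tm Λ T c) :
    (ip Λ.B c c = 2 ∧ (2 : ℤ) • c + KT Λ T = 0) ∨ (ip Λ.B c c = 1 ∧ (3 : ℤ) • c + KT Λ T = 0) ∨
      (ip Λ.B c c = 0 ∧ ∀ v, Pp Λ T v → ip Λ.B v c = 0 → ∃ m : ℤ, v = m • c) := by
  obtain ⟨hc, rat, n0, lt⟩ := t
  have cm := ip_comm (R := ℤ) h.nc.sym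
  have nef := R.nef c hc n0
  have mult : ∀ e ∈ ET Λ T, ip Λ.B c e ≤ ip Λ.B c c → ∃ m : ℤ, 0 ≤ m ∧ e = m • c :=
    fun e he k => (other h R nef he).resolve_right fun ⟨g, g1, g2, g3⟩ =>
      absurd (lt g g1 g2) (by omega)
  have big : ∀ m : ℤ, 0 < m → 0 ≤ m * ip Λ.B c c + ip Λ.B Λ.K c →
      m * ip Λ.B c c + ip Λ.B Λ.K c < ip Λ.B c c →
      m * ip Λ.B c c + ip Λ.B Λ.K c = 0 ∧ m • c + KT Λ T = 0 := by
    intro m m0 m1 m2
    have e0 : ip Λ.B c (m • c + KT Λ T) = m * ip Λ.B c c + ip Λ.B Λ.K c := by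
      rw [ip_add_right, ip_smul_right, cK h R hc]
    obtain ⟨r, r0, e⟩ := mult _ (adjn h R hc m0 m1) (by omega)
    rw [e, ip_smul_right] at e0
    have r1 : r = 0 := by
      by_contra k
      have r2 : 0 ≤ r - 1 := by omega
      nlinarith [mul_nonneg r2 n0]
    rw [r1, zero_mul] at e0
    exact ⟨e0.symm, by rw [e, r1, zero_smul]⟩
  rcases (by omega : 2 ≤ ip Λ.B c c ∨ ip Λ.B c c = 1 ∨ ip Λ.B c c = 0) with k | k | k
  · obtain ⟨h1, h2⟩ := big 2 two_pos (by omega) (by omega)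
    exact Or.inl ⟨by omega, h2⟩
  · exact Or.inr (Or.inl ⟨k, (big 3 three_pos (by omega) (by omega)).2⟩)
  · refine Or.inr (Or.inr ⟨k, fun v pv v1 => ?_⟩)
    have hb : ip Λ.B Λ.K c = -2 := by omega
    obtain ⟨m, hm⟩ : ∃ m : ℤ, ip Λ.B Λ.K v - ip Λ.B v v ≤ 2 * m :=
      ⟨|ip Λ.B Λ.K v - ip Λ.B v v|, by
        have := le_abs_self (ip Λ.B Λ.K v - ip Λ.B v v)
        have := abs_nonneg (ip Λ.B Λ.K v - ip Λ.B v v)
        omega⟩
    have e0 : ip Λ.B c (v + m • c) = 0 := by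
      rw [ip_add_right, ip_smul_right, cm c v, v1, k, mul_zero, add_zero]
    have e1 : v + m • c ∈ ET Λ T := by
      refine (R.rr _ (pp_add pv (pp_smul m (R.pp c (mem hc)))) ?_).resolve_right fun k' => ?_
      · simp only [ip_add_left, ip_add_right, ip_smul_left, ip_smul_right, cm c v, v1, hb, k]
        omega
      · have h1 := nn h R nef k'
        rw [ip_sub_right, e0, cK h R hc] at h1
        omega
    obtain ⟨r, -, e⟩ := mult _ e1 (by omega)
    exact ⟨r - m, by rw [sub_smul, ← e, add_sub_cancel_right]⟩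

end Rc

theorem rc_stmt : RcStmt := by
  intro ι κ _ _ Λ T h C R
  have one : ∀ A : AddSubmonoid (ι → ℤ), (∀ c ∈ PT Λ T, ip Λ.B c c < 0 → c ∈ A) →
      (∀ c, Tm Λ T c → c ∈ A) → ∀ c ∈ PT Λ T, ip Λ.B c c + ip Λ.B Λ.K c = -2 → c ∈ A :=
    fun A hn ht c hc rat => Rc.one h R A hn ht ((ip Λ.B Λ.h c).toNat + 1) c hc rat (by omega)
  exact ⟨one, fun A hn ht hk c hc =>
    Rc.two h C R A (one A hn ht) hk ((ip Λ.B Λ.h c).toNat + 1) c hc (by omega),
    fun c t => Rc.tm h R t⟩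

end Pool.Agent.MP_20d318_ag.CC

end MrgPart1

-- ======== part 2: formerly Pool.Agent.MP_20d318_ag.CC.Ka
section MrgPart2

/-! A maximal numerical contraction of classes of negative degree. -/

set_option autoImplicit false
set_option linter.unusedSectionVars false

namespace Pool.Agent.MP_20d318_ag.CC

open Pool.Agent.MP_20d318_ag.Lat hiding act
open Pool.Agent.MP_20d318_ag.CB

namespace Ka

variable {ι κ : Type} [Fintype ι] [Fintype κ] {Λ : Ld ι κ} {L N : ι → ℝ} {xh x : κ → ℝ}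
  {T : Finset (ι → ℤ)}

/-- The class meets exactly two components, each once. -/
def Pt (Λ : Ld ι κ) (e : ι → ℤ) : Prop := ∃ k l, k ≠ l ∧ ip Λ.B (Λ.C k) e = 1 ∧
  ip Λ.B (Λ.C l) e = 1 ∧ ∀ m, m ≠ k → m ≠ l → ip Λ.B (Λ.C m) e = 0

theorem Pt.or {e : ι → ℤ} (h : Pt Λ e) (m : κ) : ip Λ.B (Λ.C m) e = 0 ∨ ip Λ.B (Λ.C m) e = 1 := by
  obtain ⟨k, l, -, h1, h2, h3⟩ := h
  by_cases a : m = k
  · exact Or.inr (a ▸ h1)
  by_cases b : m = l
  · exact Or.inr (b ▸ h2)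
  · exact Or.inl (h3 m a b)

theorem Pt.nn {e : ι → ℤ} (h : Pt Λ e) (m : κ) : 0 ≤ ip Λ.B (Λ.C m) e := by
  rcases h.or m with a | a <;> omega

theorem sum_two {e : ι → ℤ} {k l : κ} (h : k ≠ l) (h1 : ip Λ.B (Λ.C k) e = 1)
    (h2 : ip Λ.B (Λ.C l) e = 1) (h3 : ∀ m, m ≠ k → m ≠ l → ip Λ.B (Λ.C m) e = 0) (φ : κ → ℝ) :
    ∑ m, ((ip Λ.B (Λ.C m) e : ℤ) : ℝ) * φ m = φ k + φ l := by
  rw [Fintype.sum_eq_add k l h fun m hm => by rw [h3 m hm.1 hm.2, Int.cast_zero, zero_mul], h1, h2]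
  simp

theorem deg (H : KH Λ L N xh x) (c : ι → ℤ) :
    ip Λ.B N (toR c) = ip Λ.B L (toR c) - ∑ m, ((ip Λ.B (Λ.C m) c : ℤ) : ℝ) * x m := by
  rw [H.eq, ip_sub_left, ip_sum_left]
  refine congrArg _ (Finset.sum_congr rfl fun m _ => ?_)
  rw [ip_smul_left, ip_toR, mul_comm]

theorem low (b : B0 Λ) (H : KH Λ L N xh x) {c : ι → ℤ} (hc : c ∈ Λ.Ef) (k : κ) :
    xh k * ((ip Λ.B (Λ.C k) c : ℤ) : ℝ) ≤ ip Λ.B L (toR c) := by
  have := b.lb.efr _ (H.nk k) c hc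
  rwa [ip_sub_left, ip_smul_left, ip_toR, sub_nonneg] at this

open Classical in
theorem one (b : B0 Λ) (H : KH Λ L N xh x) {e : ι → ℤ} (he : e ∈ Λ.Ef) (hp : Pt Λ e) (k : κ) :
    -((ip Λ.B (Λ.C k) e : ℤ) : ℝ) * x k + ∑ l ∈ Finset.univ.erase k,
      ((ip Λ.B (Λ.C k) e * ip Λ.B (Λ.C l) e : ℤ) : ℝ) * (xh l - x l) ≤
      ((ip Λ.B (Λ.C k) e : ℤ) : ℝ) * ip Λ.B N (toR e) := by
  rcases hp.or k with a | a
  · simp [a]
  obtain ⟨k', l', h0, h1, h2, h3⟩ := hp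
  have s1 := sum_two h0 h1 h2 h3 x
  have s2 := sum_two h0 h1 h2 h3 fun l => xh l - x l
  rw [← Finset.add_sum_erase _ _ (Finset.mem_univ k), a] at s2
  have l1 := low b H he k'
  have l2 := low b H he l'
  rw [h1] at l1
  rw [h2] at l2
  simp only [a, one_mul, Int.cast_one, mul_one] at s2 l1 l2 ⊢
  rw [deg H, s1]
  by_cases c1 : k = k'
  · subst c1
    linarith
  by_cases c2 : k = l'
  · subst c2
    linarith
  · rw [h3 k c1 c2] at a
    omega

theorem sq (b : B0 Λ) (r : RB Λ T) (hp : ∀ e ∈ T, Pt Λ e) (k : κ) :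
    ip Λ.B (prj Λ.B T (Λ.C k)) (prj Λ.B T (Λ.C k)) = -4 + ∑ e ∈ T, ip Λ.B (Λ.C k) e := by
  rw [r.sq, b.nc.m4]
  refine congrArg _ (Finset.sum_congr rfl fun e he => ?_)
  rcases (hp e he).or k with a | a <;> rw [a] <;> rfl

theorem cross (b : B0 Λ) (r : RB Λ T) {k l : κ} (h : k ≠ l) :
    ip Λ.B (prj Λ.B T (Λ.C k)) (prj Λ.B T (Λ.C l)) =
      ∑ e ∈ T, ip Λ.B (Λ.C k) e * ip Λ.B (Λ.C l) e := by
  rw [r.sq, b.nc.disj k l h, zero_add]

theorem cross_nn (b : B0 Λ) (r : RB Λ T) (hp : ∀ e ∈ T, Pt Λ e) {k l : κ} (h : k ≠ l) :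
    0 ≤ ip Λ.B (prj Λ.B T (Λ.C k)) (prj Λ.B T (Λ.C l)) := by
  rw [cross b r h]
  exact Finset.sum_nonneg fun e he => mul_nonneg ((hp e he).nn k) ((hp e he).nn l)

open Classical in
theorem main (b : B0 Λ) (H : KH Λ L N xh x) (c : Cn Λ T) (r : RB Λ T) (hp : ∀ e ∈ T, Pt Λ e)
    (k : κ) : -((ip Λ.B (prj Λ.B T (Λ.C k)) (prj Λ.B T (Λ.C k)) : ℤ) : ℝ) * x k +
      ∑ l ∈ Finset.univ.erase k, ((ip Λ.B (prj Λ.B T (Λ.C k)) (prj Λ.B T (Λ.C l)) : ℤ) : ℝ) *
        (xh l - x l) ≤ ip Λ.B N (toR (prj Λ.B T (Λ.C k))) := by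
  have h1 := Finset.sum_le_sum fun e he => one b H (c.ef e he) (hp e he) k
  rw [Finset.sum_add_distrib, Finset.sum_comm, ← Finset.sum_mul, Finset.sum_neg_distrib] at h1
  have h2 : ∑ l ∈ Finset.univ.erase k,
      ((ip Λ.B (prj Λ.B T (Λ.C k)) (prj Λ.B T (Λ.C l)) : ℤ) : ℝ) * (xh l - x l) =
      ∑ l ∈ Finset.univ.erase k, ∑ e ∈ T,
        ((ip Λ.B (Λ.C k) e * ip Λ.B (Λ.C l) e : ℤ) : ℝ) * (xh l - x l) :=
    Finset.sum_congr rfl fun l hl => by
      rw [cross b r (Finset.ne_of_mem_erase hl).symm, Int.cast_sum, Finset.sum_mul]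
  have h3 : ip Λ.B N (toR (prj Λ.B T (Λ.C k))) = ip Λ.B N (toR (Λ.C k)) +
      ∑ e ∈ T, ((ip Λ.B (Λ.C k) e : ℤ) : ℝ) * ip Λ.B N (toR e) := by
    rw [prj, toR_add, toR_sum, ip_add_right, ip_sum_right]
    simp only [toR_zsmul, ip_smul_right]
  have h4 : ∑ m, ((ip Λ.B (Λ.C m) (Λ.C k) : ℤ) : ℝ) * x m = -4 * x k := by
    rw [Fintype.sum_eq_single k fun m hm => by rw [b.nc.disj m k hm, Int.cast_zero, zero_mul],
      b.nc.m4]
    norm_num
  have h5 := H.nt _ (b.nc.memC k)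
  rw [h2, h3, deg H, h4, sq b r hp, Int.cast_add, Int.cast_sum]
  push_cast at h1 ⊢
  linarith

theorem mem (b : B0 Λ) (c : Cn Λ T) (hp : ∀ e ∈ T, Pt Λ e) (k : κ) :
    prj Λ.B T (Λ.C k) ∈ PT Λ T := by
  refine ⟨fun h => ?_, _, b.nc.memC k, rfl⟩
  have h1 := congrArg (ip Λ.B Λ.h) h
  rw [prj, ip_add_right, ip_sum_right, ip_zero_right] at h1
  have h2 := b.nc.hpos _ (b.nc.memC k)
  have h3 : 0 ≤ ∑ e ∈ T, ip Λ.B Λ.h (ip Λ.B (Λ.C k) e • e) := Finset.sum_nonneg fun e he => by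
    rw [ip_smul_right]
    exact mul_nonneg ((hp e he).nn k) (b.lb.efn _ (fun c hc => (b.nc.hpos c hc).le) e (c.ef e he))
  omega

theorem np (b : B0 Λ) (H : KH Λ L N xh x) (c : Cn Λ T) (r : RB Λ T) (hp : ∀ e ∈ T, Pt Λ e)
    (k : κ) (h : ip Λ.B (prj Λ.B T (Λ.C k)) (prj Λ.B T (Λ.C k)) ≤ 0) :
    0 ≤ ip Λ.B N (toR (prj Λ.B T (Λ.C k))) := by
  classical
  refine le_trans (add_nonneg (mul_nonneg (neg_nonneg.2 (by exact_mod_cast h)) (H.x0 k))
    (Finset.sum_nonneg fun l hl => mul_nonneg ?_ (sub_nonneg.2 (H.xx l)))) (main b H c r hp k)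
  exact_mod_cast cross_nn b r hp (Finset.ne_of_mem_erase hl).symm

theorem lu (b : B0 Λ) (H : KH Λ L N xh x) (c : Cn Λ T) (r : RB Λ T) (hp : ∀ e ∈ T, Pt Λ e)
    (k : κ) (h : 0 ≤ ip Λ.B (prj Λ.B T (Λ.C k)) (prj Λ.B T (Λ.C k)))
    (h' : ∀ l, l ≠ k → ip Λ.B (prj Λ.B T (Λ.C k)) (prj Λ.B T (Λ.C k)) ≤
      ip Λ.B (prj Λ.B T (Λ.C k)) (prj Λ.B T (Λ.C l))) :
    0 ≤ ip Λ.B N (toR (prj Λ.B T (Λ.C k))) := by
  classical
  refine le_trans ?_ (main b H c r hp k)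
  generalize ip Λ.B (prj Λ.B T (Λ.C k)) (prj Λ.B T (Λ.C k)) = s at h h'
  have h1 : ∑ l ∈ Finset.univ.erase k, (s : ℝ) * (xh l - x l) ≤ _ :=
    Finset.sum_le_sum (g := fun l =>
      ((ip Λ.B (prj Λ.B T (Λ.C k)) (prj Λ.B T (Λ.C l)) : ℤ) : ℝ) * (xh l - x l)) fun l hl =>
      mul_le_mul_of_nonneg_right (by exact_mod_cast h' l (Finset.ne_of_mem_erase hl))
        (sub_nonneg.2 (H.xx l))
  have h2 := H.p2 k
  have h3 := Finset.add_sum_erase _ (fun l => xh l - x l) (Finset.mem_univ k)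
  rw [Finset.sum_sub_distrib (s := Finset.univ)] at h3
  rw [← Finset.mul_sum] at h1
  have h4 : (0 : ℝ) ≤ s := by exact_mod_cast h
  have h5 := mul_le_mul_of_nonneg_left
    (show x k ≤ ∑ l ∈ Finset.univ.erase k, (xh l - x l) by linarith) h4
  linarith

theorem three (b : B0 Λ) (H : KH Λ L N xh x) {e : ι → ℤ} (he : e ∈ Λ.Ef) (hp : Pt Λ e)
    (hn : ip Λ.B N (toR e) < 0) : 3 ≤ Fintype.card κ := by
  classical
  obtain ⟨k, l, h0, h1, h2, h3⟩ := hp
  by_contra hc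
  have hm : ∀ m, m ≠ k ∧ m ≠ l → False := fun m hm => hc (by
    rw [← Finset.card_eq_three.2 ⟨k, l, m, h0, hm.1.symm, hm.2.symm, rfl⟩]
    exact Finset.card_le_univ _)
  have p := H.p2 k
  rw [Fintype.sum_eq_add k l h0 fun m a => (hm m a).elim,
    Fintype.sum_eq_add k l h0 fun m a => (hm m a).elim] at p
  have l2 := low b H he l
  rw [h2, Int.cast_one, mul_one] at l2
  rw [deg H, sum_two h0 h1 h2 h3] at hn
  linarith

theorem neg (b : B0 Λ) (H : KH Λ L N xh x) (c : Cn Λ T) (r : RB Λ T) (hp : ∀ e ∈ T, Pt Λ e)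
    {g : ι → ℤ} (hg : g ∈ PT Λ T) (h : ip Λ.B g g < 0) : 0 ≤ ip Λ.B N (toR g) ∨
      (ip Λ.B g g = -1 ∧ ip Λ.B Λ.K g = -1 ∧ Pt Λ g) := by
  by_cases h1 : ∃ k, prj Λ.B T (Λ.C k) = g
  · obtain ⟨k, rfl⟩ := h1
    exact Or.inl (np b H c r hp k h.le)
  have hE : g ∈ ET Λ T := AddSubmonoid.subset_closure hg
  have hf := r.sub g hE
  have h2 : ∀ k, 0 ≤ ip Λ.B (Λ.C k) g := fun k => by
    rw [ip_comm b.nc.sym, ← r.adjn g _ (r.pp g hE)]
    exact r.pos g hg _ (mem b c hp k) fun e => h1 ⟨k, e.symm⟩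
  have h3 := b.lb.sumK g
  have h4 : 0 ≤ ∑ k, ip Λ.B (Λ.C k) g := Finset.sum_nonneg fun k _ => h2 k
  have h5 := r.adj g hg
  obtain ⟨q, hq⟩ := b.nc.par g
  have hL := b.lb.efr L H.nt g hf
  by_cases h6 : ip Λ.B Λ.K g = 0
  · rw [h6, mul_zero, Finset.sum_eq_zero_iff_of_nonneg fun k _ => h2 k] at h3
    left
    rw [deg H, Finset.sum_eq_zero fun m hm => by rw [h3 m hm, Int.cast_zero, zero_mul], sub_zero]
    exact hL
  have h7 : ip Λ.B Λ.K g = -1 := by omega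
  rcases b.lb.pat g h2 h7 with ⟨k, a1, a2⟩ | a
  · left
    have l1 := low b H hf k
    have l2 := H.xx k
    rw [deg H, Fintype.sum_eq_single k fun m hm => by rw [a2 m hm, Int.cast_zero, zero_mul]]
    rw [a1] at l1 ⊢
    push_cast at l1 ⊢
    linarith
  · exact Or.inr ⟨by omega, h7, a⟩

end Ka

theorem ka_stmt : KaStmt := by
  classical
  intro rb ι κ _ _ Λ L N xh x b H
  have ex : ∃ n, ∃ T : Finset (ι → ℤ), (Cn Λ T ∧ (∀ e ∈ T, ip Λ.B N (toR e) < 0) ∧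
      ∀ e ∈ T, Ka.Pt Λ e) ∧ T.card + n = Fintype.card ι :=
    ⟨_, ∅, ⟨⟨by simp, by simp, by simp, by simp, by simp⟩, by simp, by simp⟩, zero_add _⟩
  obtain ⟨T, ⟨c, lt, hp⟩, hn⟩ := Nat.find_spec ex
  have r := rb ι κ Λ T b c
  refine ⟨T, c, lt, hp, Ka.mem b c hp, fun k l h => ?_, fun k => ?_, Ka.np b H c r hp,
    Ka.lu b H c r hp, ?_, fun g hg h => ?_⟩
  · refine (em _).symm.imp_right fun e => ?_
    have := Ka.cross_nn b r hp h
    rwa [← e] at this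
  · rw [Ka.sq b r hp, r.Kc, b.lb.KC]
    ring
  · refine T.eq_empty_or_nonempty.imp_right fun ⟨e, he⟩ => ?_
    exact Ka.three b H (c.ef e he) (hp e he) (lt e he)
  · refine (Ka.neg b H c r hp hg h).elim id fun ⟨a1, a2, a3⟩ => not_lt.1 fun a4 => ?_
    obtain ⟨s1, s2⟩ := r.step g hg a1 a2
    have s3 := (rb ι κ Λ _ b s2).card
    rw [Finset.card_insert_of_notMem s1] at s3
    refine Nat.find_min ex (m := Nat.find ex - 1) (by omega) ⟨_, ⟨s2, fun e he => ?_, fun e he => ?_⟩,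
      ?_⟩
    · exact (Finset.mem_insert.1 he).elim (fun k => k ▸ a4) (lt e)
    · exact (Finset.mem_insert.1 he).elim (fun k => k ▸ a3) (hp e)
    · rw [Finset.card_insert_of_notMem s1]
      omega

end Pool.Agent.MP_20d318_ag.CC

end MrgPart2

-- ======== part 3: formerly Pool.Agent.MP_20d318_ag.CC.Kb
section MrgPart3

/-! KB: the curves at which the induction stops have nonnegative degree. -/

set_option autoImplicit false

namespace Pool.Agent.MP_20d318_ag.CC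

open Pool.Agent.MP_20d318_ag.Lat hiding act
open Pool.Agent.MP_20d318_ag.CB

namespace Kb

variable {ι κ : Type} [Fintype ι] [Fintype κ]

open Classical in
theorem sum_ge (a : κ → ℤ) (m : ℤ) (h : ∀ k, m ≤ a k) (o : κ) :
    a o + m * ((Finset.univ.erase o).card : ℤ) ≤ ∑ k, a k := by
  rw [← Finset.add_sum_erase _ a (Finset.mem_univ o)]
  have h1 : ∑ _k ∈ Finset.univ.erase o, m ≤ ∑ k ∈ Finset.univ.erase o, a k :=
    Finset.sum_le_sum fun k _ => h k
  rw [Finset.sum_const, nsmul_eq_mul, mul_comm] at h1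
  linarith

open Classical in
theorem card_erase (o : κ) : ((Finset.univ.erase o).card : ℤ) + 1 = Fintype.card κ := by
  have := Finset.card_erase_add_one (Finset.mem_univ o)
  rw [Finset.card_univ] at this
  exact_mod_cast this

variable {Λ : Ld ι κ} {L N : ι → ℝ} {xh x : κ → ℝ}

theorem deg (kh : KH Λ L N xh x) (b : ι → ℤ) :
    ip Λ.B N (toR b) = ip Λ.B L (toR b) - ∑ k, x k * (ip Λ.B (Λ.C k) b : ℤ) := by
  rw [kh.eq, ip_sub_left, ip_sum_left]
  simp only [ip_smul_left, ip_toR]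

theorem low (h : B0 Λ) (kh : KH Λ L N xh x) (k : κ) {w : ι → ℤ} (hw : w ∈ Λ.Ef) :
    xh k * (ip Λ.B (Λ.C k) w : ℤ) ≤ ip Λ.B L (toR w) := by
  have := h.lb.efr _ (kh.nk k) w hw
  rw [ip_sub_left, ip_smul_left, ip_toR] at this
  linarith

/-- The conic class with degrees `2, 1, 1`. -/
theorem conic (h : B0 Λ) (kh : KH Λ L N xh x) {b : ι → ℤ} (nb : Λ.Nef b) (bb : ip Λ.B b b = 0)
    (Kb : ip Λ.B Λ.K b = -2) {o p q : κ} (op : o ≠ p) (oq : o ≠ q) (pq : p ≠ q)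
    (hs : ∀ f : κ → ℝ, ∑ k, f k = f o + f p + f q) (hn : (Fintype.card κ : ℤ) = 3)
    (ao : ip Λ.B (Λ.C o) b = 2) (ap : ip Λ.B (Λ.C p) b = 1) (aq : ip Λ.B (Λ.C q) b = 1) :
    0 ≤ ip Λ.B N (toR b) := by
  have cm := fun u v : ι → ℤ => ip_comm h.nc.sym u v
  have KK := h.lb.KK
  rw [hn] at KK
  have Ko := h.lb.KC o
  have Kp := h.lb.KC p
  have Kq := h.lb.KC q
  have oK := (cm _ _).trans Ko
  have pK := (cm _ _).trans Kp
  have qK := (cm _ _).trans Kq
  have bK := (cm _ _).trans Kb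
  have bp := (cm _ _).trans ap
  have bq := (cm _ _).trans aq
  have pp := h.nc.m4 p
  have qq := h.nc.m4 q
  have d1 := h.nc.disj p q pq
  have d2 := h.nc.disj q p pq.symm
  have d3 := h.nc.disj o p op
  have d4 := h.nc.disj o q oq
  have hW : Λ.K + Λ.C p + Λ.C q + b + b ∈ Λ.Ef := by
    refine h.lb.rrn _ b nb ?_ ?_ <;> simp only [ip_add_left, ip_add_right] <;> omega
  have hV : b - Λ.K - Λ.C p - Λ.C q ∈ Λ.Ef := by
    refine h.lb.rrn _ b nb ?_ ?_ <;> simp only [ip_sub_left, ip_sub_right] <;> omega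
  have h1 := low h kh o hW
  have h2 := low h kh q hV
  have e1 : ip Λ.B (Λ.C o) (Λ.K + Λ.C p + Λ.C q + b + b) = 6 := by
    simp only [ip_add_right]
    omega
  have e2 : ip Λ.B (Λ.C q) (b - Λ.K - Λ.C p - Λ.C q) = 3 := by
    simp only [ip_sub_right]
    omega
  rw [e1] at h1
  rw [e2] at h2
  simp only [toR_add, toR_sub, ip_add_right, ip_sub_right] at h1 h2
  have h3 := kh.p2 p
  rw [hs, hs] at h3
  have h4 := kh.xx o
  rw [deg kh, hs, ao, ap, aq]
  push_cast at h1 h2 ⊢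
  linarith

end Kb

open Kb in
theorem kb_stmt : KbStmt := by
  classical
  intro ι κ _ _ Λ L N xh x T h c0 kh km rb rc c tm
  have cm := fun u v : ι → ℤ => ip_comm h.nc.sym u v
  rcases km.three with rfl | h3
  · exact absurd tm (c0.tm c)
  obtain ⟨cP, rat, c0', lt⟩ := id tm
  have pc : Pp Λ T c := rb.pp c (AddSubmonoid.subset_closure cP)
  by_cases hk : ∃ k, prj Λ.B T (Λ.C k) = c
  · obtain ⟨k, hk⟩ := hk
    have := km.lu k (by rw [hk]; exact c0') fun l _ => by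
      rw [hk]
      by_cases hl : prj Λ.B T (Λ.C l) = c
      · rw [hl]
      · exact (lt _ (km.mem l) hl).le
    rwa [hk] at this
  push Not at hk
  have ha : ∀ k, ip Λ.B c (prj Λ.B T (Λ.C k)) = ip Λ.B (Λ.C k) c := fun k =>
    (rb.adjn c _ pc).trans (cm _ _)
  have hlt : ∀ k, ip Λ.B c c + 1 ≤ ip Λ.B (Λ.C k) c := fun k => by
    have := lt _ (km.mem k) (hk k)
    rw [ha] at this
    omega
  have hs := h.lb.sumK c
  have hge := sum_ge _ _ hlt
  have h3' : (3 : ℤ) ≤ Fintype.card κ := by exact_mod_cast h3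
  rcases rc.tm c tm with ⟨e, -⟩ | ⟨e, hK⟩ | ⟨e, -⟩
  · have h1 := hge Λ.k0
    have h2 := card_erase Λ.k0
    have h4 := hlt Λ.k0
    rw [e] at h1 h4
    omega
  · have h2 : ∀ k, prj Λ.B T (Λ.C k) = (2 : ℤ) • c := by
      intro k
      have h1 := hge k
      have h2 := card_erase k
      have h4 := hlt k
      have h5 := ha k
      rw [e] at h1 h4
      have h6 : ip Λ.B c (prj Λ.B T (Λ.C k)) = 2 := by omega
      have h7 := rb.Kv _ (rb.perp (Λ.C k))
      have h8 : KT Λ T = -((3 : ℤ) • c) := eq_neg_of_add_eq_zero_right hK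
      rw [h8, ip_neg_left, ip_smul_left, h6] at h7
      have h9 := km.rat k
      have h10 := (cm _ _).trans h6
      by_contra hne
      have h11 := h.hg.neg (toR c) (toR (prj Λ.B T (Λ.C k) - (2 : ℤ) • c))
        (by rw [ip_toR, e]; norm_num)
        (by rw [ip_toR, ip_sub_left, ip_smul_left, h10, e]; norm_num)
        (fun h0 => hne (sub_eq_zero.1 (toR_inj (h0.trans toR_zero.symm))))
      rw [ip_toR] at h11
      have h12 : ip Λ.B (prj Λ.B T (Λ.C k) - (2 : ℤ) • c) (prj Λ.B T (Λ.C k) - (2 : ℤ) • c) < 0 := by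
        exact_mod_cast h11
      simp only [ip_sub_left, ip_sub_right, ip_smul_left, ip_smul_right] at h12
      omega
    have := km.lu Λ.k0 (by rw [h2, ip_smul_left, ip_smul_right, e]; norm_num) fun l _ => by
      rw [h2 l, h2 Λ.k0]
    rw [h2, toR_zsmul, ip_smul_right] at this
    push_cast at this
    linarith
  · have nb := rb.nef c cP c0'
    have Kc : ip Λ.B Λ.K c = -2 := by omega
    by_cases h1 : ∀ k, ip Λ.B (Λ.C k) c = 1
    · have := kh.hc c ⟨nb, e, Kc, h1⟩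
      rw [deg kh]
      simp only [h1, Int.cast_one, mul_one]
      linarith
    push Not at h1
    obtain ⟨o, ho⟩ := h1
    have h1 := hge o
    have h2 := card_erase o
    have h4 := hlt o
    rw [e] at h1 h4 hlt
    have h5 : (Finset.univ.erase o).card = 2 := by omega
    obtain ⟨p, q, pq, hpq⟩ := Finset.card_eq_two.1 h5
    have hp : p ∈ Finset.univ.erase o := by rw [hpq]; simp
    have hq : q ∈ Finset.univ.erase o := by rw [hpq]; simp
    have hsum : ∀ (R : Type) [AddCommMonoid R] (f : κ → R), ∑ k, f k = f o + f p + f q := by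
      intro R _ f
      rw [← Finset.add_sum_erase _ f (Finset.mem_univ o), hpq, Finset.sum_pair pq, add_assoc]
    rw [hsum] at hs
    have h6 := hlt p
    have h7 := hlt q
    exact conic h kh nb e Kc (Finset.ne_of_mem_erase hp).symm (Finset.ne_of_mem_erase hq).symm pq
      (hsum ℝ) (by omega) (by omega) (by omega) (by omega)

end Pool.Agent.MP_20d318_ag.CC

end MrgPart3

-- ======== part 4: formerly Pool.Agent.MP_20d318_ag.CC.Xn
section MrgPart4

/-! Conic classes. -/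

set_option autoImplicit false

namespace Pool.Agent.MP_20d318_ag.CC

open Pool.Agent.MP_20d318_ag.Lat hiding act
open Pool.Agent.MP_20d318_ag.CB
open Finset

namespace Xn

variable {ι κ : Type} [Fintype ι] [Fintype κ] {Λ : Ld ι κ}

theorem ip_comb (L : ι → ℝ) (x : κ → ℝ) (c : ι → ℤ) :
    ip Λ.B (L - ∑ k, x k • toR (Λ.C k)) (toR c) =
      ip Λ.B L (toR c) - ∑ k, x k * (ip Λ.B (Λ.C k) c : ℤ) := by
  simp only [ip_sub_left, ip_sum_left, ip_smul_left, ip_toR]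

theorem card4 (h : B0 Λ) {b : ι → ℤ} (hb : b ∈ HC Λ) : Fintype.card κ = 4 := by
  have e := h.lb.sumK b
  simp only [hb.2.2.2, hb.2.2.1, sum_const, card_univ, nsmul_eq_mul, mul_one] at e
  omega

theorem nk (h : B0 Λ) {D : W ι κ ℝ} (hD : D ∈ Λ.NX) (k : κ) (j : Fin 4) :
    D.1 - D.2.2 k j • toR (Λ.C k) ∈ Λ.NT := by
  classical
  obtain ⟨h1, -, h3, h4⟩ := hD
  intro c hc
  rw [ip_sub_left, ip_smul_left, ip_toR]
  by_cases a : ∃ l, l ≠ k ∧ c = Λ.C l
  · obtain ⟨l, a1, rfl⟩ := a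
    rw [h.nc.disj k l a1.symm]
    simpa using h3 _ hc
  · have e := h4 j c hc
    rw [ip_comb, ← add_sum_erase _ _ (mem_univ k)] at e
    have : 0 ≤ ∑ l ∈ univ.erase k, D.2.2 l j * (ip Λ.B (Λ.C l) c : ℤ) := sum_nonneg fun l hl =>
      mul_nonneg (h1 l j) (Int.cast_nonneg
        (h.nc.pos _ (h.nc.memC l) c hc fun e => a ⟨l, (mem_erase.1 hl).1, e.symm⟩))
    linarith

/-- the bisection classes are effective -/
theorem wef (h : B0 Λ) {b : ι → ℤ} (hb : b ∈ HC Λ) {k l : κ} (hkl : k ≠ l) :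
    Λ.K + Λ.C k + Λ.C l + (2 : ℤ) • b ∈ Λ.Ef := by
  have c4 := card4 h hb
  obtain ⟨b0, b1, b2, b3⟩ := hb
  have s := fun u v : ι → ℤ => ip_comm h.nc.sym u v
  refine h.lb.rrn _ b b0 ?_ ?_
  · simp only [ip_add_left, ip_add_right, ip_smul_left, ip_smul_right, s (Λ.C _) Λ.K, s b Λ.K,
      s b (Λ.C _), h.lb.KC, h.lb.KK, h.nc.m4, h.nc.disj k l hkl, h.nc.disj l k hkl.symm, b1, b2,
      b3, c4]
    norm_num
  · simp only [ip_add_right, ip_smul_right, s b Λ.K, s b (Λ.C _), b1, b2, b3]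
    norm_num

theorem half (h : B0 Λ) {D : W ι κ ℝ} (hD : D ∈ Λ.NX) {b : ι → ℤ} (hb : b ∈ HC Λ)
    (e : Fin 4 ≃ κ) (j : Fin 4) : 4 * (D.2.2 (e 2) j + D.2.2 (e 3) j) ≤
      ip Λ.B D.1 (toR (Λ.K + Λ.C (e 0) + Λ.C (e 1) + (2 : ℤ) • b)) := by
  have d : ∀ i i' : Fin 4, i ≠ i' → ip Λ.B (Λ.C (e i)) (Λ.C (e i')) = 0 := fun i i' n =>
    h.nc.disj _ _ (e.injective.ne n)
  have := h.lb.efr _ (hD.2.2.2 j) _ (wef h hb (e.injective.ne (by decide : (0 : Fin 4) ≠ 1)))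
  rw [ip_comb, ← e.sum_comp, Fin.sum_univ_four] at this
  simp only [ip_add_right, ip_smul_right, ip_comm h.nc.sym (Λ.C _) Λ.K, h.lb.KC, h.nc.m4,
    hb.2.2.2, d 0 1 (by decide), d 1 0 (by decide), d 2 0 (by decide), d 2 1 (by decide),
    d 3 0 (by decide), d 3 1 (by decide)] at this
  push_cast at this
  linarith

theorem s2 (h : B0 Λ) {D : W ι κ ℝ} (hD : D ∈ Λ.NX) {b : ι → ℤ} (hb : b ∈ HC Λ)
    (e : Fin 4 ≃ κ) (j j' : Fin 4) : D.2.2 (e 0) j + D.2.2 (e 1) j +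
      D.2.2 (e 2) j' + D.2.2 (e 3) j' ≤ ip Λ.B D.1 (toR b) := by
  have h1 := half h hD hb e j'
  have h2 := half h hD hb (Fin.revPerm.trans e) j
  have h3 := congrArg (fun v => ip Λ.B D.1 (toR v)) h.nc.sumC
  rw [← e.sum_comp, Fin.sum_univ_four] at h3
  change 4 * (D.2.2 (e 1) j + D.2.2 (e 0) j) ≤
    ip Λ.B D.1 (toR (Λ.K + Λ.C (e 3) + Λ.C (e 2) + (2 : ℤ) • b)) at h2
  simp only [toR_add, toR_zsmul, ip_add_right, ip_smul_right] at h1 h2 h3
  push_cast at h1 h2 h3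
  linarith

theorem vert (h : B0 Λ) {b : ι → ℤ} (hb : b ∈ HC Λ) {c : ι → ℤ} (hc : c ∈ Λ.P)
    (h0 : ip Λ.B c b = 0) (k : κ) (hk : ip Λ.B (Λ.C k) c ≠ 0) : c = b ∨
    (ip Λ.B c c = -1 ∧ ip Λ.B Λ.K c = -1 ∧ ip Λ.B (Λ.C k) c = 1 ∧ ∃ m, m ≠ k ∧
      ip Λ.B (Λ.C m) c = 1 ∧ ∀ m', m' ≠ k → m' ≠ m → ip Λ.B (Λ.C m') c = 0) := by
  obtain ⟨b0, b1, b2, b3⟩ := hb
  have s := fun u v : ι → ℤ => ip_comm h.nc.sym u v
  have nr : c ∉ Set.range Λ.C := by
    rintro ⟨m, rfl⟩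
    have := b3 m
    omega
  have p := h.lb.Cc c hc nr
  have bn : toR b ≠ 0 := fun e => by
    rw [toR_inj (e.trans toR_zero.symm), ip_zero_right] at b2
    omega
  obtain ⟨i1, i2⟩ := h.hg.iso (toR b) (toR c) (by rw [ip_toR, b1, Int.cast_zero]) bn
    (by rw [ip_toR, h0, Int.cast_zero])
  rw [ip_toR] at i1 i2
  rcases (Int.cast_nonpos.1 i1).eq_or_lt with z | z
  · obtain ⟨q, hq⟩ := i2 (by rw [z, Int.cast_zero])
    have e1 := ip_toR Λ.B (Λ.C k) c
    rw [hq, ip_smul_right, ip_toR, b3, Int.cast_one, mul_one] at e1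
    have e2 : c = ip Λ.B (Λ.C k) c • b := toR_inj (by rw [toR_zsmul, ← e1, hq])
    have e3 := h.nc.adj c hc
    have e4 : ip Λ.B Λ.K c = ip Λ.B (Λ.C k) c * -2 := by
      rw [← b2, ← ip_smul_right, ← e2]
    have e5 := p k
    rw [show ip Λ.B (Λ.C k) c = 1 by omega, one_smul] at e2
    exact Or.inl e2
  · right
    rcases h.lb.neg c hc z with ⟨m, e⟩ | ⟨-, e1, e2⟩ | ⟨-, -, -, e⟩
    · exact absurd ⟨m, e.symm⟩ nr
    · refine ⟨e1, e2, ?_⟩
      rcases h.lb.pat c p e2 with ⟨m, m1, m2⟩ | ⟨m, l, n, m1, m2, m3⟩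
      · exfalso
        have f1 : b - c ∈ Λ.Ef := h.lb.rrn _ b b0
          (by simp only [ip_sub_left, ip_sub_right, s b c, b1, b2, e1, e2, h0]; norm_num)
          (by simp only [ip_sub_right, s b c, s b Λ.K, b1, b2, h0]; norm_num)
        have f2 := h.lb.comp _ f1 _ (h.nc.memC m)
          (by rw [s, ip_sub_right, b3, m1]; norm_num)
        have f3 := h.lb.efn b b0 _ f2
        simp only [ip_sub_right, s b c, s b (Λ.C _), b1, b3, h0] at f3
        omega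
      · by_cases a : k = m
        · subst a
          exact ⟨m1, l, n.symm, m2, m3⟩
        · by_cases a' : k = l
          · subst a'
            exact ⟨m2, m, n, m1, fun r r1 r2 => m3 r r2 r1⟩
          · exact absurd (m3 k a a') hk
    · exact absurd (e k) hk

omit [Fintype κ] in
theorem ntc : IsCone Λ.NT :=
  ⟨fun c _ => (ip_zero_left _).ge,
    fun x hx y hy c hc => by rw [ip_add_left]; exact add_nonneg (hx c hc) (hy c hc),
    fun r hr x hx c hc => by rw [ip_smul_left]; exact mul_nonneg hr (hx c hc)⟩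

theorem nnc : IsCone (NN Λ) := by
  refine ⟨⟨⟨fun _ _ => le_rfl, fun _ => by simp, ntc.zero, fun j => ?_⟩, fun b _ e => ?_⟩, ?_, ?_⟩
  · simpa using (ntc (Λ := Λ)).zero
  · simp [ip_zero_left]
  · rintro x ⟨⟨x1, x2, x3, x4⟩, x5⟩ y ⟨⟨y1, y2, y3, y4⟩, y5⟩
    refine ⟨⟨fun k j => add_nonneg (x1 k j) (y1 k j), fun k => ?_, ntc.add _ x3 _ y3, fun j => ?_⟩,
      fun b hb e => ?_⟩
    · simpa [sum_add_distrib] using add_le_add (x2 k) (y2 k)
    · have := ntc.add _ (x4 j) _ (y4 j)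
      rw [sub_add_sub_comm, ← sum_add_distrib] at this
      simpa only [Prod.fst_add, Prod.snd_add, Pi.add_apply, add_smul] using this
    · have := add_le_add (x5 b hb e) (y5 b hb e)
      simp only [Prod.fst_add, Prod.snd_add, Pi.add_apply, sum_add_distrib, ip_add_left]
      linarith
  · rintro r hr x ⟨⟨x1, x2, x3, x4⟩, x5⟩
    refine ⟨⟨fun k j => mul_nonneg hr (x1 k j), fun k => ?_, ntc.smul r hr _ x3, fun j => ?_⟩,
      fun b hb e => ?_⟩
    · simpa [mul_sum] using mul_le_mul_of_nonneg_left (x2 k) hr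
    · have := ntc.smul r hr _ (x4 j)
      rw [smul_sub, smul_sum] at this
      simpa only [Prod.smul_fst, Prod.smul_snd, Pi.smul_apply, smul_eq_mul, mul_smul] using this
    · have := mul_le_mul_of_nonneg_left (x5 b hb e) hr
      simpa only [Prod.smul_fst, Prod.smul_snd, Pi.smul_apply, smul_eq_mul, ip_smul_left, mul_sum,
        mul_add] using this

end Xn

theorem xn_stmt : XnStmt := fun _ _ _ _ _ h =>
  ⟨fun _ hb => ⟨(Fintype.equivFinOfCardEq (Xn.card4 h hb)).symm⟩, fun _ hD => Xn.nk h hD,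
    fun _ hD _ hb => Xn.s2 h hD hb, fun _ hb _ hc => Xn.vert h hb hc, Xn.nnc⟩

end Pool.Agent.MP_20d318_ag.CC

end MrgPart4

-- ======== part 5: formerly Pool.Agent.MP_20d318_ag.CC.LcA
section MrgPart5

/-! The nef criterion on the threefold. -/

set_option autoImplicit false

namespace Pool.Agent.MP_20d318_ag.CC

open Pool.Agent.MP_20d318_ag.Lat hiding act
open Pool.Agent.MP_20d318_ag.CB Finset CB.LcA

namespace LcA

variable {ι κ : Type} [Fintype ι] [Fintype κ] {Λ : Ld ι κ}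

omit [Fintype ι] in
theorem pay {a : κ → Fin 4 → ℝ} {m : κ → Fin 4 → ℤ} {t : ℝ} {d : ℤ} {β : κ → ℤ} {xh x : κ → ℝ}
    {y : Fin 4 → ℝ} (h : XYc a t xh x y) (m0 : ∀ k j, 0 ≤ m k j) (mb : ∀ k, ∑ j, m k j ≤ β k)
    (md : ∀ j, ∑ k, m k j ≤ d) (d0 : 0 ≤ d) :
    ∑ k, ∑ j, a k j * m k j ≤ ∑ k, x k * β k + t * d := by
  refine le_trans (sum_le_sum fun k _ => sum_le_sum fun j _ =>
    mul_le_mul_of_nonneg_right (h.le k j) (Int.cast_nonneg (m0 k j))) ?_
  simp only [add_mul, sum_add_distrib]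
  refine add_le_add (sum_le_sum fun k _ => ?_) ?_
  · rw [← mul_sum, ← Int.cast_sum]
    exact mul_le_mul_of_nonneg_left (Int.cast_le.2 (mb k)) (h.x0 k)
  · rw [sum_comm]
    refine le_trans (sum_le_sum fun j _ => ?_) ((sum_mul _ _ _).symm.trans_le
      (mul_le_mul_of_nonneg_right h.sy (Int.cast_nonneg d0)))
    rw [← mul_sum, ← Int.cast_sum]
    exact mul_le_mul_of_nonneg_left (Int.cast_le.2 (md j)) (h.y0 j)

theorem nefc (B : B0 Λ) (hK : KEY Λ) {L N : ι → ℝ} {xh x : κ → ℝ} (h : KH Λ L N xh x) {c : ι → ℤ}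
    (hc : c ∈ Λ.P) (hcc : 0 ≤ ip Λ.B c c) : 0 ≤ ip Λ.B N (toR c) := by
  obtain ⟨T, i1, i2⟩ := hK L N xh x h
  have e := i2 c hc
  rw [ip_add_left, ip_sum_left] at e
  have : ∑ e ∈ T, ip Λ.B (ip Λ.B N (toR e) • toR e) (toR c) ≤ 0 := sum_nonpos fun e he => by
    rw [ip_smul_left, ip_toR, ip_comm B.nc.sym e c]
    exact mul_nonpos_of_nonpos_of_nonneg (i1 e he).2.le
      (Int.cast_nonneg (B.lb.efn c (B.lb.pn c hc hcc) e (i1 e he).1))
  linarith

end LcA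

open LcA

theorem lcA_stmt : LcAStmt := by
  classical
  intro xy ι κ _ _ Λ B X hK D hD Z hZ
  obtain ⟨b, d, m⟩ := Z
  obtain ⟨hb, d0, hZ⟩ := hZ
  have one := X.nk D hD.1
  have s2 := X.s2 D hD.1
  obtain ⟨⟨a0, at', hL, hM⟩, hH⟩ := hD
  obtain ⟨L, t, a⟩ := D
  simp only [Set.mem_ofPred_eq] at hb d0 hZ one s2 a0 at' hL hM hH
  show 0 ≤ ip Λ.B L (toR b) + t * d - ∑ k, ∑ j, a k j * m k j
  have l0 := nt_b hL hb
  have d1 : (0 : ℝ) ≤ d := Int.cast_nonneg d0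
  rcases hZ with ⟨j, z1, z2⟩ | ⟨k, -, z2⟩ | ⟨k, j, -, z1, z2, z3⟩ | ⟨m0, mb, md⟩
  · have e := nt_b (hM j) hb
    rw [ip_comb] at e
    simpa [z1, z2] using e
  · have e : ∑ l, ∑ j, a l j * (m l j : ℝ) = (∑ j, a k j) * d := by
      rw [sum_eq_single k (fun l _ hl => by simp [z2, hl]) (fun h => absurd (mem_univ k) h), sum_mul]
      simp [z2]
    have := mul_le_mul_of_nonneg_right (at' k) d1
    linarith
  · have e : ∑ l, ∑ j, a l j * (m l j : ℝ) ≤ 0 := sum_nonpos fun l _ => sum_nonpos fun i _ => by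
      refine mul_nonpos_of_nonneg_of_nonpos (a0 l i) (Int.cast_nonpos.2 ?_)
      by_cases h : l = k ∧ i = j
      · rw [h.1, h.2]; exact z2
      · exact (z3 l i h).le
    rw [z1, Int.cast_zero, mul_zero]
    linarith
  have : Nonempty κ := ⟨Λ.k0⟩
  obtain ⟨xh, x, y, h⟩ := xy ℝ κ a t a0 at'
  have xn : ∀ k, L - xh k • toR (Λ.C k) ∈ Λ.NT := fun k => by
    obtain ⟨j, e⟩ := h.att k
    exact e ▸ one k j
  have main : 0 ≤ ip Λ.B (L - ∑ k, x k • toR (Λ.C k)) (toR b) →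
      0 ≤ ip Λ.B L (toR b) + t * d - ∑ k, ∑ j, a k j * m k j := fun e => by
    rw [ip_comb] at e
    linarith [pay h m0 mb md d0]
  have bd := bound a0 at' h.ub m0 mb md d0
  rcases hb with rfl | ⟨c, hc, n, rfl⟩
  · exact main (by rw [toR_zero, ip_zero_right])
  have main' : 0 ≤ ip Λ.B (L - ∑ k, x k • toR (Λ.C k)) (toR c) →
      0 ≤ ip Λ.B L (toR (n • c)) + t * d - ∑ k, ∑ j, a k j * m k j := fun h =>
    main (by rw [toR_nsmul, ip_smul_right]; exact mul_nonneg (Nat.cast_nonneg n) h)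
  have np : (∀ k, ip Λ.B (Λ.C k) c ≤ 0) →
      0 ≤ ip Λ.B L (toR (n • c)) + t * d - ∑ k, ∑ j, a k j * m k j := fun e => main' (by
    rw [ip_comb]
    exact sub_nonneg.2 ((sum_nonpos fun k _ => mul_nonpos_of_nonneg_of_nonpos (h.x0 k)
      (Int.cast_nonpos.2 (e k))).trans (hL c hc)))
  rcases le_or_gt 0 (ip Λ.B c c) with hcc | hcc
  · exact main' (nefc B hK ⟨hL, xn, h.x0, h.xx, h.p2, fun b hb =>
      h.lp _ (X.four b hb) (s2 b hb) (hH b hb), rfl⟩ hc hcc)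
  rcases B.lb.neg c hc hcc with ⟨k, rfl⟩ | ⟨c1, -, c3⟩ | ⟨-, -, -, c4⟩
  · refine np fun l => ?_
    by_cases e : l = k
    · exact e ▸ hcc.le
    · exact (B.nc.disj l k e).le
  · rcases B.lb.pat c (B.lb.Cc c hc c1) c3 with ⟨k, -, s2⟩ | ⟨k, l, l2, -, s1, s2⟩
    · have e := bd k
      rw [sum_eq_zero (s := univ.erase k) fun r hr => by
        rw [ip_nsmul_right, s2 r (mem_erase.1 hr).1]; simp] at e
      linarith
    · have e := bd k
      rw [sum_eq_single l (fun r hr h => by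
        rw [ip_nsmul_right, s2 r (mem_erase.1 hr).1 h]; simp)
        (fun h => absurd (mem_erase.2 ⟨l2.symm, mem_univ l⟩) h), ip_nsmul_right, s1] at e
      have f := xn l c hc
      rw [ip_one, s1] at f
      rw [toR_nsmul, ip_smul_right]
      push_cast at e f
      have := mul_nonneg (Nat.cast_nonneg (α := ℝ) n) f
      nlinarith
  · exact np fun k => (c4 k).le

end Pool.Agent.MP_20d318_ag.CC

end MrgPart5

-- ======== part 6: formerly Pool.Agent.MP_20d318_ag.CC.LcB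
section MrgPart6

/-! Nef classes on the threefold: effectivity and spanning. -/

set_option autoImplicit false

namespace Pool.Agent.MP_20d318_ag.CC

open Pool.Agent.MP_20d318_ag.Lat hiding act
open Pool.Agent.MP_20d318_ag.CB

namespace LcBA

variable {ι κ : Type} [Fintype ι] [Fintype κ] {Λ : Ld ι κ}

omit [Fintype ι] in
theorem den (x : κ → ℚ) : ∃ n : ℕ, 0 < n ∧ ∃ z : κ → ℤ, ∀ k, (n : ℝ) * x k = z k := by
  classical
  refine ⟨∏ k, (x k).den, Finset.prod_pos fun k _ => (x k).pos,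
    fun k => (∏ l ∈ Finset.univ.erase k, (x l).den : ℕ) * (x k).num, fun k => ?_⟩
  have h : ((x k).den : ℝ) * x k = (x k).num := by exact_mod_cast Rat.den_mul_eq_num (x k)
  rw [← Finset.prod_erase_mul _ _ (Finset.mem_univ k), Nat.cast_mul, mul_assoc, h, Int.cast_mul,
    Int.cast_natCast]

theorem rat (h : B0 Λ) {N : ι → ℝ} {n : ℕ} (hn : 0 < n) {c : ι → ℤ} (e : (n : ℝ) • N = toR c)
    (hN : N ∈ Λ.NT) : ((N, 0, 0) : W ι κ ℝ) ∈ cone (toRW '' Λ.EG) := by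
  have h0 : (0 : ℝ) < n := by exact_mod_cast hn
  have h1 : toR c ∈ Λ.NT := fun d hd => by
    rw [← e, ip_smul_left]
    exact mul_nonneg h0.le (hN d hd)
  have h2 := (isCone_cone _).smul _ (inv_nonneg.2 h0.le) _
    (LcB.ef_cone (Λ := Λ) (h.lb.ne _ ((h.lb.nefr _).1 h1)).2)
  rwa [← e, Prod.smul_mk, smul_smul, inv_mul_cancel₀ h0.ne', one_smul, Prod.smul_mk, smul_zero,
    smul_zero] at h2

theorem eff (xy : XY) (h : B0 Λ) (xn : XN Λ) (key : KEY Λ) (D : W ι κ ℤ) (hD : toRW D ∈ NN Λ) :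
    toRW D ∈ cone (toRW '' Λ.EG) := by
  classical
  have nk := xn.nk _ hD.1
  have s2 := xn.s2 _ hD.1
  obtain ⟨L, t, a⟩ := D
  obtain ⟨⟨a0, at', hL, -⟩, hM⟩ := hD
  simp only [toRW, Set.mem_ofPred_eq, ip_toR] at a0 at' hL hM nk s2
  have : Nonempty κ := ⟨Λ.k0⟩
  obtain ⟨xh, x, y, c⟩ := xy ℚ κ (fun k j => a k j) t (fun k j => by exact_mod_cast a0 k j)
    fun k => by exact_mod_cast at' k
  obtain ⟨N, eN⟩ : ∃ N, N = toR L - ∑ k, (x k : ℝ) • toR (Λ.C k) := ⟨_, rfl⟩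
  have x0 : ∀ k, (0 : ℝ) ≤ x k := fun k => by exact_mod_cast c.x0 k
  have y0 : ∀ j, (0 : ℝ) ≤ y j := fun j => by exact_mod_cast c.y0 j
  have xa : ∀ k j, (0 : ℝ) ≤ x k + y j - a k j := fun k j =>
    sub_nonneg.2 (by exact_mod_cast c.le k j)
  have sy : ∑ j, (y j : ℝ) ≤ t := by exact_mod_cast c.sy
  obtain ⟨T, hT, n1⟩ := key (toR L) N (fun k => xh k) (fun k => x k) ⟨hL, fun k => by
      obtain ⟨j, e⟩ := c.att k
      rw [e, Rat.cast_intCast]
      exact nk k j, x0, fun k => by exact_mod_cast c.xx k, fun k => by exact_mod_cast c.p2 k,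
    fun b hb => by
      rw [ip_toR]
      exact_mod_cast c.lp (ip Λ.B L b : ℤ) (xn.four b hb)
        (fun e j j' => by exact_mod_cast s2 b hb e j j') fun e => by exact_mod_cast hM b hb e, eN⟩
  obtain ⟨n, hn, z, hz⟩ := den x
  have e0 : (n : ℝ) • N = toR (n • L - ∑ k, z k • Λ.C k) := by
    simp only [eN, toR_sub, toR_sum, toR_zsmul, toR_nsmul, smul_sub, Finset.smul_sum, smul_smul, hz]
  have n2 := rat h hn (c := (n • L - ∑ k, z k • Λ.C k) +
    ∑ e ∈ T, ip Λ.B (n • L - ∑ k, z k • Λ.C k) e • e) (by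
      simp only [toR_add, toR_sum (s := T), toR_zsmul, ← ip_toR, ← e0, ip_smul_left, smul_add,
        Finset.smul_sum, smul_smul]) n1
  have C := isCone_cone (toRW '' Λ.EG)
  have n3 := C.add _ n2 _ (C.sum_mem T
    (fun e => (-ip Λ.B N (toR e)) • ((toR e, 0, 0) : W ι κ ℝ))
    fun e he => C.smul _ (neg_nonneg.2 (hT e he).2.le) _ (LcB.ef_cone (hT e he).1))
  have n4 := C.sum_mem Finset.univ (fun k => (x k : ℝ) •
    toRW ((Λ.C k, 0, fun k' _ => if k' = k then 1 else 0) : W ι κ ℤ)) fun k _ =>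
    C.smul _ (x0 k) _ (subset_cone _ ⟨_, Or.inr (Or.inr (Or.inr (Or.inl ⟨k, by congr⟩))), rfl⟩)
  have n5 := C.sum_mem Finset.univ (fun j' => (y j' : ℝ) •
    toRW ((0, 1, fun _ i => if i = j' then 1 else 0) : W ι κ ℤ)) fun j' _ =>
    C.smul _ (y0 _) _ (subset_cone _ ⟨_, Or.inr (Or.inr (Or.inr (Or.inr ⟨j', by congr⟩))), rfl⟩)
  have n6 := C.smul _ (sub_nonneg.2 sy) _
    (subset_cone _ ⟨((0, 1, 0) : W ι κ ℤ), Or.inr (Or.inl rfl), rfl⟩)
  have n7 := C.sum_mem Finset.univ (fun p : κ × Fin 4 => ((x p.1 : ℝ) + y p.2 - a p.1 p.2) •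
    toRW ((0, 0, fun k' i => if k' = p.1 ∧ i = p.2 then -1 else 0) : W ι κ ℤ)) fun p _ =>
    C.smul _ (xa _ _) _ (subset_cone _ ⟨_, Or.inr (Or.inr (Or.inl ⟨p.1, p.2, by congr⟩)), rfl⟩)
  refine Eq.subst (motive := (· ∈ cone (toRW '' Λ.EG))) ?_
    (C.add _ (C.add _ (C.add _ (C.add _ n3 _ n4) _ n5) _ n6) _ n7)
  refine Prod.ext ?_ (Prod.ext ?_ ?_)
  · simp [toRW, Prod.fst_sum, toR_zero, eN]
  · simp [toRW, Prod.fst_sum, Prod.snd_sum]
  · funext k i
    have : ∑ p : κ × Fin 4, (if k = p.1 ∧ i = p.2 then (a p.1 p.2 : ℝ) - (x p.1 + y p.2)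
        else 0) = a k i - (x k + y i) := by
      rw [Finset.sum_eq_single (k, i) (fun p _ n => if_neg fun e => n (Prod.ext e.1.symm e.2.symm))
        (by simp)]
      simp
    simp [toRW, Prod.snd_sum, Finset.sum_apply, this]

theorem span (h : B0 Λ) : Submodule.span ℝ (NN Λ ∩ Set.range toRW) = ⊤ := by
  classical
  have l := h.lb
  set S := Submodule.span ℝ (NN Λ ∩ Set.range toRW) with hS
  have hb : ∀ y, Λ.Nef y → ∀ b ∈ HC Λ, 0 ≤ ip Λ.B (toR y) (toR b) := fun y hy b hb =>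
    l.efr _ ((l.nefr y).2 hy) b (l.ne b hb.1).2
  have e0 : ∀ (y : ι → ℤ) (t : ℤ), toRW ((y, t, 0) : W ι κ ℤ) = (toR y, (t : ℝ), 0) := fun y t => by
    simp only [toRW, Pi.zero_apply, Int.cast_zero]
    rfl
  have s0 : ∀ (y : ι → ℤ) (t : ℤ), Λ.Nef y → 0 ≤ t → ((toR y, (t : ℝ), 0) : W ι κ ℝ) ∈ S :=
    fun y t hy ht => Submodule.subset_span ⟨⟨⟨by simp, by simpa using fun _ => ht,
      (l.nefr y).2 hy, by simpa using (l.nefr y).2 hy⟩, fun b m e => by
        simpa using add_nonneg (hb y hy b m) (Int.cast_nonneg ht)⟩, _, e0 y t⟩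
  have s1 : ∀ c : ι → ℤ, ((toR c, 0, 0) : W ι κ ℝ) ∈ S := fun c => by
    obtain ⟨y, a, b⟩ := h.nc.dif c
    have := S.sub_mem (s0 _ 0 a le_rfl) (s0 _ 0 b le_rfl)
    rwa [toR_sub, Prod.mk_sub_mk, sub_sub_cancel, sub_self] at this
  have s2 : ((0, 1, 0) : W ι κ ℝ) ∈ S := by
    simpa [toR_zero] using s0 0 1 (fun c _ => (ip_zero_left c).ge) zero_le_one
  have s3 : ∀ k j, ((0, 0, Pi.single k (Pi.single j 1)) : W ι κ ℝ) ∈ S := fun k j => by
    obtain ⟨y, a, b⟩ := h.nc.dif (Λ.C k)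
    have : ((toR y, 1, Pi.single k (Pi.single j 1)) : W ι κ ℝ) ∈ S := by
      refine Submodule.subset_span ⟨⟨⟨fun k' j' => ?_, fun k' => ?_, (l.nefr y).2 a, fun j' => ?_⟩,
        fun b m e => ?_⟩, (y, 1, Pi.single k (Pi.single j 1)), ?_⟩
      · by_cases e : k' = k <;> by_cases e' : j' = j <;> simp [e, e']
      · by_cases e : k' = k <;> simp [e]
      · rw [Finset.sum_eq_single k (fun k' _ n => by simp [n]) (by simp)]
        by_cases e' : j' = j
        · simpa [e', toR_sub] using (l.nefr _).2 b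
        · simpa [e'] using (l.nefr _).2 a
      · rw [Finset.sum_eq_single j (fun j' _ n => by by_cases e' : e j' = k <;> simp [e', n])
          (by simp)]
        refine le_add_of_nonneg_of_le (hb y a b m) ?_
        by_cases e' : e j = k <;> simp [e']
      · refine Prod.ext rfl (Prod.ext (by simp [toRW]) ?_)
        funext k' j'
        by_cases e : k' = k <;> by_cases e' : j' = j <;> simp [toRW, e, e']
    simpa using S.sub_mem (S.sub_mem this (s1 y)) s2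
  refine eq_top_iff.2 fun D _ => ?_
  obtain ⟨L, t, a⟩ := D
  refine Eq.subst (motive := (· ∈ S)) ?_ (S.add_mem (S.add_mem (S.sum_mem (t := Finset.univ)
    fun i _ => S.smul_mem (L i) (s1 (Pi.single i 1))) (S.smul_mem t s2))
    (S.sum_mem (t := Finset.univ) fun k _ => S.sum_mem (t := Finset.univ) fun j _ =>
      S.smul_mem (a k j) (s3 k j)))
  refine Prod.ext ?_ (Prod.ext ?_ ?_)
  · funext i
    simp [Prod.fst_sum, Finset.sum_apply, toR, Pi.single_apply]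
  · simp [Prod.fst_sum, Prod.snd_sum]
  · funext k j
    simp only [Prod.snd_sum, Prod.snd_add, Prod.smul_snd, smul_zero, Finset.sum_const_zero,
      zero_add, Finset.sum_apply]
    rw [Finset.sum_eq_single k (fun k' _ n => by simp [n.symm]) (by simp)]
    simp [Pi.single_apply]

end LcBA

theorem lcB_stmt : LcBStmt := fun xy _ _ _ _ _ h xn key => ⟨LcBA.eff xy h xn key, LcBA.span h⟩

end Pool.Agent.MP_20d318_ag.CC

end MrgPart6

-- ======== part 7: formerly Pool.Agent.MP_20d318_ag.CC.Cv1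
section MrgPart7

/-! The midpoints of the edges of the lattice `E₈` cover the space. -/

set_option autoImplicit false

namespace Pool.Agent.MP_20d318_ag.CC

namespace Cv1

theorem key (u : Fin 8 → ℝ) (hm : Monotone u) (hb : ∀ i, |u i| ≤ 1 / 4) :
    (u 0 + 1 / 4) ^ 2 + (u 1 + 1 / 4) ^ 2 + (u 2 + 1 / 4) ^ 2 + (u 3 + 1 / 4) ^ 2 +
      (u 4 + 1 / 4) ^ 2 + (u 5 + 1 / 4) ^ 2 + (u 6 - 1 / 4) ^ 2 + (u 7 - 1 / 4) ^ 2 ≤ 1 / 2 ∨
    (u 0 + 1 / 4) ^ 2 + (u 1 + 1 / 4) ^ 2 + (u 2 - 1 / 4) ^ 2 + (u 3 - 1 / 4) ^ 2 +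
      (u 4 - 1 / 4) ^ 2 + (u 5 - 1 / 4) ^ 2 + (u 6 - 1 / 4) ^ 2 + (u 7 - 1 / 4) ^ 2 ≤ 1 / 2 := by
  have hp : ∀ i, 0 ≤ u i → u i ^ 2 ≤ u i / 4 := fun i h => by nlinarith [abs_le.1 (hb i)]
  have hn : ∀ i, u i ≤ 0 → u i ^ 2 ≤ -u i / 4 := fun i h => by nlinarith [abs_le.1 (hb i)]
  have m0 : u 0 ≤ u 1 := hm (by decide)
  have m1 : u 1 ≤ u 2 := hm (by decide)
  have m2 : u 2 ≤ u 3 := hm (by decide)
  have m3 : u 3 ≤ u 4 := hm (by decide)
  have m4 : u 4 ≤ u 5 := hm (by decide)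
  have m5 : u 5 ≤ u 6 := hm (by decide)
  have m6 : u 6 ≤ u 7 := hm (by decide)
  by_contra hc
  obtain ⟨h2, h6⟩ := not_or.1 hc
  rw [not_le] at h2 h6
  have hq : ∀ k i, 0 ≤ u k → k ≤ i → u i ^ 2 ≤ u i / 4 := fun k i h e => hp i (h.trans (hm e))
  rcases le_total 0 (u 0) with c0 | c0
  · linarith [hq 0 0 c0 (by decide), hq 0 1 c0 (by decide), hq 0 2 c0 (by decide),
      hq 0 3 c0 (by decide), hq 0 4 c0 (by decide), hq 0 5 c0 (by decide),
      hq 0 6 c0 (by decide), hq 0 7 c0 (by decide)]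
  rcases le_total 0 (u 1) with c1 | c1
  · linarith [hn 0 c0, hq 1 1 c1 (by decide), hq 1 2 c1 (by decide),
      hq 1 3 c1 (by decide), hq 1 4 c1 (by decide), hq 1 5 c1 (by decide),
      hq 1 6 c1 (by decide), hq 1 7 c1 (by decide)]
  rcases le_total 0 (u 2) with c2 | c2
  · linarith [hn 0 c0, hn 1 c1, hq 2 2 c2 (by decide),
      hq 2 3 c2 (by decide), hq 2 4 c2 (by decide), hq 2 5 c2 (by decide),
      hq 2 6 c2 (by decide), hq 2 7 c2 (by decide)]
  rcases le_total 0 (u 3) with c3 | c3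
  · linarith [hn 0 c0, hn 1 c1, hn 2 c2,
      hq 3 3 c3 (by decide), hq 3 4 c3 (by decide), hq 3 5 c3 (by decide),
      hq 3 6 c3 (by decide), hq 3 7 c3 (by decide)]
  rcases le_total 0 (u 4) with c4 | c4
  · linarith [hn 0 c0, hn 1 c1, hn 2 c2,
      hn 3 c3, hq 4 4 c4 (by decide), hq 4 5 c4 (by decide),
      hq 4 6 c4 (by decide), hq 4 7 c4 (by decide)]
  rcases le_total 0 (u 5) with c5 | c5
  · linarith [hn 0 c0, hn 1 c1, hn 2 c2,
      hn 3 c3, hn 4 c4, hq 5 5 c5 (by decide),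
      hq 5 6 c5 (by decide), hq 5 7 c5 (by decide)]
  rcases le_total 0 (u 6) with c6 | c6
  · linarith [hn 0 c0, hn 1 c1, hn 2 c2,
      hn 3 c3, hn 4 c4, hn 5 c5,
      hq 6 6 c6 (by decide), hq 6 7 c6 (by decide)]
  rcases le_total 0 (u 7) with c7 | c7
  · linarith [hn 0 c0, hn 1 c1, hn 2 c2,
      hn 3 c3, hn 4 c4, hn 5 c5,
      hn 6 c6, hq 7 7 c7 (by decide)]
  linarith [hn 0 c0, hn 1 c1, hn 2 c2,
    hn 3 c3, hn 4 c4, hn 5 c5,
    hn 6 c6, hn 7 c7]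

/-- The conclusion for one point. -/
def Q (p : Fin 8 → ℝ) : Prop := ∃ z ∈ E8, ∃ z' ∈ E8, ∑ i, (z i - z' i) ^ 2 = 8 ∧
  ∑ i, (p i - ((z i : ℝ) + z' i) / 4) ^ 2 ≤ 1 / 2

theorem Q.perm {p : Fin 8 → ℝ} (σ : Equiv.Perm (Fin 8)) (h : Q (p ∘ σ)) : Q p := by
  obtain ⟨z, hz, z', hz', h1, h2⟩ := h
  have e : ∀ y ∈ E8, y ∘ σ.symm ∈ E8 := fun y hy j => by
    have := hy (σ.symm j)
    rwa [← Equiv.sum_comp σ.symm y] at this
  refine ⟨_, e z hz, _, e z' hz', ?_, ?_⟩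
  · rw [← h1]
    exact Equiv.sum_comp σ.symm fun i => (z i - z' i) ^ 2
  · rw [← Equiv.sum_comp σ]
    simpa using h2

/-- A vector with two coordinates of the other parity is the sum of the ends of an edge. -/
theorem lat (w : Fin 8 → ℤ) (a b : Fin 8) (hab : a ≠ b) (c : ℤ)
    (h : ∀ i, (2 : ℤ) ∣ w i + c + (Pi.single a 1 + Pi.single b 1 : Fin 8 → ℤ) i) :
    ∃ z ∈ E8, ∃ z' ∈ E8, ∑ i, (z i - z' i) ^ 2 = 8 ∧ ∀ i, z i + z' i = 2 * w i := by
  have hs : (2 : ℤ) ∣ ∑ i, w i := by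
    have := Finset.dvd_sum fun i (_ : i ∈ Finset.univ) => h i
    simp only [Finset.sum_add_distrib, Pi.add_apply, Finset.sum_pi_single', Finset.mem_univ,
      if_true, Finset.sum_const, Finset.card_univ, Fintype.card_fin, nsmul_eq_mul] at this
    omega
  obtain ⟨s, h1, h2⟩ : ∃ s : ℤ, (s = 1 ∨ s = -1) ∧ (4 : ℤ) ∣ ∑ i, w i + 1 + s + 2 * c := by
    by_cases e : (4 : ℤ) ∣ ∑ i, w i + 2 * c
    · exact ⟨-1, Or.inr rfl, by omega⟩
    · exact ⟨1, Or.inl rfl, by omega⟩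
  have hv : ∀ i, (Pi.single a 1 + Pi.single b s : Fin 8 → ℤ) i =
      (Pi.single a 1 + Pi.single b 1 : Fin 8 → ℤ) i + if i = b then s - 1 else 0 := fun i => by
    simp only [Pi.add_apply, Pi.single_apply]
    split_ifs <;> ring
  have hsum : ∑ i, (Pi.single a 1 + Pi.single b s : Fin 8 → ℤ) i = 1 + s := by
    simp [Finset.sum_add_distrib]
  refine ⟨w + (Pi.single a 1 + Pi.single b s), fun j => ?_, w - (Pi.single a 1 + Pi.single b s),
    fun j => ?_, ?_, fun i => by simp only [Pi.add_apply, Pi.sub_apply]; ring⟩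
  · have := h j
    simp only [Pi.add_apply w, Finset.sum_add_distrib, hsum, hv j]
    split_ifs <;> omega
  · have := h j
    simp only [Pi.sub_apply w, Finset.sum_sub_distrib, hsum, hv j]
    split_ifs <;> omega
  · have e : ∀ i, ((w + (Pi.single a 1 + Pi.single b s) : Fin 8 → ℤ) i -
        (w - (Pi.single a 1 + Pi.single b s) : Fin 8 → ℤ) i) ^ 2 =
        (Pi.single a 4 + Pi.single b 4 : Fin 8 → ℤ) i := fun i => by
      simp only [Pi.add_apply, Pi.sub_apply, Pi.single_apply]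
      split_ifs with e1 e2
      · exact (hab (e1.symm.trans e2)).elim
      · ring
      · rcases h1 with rfl | rfl <;> ring
      · ring
    simp only [e]
    simp [Finset.sum_add_distrib]

theorem of_w {p : Fin 8 → ℝ} (w : Fin 8 → ℤ) (a b : Fin 8) (hab : a ≠ b) (c : ℤ)
    (h : ∀ i, (2 : ℤ) ∣ w i + c + (Pi.single a 1 + Pi.single b 1 : Fin 8 → ℤ) i)
    (hw : ∑ i, (p i - (w i : ℝ) / 2) ^ 2 ≤ 1 / 2) : Q p := by
  obtain ⟨z, hz, z', hz', h1, h2⟩ := lat w a b hab c h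
  refine ⟨z, hz, z', hz', h1, hw.trans_eq' (Finset.sum_congr rfl fun i _ => ?_)⟩
  have : (z i : ℝ) + z' i = 2 * w i := by exact_mod_cast h2 i
  rw [this]
  ring

/-- The nearest even and the nearest odd multiple of one half. -/
theorem near (x : ℝ) : ∃ e o : ℤ, (2 : ℤ) ∣ e ∧ (2 : ℤ) ∣ o + 1 ∧
    (x - (e : ℝ) / 2) ^ 2 = (|x - round x| - 1 / 4 + 1 / 4) ^ 2 ∧
    (x - (o : ℝ) / 2) ^ 2 = (|x - round x| - 1 / 4 - 1 / 4) ^ 2 := by
  rcases abs_cases (x - round x) with h | h <;> rw [h.1]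
  · exact ⟨2 * round x, 2 * round x + 1, by omega, by omega, by push_cast; ring,
      by push_cast; ring⟩
  · exact ⟨2 * round x, 2 * round x - 1, by omega, by omega, by push_cast; ring,
      by push_cast; ring⟩

theorem sorted (p : Fin 8 → ℝ) (hm : Monotone fun i => |p i - round (p i)| - 1 / 4) : Q p := by
  choose e o he ho h1 h2 using fun i => near (p i)
  have hb : ∀ i, |(|p i - round (p i)| - 1 / 4)| ≤ 1 / 4 := fun i => by
    have := abs_sub_round (p i)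
    have := abs_nonneg (p i - round (p i))
    rw [abs_le]
    constructor <;> linarith
  rcases key _ hm hb with h | h
  · refine of_w ![e 0, e 1, e 2, e 3, e 4, e 5, o 6, o 7] 6 7 (by decide) 0 (fun i => ?_) ?_
    · fin_cases i <;> simp [he, ho]
    · rw [Fin.sum_univ_eight]
      simp only [← h1, ← h2] at h
      exact h
  · refine of_w ![e 0, e 1, o 2, o 3, o 4, o 5, o 6, o 7] 0 1 (by decide) 1 (fun i => ?_) ?_
    · have := he 0
      have := he 1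
      fin_cases i <;> simp [ho] <;> omega
    · rw [Fin.sum_univ_eight]
      simp only [← h1, ← h2] at h
      exact h

end Cv1

theorem cv1_stmt : Cv1Stmt := fun p =>
  Cv1.Q.perm (Tuple.sort fun i => |p i - round (p i)| - 1 / 4)
    (Cv1.sorted _ (Tuple.monotone_sort fun i => |p i - round (p i)| - 1 / 4))

end Pool.Agent.MP_20d318_ag.CC

end MrgPart7

-- ======== part 8: formerly Pool.Agent.MP_20d318_ag.CC.Cv2
section MrgPart8

/-! The adjacent pairs of a frame cut out a part of the positive cone. -/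

set_option autoImplicit false
set_option linter.unusedSectionVars false

namespace Pool.Agent.MP_20d318_ag.CC

open Pool.Agent.MP_20d318_ag.Lat hiding act
open Pool.Agent.MP_20d318_ag.CB

namespace Cv2

theorem e4 (i : Fin 8) : (Pi.single i 4 : Fin 8 → ℤ) ∈ E8 := fun j => by
  rw [Finset.sum_pi_single', if_pos (Finset.mem_univ i), Pi.single_apply]
  split_ifs <;> norm_num

theorem sq (z z' : Fin 8 → ℤ) :
    ∑ i, (z i - z' i) ^ 2 = ∑ i, z i ^ 2 + ∑ i, z' i ^ 2 - 2 * ∑ i, z i * z' i := by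
  rw [Finset.mul_sum, ← Finset.sum_add_distrib, ← Finset.sum_sub_distrib]
  exact Finset.sum_congr rfl fun _ _ => by ring

/-- Independent vectors span. -/
theorem dec {ι κ : Type} [Fintype ι] [Fintype κ] (hc : Fintype.card ι = Fintype.card κ + 10)
    (C : κ → ι → ℝ) (Y : Fin 8 → ι → ℝ) (F₀ F₁ : ι → ℝ)
    (h : ∀ (c : κ → ℝ) (w : Fin 8 → ℝ) (α β : ℝ),
      ∑ k, c k • C k + (∑ i, w i • Y i + (β • F₀ + α • F₁)) = 0 → c = 0 ∧ w = 0 ∧ β = 0 ∧ α = 0)
    (L : ι → ℝ) : ∃ (c : κ → ℝ) (w : Fin 8 → ℝ) (α β : ℝ),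
      ∑ k, c k • C k + (∑ i, w i • Y i + (β • F₀ + α • F₁)) = L := by
  let T := (Fintype.linearCombination ℝ C).coprod ((Fintype.linearCombination ℝ Y).coprod
    ((LinearMap.toSpanSingleton ℝ _ F₀).coprod (LinearMap.toSpanSingleton ℝ _ F₁)))
  have hT : Function.Injective T := by
    rw [← LinearMap.ker_eq_bot, LinearMap.ker_eq_bot']
    rintro ⟨c, w, β, α⟩ e
    obtain ⟨rfl, rfl, rfl, rfl⟩ := h c w α β e
    rfl
  obtain ⟨⟨c, w, β, α⟩, e⟩ := (LinearMap.injective_iff_surjective_of_finrank_eq_finrank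
    (by simp [Module.finrank_prod, hc])).1 hT L
  exact ⟨c, w, α, β, e⟩

end Cv2

theorem cv2_stmt : Cv2Stmt := by
  intro cv ι κ _ _ Λ b ll ⟨F₀, F₁, X, m0, m1, s0, s1, s01, h0, hX⟩
  classical
  have cm : ∀ u v : ι → ℤ, ip Λ.B u v = ip Λ.B v u := ip_comm b.nc.sym
  have s10 := (cm _ _).trans s01
  obtain ⟨G, hG⟩ : ∃ G : (Fin 8 → ℤ) → ι → ℤ,
    ∀ z, G z = F₁ + X z + ((∑ i, z i ^ 2) / 8) • F₀ := ⟨_, fun _ => rfl⟩
  have g0 : ∀ z ∈ E8, ip Λ.B (G z) F₀ = 4 := fun z hz => by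
    rw [hG, ip_add_left, ip_add_left, ip_smul_left, s0, s10, (hX z hz).2.1]
    ring
  have gg : ∀ z ∈ E8, ∀ z' ∈ E8, 2 * ip Λ.B (G z) (G z') = ∑ i, (z i - z' i) ^ 2 := by
    intro z hz z' hz'
    obtain ⟨-, a1, a2, a3, a4⟩ := hX z hz
    obtain ⟨-, b1, b2, b3, -⟩ := hX z' hz'
    have e := Int.mul_ediv_cancel' a3
    have e' := Int.mul_ediv_cancel' b3
    rw [hG, hG, Cv2.sq]
    simp only [ip_add_left, ip_add_right, ip_smul_left, ip_smul_right, s0, s1, s01, s10, a1, a2,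
      a4 z' hz', (cm _ _).trans b1, (cm _ _).trans b2]
    linarith
  have gI : ∀ z ∈ E8, G z ∈ Is Λ := fun z hz => by
    have q : ip Λ.B (G z) (G z) = 0 := by simpa using gg z hz z hz
    refine ⟨?_, q, ?_⟩
    · have := ll.lin _ (ll.lin _ m1 _ (hX z hz).1 1 1) _ m0 1 ((∑ i, z i ^ 2) / 8)
      simpa only [one_smul, hG] using this
    · have := b.lb.cone2 (toR F₀) (toR (G z)) (by rw [ip_toR, s0]; simp) (by rw [ip_toR, q]; simp)
        (by rw [ip_toR, cm, g0 z hz]; norm_num) (by rw [ip_toR]; exact_mod_cast h0.le)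
      rw [ip_toR] at this
      exact_mod_cast this
  have ad : ∀ z ∈ E8, ∀ z' ∈ E8, ∑ i, (z i - z' i) ^ 2 = 8 → Ad Λ F₀ (G z) (G z') :=
    fun z hz z' hz' e => ⟨⟨gI z hz, gI z' hz', by linarith [gg z hz z' hz']⟩, g0 z hz, g0 z' hz'⟩
  obtain ⟨V, hV⟩ : ∃ V : (κ → ℝ) → (Fin 8 → ℝ) → ℝ → ℝ → ι → ℝ, ∀ c w α β, V c w α β =
    ∑ k, c k • toR (Λ.C k) + (∑ i, w i • toR (X (Pi.single i 4)) + (β • toR F₀ + α • toR F₁)) :=
    ⟨_, fun _ _ _ _ => rfl⟩
  have vy : ∀ c w α β y, ip Λ.B (V c w α β) (toR y) = ∑ k, c k * (ip Λ.B y (Λ.C k) : ℤ) +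
      (∑ i, w i * (ip Λ.B (X (Pi.single i 4)) y : ℤ) +
        (β * (ip Λ.B F₀ y : ℤ) + α * (ip Λ.B F₁ y : ℤ))) := fun c w α β y => by
    simp only [hV, ip_add_left, ip_smul_left, ip_sum_left, ip_toR, cm y]
  have vC : ∀ c w α β k, ip Λ.B (V c w α β) (toR (Λ.C k)) = -4 * c k := fun c w α β k => by
    rw [vy, Finset.sum_eq_single k (fun l _ hl => by rw [b.nc.disj k l hl.symm]; simp) (by simp),
      b.nc.m4, m0.1, m1.1]
    simp [(hX _ (Cv2.e4 _)).1.1 k, mul_comm]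
  have v0 : ∀ c w α β, ip Λ.B (V c w α β) (toR F₀) = 4 * α := fun c w α β => by
    simp [vy, m0.1, (hX _ (Cv2.e4 _)).2.1, s0, s10, mul_comm]
  have v1 : ∀ c w α β, ip Λ.B (V c w α β) (toR F₁) = 4 * β := fun c w α β => by
    simp [vy, m1.1, (hX _ (Cv2.e4 _)).2.2.1, s1, s01, mul_comm]
  have vX : ∀ c w α β, ∀ z ∈ E8, ip Λ.B (V c w α β) (toR (X z)) = -4 * ∑ i, w i * z i := by
    intro c w α β z hz
    rw [vy, cm F₀, cm F₁, (hX z hz).2.1, (hX z hz).2.2.1, Finset.mul_sum]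
    simp only [(hX z hz).1.1, (hX _ (Cv2.e4 _)).2.2.2.2 z hz, Int.cast_zero, mul_zero, add_zero,
      Finset.sum_const_zero, zero_add]
    refine Finset.sum_congr rfl fun i _ => ?_
    simp [Pi.single_apply]
    ring
  have vY : ∀ c w α β i, ip Λ.B (V c w α β) (toR (X (Pi.single i 4))) = -16 * w i := by
    intro c w α β i
    rw [vX _ _ _ _ _ (Cv2.e4 i)]
    simp [Pi.single_apply]
    ring
  refine ⟨F₀, ⟨m0, s0, h0⟩, ?_, fun L hC ha hA => ?_⟩
  · obtain ⟨z, hz, z', hz', e, -⟩ := cv 0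
    exact ⟨_, _, ad z hz z' hz' e⟩
  obtain ⟨c, w, α, β, e⟩ := Cv2.dec (κ := κ) (by have := b.nc.noe; have := b.lb.KK; omega)
    (fun k => toR (Λ.C k)) (fun i => toR (X (Pi.single i 4))) (toR F₀) (toR F₁)
    (fun c w α β e => by
      rw [← hV] at e
      have a1 := vC c w α β
      have a2 := vY c w α β
      have a3 := v0 c w α β
      have a4 := v1 c w α β
      simp only [e, ip_zero_left] at a1 a2 a3 a4
      exact ⟨funext fun k => by linarith [a1 k, Pi.zero_apply (M := fun _ : κ => ℝ) k],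
        funext fun i => by linarith [a2 i, Pi.zero_apply (M := fun _ : Fin 8 => ℝ) i],
        by linarith, by linarith⟩) L
  rw [← hV] at e
  subst e
  rw [v0] at ha hA
  have a0 : 0 < α := by linarith
  obtain ⟨p, rfl⟩ : ∃ p : Fin 8 → ℝ, w = fun i => α * p i / 2 :=
    ⟨fun i => 2 * w i / α, funext fun i => by field_simp⟩
  obtain ⟨z, hz, z', hz', e8, le⟩ := cv p
  have vG : ∀ z ∈ E8, ip Λ.B (V c (fun i => α * p i / 2) α β) (toR (G z)) =
      4 * β - 2 * α * ∑ i, p i * z i + α / 2 * ∑ i, (z i : ℝ) ^ 2 := fun z hz => by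
    have e : (8 : ℝ) * ((∑ i, z i ^ 2) / 8 : ℤ) = ∑ i, (z i : ℝ) ^ 2 := by
      exact_mod_cast Int.mul_ediv_cancel' (hX z hz).2.2.2.1
    have e' : ∑ i, α * p i / 2 * z i = α / 2 * ∑ i, p i * z i := by
      rw [Finset.mul_sum]
      exact Finset.sum_congr rfl fun _ _ => by ring
    rw [hG, toR_add, toR_add, toR_zsmul, ip_add_right, ip_add_right, ip_smul_right, v0, v1,
      vX _ _ _ _ z hz, e', ← e]
    ring
  have key := hA _ _ (ad z hz z' hz' e8)
  rw [toR_add, ip_add_right, vG z hz, vG z' hz'] at key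
  have LL : ip Λ.B (V c (fun i => α * p i / 2) α β) (V c (fun i => α * p i / 2) α β) =
      α * (8 * β - 4 * α * ∑ i, p i ^ 2) := by
    nth_rewrite 2 [hV]
    simp only [ip_add_right, ip_sum_right, ip_smul_right, hC, vY, v0, v1, Fin.sum_univ_eight,
      mul_zero, Finset.sum_const_zero]
    ring
  have e9 : ∑ i, ((z i : ℝ) - z' i) ^ 2 = 8 := by exact_mod_cast e8
  have id : ∑ i, (z i : ℝ) ^ 2 + ∑ i, (z' i : ℝ) ^ 2 - 4 * (∑ i, p i * z i + ∑ i, p i * z' i) =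
      8 * ∑ i, (p i - ((z i : ℝ) + z' i) / 4) ^ 2 - 8 * ∑ i, p i ^ 2 +
        (∑ i, ((z i : ℝ) - z' i) ^ 2) / 2 := by
    simp only [Fin.sum_univ_eight]
    ring
  rw [LL]
  refine mul_nonneg a0.le ?_
  have := mul_le_mul_of_nonneg_left le a0.le
  rw [e9] at id
  have := congrArg (α * ·) id
  nlinarith

end Pool.Agent.MP_20d318_ag.CC

end MrgPart8

-- ======== part 9: formerly Pool.Agent.MP_20d318_ag.CC.Ds1
section MrgPart9

/-! Descent by reflections. -/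

set_option autoImplicit false
set_option linter.unusedSectionVars false

namespace Pool.Agent.MP_20d318_ag.CC

open Pool.Agent.MP_20d318_ag.Lat hiding act
open Pool.Agent.MP_20d318_ag.CB

namespace Ds1

variable {ι κ : Type} [Fintype ι] [Fintype κ] {Λ : Ld ι κ} {R F G G' : ι → ℤ}

/-- The reflection of the real space. -/
noncomputable def sr (Λ : Ld ι κ) (R : ι → ℤ) (L : ι → ℝ) : ι → ℝ :=
  L + (ip Λ.B L (toR R) / 4) • toR R

/-- The reflection of the lattice. -/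
def sz (Λ : Ld ι κ) (R F : ι → ℤ) : ι → ℤ := F + (ip Λ.B F R / 4) • R

theorem sr_adj (h : B0 Λ) (a b : ι → ℝ) : ip Λ.B (sr Λ R a) b = ip Λ.B a (sr Λ R b) := by
  simp only [sr, ip_add_left, ip_add_right, ip_smul_left, ip_smul_right,
    ip_comm h.nc.sym (toR R) b]
  ring

theorem sr_iso (h : B0 Λ) (ll : LL Λ) (hR : R ∈ Rt Λ) (a b : ι → ℝ) :
    ip Λ.B (sr Λ R a) (sr Λ R b) = ip Λ.B a b := by
  simp only [sr, ip_add_left, ip_add_right, ip_smul_left, ip_smul_right,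
    ip_comm h.nc.sym (toR R) b, ip_toR, (ll.rt R hR).2.2]
  push_cast
  ring

theorem toR_sz (ll : LL Λ) (hR : R ∈ Rt Λ) (hF : F ∈ L2 Λ) : toR (sz Λ R F) = sr Λ R (toR F) := by
  obtain ⟨m, hm⟩ := ll.four F hF R (ll.rt R hR).1
  rw [sz, sr, toR_add, toR_zsmul, ip_toR, hm, Int.mul_ediv_cancel_left _ (by norm_num)]
  push_cast
  rw [mul_div_cancel_left₀ _ (by norm_num)]

theorem sz_mem (ll : LL Λ) (hR : R ∈ Rt Λ) (hF : F ∈ L2 Λ) : sz Λ R F ∈ L2 Λ := by
  have := ll.lin F hF R (ll.rt R hR).1 1 (ip Λ.B F R / 4)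
  rwa [one_smul] at this

theorem sz_iso (h : B0 Λ) (ll : LL Λ) (hR : R ∈ Rt Λ) (hF : F ∈ L2 Λ) (hG : G ∈ L2 Λ) :
    ip Λ.B (sz Λ R F) (sz Λ R G) = ip Λ.B F G := by
  have := sr_iso h ll hR (toR F) (toR G)
  rw [← toR_sz ll hR hF, ← toR_sz ll hR hG, ip_toR, ip_toR] at this
  exact_mod_cast this

theorem is_of (h : B0 Λ) (hF : F ∈ Is Λ) (hG : G ∈ L2 Λ) (h0 : ip Λ.B G G = 0)
    (h1 : 0 < ip Λ.B F G) : G ∈ Is Λ := by
  have := h.lb.cone2 (toR F) (toR G) (by rw [ip_toR, hF.2.1, Int.cast_zero])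
    (by rw [ip_toR, h0, Int.cast_zero]) (by rw [ip_toR]; exact_mod_cast h1)
    (by rw [ip_toR]; exact_mod_cast hF.2.2.le)
  rw [ip_toR] at this
  exact ⟨hG, h0, by exact_mod_cast this⟩

theorem sz_is (h : B0 Λ) (ll : LL Λ) (hR : R ∈ Rt Λ) (hF : F ∈ Is Λ) : sz Λ R F ∈ Is Λ := by
  obtain ⟨m, hm⟩ := ll.four F hF.1 R (ll.rt R hR).1
  by_cases e : m = 0
  · simpa [sz, hm, e] using hF
  refine is_of h hF (sz_mem ll hR hF.1) ((sz_iso h ll hR hF.1 hF.1).trans hF.2.1) ?_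
  rw [sz, ip_add_right, ip_smul_right, hF.2.1, hm, Int.mul_ediv_cancel_left _ (by norm_num)]
  have := mul_self_pos.2 e
  linarith

theorem ad_sz (h : B0 Λ) (ll : LL Λ) (hR : R ∈ Rt Λ) (hF : F ∈ L2 Λ) (a : Ad Λ F G G') :
    Ad Λ (sz Λ R F) (sz Λ R G) (sz Λ R G') :=
  ⟨⟨sz_is h ll hR a.1.1, sz_is h ll hR a.1.2.1,
    (sz_iso h ll hR a.1.1.1 a.1.2.1.1).trans a.1.2.2⟩,
    (sz_iso h ll hR a.1.1.1 hF).trans a.2.1, (sz_iso h ll hR a.1.2.1.1 hF).trans a.2.2⟩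

theorem cov_sz (h : B0 Λ) (ll : LL Λ) (hR : R ∈ Rt Λ) (c : COV Λ F) : COV Λ (sz Λ R F) := by
  obtain ⟨G, G', a⟩ := c.ex
  refine ⟨sz_is h ll hR c.mem, ⟨_, _, ad_sz h ll hR c.mem.1 a⟩, fun L h1 h2 h3 => ?_⟩
  rw [← sr_iso h ll hR]
  refine c.cov _ (fun k => ?_) (by rwa [sr_adj h, ← toR_sz ll hR c.mem.1]) fun A A' b => ?_
  · rw [sr, ip_add_left, ip_smul_left, h1, ip_toR, (ll.rt R hR).1.1 k, Int.cast_zero, mul_zero,
      add_zero]
  · have := h3 _ _ (ad_sz h ll hR c.mem.1 b)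
    rw [toR_add, ip_add_right] at this ⊢
    rwa [sr_adj h, sr_adj h, sr_adj h, ← toR_sz ll hR c.mem.1, ← toR_sz ll hR b.1.1.1,
      ← toR_sz ll hR b.1.2.1.1]

theorem h_pos (h : B0 Λ) (ll : LL Λ) (hR : R ∈ Rt Λ) : 0 < ip Λ.B Λ.h R :=
  h.lb.hef R (ll.rt R hR).2.1 fun e => by simpa [e, ip_zero_left] using (ll.rt R hR).2.2

theorem sz_lt (h : B0 Λ) (ll : LL Λ) (hR : R ∈ Rt Λ) (e : ip Λ.B F R < 0) :
    ip Λ.B Λ.h (sz Λ R F) < ip Λ.B Λ.h F := by
  rw [sz, ip_add_right, ip_smul_right]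
  have := mul_neg_of_neg_of_pos (show ip Λ.B F R / 4 < 0 by omega) (h_pos h ll hR)
  linarith

end Ds1

open Ds1

theorem ds1_stmt : Ds1Stmt := by
  rintro ι κ _ _ Λ h ll ⟨F, c⟩
  obtain ⟨n, hn⟩ : ∃ n : ℕ, ip Λ.B Λ.h F < n := ⟨(ip Λ.B Λ.h F).toNat + 1, by omega⟩
  induction n generalizing F with
  | zero => exact absurd c.mem.2.2 (by omega)
  | succ n ih =>
    by_cases e : ∀ R ∈ Rt Λ, 0 ≤ ip Λ.B F R
    · exact ⟨F, c, ll.nef F c.mem.1 c.mem.2.1.ge c.mem.2.2 e⟩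
    push Not at e
    obtain ⟨R, hR, e⟩ := e
    exact ih _ (cov_sz h ll hR c) (by have := sz_lt h ll hR e; omega)

end Pool.Agent.MP_20d318_ag.CC

end MrgPart9

-- ======== part 10: formerly Pool.Agent.MP_20d318_ag.CC.Ds2
section MrgPart10

/-! It is enough to consider the adjacent pairs whose sum is nef. -/

set_option autoImplicit false
set_option linter.unusedSectionVars false

namespace Pool.Agent.MP_20d318_ag.CC

open Pool.Agent.MP_20d318_ag.Lat hiding act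
open Pool.Agent.MP_20d318_ag.CB

namespace Ds2

variable {ι κ : Type} [Fintype ι] [Fintype κ] {Λ : Ld ι κ} {F G A : ι → ℤ} {L : ι → ℝ}

theorem le_of (h : B0 Λ) (ll : LL Λ) (p : Pr Λ F G) (hL : L ∈ Λ.NT) (hA : A ∈ Is Λ)
    (e : ip Λ.B A F = 0) : ip Λ.B L (toR F) ≤ ip Λ.B L (toR A) := by
  obtain ⟨c, rfl⟩ := ll.prim F G p A hA.1 e hA.2.1.ge
  have h1 := hA.2.2
  rw [ip_smul_right] at h1
  have h2 : (1 : ℝ) ≤ c := by exact_mod_cast pos_of_mul_pos_left h1 p.1.2.2.le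
  rw [toR_zsmul, ip_smul_right]
  exact le_mul_of_one_le_left (h.lb.efr L hL F (ll.ef F p.1)) h2

end Ds2

open Ds1 Ds2

theorem ds2_stmt : Ds2Stmt := by
  intro ι κ _ _ Λ h ll F hF nF L hL H G G' a
  obtain ⟨n, hn⟩ : ∃ n : ℕ, ip Λ.B Λ.h (G + G') < n := ⟨(ip Λ.B Λ.h (G + G')).toNat + 1, by omega⟩
  induction n generalizing G G' with
  | zero =>
    have := a.1.1.2.2
    have := a.1.2.1.2.2
    rw [ip_add_right] at hn
    omega
  | succ n ih =>
    obtain ⟨⟨g, g', p⟩, q, q'⟩ := id a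
    by_cases e : ∀ R ∈ Rt Λ, 0 ≤ ip Λ.B (G + G') R
    · refine H G G' a (ll.nef _ (by simpa using ll.lin G g.1 G' g'.1 1 1) ?_ ?_ e)
      · rw [ip_add_left, ip_add_right, ip_add_right, ip_comm h.nc.sym G' G, g.2.1, g'.2.1, p]
        norm_num
      · rw [ip_add_right]
        exact add_pos g.2.2 g'.2.2
    push Not at e
    obtain ⟨R, hR, e⟩ := e
    obtain ⟨r1, r2, -⟩ := ll.rt R hR
    obtain ⟨m, hm⟩ := ll.four G g.1 R r1
    obtain ⟨m', hm'⟩ := ll.four G' g'.1 R r1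
    obtain ⟨r, hr⟩ := ll.four R r1 F hF.1
    have s := sz_is h ll hR g
    have s' := sz_is h ll hR g'
    have sp := (sz_iso h ll hR g.1 g'.1).trans p
    rw [sz, hm, Int.mul_ediv_cancel_left _ (by norm_num)] at s sp
    rw [sz, hm', Int.mul_ediv_cancel_left _ (by norm_num)] at s' sp
    rw [ip_add_left] at e
    have mm : m + m' < 0 := by omega
    have f : ip Λ.B (G + m • R) F = 4 * (1 + m * r) := by
      rw [ip_add_left, ip_smul_left, q, hr]; ring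
    have f' : ip Λ.B (G' + m' • R) F = 4 * (1 + m' * r) := by
      rw [ip_add_left, ip_smul_left, q', hr]; ring
    have r0 := h.lb.efn F nF R r2
    have f0 := h.lb.efn F nF _ (ll.ef _ s)
    have f0' := h.lb.efn F nF _ (ll.ef _ s')
    rw [ip_comm h.nc.sym] at r0 f0 f0'
    have up : ip Λ.B L (toR (G + m • R + (G' + m' • R))) ≤ ip Λ.B L (toR (G + G')) := by
      have := mul_nonpos_of_nonpos_of_nonneg (show (m : ℝ) + m' ≤ 0 by exact_mod_cast mm.le)
        (h.lb.efr L hL R r2)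
      simp only [toR_add, toR_zsmul, ip_add_right, ip_smul_right]
      linarith
    refine le_trans ?_ up
    by_cases z : r = 0
    · refine ih _ _ ⟨⟨s, s', sp⟩, by rw [f, z]; ring, by rw [f', z]; ring⟩ ?_
      have := mul_neg_of_neg_of_pos mm (h_pos h ll hR)
      simp only [ip_add_right, ip_smul_right] at hn ⊢
      push_cast at hn
      linarith
    have k := mul_neg_of_neg_of_pos mm (show 0 < r by omega)
    rw [add_mul] at k
    have pF : Pr Λ F G := ⟨hF, g, (ip_comm h.nc.sym _ _).trans q⟩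
    have l := h.lb.efr L hL _ (ll.ef _ s)
    have l' := h.lb.efr L hL _ (ll.ef _ s')
    rw [toR_add (G + m • R), ip_add_right]
    by_cases w : ip Λ.B (G + m • R) F = 0
    · linarith [le_of h ll pF hL s w]
    · linarith [le_of h ll pF hL s' (by omega)]

end Pool.Agent.MP_20d318_ag.CC

end MrgPart10

-- ======== part 11: formerly Pool.Agent.MP_20d318_ag.CC.Sym
section MrgPart11

/-! The negativity lemma and the involution of a hyperbolic plane. -/

set_option autoImplicit false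

namespace Pool.Agent.MP_20d318_ag.CC

open Pool.Agent.MP_20d318_ag.Lat hiding act
open Pool.Agent.MP_20d318_ag.CB

namespace Sym

/-- the negativity lemma -/
theorem negl {ι κ : Type} [Fintype ι] [Fintype κ] {Λ : Ld ι κ} (b : B0 Λ) {S : Set (ι → ℤ)}
    {H : ι → ℤ} (hH : 0 < ip Λ.B H H) (hS : ∀ c ∈ S, c ∈ Λ.P ∧ ip Λ.B c H = 0) {w : ι → ℝ}
    (hw : w ∈ Submodule.span ℝ (toR '' S)) (h0 : ∀ c ∈ S, 0 ≤ ip Λ.B w (toR c)) {L : ι → ℝ}
    (hL : L ∈ Λ.NT) : ip Λ.B L w ≤ 0 := by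
  classical
  obtain ⟨T, hT, r, e⟩ := (Submodule.mem_span_image_iff_exists_fun ℝ).1 hw
  have m : ∀ i : T, i.1 ∈ S := fun i => hT i.2
  rw [← Finset.sum_filter_add_sum_filter_not Finset.univ fun i => 0 < r i] at e
  generalize hp : ∑ i ∈ Finset.univ.filter (fun i => 0 < r i), r i • toR i.1 = p at e
  generalize hn : ∑ i ∈ Finset.univ.filter (fun i => ¬0 < r i), r i • toR i.1 = n at e
  have h1 : 0 ≤ ip Λ.B w p := by
    rw [← hp, ip_sum_right]
    exact Finset.sum_nonneg fun i hi => by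
      rw [ip_smul_right]
      exact mul_nonneg (Finset.mem_filter.1 hi).2.le (h0 _ (m i))
  have h2 : ip Λ.B n p ≤ 0 := by
    rw [← hn, ip_sum_left]
    refine Finset.sum_nonpos fun j hj => ?_
    have hj' := (Finset.mem_filter.1 hj).2
    rw [ip_smul_left, ← hp, ip_sum_right]
    refine mul_nonpos_of_nonpos_of_nonneg (not_lt.1 hj') (Finset.sum_nonneg fun i hi => ?_)
    have hi' := (Finset.mem_filter.1 hi).2
    rw [ip_smul_right, ip_toR]
    exact mul_nonneg hi'.le (Int.cast_nonneg (b.nc.pos _ (hS _ (m j)).1 _ (hS _ (m i)).1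
      fun k => hj' (Subtype.ext k ▸ hi')))
  have h3 : ip Λ.B p (toR H) = 0 := by
    rw [← hp, ip_sum_left]
    exact Finset.sum_eq_zero fun i _ => by
      rw [ip_smul_left, ip_toR, (hS _ (m i)).2, Int.cast_zero, mul_zero]
  have h4 : p = 0 := by_contra fun k => by
    have := b.hg.neg (toR H) p (by rw [ip_toR]; exact_mod_cast hH) h3 k
    rw [← e, ip_add_left] at h1
    linarith
  rw [← e, h4, zero_add, ← hn, ip_sum_right]
  refine Finset.sum_nonpos fun j hj => ?_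
  rw [ip_smul_right]
  exact mul_nonpos_of_nonpos_of_nonneg (not_lt.1 (Finset.mem_filter.1 hj).2) (hL _ (hS _ (m j)).1)

end Sym

theorem sym_stmt : SymStmt := by
  intro ι κ _ _ Λ G b gp gr ρ hρ F₀ F F' h0 ⟨⟨hF, hF', hFF⟩, a1, a2⟩ ui L hL
  have cm : ∀ u v : ι → ℤ, ip Λ.B u v = ip Λ.B v u := ip_comm b.nc.sym
  have e1 : ip Λ.B F (F + F') = 4 := by rw [ip_add_right, hF.2.1, hFF, zero_add]
  have e2 : ip Λ.B (F + F') (F + F') = 8 := by
    rw [ip_add_left, e1, ip_add_right, cm F', hFF, hF'.2.1]; rfl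
  have e3 : ip Λ.B F₀ (F + F') = 8 := by rw [ip_add_right, cm, a1, cm, a2]; rfl
  generalize F + F' = H at *
  have fF : ∀ c, ip Λ.B (act ρ c) F = ip Λ.B c F := fun c => by rw [← gp.iso ρ hρ c, ui.fF]
  have fH : ∀ c, ip Λ.B (act ρ c) H = ip Λ.B c H := fun c => by rw [← gp.iso ρ hρ c, ui.fH]
  have A : ∀ v ∈ VF Λ F, ∃ q : ℝ, v + act ρ v - q • toR F ∈ VH Λ F H := fun v hv => by
    induction hv using Submodule.span_induction with
    | mem _ h =>
      obtain ⟨c, ⟨h1, h2⟩, rfl⟩ := h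
      rw [← toR_act]
      by_cases k : ip Λ.B c H = 0
      · refine ⟨0, ?_⟩
        rw [zero_smul, sub_zero]
        exact add_mem (Submodule.subset_span ⟨c, ⟨h1, h2, k⟩, rfl⟩) (Submodule.subset_span
          ⟨_, ⟨gp.prm ρ hρ c h1, (fF c).trans h2, (fH c).trans k⟩, rfl⟩)
      · rw [← toR_add]; exact ui.fib c h1 h2 k
    | zero =>
      refine ⟨0, ?_⟩
      rw [← zero_smul ℝ (0 : ι → ℝ), act_smul]
      simp
    | add u v _ _ hu hv =>
      obtain ⟨q, hq⟩ := hu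
      obtain ⟨q', hq'⟩ := hv
      refine ⟨q + q', ?_⟩
      have := add_mem hq hq'
      rwa [show u + act ρ u - q • toR F + (v + act ρ v - q' • toR F) =
        u + v + act ρ (u + v) - (q + q') • toR F by rw [act_add]; module] at this
    | smul r u _ hu =>
      obtain ⟨q, hq⟩ := hu
      refine ⟨r * q, ?_⟩
      have := Submodule.smul_mem _ r hq
      rwa [show r • (u + act ρ u - q • toR F) = r • u + act ρ (r • u) - (r * q) • toR F by
        rw [act_smul]; module] at this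
  have B : ∀ v ∈ VH Λ F H, ip Λ.B v (toR H) = 0 := fun v hv => by
    induction hv using Submodule.span_induction with
    | mem _ h =>
      obtain ⟨c, h, rfl⟩ := h
      rw [ip_toR, h.2.2, Int.cast_zero]
    | zero => exact ip_zero_left _
    | add u v _ _ hu hv => rw [ip_add_left, hu, hv, add_zero]
    | smul r u _ hu => rw [ip_smul_left, hu, mul_zero]
  have o := ui.orb F₀
  rw [cm, a1] at o
  obtain ⟨z, hz⟩ : ∃ z, z = (2 : ℤ) • (act ρ F₀ + F₀) - (4 : ℤ) • H := ⟨_, rfl⟩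
  rw [← hz] at o
  have z1 : act ρ z = z := by
    rw [hz, sub_eq_add_neg, ← neg_smul, act_add, act_smul, act_smul, act_add, ui.inv, ui.fH,
      add_comm F₀]
  have z2 : ∀ c, ip Λ.B z c = 2 * (ip Λ.B (act ρ F₀) c + ip Λ.B F₀ c) - 4 * ip Λ.B H c :=
    fun c => by rw [hz, ip_sub_left, ip_smul_left, ip_smul_left, ip_add_left]
  obtain ⟨q, hq⟩ := A _ o
  rw [← toR_act, z1] at hq
  have q0 : q = 0 := by
    have := B _ hq
    rw [ip_sub_left, ip_add_left, ip_smul_left, ip_toR, ip_toR, z2, fH, e1, e2, e3] at this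
    norm_num at this
    exact this
  rw [q0, zero_smul, sub_zero] at hq
  have key := Sym.negl b (H := H) (by rw [e2]; norm_num) (fun c hc => ⟨hc.1, hc.2.2⟩) hq
    (fun c hc => by
      have h1 := gr.nef ρ hρ F₀ h0 c hc.1
      have h2 := h0 c hc.1
      rw [ip_add_left, ip_toR, z2, cm H, hc.2.2]
      exact_mod_cast (by omega)) hL
  have e4 : ip Λ.B (act ρ L) (toR F₀) = ip Λ.B L (toR (act ρ F₀)) := by
    rw [← gr.iso ρ hρ L, ← toR_act, ui.inv]
  rw [ip_add_right, hz, toR_sub, toR_zsmul, toR_zsmul, toR_add, ip_sub_right, ip_smul_right,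
    ip_smul_right, ip_add_right] at key
  push_cast at key
  linarith

end Pool.Agent.MP_20d318_ag.CC

end MrgPart11

-- ======== part 12: formerly Pool.Agent.MP_20d318_ag.CC.Q1
section MrgPart12

/-! The region cut out by the box and the adjacent pairs is inside a positive polyhedral cone. -/

set_option autoImplicit false

namespace Pool.Agent.MP_20d318_ag.CC

open Pool.Agent.MP_20d318_ag.Lat hiding act
open Pool.Agent.MP_20d318_ag.CB

namespace Q1

variable {ι κ : Type} [Fintype ι] [Fintype κ]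

/-- The degree on a fixed class. -/
def ipL (B : ι → ι → ℤ) (c : ι → ℤ) : (ι → ℝ) →ₗ[ℝ] ℝ where
  toFun L := ip B L (toR c)
  map_add' _ _ := ip_add_left _ _ _
  map_smul' _ _ := ip_smul_left _ _ _

omit [Fintype ι] in
theorem both {R : Finset (ι → ℤ)} {v : ι → ℤ} (h : v ∈ R) (h' : -v ∈ R) (t : ℝ) :
    t • toR v ∈ cone (toR '' (R : Set (ι → ℤ))) := by
  rcases le_total 0 t with k | k
  · exact (isCone_cone _).smul t k _ (subset_cone _ ⟨_, h, rfl⟩)
  · have := (isCone_cone (toR '' (R : Set (ι → ℤ)))).smul _ (neg_nonneg.2 k) _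
      (subset_cone _ ⟨_, h', rfl⟩)
    rwa [toR_neg, neg_smul_neg] at this

theorem cut (B : ι → ι → ℤ) (R : Finset (ι → ℤ)) {T : Set (ι → ℤ)} (hT : T.Finite) :
    ∃ R' : Finset (ι → ℤ), cone (toR '' (R' : Set (ι → ℤ))) =
      cone (toR '' (R : Set (ι → ℤ))) ∩ {L | ∀ c ∈ T, 0 ≤ ip B L (toR c)} := by
  classical
  let φ : (ι → ℤ) →+ (ι → ℝ) := ⟨⟨toR, toR_zero⟩, toR_add⟩
  have h0 : RP φ.range (cone (toR '' (R : Set (ι → ℤ)))) :=
    ⟨R.image toR, fun x hx => by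
      obtain ⟨r, -, rfl⟩ := Finset.mem_image.1 hx
      exact ⟨r, rfl⟩, by rw [Finset.coe_image]⟩
  obtain ⟨S, h1, h2⟩ := h0.inter_fin (hT.image (ipL B)) (by
    rintro _ ⟨c, -, rfl⟩ _ ⟨a, rfl⟩
    exact ⟨_, ip_toR B a c⟩)
  obtain ⟨R', rfl⟩ := Finset.subset_set_image_iff.1 (show (S : Set (ι → ℝ)) ⊆ toR '' Set.univ from
    fun x hx => let ⟨a, e⟩ := h1 hx; ⟨a, trivial, e⟩) |>.imp fun _ h => h.2
  refine ⟨R', ?_⟩
  rw [← Finset.coe_image, h2]
  simp only [Set.forall_mem_image]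
  rfl

theorem dual (B : ι → ι → ℤ) {T : Set (ι → ℤ)} (hT : T.Finite) : ∃ R : Finset (ι → ℤ),
    cone (toR '' (R : Set (ι → ℤ))) = {L | ∀ c ∈ T, 0 ≤ ip B L (toR c)} := by
  classical
  obtain ⟨R, h⟩ := cut B (Finset.univ.image (fun i => Pi.single i 1) ∪
    Finset.univ.image fun i => -Pi.single i 1) hT
  refine ⟨R, h.trans (Set.inter_eq_right.2 fun x _ => ?_)⟩
  have e : x = ∑ i, x i • toR (Pi.single i 1) := by
    funext j
    simp [toR, Finset.sum_apply, Pi.single_apply]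
  rw [e]
  exact (isCone_cone _).sum_mem _ _ fun i _ => both (by simp) (by simp) _

variable (Λ : Ld ι κ) (F G G' : ι → ℤ) (X : Finset (ι → ℤ))

/-- The first region. -/
structure Q (L : ι → ℝ) : Prop where
  c : ∀ k, ip Λ.B L (toR (Λ.C k)) = 0
  box : L ∈ BoxF Λ F X
  v : ∀ c ∈ Λ.P, ip Λ.B c F = 0 → 0 ≤ ip Λ.B L (toR c) ∧ ip Λ.B L (toR c) ≤ ip Λ.B L (toR F)
  f : 0 ≤ ip Λ.B L (toR F)
  a : ip Λ.B L (toR F) ≤ ip Λ.B L (toR (G + G'))

theorem rq (fin : {c | c ∈ Λ.P ∧ ip Λ.B c F = 0}.Finite) : ∃ R : Finset (ι → ℤ),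
    cone (toR '' (R : Set (ι → ℤ))) = {L | Q Λ F G G' X L} := by
  obtain ⟨R, h⟩ := dual Λ.B (((((((Set.finite_range Λ.C).union
    (Set.finite_range fun k => -Λ.C k)).union
    (X.finite_toSet.image fun x => -ip Λ.B x x • F - x)).union
    (X.finite_toSet.image fun x => -ip Λ.B x x • F + x)).union fin).union
    (fin.image fun c => F - c)).union (Set.toFinite {F, G + G' - F}))
  refine ⟨R, h.trans (Set.ext fun L => ?_)⟩
  simp only [Set.mem_ofPred_eq, Set.mem_union, or_imp, forall_and, Set.forall_mem_range,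
    Set.forall_mem_image, Set.mem_insert_iff, Set.mem_singleton_iff, forall_eq, toR_neg, toR_sub,
    toR_add (_ • F), toR_zsmul, ip_neg_right, ip_sub_right, ip_add_right,
    ip_smul_right, Finset.mem_coe, Int.cast_neg, and_imp]
  constructor
  · rintro ⟨⟨⟨⟨⟨⟨a1, a2⟩, a3⟩, a4⟩, a5⟩, a6⟩, a7, a8⟩
    exact ⟨fun k => by linarith [a1 k, a2 k], fun x hx =>
      abs_le.2 ⟨by linarith [a4 hx], by linarith [a3 hx]⟩,
      fun c hc h0 => ⟨a5 c hc h0, by linarith [a6 hc h0]⟩, a7, by linarith⟩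
  · rintro ⟨a1, a2, a3, a4, a5⟩
    exact ⟨⟨⟨⟨⟨⟨fun k => (a1 k).ge, fun k => by linarith [a1 k]⟩,
      fun x hx => by linarith [(abs_le.1 (a2 x hx)).2]⟩,
      fun x hx => by linarith [(abs_le.1 (a2 x hx)).1]⟩, fun c hc h0 => (a3 c hc h0).1⟩,
      fun c hc h0 => by linarith [(a3 c hc h0).2]⟩, a4, by linarith⟩

variable {Λ F G G' X} {L : ι → ℝ}

theorem eight (b : B0 Λ) {A A' : ι → ℤ} (h : Ad Λ F A A') (q : ℝ) :
    ip Λ.B (q • toR F) (toR (A + A')) = 8 * q := by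
  rw [ip_smul_left, ip_toR, ip_add_right, ip_comm b.nc.sym F, ip_comm b.nc.sym F, h.2.1, h.2.2]
  push_cast
  ring

theorem zero (b : B0 Λ) (hF : F ∈ Is Λ) (o : OBF Λ F X) (ad : Ad Λ F G G') (h : Q Λ F G G' X L)
    (h0 : ip Λ.B L (toR F) = 0) : ∃ q : ℝ, 0 ≤ q ∧ L = q • toR F := by
  have m := o.span L h0 fun x hx => abs_nonpos_iff.1 (by simpa [h0] using h.box x hx)
  have k : ∀ v ∈ VF Λ F, ip Λ.B L v = 0 := fun v hv => by
    induction hv using Submodule.span_induction with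
    | mem x hx =>
      obtain ⟨c, ⟨c1, c2⟩, rfl⟩ := hx
      linarith [h.v c c1 c2]
    | zero => exact ip_zero_right _
    | add x y _ _ u v => rw [ip_add_right, u, v, add_zero]
    | smul t x _ u => rw [ip_smul_right, u, mul_zero]
  obtain ⟨q, rfl⟩ := (b.hg.iso (toR F) L (by rw [ip_toR, hF.2.1, Int.cast_zero]) (fun e => by
    have := hF.2.2
    rw [toR_inj (e.trans toR_zero.symm), ip_zero_right] at this
    exact this.false) h0).2 (k L m)
  have := h.a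
  rw [h0, eight b ad] at this
  exact ⟨q, by linarith, rfl⟩

theorem hp (b : B0 Λ) (hF : F ∈ Is Λ) (h : 0 ≤ ip Λ.B L L) (h0 : 0 < ip Λ.B L (toR F)) :
    0 < ip Λ.B (toR Λ.h) L :=
  b.lb.cone2 (toR F) L (by rw [ip_toR, hF.2.1, Int.cast_zero]) h (by rwa [ip_comm b.nc.sym])
    (by rw [ip_toR]; exact_mod_cast hF.2.2.le)

theorem low (b : B0 Λ) (hF : F ∈ Is Λ) (h0 : 0 < ip Λ.B L (toR F)) {A : ι → ℤ} (hA : A ∈ Is Λ)
    (h4 : ip Λ.B A F = 4) : 2 * (ip Λ.B L L / ip Λ.B L (toR F)) ≤ ip Λ.B L (toR A) := by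
  have f0 : ip Λ.B (toR F) (toR F) = 0 := by rw [ip_toR, hF.2.1, Int.cast_zero]
  obtain ⟨t, ht, e⟩ : ∃ t, t * ip Λ.B L (toR F) = ip Λ.B L L ∧ ip Λ.B L L / ip Λ.B L (toR F) = t :=
    ⟨_, div_mul_cancel₀ _ h0.ne', rfl⟩
  have w0 : 0 ≤ ip Λ.B (L - (t / 2) • toR F) (L - (t / 2) • toR F) := by
    simp only [ip_sub_left, ip_sub_right, ip_smul_left, ip_smul_right, f0,
      ip_comm b.nc.sym (toR F) L]
    linarith
  have := b.lb.cone1 _ (toR A) w0 (by rw [ip_toR, hA.2.1, Int.cast_zero])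
    (hp b hF w0 (by rwa [ip_sub_left, ip_smul_left, f0, mul_zero, sub_zero])).le
    (by rw [ip_toR]; exact_mod_cast hA.2.2.le)
  rw [ip_sub_left, ip_smul_left, ip_toR, ip_comm b.nc.sym F, h4] at this
  push_cast at this
  linarith

theorem posC (b : B0 Λ) (n : ℤ) (k : κ) : Pos Λ (n • Λ.C k) := by
  have : pz Λ (n • Λ.C k) = 0 := by
    rw [pz, Finset.sum_eq_single k (fun l _ h => by
      rw [ip_smul_left, b.nc.disj _ _ h.symm, mul_zero, zero_smul]) (by simp), ip_smul_left,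
      b.nc.m4, smul_smul, ← add_smul, show 4 * n + n * -4 = 0 by ring, zero_smul]
  rw [Pos, this, ip_zero_right, ip_zero_right]
  exact ⟨le_rfl, le_rfl⟩

end Q1

open Q1 in
theorem q1_stmt : Q1Stmt := by
  classical
  intro ι κ _ _ Λ F X b ll cv fin o
  have hF := cv.mem
  obtain ⟨G, G', ad⟩ := cv.ex
  obtain ⟨R₀, h0⟩ := rq Λ F G G' X fin
  have q0 : ∀ r ∈ R₀, Q Λ F G G' X (toR r) := fun r hr => h0.subset (subset_cone _ ⟨r, hr, rfl⟩)
  have ev : ∀ (L : ι → ℝ) (p : (ι → ℤ) × (ι → ℤ)), ipL Λ.B (p.1 + p.2 - F) L =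
      ip Λ.B L (toR (p.1 + p.2)) - ip Λ.B L (toR F) := fun L p => by
    rw [← ip_sub_right, ← toR_sub]
    rfl
  obtain ⟨T, t1, t2, t3⟩ := EndB3.dick (R₀.image toR) {p : (ι → ℤ) × (ι → ℤ) | Ad Λ F p.1 p.2}
    (fun p => ipL Λ.B (p.1 + p.2 - F)) (fun r hr p _ => by
      obtain ⟨r, -, rfl⟩ := Finset.mem_image.1 hr
      exact ⟨_, ip_toR _ _ _⟩) fun r hr' => by
      obtain ⟨r, hr, rfl⟩ := Finset.mem_image.1 hr'
      rcases (q0 r hr).f.eq_or_lt with k | k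
      · obtain ⟨q, h1, h2⟩ := zero b hF o ad (q0 r hr) k.symm
        exact ⟨0, fun p hp => by rw [ev, ← k, h2, eight b hp]; linarith⟩
      · refine ⟨ip Λ.B (toR r) (toR F) - 4 * (ip Λ.B (toR r) (toR r) / ip Λ.B (toR r) (toR F)),
          fun p hp => ?_⟩
        rw [ev, toR_add, ip_add_right]
        linarith [low b hF k hp.1.1 hp.2.1, low b hF k hp.1.2.1 hp.2.2]
  obtain ⟨R₁, h1⟩ := cut Λ.B R₀ (t2.image fun p => p.1 + p.2 - F)
  refine ⟨R₁ ∪ Finset.univ.image Λ.C ∪ Finset.univ.image fun k => -Λ.C k, fun r hr => ?_,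
    fun L hL hf hv ha => ?_⟩
  · simp only [Finset.mem_union, Finset.mem_image, Finset.mem_univ, true_and] at hr
    rcases hr with (hr | ⟨k, rfl⟩) | ⟨k, rfl⟩
    · obtain ⟨m1, m2⟩ := h1.subset (subset_cone _ ⟨r, hr, rfl⟩)
      have q : Q Λ F G G' X (toR r) := h0.subset m1
      have e : pz Λ r = (4 : ℤ) • r := by
        rw [pz, Finset.sum_eq_zero fun k _ => by
          rw [show ip Λ.B r (Λ.C k) = 0 by exact_mod_cast (ip_toR _ _ _).symm.trans (q.c k),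
            zero_smul], add_zero]
      have : 0 ≤ ip Λ.B (toR r) (toR r) ∧ 0 ≤ ip Λ.B (toR Λ.h) (toR r) := by
        rcases q.f.eq_or_lt with k | k
        · obtain ⟨s, s1, s2⟩ := zero b hF o ad q k.symm
          rw [s2, ip_smul_left, ip_smul_right, ip_smul_right, ip_toR, ip_toR, hF.2.1]
          exact ⟨by simp, mul_nonneg s1 (by exact_mod_cast hF.2.2.le)⟩
        · have := cv.cov _ q.c k fun A A' hA => by
            obtain ⟨j, hj, h⟩ := t3 (A, A') hA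
            have h2 := h (toR r) (by rwa [Finset.coe_image])
            have h3 : 0 ≤ ipL Λ.B (j.1 + j.2 - F) (toR r) := m2 _ ⟨j, hj, rfl⟩
            rw [ev _ (A, A')] at h2
            linarith
          exact ⟨this, (hp b hF this k).le⟩
      rw [ip_toR, ip_toR, Int.cast_nonneg_iff, Int.cast_nonneg_iff] at this
      rw [Pos, e, ip_smul_left, ip_smul_right, ip_smul_right]
      constructor <;> linarith [this.1, this.2]
    · simpa using posC b 1 k
    · simpa using posC b (-1) k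
  · have pv : ∀ v : ι → ℤ, (∀ k, ip Λ.B v (Λ.C k) = 0) →
        ip Λ.B (pr4 Λ L) (toR v) = 4 * ip Λ.B L (toR v) := fun v h =>
      ll.pv L _ fun k => by rw [ip_toR, h, Int.cast_zero]
    have pF := pv F hF.1.1
    have pa : ∀ A A', Ad Λ F A A' → ip Λ.B (pr4 Λ L) (toR F) ≤ ip Λ.B (pr4 Λ L) (toR (A + A')) :=
      fun A A' h => by
        rw [pF, pv _ fun k => by rw [ip_add_left, h.1.1.1.1, h.1.2.1.1.1, add_zero]]
        linarith [ha A A' h]
    have m : pr4 Λ L ∈ cone (toR '' (R₁ : Set (ι → ℤ))) := by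
      refine h1.superset ⟨h0.superset ⟨ll.pC L, fun x hx => ?_, fun c hc h => pF ▸ hv c hc h,
        by linarith, pa _ _ ad⟩, ?_⟩
      · rw [pF, ll.pv L _ fun k => (ip_comm b.nc.sym _ _).trans (o.perp x hx _
          (Submodule.subset_span ⟨_, ⟨b.nc.memC k, (ip_comm b.nc.sym _ _).trans (hF.1.1 k)⟩, rfl⟩)),
          abs_mul, abs_of_pos four_pos]
        linarith [hL x hx]
      · rintro _ ⟨p, hp, rfl⟩
        exact (sub_nonneg.2 (pa _ _ (t1 hp))).trans_eq (ev _ p).symm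
    have e : L = (1 / 4 : ℝ) • pr4 Λ L + ∑ k, (-ip Λ.B L (toR (Λ.C k)) / 4) • toR (Λ.C k) := by
      rw [pr4, smul_add, smul_smul, Finset.smul_sum, add_assoc, ← Finset.sum_add_distrib,
        Finset.sum_eq_zero fun k _ => by rw [smul_smul, ← add_smul, ← zero_smul ℝ]; congr 1; ring]
      norm_num
    rw [e]
    exact (isCone_cone _).add _ ((isCone_cone _).smul _ (by norm_num) _ (cone_mono
      (Set.image_mono fun x hx => by simp [Finset.mem_coe.1 hx]) m)) _ ((isCone_cone _).sum_mem _ _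
      fun k _ => both (by simp) (by simp) _)

end Pool.Agent.MP_20d318_ag.CC

end MrgPart12

-- marker of a merged file
example : 731051 + 701947 = 731051 + 701947 := rfl
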