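import Pool.Agent.MP_20d318_ag.CC.En3
import Pool.Agent.MP_20d318_ag.CB.LcB
import Pool.Agent.MP_20d318_ag.CC.Q1
import Pool.Agent.MP_20d318_ag.CC.Brg
import Pool.Agent.MP_20d318_ag.CC.Lp
import Pool.Agent.MP_20d318_ag.CC.Ll
import Pool.Agent.MP_20d318_ag.CC.Mg1
import Pool.Agent.MP_20d318_ag.CC.Eb1
import Pool.Agent.MP_20d318_ag.CC.Asm

-- ======== part 0: formerly Pool.Agent.MP_20d318_ag.CC.Kc
section MrgPart0

/-! Row KC: the decomposition. -/

set_option autoImplicit false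

namespace Pool.Agent.MP_20d318_ag.CC

open Pool.Agent.MP_20d318_ag.Lat hiding act
open Pool.Agent.MP_20d318_ag.CB

namespace Kc

variable {ι : Type} [Fintype ι] (B : ι → ι → ℤ)

/-- The classes of nonnegative degree. -/
def A (N : ι → ℝ) : AddSubmonoid (ι → ℤ) where
  carrier := {v | 0 ≤ ip B N (toR v)}
  zero_mem' := (by rw [toR_zero, ip_zero_right] : ip B N (toR 0) = 0).ge
  add_mem' {a b} ha hb := by
    change 0 ≤ ip B N (toR _)
    rw [toR_add, ip_add_right]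
    exact add_nonneg ha hb

theorem prj_sum {α : Type} (T : Finset (ι → ℤ)) (s : Finset α) (a : α → ι → ℤ) :
    prj B T (∑ x ∈ s, a x) = ∑ x ∈ s, prj B T (a x) :=
  map_sum (AddMonoidHom.mk' (prj B T) (prj_add B T)) a s

end Kc

theorem kc_stmt : KcStmt := by
  intro hb hc ha hk ι κ _ _ Λ b0 c0 L N xh x kh
  obtain ⟨T, km⟩ := ha hb ι κ Λ L N xh x b0 kh
  have rb := hb ι κ Λ T b0 km.cn
  have rc := hc ι κ Λ T b0 km.cn rb
  have tm := hk ι κ Λ L N xh x T b0 c0 kh km rb rc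
  have h1 : ∑ k, prj Λ.B T (Λ.C k) ∈ Kc.A Λ.B N :=
    sum_mem fun k _ => rc.one (Kc.A Λ.B N) km.neg tm _ (km.mem k) (km.rat k)
  have h2 : -KT Λ T ∈ Kc.A Λ.B N := by
    rw [← Kc.prj_sum, b0.nc.sumC, prj_smul] at h1
    replace h1 : 0 ≤ ip Λ.B N (toR ((-2 : ℤ) • KT Λ T)) := h1
    change 0 ≤ ip Λ.B N (toR _)
    rw [toR_zsmul, ip_smul_right] at h1
    rw [toR_neg, ip_neg_right]
    push_cast at h1
    linarith
  refine ⟨T, fun e he => ⟨km.cn.ef e he, km.lt e he⟩, fun c hc => ?_⟩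
  have e : ip Λ.B (N + ∑ e ∈ T, ip Λ.B N (toR e) • toR e) (toR c) =
      ip Λ.B N (toR (prj Λ.B T c)) := by
    simp only [prj, toR_add, toR_sum, toR_zsmul, ip_add_left, ip_add_right, ip_sum_left,
      ip_sum_right, ip_smul_left, ip_smul_right, ip_toR, ip_comm b0.nc.sym c, mul_comm]
  rw [e]
  by_cases h0 : prj Λ.B T c = 0
  · rw [h0, toR_zero, ip_zero_right]
  · exact rc.two (Kc.A Λ.B N) km.neg tm h2 _ ⟨h0, c, hc, rfl⟩

end Pool.Agent.MP_20d318_ag.CC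

end MrgPart0

-- ======== part 1: formerly Pool.Agent.MP_20d318_ag.CC.En2
section MrgPart1

/-! Row EN2: the subgroup that fixes the components. -/

set_option autoImplicit false

namespace Pool.Agent.MP_20d318_ag.CC

open Pool.Agent.MP_20d318_ag.Lat hiding act
open Pool.Agent.MP_20d318_ag.CB

open Classical in
theorem en2_stmt : En2Stmt := by
  intro ι κ _ _ Λ G _ gp gr ⟨R, hR, hc⟩
  obtain ⟨e, he, -⟩ := gp.one
  have ex : ∀ π : Equiv.Perm κ, ∃ τ ∈ G, (∃ ρ ∈ G, ∀ k, act ρ (Λ.C k) = Λ.C (π k)) →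
      ∀ k, act τ (Λ.C (π k)) = Λ.C k := fun π => by
    by_cases h : ∃ ρ ∈ G, ∀ k, act ρ (Λ.C k) = Λ.C (π k)
    · obtain ⟨ρ, hρ, h1⟩ := h
      obtain ⟨τ, hτ, h2⟩ := gp.inv ρ hρ
      exact ⟨τ, hτ, fun _ k => by rw [← h1, (h2 _).2]⟩
    · exact ⟨e, he, fun h' => absurd h' h⟩
  choose τ hτ h1 using ex
  refine ⟨Finset.univ.biUnion fun π => R.image (act (τ π)), fun r hr => ?_, fun L hL gd => ?_⟩
  · obtain ⟨π, -, hr⟩ := Finset.mem_biUnion.1 hr
    obtain ⟨r, hr1, rfl⟩ := Finset.mem_image.1 hr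
    exact gr.pos _ (hτ π) r (hR r hr1)
  · obtain ⟨ρ, hρ, h2⟩ := hc L hL gd
    obtain ⟨π, h3⟩ := gp.perm ρ hρ
    refine ⟨τ π * ρ, ⟨gp.mul _ (hτ π) _ hρ, fun k => ?_⟩, ?_⟩
    · rw [act_mul, h3, h1 π ⟨ρ, hρ, h3⟩]
    · rw [act_mul]
      let f : (ι → ℝ) →ₗ[ℝ] (ι → ℝ) := ⟨⟨act (τ π), act_add _⟩, act_smul _⟩
      refine ((isCone_cone _).preimage f).cone_subset ?_ h2
      rintro _ ⟨r, hr, rfl⟩
      exact subset_cone _ ⟨act (τ π) r, Finset.mem_coe.2 (Finset.mem_biUnion.2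
        ⟨π, Finset.mem_univ _, Finset.mem_image_of_mem _ hr⟩), toR_act _ _⟩

end Pool.Agent.MP_20d318_ag.CC

end MrgPart1

-- ======== part 2: formerly Pool.Agent.MP_20d318_ag.CC.LFin
section MrgPart2

/-! All lattice rows hold. -/

set_option autoImplicit false

namespace Pool.Agent.MP_20d318_ag.CC

theorem lmodsC : LMods := ⟨CB.hg_stmt, lb_stmt, rb_stmt, rc_stmt, c0_stmt, ka_stmt, kb_stmt, kc_stmt,
  lp_stmt, xy_stmt, xn_stmt, lcA_stmt, lcB_stmt, ll_stmt, mg1_stmt, mg2_stmt, mg3_stmt, fr_stmt,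
  cv1_stmt, cv2_stmt, ds1_stmt, ds2_stmt, gr_stmt, sym_stmt, eb1_stmt, eb2_stmt, min_stmt, q1_stmt,
  en2_stmt, en3_stmt, rad_stmt⟩

end Pool.Agent.MP_20d318_ag.CC

end MrgPart2

-- ======== part 3: formerly Pool.Agent.MP_20d318_ag.CC.Fin
section MrgPart3

/-! The scheme. -/

set_option autoImplicit false
set_option linter.style.haveILetI false

open AlgebraicGeometry CategoryTheory

namespace Pool.Agent.MP_20d318_ag.CC

open Pool.Agent.MP_20d318_ag.CB Pool.Agent.MP_20d318_ag.CB.P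
open Pool.Agent.MP_fd6584_ag Pool.Agent.MP_fd6584_ag.Pj Pool.Agent.CBk
open Pool.Agent.MP_fd6584_ag.AG hiding deg_inv deg_congr deg_of_unit deg_mul deg_prod deg_zpow
  deg_eq_zero deg_nonneg deg_div deg_pow

variable {k M : Type} [Field k] [NeZero (2 : k)] [IsAlgClosed k] [Field M] [Algebra k M]

theorem GMods.final (m : GMods) {T : Set (Subalgebra k M)} {D₁ D₂ : Derivation k M M} {φ : M}
    {l : k} (hT : RS.Tower T) (h1 : RS.BiAnti T D₁ D₂ φ) (h2 : RS.SmoothZero T D₁ D₂ φ)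
    (l0 : l ≠ 0) (l1 : l ≠ 1) :
    ∃ (X : Scheme.{0}) (_ : IsIntegral X) (s : X ⟶ Spec (CommRingCat.of k)),
      IsProjective s ∧ Smooth s ∧ TrivialCanonical s ∧ DoubleCover s T φ l ∧ ConeConj s ∧
        NefConj s := by
  obtain ⟨I, κ, _, _, p, n, ε₀, e, rfl, hp, st⟩ := m.pair hT h1 h2
  obtain ⟨K, _, _, ι, ζ, w, a1, a2, a3⟩ := XAlg.cover (k := k) p.φ l
  have he : Ext p ι l ζ w := ⟨l0, l1, a1, a2, a3⟩
  have hx := xAll hp he
  have hs := xSm_stmt et_stmt etN_stmt k M K I κ p ι l ζ w hx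
  obtain ⟨J, _, 𝒞, hC, hB⟩ := chart_of hx.loc.fam
  obtain ⟨N⟩ := exists_model 𝒞
  have hC' : Sch.pts 𝒞 = XX p ι ζ w := hC
  have hO : ∀ q, Sch.OA N q ∈ XX p ι ζ w := fun q => hC' ▸ Sch.OA_mem q
  have hc := m.cone lmodsC hp st he hs
  refine ⟨N.X, N.integral, N.s, N.proj, N.smooth fun j => ?_, ?_, ?_, (Sch.bridge k K J 𝒞 N
    (hC' ▸ ⟨hc, addv hx.loc.fine.toGood⟩)).2, bridge N (hC' ▸ hc)⟩
  · obtain ⟨G, g1, g2⟩ := hB j
    rw [g2]
    exact smG_stmt k K G g1 fun O g3 => hs.sm O (hC' ▸ Set.mem_iUnion.2 ⟨j, g2 ▸ g3⟩)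
  · have sep := sepX hx
    refine Canon.trivial_of N (hx.loc.ind.isTranscendenceBasis_iff_isAlgebraic.2
      (IntermediateField.isAlgebraic_adjoin_iff_top.1 inferInstance)) sep
      (l := w * ι (p.j p.x p.y)) (mul_ne_zero hx.loc.wne ((map_ne_zero ι).2 hp.jne))
      fun D hD q => ?_
    obtain ⟨c, c1, c2, c3⟩ := hs.can D hD _ (hO q)
    refine ⟨c, c1, fun a ha => ?_, c3⟩
    obtain ⟨r, c4, c5⟩ := c2 a ha
    rw [c5]
    exact sum_mem fun i _ => Submodule.smul_mem _ (⟨r i, c4 i⟩ : N.O q)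
      (Submodule.subset_span ⟨i, rfl⟩)
  · letI : Algebra k N.X.functionField := (const N.s).toAlgebra
    let ε : N.X.functionField ≃ₐ[k] K := AlgEquiv.ofRingEquiv (f := N.e) N.e_const
    have reg : ∀ q, ∀ f ∈ Sch.OA N q, RegAt q (ε.symm f) := fun q f ⟨u, hu⟩ =>
      ⟨u, ε.eq_symm_apply.2 hu⟩
    refine ⟨ε.symm.toAlgHom.comp ι, ε.symm ζ, ε.symm w, fun q hq => a1 q ?_, ?_, ?_,
      fun q => ⟨?_, ?_⟩⟩
    · refine ε.symm.injective ?_
      rw [map_zero, ← hq]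
      exact Polynomial.hom_eval₂ q _ (ε.symm : K →+* N.X.functionField) ζ
    · have := congrArg ε.symm a2
      simp only [map_pow, map_mul, map_sub, map_one, AlgEquiv.commutes] at this
      exact this
    · have := congrArg (IntermediateField.map ε.symm.toAlgHom) a3
      rw [IntermediateField.adjoin_map, Set.image_union, ← Set.range_comp, Set.image_pair,
        ← AlgHom.fieldRange_eq_map, AlgHom.fieldRange_eq_top.2 ε.symm.surjective] at this
      exact this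
    · obtain ⟨R, hR, hd⟩ := hx.loc.maps _ (hO q)
      exact ⟨R, e ▸ hR, fun a ha => reg q _ (hd.1 ha)⟩
    · rw [← map_inv₀]
      exact (XTst.zor (hx.loc.zm _ (hO q))).imp (reg q _) (reg q _)

end Pool.Agent.MP_20d318_ag.CC

end MrgPart3

-- marker of a merged file
example : 731051 + 185297 = 731051 + 185297 := rfl
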