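import Pool.Agent.MP_20d318_ag.CC.Spec

-- ======== part 0: formerly Pool.Agent.MP_20d318_ag.CC.Ta
section MrgPart0

/-! Row TA: sections on a surface and their zeros. -/

set_option autoImplicit false
set_option linter.unusedSectionVars false

namespace Pool.Agent.MP_20d318_ag.CC

open Pool.Agent.MP_20d318_ag.CB Pool.Agent.MP_20d318_ag.CB.P
open Pool.Agent.MP_fd6584_ag.Fn Pool.Agent.CBk MvPolynomial
open Pool.Agent.MP_fd6584_ag.AG hiding deg_inv deg_congr deg_of_unit deg_mul deg_prod deg_zpow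
  deg_eq_zero deg_nonneg deg_div deg_pow

namespace Ta

variable {k M I : Type} [Field k] [Field M] [Algebra k M] [Fintype I] {S : Sd k M I}

theorem dn (h : SAll S) (D : I → ℤ) (ψ : M) {O O' : Subalgebra k M} (hO : O ∈ S.T)
    (hO' : O' ∈ S.T) (hle : O ≤ O') (hu : IsU O (ψ * S.lb D O)) : IsU O' (ψ * S.lb D O') := by
  have h1 := (h.a1.cart D).unit hO hO' hle
  have h2 := (hu.mono hle).div h1
  have h3 := (h.a1.cart D).ne hO
  have h4 := (h.a1.cart D).ne hO'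
  have e : ψ * S.lb D O / (S.lb D O / S.lb D O') = ψ * S.lb D O' := by field_simp
  rwa [e] at h2

theorem dm (h : SAll S) {D : I → ℤ} {ψ : M} (hψ : ψ ∈ S.Sec D) {O O' : Subalgebra k M}
    (hO : O ∈ S.T) (hO' : O' ∈ S.T) (hle : O ≤ O') (hm : ψ * S.lb D O' ∈ mx O') :
    ψ * S.lb D O ∈ mx O :=
  ⟨hψ O hO, fun hu => hm.2 (dn h D ψ hO hO' hle hu)⟩

theorem rat [IsAlgClosed k] (h : SAll S) (P : Place k M) (hP : plO P ∈ S.T) :
    ∃ O ∈ S.T, RatPt O ∧ O ≤ plO P := by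
  obtain ⟨ν, hν, -⟩ := h.a1.cur P hP
  obtain ⟨Q⟩ := exists_pl ν
  exact ⟨ν.pt Q, ν.pt_mem Q, pt_rat ν Q, hν ▸ ν.pt_le Q⟩

theorem unit (h : SAll S) {c : I → ℤ} {φ : M} {P P' : Place k M} (hP : S.Prm c φ P)
    (hP' : plO P' ∈ S.T) (hne : P ≠ P') : IsU (plO P') (φ * S.lb c (plO P')) :=
  isU_of_not_mx (h.a1.pmem c φ P hP _ hP') fun hm => hne (h.a1.peq c φ P hP P' hP' hm).symm

theorem sum (h : SAll S) (D : I → ℤ) (ψ : M) (hψ : ψ ∈ S.Sec D) (h0 : ψ ≠ 0) :
    ∃ s : Finset (Place k M), (∀ P, P ∈ s ↔ plO P ∈ S.T ∧ ψ * S.lb D (plO P) ∈ mx (plO P)) ∧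
      D = ∑ P ∈ s, P.ord (ψ * S.lb D (plO P)) • S.cl P := by
  have hc := h.a1.pcart D ψ h0
  have hf := h.a1.nice.toFine.fin_cart hc
  refine ⟨hf.toFinset, fun P => ?_, h.a2.dv D ψ _ h0 (fun P hP => (hf.mem_toFinset.1 hP).1)
    fun P hP hn => by_contra fun h1 => hn (hf.mem_toFinset.2 ⟨hP, h1⟩)⟩
  rw [hf.mem_toFinset]
  refine and_congr_right fun hP => ?_
  have h1 : ψ * S.lb D (plO P) ≠ 0 := hc.ne hP
  have h2 := mem_plO_ord.1 (hψ _ hP)
  rw [mx_plO h1]
  exact ⟨fun h3 => lt_of_le_of_ne h2 (Ne.symm h3), fun h3 => h3.ne'⟩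

theorem prm (h : SAll S) (c : I → ℤ) (φ : M) (P : Place k M) (hP : S.Prm c φ P) (ψ : M)
    (hψ : ψ ∈ S.Sec c) (h0 : ψ ≠ 0) (hm : ψ * S.lb c (plO P) ∈ mx (plO P)) : S.Prm c ψ P := by
  have h1 := h.a2.sub c φ P hP c ψ hψ hm
  rw [sub_self] at h1
  obtain ⟨a, ha⟩ := h.a2.const (ψ / φ) fun O hO => by
    have := h1 O hO
    rwa [S.lb_zero, mul_one] at this
  have e : ψ = algebraMap k M a * φ := by rw [← ha, div_mul_cancel₀ _ hP.1]
  have h2 : algebraMap k M a ≠ 0 := ha ▸ div_ne_zero h0 hP.1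
  refine ⟨h0, hP.2.1, fun P' hP' => ?_⟩
  rw [← hP.2.2 P' hP', e, mul_assoc,
    P'.ord_mul h2 (mul_ne_zero hP.1 ((h.a1.cart c).ne hP')), P'.ord_const, zero_add]

theorem zer [IsAlgClosed k] (h : SAll S) (c : I → ℤ) (φ : M) (P : Place k M) (hP : S.Prm c φ P)
    (D : I → ℤ) (ψ : M) (hψ : ψ ∈ S.Sec D) (hne : ip S.B D c ≠ 0) :
    ∃ O ∈ S.T, RatPt O ∧ O ≤ plO P ∧ ψ * S.lb D O ∈ mx O := by
  rcases isU_or_mx (hψ _ hP.2.1) with hu | hm
  · by_contra hn
    refine hne ((h.a2.nn c φ P hP D ψ hψ hu).2.2 fun O hO hle => ?_)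
    rcases h.a1.tri O hO with e | hr | ⟨P', e⟩
    · exact absurd (top_le_iff.1 (e ▸ hle)) (plO_ne_top P)
    · exact isU_of_not_mx (hψ O hO) fun hm => hn ⟨O, hO, hr, hle, hm⟩
    · have h1 : P' = P := plO_inj (e ▸ hle)
      rw [← e, h1]
      exact hu
  · obtain ⟨O, hO, hr, hle⟩ := rat h P hP.2.1
    exact ⟨O, hO, hr, hle, dm h hψ hO hP.2.1 hle hm⟩

theorem meet (h : SAll S) (c : I → ℤ) (φ : M) (P : Place k M) (c' : I → ℤ) (φ' : M)
    (P' : Place k M) (hP : S.Prm c φ P) (hP' : S.Prm c' φ' P') (hne : P ≠ P') :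
    ip S.B c c' ≠ 0 ↔ ∃ O ∈ S.T, O ≤ plO P ∧ O ≤ plO P' := by
  have hφ := h.a1.pmem c φ P hP
  have h1 := (h.a2.nn c' φ' P' hP' c φ hφ (unit h hP hP'.2.1 hne)).2
  constructor
  · intro h2
    by_contra hn
    exact h2 (h1.2 fun O hO hle => isU_of_not_mx (hφ O hO) fun hm =>
      hn ⟨O, hO, (h.a1.pmx c φ P hP O hO).1 hm, hle⟩)
  · rintro ⟨O, hO, h2, h3⟩ h4
    exact ((h.a1.pmx c φ P hP O hO).2 h2).2 (h1.1 h4 O hO h3)

theorem comb {O : Subalgebra k M} (hO : O ∈ S.T) (hr : RatPt O) (D : I → ℤ) (ψ : M)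
    (hψ : ψ ∈ S.Sec D) (ψ' : M) (hu : IsU O (ψ' * S.lb D O)) :
    ∃ a : k, (ψ - a • ψ') * S.lb D O ∈ mx O := by
  obtain ⟨a, ha⟩ := hr _ (hu.div_mem (hψ O hO))
  refine ⟨a, ?_⟩
  have := mx_mul_right ha hu.mem
  rwa [sub_mul, div_mul_cancel₀ _ hu.ne, ← mul_assoc, ← Algebra.smul_def, ← sub_mul] at this

theorem h00 (h : SAll S) (D : I → ℤ) (hD : D ∉ S.Ef) : S.h0 D = 0 := by
  have e : S.Sec D = ⊥ :=
    (Submodule.eq_bot_iff _).2 fun φ hφ => by_contra fun h0 => hD (h.a2.eff1 D φ hφ h0)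
  rw [Sd.h0, e, finrank_bot, Nat.cast_zero]

theorem h01 (h : SAll S) (D : I → ℤ) (hD : S.h0 D ≤ 1) (ψ : M) (hψ : ψ ∈ S.Sec D) (h0 : ψ ≠ 0)
    (ψ' : M) (hψ' : ψ' ∈ S.Sec D) : ∃ a : k, ψ' = a • ψ := by
  have := h.s.fd D
  have h1 : Module.finrank k (S.Sec D) ≤ 1 := by
    rw [Sd.h0] at hD
    exact_mod_cast hD
  obtain ⟨v, hv⟩ := finrank_le_one_iff.1 h1
  obtain ⟨a, ha⟩ := hv ⟨ψ, hψ⟩
  obtain ⟨b, hb⟩ := hv ⟨ψ', hψ'⟩
  have ha' : a • (v : M) = ψ := congrArg Subtype.val ha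
  have hb' : b • (v : M) = ψ' := congrArg Subtype.val hb
  have h2 : a ≠ 0 := fun e => h0 (by rw [← ha', e, zero_smul])
  exact ⟨b / a, by rw [← ha', ← hb', smul_smul, div_mul_cancel₀ _ h2]⟩

theorem h02 (D : I → ℤ) (hD : 2 ≤ S.h0 D) (ψ : M) : ∃ ψ' ∈ S.Sec D, ∀ a : k, ψ' ≠ a • ψ := by
  by_contra hn
  have h1 : S.Sec D ≤ Submodule.span k {ψ} := fun ψ' hψ' => by
    by_contra h2
    exact hn ⟨ψ', hψ', fun a e => h2 (Submodule.mem_span_singleton.2 ⟨a, e.symm⟩)⟩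
  have h2 := Submodule.finrank_mono h1
  have h3 : Module.finrank k (Submodule.span k ({ψ} : Set M)) ≤ 1 := by
    simpa using finrank_span_le_card (R := k) ({ψ} : Set M)
  rw [Sd.h0] at hD
  omega

end Ta

theorem ta_stmt : TaStmt := fun k M I _ _ _ _ _ _ S h =>
  { dn := fun D ψ _ hO _ hO' hle hu => Ta.dn h D ψ hO hO' hle hu
    dm := fun _ _ hψ _ hO _ hO' hle hm => Ta.dm h hψ hO hO' hle hm
    sec := fun D ψ hψ => by
      by_cases h0 : ψ = 0
      · exact h0 ▸ (S.Sec D).zero_mem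
      · exact fun O hO => h.a1.nice.eff (h.a1.pcart D ψ h0) hO
          fun P hP _ => mem_plO_ord.1 (hψ P hP)
    above := fun D ψ hψ h0 O hO hm => by
      by_contra hn
      exact hm.2 (h.a1.nice.unit (h.a1.pcart D ψ h0) hO fun P hP hle =>
        ((isU_plO' P).1 (isU_of_not_mx (hψ _ hP) fun h1 => hn ⟨P, hP, hle, h1⟩)).2)
    sum := Ta.sum h
    van := fun c φ P hP D ψ hψ hlt => h.a2.sub c φ P hP D ψ hψ
      ((isU_or_mx (hψ _ hP.2.1)).resolve_left fun hu =>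
        absurd (h.a2.nn c φ P hP D ψ hψ hu).1 (not_le.2 hlt))
    dvd := fun c φ P hP D ψ hψ h0 hm =>
      h.a2.eff1 _ _ (h.a2.sub c φ P hP D ψ hψ hm) (div_ne_zero h0 hP.1)
    prm := Ta.prm h
    rat := Ta.rat h
    zer := Ta.zer h
    meet := Ta.meet h
    neg := fun c φ P φ' P' hP hP' hlt => by_contra fun hne =>
      absurd (h.a2.nn c φ' P' hP' c φ (h.a1.pmem c φ P hP) (Ta.unit h hP hP'.2.1 hne)).1
        (not_le.2 hlt)
    comb := fun _ hO hr D ψ hψ ψ' _ hu => Ta.comb hO hr D ψ hψ ψ' hu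
    h00 := Ta.h00 h
    h01 := Ta.h01 h
    h02 := Ta.h02 }

end Pool.Agent.MP_20d318_ag.CC

end MrgPart0

-- ======== part 1: formerly Pool.Agent.MP_20d318_ag.CC.Tb
section MrgPart1

/-! Small tools on places and subfields. -/

set_option autoImplicit false
set_option linter.unusedSectionVars false

namespace Pool.Agent.MP_20d318_ag.CC

open Pool.Agent.MP_20d318_ag.CB Pool.Agent.MP_20d318_ag.CB.P
open Pool.Agent.MP_fd6584_ag.Fn Pool.Agent.CBk
open Pool.Agent.MP_fd6584_ag.AG hiding deg_inv deg_congr deg_of_unit deg_mul deg_prod deg_zpow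
  deg_eq_zero deg_nonneg deg_div deg_pow
open Pool.Agent.MP_20d318_ag.CB.P.TransA (pc)
open scoped IntermediateField

namespace TbR

variable {k M I : Type} [Field k] [NeZero (2 : k)] [IsAlgClosed k] [Field M] [Algebra k M]
  [Fintype I] {S : Sd k M I}

theorem nc (h : A1 S) (P : Place k M) (hP : plO P ∈ S.T) (O : Subalgebra k M) (hO : O ∈ S.T)
    (hle : O ≤ plO P) (b : M) (hb : b ∈ plO P) (h0 : b ≠ 0) (hi : b⁻¹ ∈ mx O) :
    Ind (plO P) ![b] := by
  refine (h.ind P hP b hb).resolve_right ?_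
  rintro ⟨c, hc⟩
  have hu : IsU (plO P) b := ⟨h0, hb, hle hi.1⟩
  have hc0 : c ≠ 0 := fun e => hu.not_mx (by simpa [e] using hc)
  have hc1 : algebraMap k M c ≠ 0 := (map_ne_zero _).2 hc0
  have e : b⁻¹ - algebraMap k M c⁻¹ =
      -(b⁻¹ * algebraMap k M c⁻¹) * (b - algebraMap k M c) := by
    rw [map_inv₀]
    field_simp
    ring
  have h1 : b⁻¹ - algebraMap k M c⁻¹ ∈ mx O :=
    mx_of_le hle (O.sub_mem hi.1 (O.algebraMap_mem _)) (by
      rw [e]
      exact mx_mul_left ((plO P).neg_mem ((plO P).mul_mem hu.inv_mem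
        ((plO P).algebraMap_mem _))) hc)
  have h2 := mx_sub' (h.nice.loc O hO) hi h1
  rw [sub_sub_cancel] at h2
  exact inv_ne_zero hc0 (const_mem_mx.1 h2)

theorem cj (σ : M ≃ₐ[k] M) (t u a b : M) (P Q : Place k M) (hσ : ∀ m, σ (σ m) = m)
    (hf : ∀ m, σ m = m → m ∈ k⟮t, u⟯) (ht : t ∈ k⟮b, a⟯) (hu : u ∈ k⟮b, a⟯)
    (hP : Ind (plO P) ![b]) (hQ : Ind (plO Q) ![b]) (h0 : a ≠ 0) (haP : a ∈ mx (plO P))
    (haQ : a ∈ mx (plO Q)) : Q = P ∨ Q = pc σ P := by
  have hle : k⟮t, u⟯ ≤ k⟮b, a⟯ := by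
    rw [IntermediateField.adjoin_le_iff]
    rintro x (rfl | rfl)
    exacts [ht, hu]
  exact Orb.conj (t := b) (u := a) (q := Polynomial.X)
    (fun m => by rw [TransA.pc_ord, hσ]) hσ
    (fun m hm => Orb.mem_adj (IntermediateField.mem_adjoin_simple_self k⟮b⟯ a) (hle (hf m hm)))
    hP hQ haP.1 haQ.1 Polynomial.irreducible_X (by rwa [Polynomial.aeval_X])
    (by rwa [Polynomial.aeval_X]) (by rwa [Polynomial.aeval_X])

theorem ind2 (O : Subalgebra k M) (t u : M) (c : k) (h0 : t - algebraMap k M c ≠ 0)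
    (ht : t - algebraMap k M c ∈ mx O) (hu : Ind O ![u]) : AlgebraicIndependent k ![t, u] := by
  have h1 := (Inv1A.ind2 h0 ht hu).polynomial_aeval_of_transcendental
    (f := ![Polynomial.X + Polynomial.C c, Polynomial.X]) (fun i => by
      fin_cases i
      · exact Polynomial.transcendental _ (by simp) (by simp)
      · exact Polynomial.transcendental_X k)
  refine Eq.subst (motive := fun x => AlgebraicIndependent k x) ?_ h1
  funext i
  fin_cases i <;> simp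

theorem plc (σ : M ≃ₐ[k] M) (ρ : Matrix I I ℤ) (h : Ac S σ ρ) (hσ : ∀ m, σ (σ m) = m)
    (c : I → ℤ) (φ : M) (P : Place k M) (hP : S.Prm c φ P) :
    ∃ φ', S.Prm (act ρ c) φ' (pc σ P) := by
  obtain ⟨φ', P', h1, h2⟩ := h.prm c φ P hP
  have e : P' = pc σ P := TransA.eq_of_ord fun m => by rw [TransA.pc_ord, ← h2, hσ]
  exact ⟨φ', e ▸ h1⟩

theorem cht (h : A1 S) (t u : M) (P : Place k M) (ht : k⟮t, u⟯ = ⊤) (hi : Ind (plO P) ![t])
    (hu : u ∈ plO P) : Cht (plO P) t u := by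
  obtain ⟨a, b, hab, -⟩ := h.chart ⊤ h.nice.toFine.top
  have hg : GenP k t u := (plane_stmt k M a b hab).top t u ht
  have hle : Algebra.adjoin k {t, u} ≤ plO P := by
    rw [Algebra.adjoin_le_iff]
    rintro x (rfl | rfl)
    exacts [hi.1 0, hu]
  obtain ⟨O, hO, hd⟩ := exists_ctr (plO_isVal P).isLocalRing hle
  refine ⟨hg, ?_⟩
  rcases (plane_stmt k M t u hg).tri O hO with e | e | ⟨Q, e⟩
  · exact absurd (top_unique (e ▸ hd.1)) (plO_ne_top P)
  · exact (Pen.not_rat hd e (Or.inl (hO.2.1 (Algebra.subset_adjoin (by simp)))) hi).elim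
  · have e' : Q = P := plO_inj (e ▸ hd.1)
    rw [← e', e]
    exact hO

theorem dep (h : SAll S) (c : I → ℤ) (φ : M) (P : Place k M) (hP : S.Prm c φ P) (D : I → ℤ)
    (hD : ip S.B D c = 1) (x : M) (hx : x ∈ S.Sec D) (y : M) (hy : y ∈ S.Sec D) (z : M)
    (hz : z ∈ S.Sec D) : ∃ α β γ : k, ¬ (α = 0 ∧ β = 0 ∧ γ = 0) ∧
      (α • x + β • y + γ • z) * S.lb D (plO P) ∈ mx (plO P) := by
  by_contra hn
  have := h.s.fd D
  have := h.s.fd (D - c)
  have hm : ∀ w : S.Sec (D - c), φ * w ∈ S.Sec D := fun w => by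
    have h1 := h.a2.mul c (D - c) φ (h.a1.pmem c φ P hP) w w.2
    rwa [add_sub_cancel] at h1
  let L : (k × k × k × S.Sec (D - c)) →ₗ[k] S.Sec D :=
    { toFun := fun v => ⟨v.1 • x + v.2.1 • y + v.2.2.1 • z - φ * v.2.2.2,
        sub_mem (add_mem (add_mem ((S.Sec D).smul_mem _ hx) ((S.Sec D).smul_mem _ hy))
          ((S.Sec D).smul_mem _ hz)) (hm _)⟩
      map_add' := fun v w => Subtype.ext (by
        simp only [Prod.fst_add, Prod.snd_add, add_smul, Submodule.coe_add]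
        ring)
      map_smul' := fun a v => Subtype.ext (by
        simp only [Prod.smul_fst, Prod.smul_snd, smul_eq_mul, RingHom.id_apply,
          Submodule.coe_smul, Algebra.smul_def, map_mul]
        ring) }
  have hL : Function.Injective L := by
    rw [injective_iff_map_eq_zero]
    rintro ⟨α, β, γ, w⟩ hv
    have e : α • x + β • y + γ • z = φ * w := sub_eq_zero.1 (congrArg Subtype.val hv)
    have h3 : α = 0 ∧ β = 0 ∧ γ = 0 := by_contra fun h3 => hn ⟨α, β, γ, h3, by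
      have g := h.a1.gne _ hP.2.1
      have e2 : φ * w * S.lb D (plO P) =
          φ * S.lb c (plO P) * (w * S.lb (D - c) (plO P)) := by
        have := S.lb_ne g c
        rw [S.lb_sub g]
        field_simp
      rw [e, e2]
      exact mx_mul_right ((h.a1.pmx c φ P hP _ hP.2.1).2 le_rfl) (w.2 _ hP.2.1)⟩
    obtain ⟨rfl, rfl, rfl⟩ := h3
    rw [zero_smul, zero_smul, zero_smul, add_zero, add_zero] at e
    have hw : w = 0 := Subtype.ext ((mul_eq_zero.1 e.symm).resolve_left hP.1)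
    rw [hw]
    rfl
  have h4 := LinearMap.finrank_le_finrank_of_injective hL
  simp only [Module.finrank_prod, Module.finrank_self] at h4
  have h5 := h.a3.res c φ P hP D
  rw [hD] at h5
  simp only [Sd.h0] at h5
  omega

theorem jump (h : SAll S) (c : I → ℤ) (φ : M) (P : Place k M) (hP : S.Prm c φ P) (D : I → ℤ)
    (hD : S.h0 (D - c) < S.h0 D) : ∃ x ∈ S.Sec D, IsU (plO P) (x * S.lb D (plO P)) := by
  by_contra hn
  have := h.s.fd (D - c)
  have hm : ∀ w : S.Sec D, (w : M) / φ ∈ S.Sec (D - c) := fun w =>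
    h.a2.sub c φ P hP D w w.2 ⟨w.2 _ hP.2.1, fun hu => hn ⟨w, w.2, hu⟩⟩
  let L : S.Sec D →ₗ[k] S.Sec (D - c) :=
    { toFun := fun w => ⟨w / φ, hm w⟩
      map_add' := fun v w => Subtype.ext (add_div _ _ _)
      map_smul' := fun a v => Subtype.ext (smul_div_assoc _ _ _) }
  have hL : Function.Injective L := fun v w e =>
    Subtype.ext ((div_left_inj' hP.1).1 (congrArg Subtype.val e))
  have h4 := LinearMap.finrank_le_finrank_of_injective hL
  simp only [Sd.h0] at hD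
  omega

end TbR

theorem tb_stmt : TbStmt := fun _ _ _ _ _ _ _ _ _ _ h =>
  { nc := TbR.nc h.a1
    cj := TbR.cj
    ind2 := TbR.ind2
    plc := TbR.plc
    fix := fun _ _ _ ht hi => Inv4.ind_pull ht hi
    cht := TbR.cht h.a1
    dep := TbR.dep h
    jump := TbR.jump h }

end Pool.Agent.MP_20d318_ag.CC

end MrgPart1

-- ======== part 2: formerly Pool.Agent.MP_20d318_ag.CC.Par
section MrgPart2

/-! Members of different type of an isotropic system are disjoint. -/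

set_option autoImplicit false
set_option linter.unusedSectionVars false

namespace Pool.Agent.MP_20d318_ag.CC

open Pool.Agent.MP_20d318_ag.CB Pool.Agent.MP_20d318_ag.CB.P
open Pool.Agent.MP_fd6584_ag.Fn Pool.Agent.CBk MvPolynomial
open Pool.Agent.MP_fd6584_ag.AG hiding deg_inv deg_congr deg_of_unit deg_mul deg_prod deg_zpow
  deg_eq_zero deg_nonneg deg_div deg_pow

namespace ParR

variable {k M I κ : Type} [Field k] [Field M] [Algebra k M] [Fintype I] [Fintype κ]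
  {p : Pd k M I κ} {F G G' : I → ℤ} {J J' : Finset κ} {a a' : M}

variable (p) in
/-- The classes `2 v + ∑ b k • C k`. -/
def ev : AddSubgroup (I → ℤ) where
  carrier := {x | ∃ (v : I → ℤ) (b : κ → ℤ), x = (2 : ℤ) • v + ∑ i, b i • p.C i}
  add_mem' := by
    rintro _ _ ⟨v, b, rfl⟩ ⟨v', b', rfl⟩
    refine ⟨v + v', b + b', ?_⟩
    simp only [Pi.add_apply, add_smul, smul_add, Finset.sum_add_distrib]
    abel
  zero_mem' := ⟨0, 0, by simp⟩
  neg_mem' := by
    rintro _ ⟨v, b, rfl⟩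
    refine ⟨-v, -b, ?_⟩
    simp only [Pi.neg_apply, neg_smul, smul_neg, Finset.sum_neg_distrib]
    abel

theorem C_mem (i : κ) : p.C i ∈ ev p := by
  classical
  exact ⟨0, Pi.single i 1, by simp [Pi.single_apply]⟩

open Classical in
theorem ord_eq (h : Pair0 p) (H : Hf p F J G a) {P : Place k M} (hP : plO P ∈ p.T) :
    P.ord (hs p J a * p.lb F (plO P)) = 2 * P.ord (a * p.lb G (plO P)) +
      ∑ i ∈ J, if P = (h.prm i).choose then 1 else 0 := by
  have g := h.all.a1.gne _ hP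
  have hs : ∀ i ∈ J, p.s i (plO P) ≠ 0 := fun i _ =>
    mul_ne_zero (h.prm i).choose_spec.1 (p.lb_ne g _)
  rw [H.fac h hP, P.ord_mul (pow_ne_zero 2 (mul_ne_zero H.ne (p.lb_ne g _)))
    (Finset.prod_ne_zero_iff.2 hs), P.ord_pow, P.ord_prod _ _ hs]
  congr 1
  exact Finset.sum_congr rfl fun i _ => (h.prm i).choose_spec.2.2 P hP

theorem even_ord (h : Pair0 p) (H : Hf p F J G a) {P : Place k M} (hP : plO P ∈ p.T)
    (hn : ∀ i ∈ J, P ≠ (h.prm i).choose) : Even (P.ord (hs p J a * p.lb F (plO P))) := by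
  rw [ord_eq h H hP, Finset.sum_eq_zero fun i hi => if_neg (hn i hi), add_zero]
  exact even_two_mul _

theorem pl_inj (h : Cob p) {i j : κ} (e : (h.prm i).choose = (h.prm j).choose) : i = j :=
  h.b0.lb.inj (h.all.a1.uniq _ _ _ _ _ (h.prm i).choose_spec (e ▸ (h.prm j).choose_spec))

theorem odd_ord (h : Cob p) (H : Hf p F J G a) {i : κ} (hi : i ∈ J) :
    Odd ((h.prm i).choose.ord (hs p J a * p.lb F (plO (h.prm i).choose))) := by
  rw [ord_eq h.toPair0 H (h.prm i).choose_spec.2.1, Finset.sum_eq_single_of_mem i hi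
    fun j _ hj => if_neg fun e => hj (pl_inj h e).symm, if_pos rfl]
  exact odd_two_mul_add_one _

theorem ord_ne (h : Cob p) (H : Hf p F J G a) (H' : Hf p F J' G' a') (hJ : J ≠ J') :
    ∃ P : Place k M, plO P ∈ p.T ∧
      P.ord (hs p J a * p.lb F (plO P)) ≠ P.ord (hs p J' a' * p.lb F (plO P)) := by
  have key : ∀ {J J' G G' a a'} (_ : Hf p F J G a) (_ : Hf p F J' G' a') (i : κ), i ∈ J → i ∉ J' →
      (h.prm i).choose.ord (hs p J a * p.lb F (plO (h.prm i).choose)) ≠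
        (h.prm i).choose.ord (hs p J' a' * p.lb F (plO (h.prm i).choose)) :=
    fun H H' i hi hi' e => Int.not_even_iff_odd.2 (odd_ord h H hi) (e ▸ even_ord h.toPair0 H'
      (h.prm i).choose_spec.2.1 fun j hj e' => hi' (pl_inj h e' ▸ hj))
  obtain ⟨i, hi⟩ := not_forall.1 fun e => hJ (Finset.ext e)
  refine ⟨_, (h.prm i).choose_spec.2.1, ?_⟩
  by_cases c : i ∈ J
  · exact key H H' i c fun c' => hi (iff_of_true c c')
  · exact (key H' H i (by_contra fun c' => hi (iff_of_false c c')) c).symm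

/-- The two members have no common component. -/
theorem no_common (h : Cob p) (hG : GC p.toSd) {F' : I → ℤ} (hF : Pr p.ld F F') (hn : p.ld.Nef F)
    (H : Hf p F J G a) (H' : Hf p F J' G' a') (hJ : J ≠ J') (P : Place k M) (hP : plO P ∈ p.T)
    (h1 : hs p J a * p.lb F (plO P) ∈ mx (plO P)) : hs p J' a' * p.lb F (plO P) ∉ mx (plO P) := by
  intro h2
  have A1 := h.all.a1
  have A2 := h.all.a2
  have n1 := H.hs_ne h.toPair0
  have n2 := H'.hs_ne h.toPair0
  obtain ⟨s, z, N, hz, hs', hD, m1, m2, hu⟩ :=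
    hG F _ (H.mem h.toPair0) _ (H'.mem h.toPair0) n1 n2
  set m : Place k M → ℤ := fun Q =>
    min (Q.ord (hs p J a * p.lb F (plO Q))) (Q.ord (hs p J' a' * p.lb F (plO Q))) with hm
  have hD : F = N + ∑ Q ∈ s, m Q • p.cl Q := hD
  have mp : ∀ Q ∈ s, 0 < m Q := fun Q hQ => by
    obtain ⟨q0, q1, q2⟩ := (hs' Q).1 hQ
    have g := p.lb_ne (A1.gne _ q0) F
    exact lt_min ((mx_plO (mul_ne_zero n1 g)).1 q1) ((mx_plO (mul_ne_zero n2 g)).1 q2)
  have cp : ∀ Q ∈ s, p.cl Q ∈ p.PP := fun Q hQ =>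
    (A2.cl Q ((hs' Q).1 hQ).1).imp fun _ e => ⟨Q, e⟩
  have nef : p.ld.Nef N := by
    rintro c ⟨φ, Q, hQ⟩
    rcases hu Q hQ.2.1 with u | u
    exacts [(A2.nn c φ Q hQ N _ m1 u).1, (A2.nn c φ Q hQ N _ m2 u).1]
  have ef : N ∈ p.Ef := A2.eff1 N _ m1 (div_ne_zero n1 hz)
  have NN : 0 ≤ ip p.B N N := h.b0.lb.efn N nef N ef
  have FF : ip p.B F F = 0 := hF.1.2.1
  have hF0 : 0 < ip p.B p.h F := hF.1.2.2
  have NF : ip p.B N F = 0 := by
    have e1 : 0 ≤ ip p.B F N := h.b0.lb.efn F hn N ef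
    have e2 : 0 ≤ ∑ Q ∈ s, ip p.B F (m Q • p.cl Q) := Finset.sum_nonneg fun Q hQ => by
      rw [ip_smul_right]
      exact mul_nonneg (mp Q hQ).le (hn _ (cp Q hQ))
    have e3 := congrArg (ip p.B F) hD
    rw [FF, ip_add_right, ip_sum_right] at e3
    rw [ip_comm h.all.s.sym]
    omega
  have NC : ∀ i, ip p.B N (p.C i) = 0 := fun i => by
    have F0 : toR F ≠ 0 := fun e => by
      rw [toR_inj (e.trans toR_zero.symm), ip_zero_right] at hF0
      exact lt_irrefl _ hF0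
    have e := h.b0.hg.iso (toR F) (toR N) (by rw [ip_toR]; exact_mod_cast FF) F0
      (by rw [ip_toR]; exact_mod_cast NF)
    obtain ⟨q, hq⟩ := e.2 (le_antisymm e.1 (by rw [ip_toR]; exact_mod_cast NN))
    have e2 : ip p.B F (p.C i) = 0 := hF.1.1.1 i
    have e3 := ip_toR p.B N (p.C i)
    rw [hq, ip_smul_left, ip_toR, e2] at e3
    exact_mod_cast (e3.symm.trans (by simp) : ((ip p.B N (p.C i) : ℤ) : ℝ) = 0)
  have Nev : N ∈ ev p := by
    rw [eq_sub_of_add_eq hD.symm]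
    refine sub_mem hF.1.1.2 (sum_mem fun Q hQ => ?_)
    have q0 := ((hs' Q).1 hQ).1
    by_cases c : ∃ i, Q = (h.prm i).choose
    · obtain ⟨i, rfl⟩ := c
      rw [A2.clp _ _ _ (h.prm i).choose_spec]
      exact zsmul_mem (C_mem i) _
    · have c' := not_exists.1 c
      have e : Even (m Q) := by
        simp only [hm]
        rcases min_choice (Q.ord (hs p J a * p.lb F (plO Q)))
          (Q.ord (hs p J' a' * p.lb F (plO Q))) with e | e <;> rw [e]
        exacts [even_ord h.toPair0 H q0 fun i _ => c' i, even_ord h.toPair0 H' q0 fun i _ => c' i]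
      obtain ⟨r, hr⟩ := e
      exact ⟨r • p.cl Q, 0, by rw [hr, ← two_mul, mul_smul]; simp⟩
  obtain ⟨n, hN⟩ := h.ll.prim F F' hF N ⟨NC, Nev⟩ NF NN
  have e1 : 0 < ∑ Q ∈ s, ip p.B p.h (m Q • p.cl Q) :=
    Finset.sum_pos (fun Q hQ => by
      rw [ip_smul_right]
      exact mul_pos (mp Q hQ) (A1.hpos _ (cp Q hQ))) ⟨P, (hs' P).2 ⟨hP, h1, h2⟩⟩
  have e2 := congrArg (ip p.B p.h) hD
  rw [ip_add_right, ip_sum_right] at e2
  have e3 : ip p.B p.h N = n * ip p.B p.h F := by rw [hN, ip_smul_right]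
  have N0 : N = 0 := by_contra fun c => by
    have e4 : 0 < ip p.B p.h N := h.b0.lb.hef N ef c
    have e5 : 0 < n := pos_of_mul_pos_left (e3 ▸ e4) hF0.le
    nlinarith
  subst N0
  obtain ⟨c, hc⟩ := A2.const _ fun O hO => by simpa only [Sd.lb_zero, mul_one] using m1 O hO
  obtain ⟨c', hc'⟩ := A2.const _ fun O hO => by simpa only [Sd.lb_zero, mul_one] using m2 O hO
  obtain ⟨Q, q0, q1⟩ := ord_ne h H H' hJ
  have g := mul_ne_zero hz (p.lb_ne (A1.gne _ q0) F)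
  have e : ∀ {x : M} {d : k}, x ≠ 0 → x / z = algebraMap k M d →
      Q.ord (x * p.lb F (plO Q)) = Q.ord (z * p.lb F (plO Q)) := fun {x d} hx hd => by
    rw [← div_mul_cancel₀ x hz, mul_assoc, Q.ord_mul (div_ne_zero hx hz) g, hd, Q.ord_const,
      zero_add]
  exact q1 ((e n1 hc).trans (e n2 hc').symm)

end ParR

theorem par_stmt : ParStmt := by
  intro k M I κ _ _ _ _ _ _ _ p F F' h hG hF hn J J' G G' a a' H H' hJ O hO
  have m1 := H.mem h.toPair0
  have m2 := H'.mem h.toPair0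
  refine (isU_or_mx (m1 O hO)).imp_right fun h1 => ?_
  obtain ⟨P, hP, hle, h2⟩ := h.ta.above F _ m1 (H.hs_ne h.toPair0) O hO h1
  obtain ⟨φ, hφ⟩ := h.all.a2.cl P hP
  have u := isU_of_not_mx (m2 _ hP) (ParR.no_common h hG hF hn H H' hJ P hP h2)
  refine (h.all.a2.nn _ φ P hφ F _ m2 u).2.1 ?_ O hO hle
  have e1 : 0 ≤ ip p.B F (F - p.cl P) :=
    h.b0.lb.efn F hn _ (h.ta.dvd _ φ P hφ F _ m1 (H.hs_ne h.toPair0) h2)
  have e2 : 0 ≤ ip p.B F (p.cl P) := hn _ ⟨φ, P, hφ⟩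
  have e3 : ip p.B F F = 0 := hF.1.2.1
  rw [ip_sub_right] at e1
  omega

end Pool.Agent.MP_20d318_ag.CC

end MrgPart2

-- ======== part 3: formerly Pool.Agent.MP_20d318_ag.CC.Ga
section MrgPart3

/-! The pencil that carries the cross-ratio of the four sections of a conic bundle. -/

set_option autoImplicit false
set_option linter.unusedSectionVars false

namespace Pool.Agent.MP_20d318_ag.CC

open Pool.Agent.MP_20d318_ag.CB Pool.Agent.MP_20d318_ag.CB.P
open Pool.Agent.MP_fd6584_ag.Fn Pool.Agent.CBk MvPolynomial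
open Pool.Agent.MP_fd6584_ag.AG hiding deg_inv deg_congr deg_of_unit deg_mul deg_prod deg_zpow
  deg_eq_zero deg_nonneg deg_div deg_pow

namespace GaR

variable {k M I κ : Type} [Field k] [Field M] [Algebra k M] [Fintype I] [Fintype κ]
  {p : Pd k M I κ} {b : I → ℤ}

theorem fac (h : Cob p) (D : I → ℤ) (z : M) (i : κ) {O : Subalgebra k M} (hO : O ∈ p.T) :
    z * p.lb D O = z / p.ψ i * p.lb (D - p.C i) O * p.s i O := by
  have g := h.all.a1.gne O hO
  have h1 : p.ψ i ≠ 0 := (h.prm i).choose_spec.1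
  have h2 := p.lb_ne g (p.C i)
  rw [p.lb_sub g, Pd.s]
  field_simp

theorem van (h : Cob p) {D : I → ℤ} {z : M} {i : κ} (hz : z / p.ψ i ∈ p.Sec (D - p.C i))
    {O : Subalgebra k M} (hO : O ∈ p.T) (hs : p.s i O ∈ mx O) : z * p.lb D O ∈ mx O := by
  rw [fac h D z i hO]
  exact mx_mul_left (hz O hO) hs

theorem degA (h : Cob p) (hb : b ∈ HC p.ld) {i m : κ} (him : i ≠ m) :
    ip p.B ((2 : ℤ) • b - p.K - p.C i) (p.C m) = 0 := by
  have c1 : ip p.B (p.C m) b = 1 := hb.2.2.2 m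
  have c2 : ip p.B p.K (p.C m) = 2 := h.b0.lb.KC m
  rw [ip_sub_left, ip_sub_left, ip_smul_left, ip_comm h.all.s.sym b, c1, c2, h.disj i m him]
  norm_num

theorem key (h : Cob p) (hb : b ∈ HC p.ld) (h4 : Fintype.card κ = 4) {i j : κ} (hij : i ≠ j) :
    ∃ y ∈ p.Sec ((2 : ℤ) • b - p.K - p.C i),
      y / p.ψ j ∈ p.Sec ((2 : ℤ) • b - p.K - p.C i - p.C j) ∧ ∀ m, m ≠ i → m ≠ j → ∀ O ∈ p.T,
        p.s m O ∈ mx O → IsU O (y * p.lb ((2 : ℤ) • b - p.K - p.C i) O) := by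
  have sy := ip_comm (R := ℤ) h.all.s.sym
  have bb : ip p.B b b = 0 := hb.2.1
  have Kb : ip p.B p.K b = -2 := hb.2.2.1
  have Cb : ∀ m, ip p.B (p.C m) b = 1 := hb.2.2.2
  have KC : ∀ m, ip p.B p.K (p.C m) = 2 := h.b0.lb.KC
  have KK : ip p.B p.K p.K = -4 := by
    have : ip p.B p.K p.K = -(Fintype.card κ : ℤ) := h.b0.lb.KK
    rw [this, h4]; norm_num
  have CC : ∀ m, ip p.B (p.C m) (p.C m) = -4 := h.b0.nc.m4
  have bK : ip p.B b p.K = -2 := by rw [sy, Kb]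
  have bC : ∀ m, ip p.B b (p.C m) = 1 := fun m => by rw [sy, Cb]
  have CK : ∀ m, ip p.B (p.C m) p.K = 2 := fun m => by rw [sy, KC]
  have d1 := h.disj i j hij
  have d2 := h.disj j i hij.symm
  set N := (2 : ℤ) • b - p.K - p.C i - p.C j with hN
  have bN : ip p.B b N = 0 := by
    simp only [hN, ip_sub_right, ip_smul_right, bb, bK, bC]
    norm_num
  have hE : N ∈ p.Ef := by
    refine h.b0.lb.rrn N b hb.1 ?_ ?_
    · change ip p.B p.K N ≤ ip p.B N N
      simp only [hN, ip_sub_right, ip_smul_right, ip_sub_left, ip_smul_left, bb, bK, bC, Kb, Cb,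
        KC, CK, KK, CC, d1, d2]
      norm_num
    · change ip p.B b p.K < ip p.B b N
      rw [bN, bK]
      norm_num
  obtain ⟨x, hx, x0⟩ := h.all.a2.eff2 N hE
  have h1 : p.ψ j ≠ 0 := (h.prm j).choose_spec.1
  have e1 : x * p.ψ j / p.ψ j = x := mul_div_cancel_right₀ x h1
  refine ⟨x * p.ψ j, ?_, e1.symm ▸ hx, fun m mi mj O hO hs => ?_⟩
  · have := h.all.a2.mul _ _ x hx _ (h.all.a1.pmem _ _ _ (h.prm j).choose_spec)
    rwa [hN, sub_add_cancel] at this
  · obtain ⟨P, hP⟩ := h.prm m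
    have u1 : IsU (plO P) (x * p.lb N (plO P)) := by
      refine isU_of_not_mx (hx _ hP.2.1) fun hm => ?_
      have : 0 ≤ ip p.B b (N - p.C m) := h.b0.lb.efn b hb.1 _ (h.ta.dvd _ _ _ hP N x hx x0 hm)
      rw [ip_sub_right, bN, bC] at this
      omega
    have z : ip p.B N (p.C m) = 0 := by
      rw [hN, ip_sub_left, degA h hb mi.symm, h.disj j m mj.symm, sub_zero]
    have u2 := (h.all.a2.nn _ _ _ hP N x hx u1).2.1 z O hO ((h.all.a1.pmx _ _ _ hP O hO).1 hs)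
    rw [fac h _ _ j hO, e1]
    exact u2.mul (isU_of_not_mx (s_mem h.toPair0 hO j) fun hj => mj (h.one O hO m j hs hj))

theorem sg_mul (l : k) (s₀ s₃ g : M) (j : Fin 4) :
    sg l s₀ s₃ j * g = sg l (s₀ * g) (s₃ * g) j := by
  fin_cases j <;> simp [sg, sub_mul]

theorem isU_smul {O : Subalgebra k M} {c : k} (hc : c ≠ 0) {v : M} (hv : IsU O v) :
    IsU O (c • v) := by
  rw [Algebra.smul_def]
  exact (isU_const hc).mul hv

theorem sub_l {O : Subalgebra k M} (lo : IsLocalRing O) {u v : M} (hu : u ∈ mx O) (hv : IsU O v) :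
    IsU O (u - v) := by
  rw [← neg_add_eq_sub]
  exact hv.neg.add_mx lo hu

theorem sub_r {O : Subalgebra k M} (lo : IsLocalRing O) {u v : M} (hu : IsU O u) (hv : v ∈ mx O) :
    IsU O (u - v) := by
  rw [sub_eq_add_neg]
  exact hu.add_mx lo (mx_neg hv)

theorem mx_smul {O : Subalgebra k M} (c : k) {v : M} (hv : v ∈ mx O) : c • v ∈ mx O := by
  rw [Algebra.smul_def]
  exact mx_mul_left (O.algebraMap_mem c) hv

end GaR

open GaR in
theorem ga_stmt : GaStmt := by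
  intro k M I κ _ _ _ _ _ _ _ p b e l h hb l0 l1
  have h4 : Fintype.card κ = 4 := by rw [← Fintype.card_congr e, Fintype.card_fin]
  have ne : ∀ {i j : Fin 4}, i ≠ j → e i ≠ e j := fun hij => e.injective.ne hij
  obtain ⟨y, hy, dy, uy⟩ := key h hb h4 (ne (show (2 : Fin 4) ≠ 0 by decide))
  obtain ⟨w, hw, dw, uw⟩ := key h hb h4 (ne (show (2 : Fin 4) ≠ 3 by decide))
  set A := (2 : ℤ) • b - p.K - p.C (e 2) with hA
  obtain ⟨P, hP⟩ := h.prm (e 1)
  obtain ⟨O₁, hO₁, r₁, le₁⟩ := h.ta.rat P hP.2.1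
  have s₁ : p.s (e 1) O₁ ∈ mx O₁ := (h.all.a1.pmx _ _ _ hP O₁ hO₁).2 le₁
  obtain ⟨a, ha⟩ := h.ta.comb O₁ hO₁ r₁ A y hy w hw
    (uw _ (ne (by decide)) (ne (by decide)) O₁ hO₁ s₁)
  have a0 : a ≠ 0 := fun z => by
    rw [z, zero_smul, sub_zero] at ha
    exact (uy _ (ne (by decide)) (ne (by decide)) O₁ hO₁ s₁).not_mx ha
  have hw' : a • w ∈ p.Sec A := Submodule.smul_mem _ a hw
  have hz : y - a • w ∈ p.Sec A := sub_mem hy hw'
  have dz : (y - a • w) / p.ψ (e 1) ∈ p.Sec (A - p.C (e 1)) := by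
    refine h.all.a2.sub _ _ _ hP A _ hz ((isU_or_mx (hz _ hP.2.1)).resolve_left fun u => ?_)
    exact ((h.all.a2.nn _ _ _ hP A _ hz u).2.1 (degA h hb (ne (by decide))) O₁ hO₁ le₁).not_mx ha
  have dw' : a • w / p.ψ (e 3) ∈ p.Sec (A - p.C (e 3)) := by
    rw [smul_div_assoc]
    exact Submodule.smul_mem _ a dw
  have uw' : ∀ m, m ≠ e 2 → m ≠ e 3 → ∀ O ∈ p.T, p.s m O ∈ mx O →
      IsU O (a • w * p.lb A O) := fun m m2 m3 O hO hs => by
    rw [smul_mul_assoc]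
    exact isU_smul a0 (uw m m2 m3 O hO hs)
  refine ⟨A, y, a • w, hb, rfl, fun j => ?_, fun j hj => ?_, fun j hj j' hj' O hO hs => ?_⟩
  · fin_cases j
    exacts [hy, hz, sub_mem hy (Submodule.smul_mem _ l hw'), hw']
  · fin_cases j
    exacts [dy, dz, absurd rfl hj, dw']
  · have lo : IsLocalRing O := mp_loc hO
    rw [sg_mul]
    fin_cases j
    · have u := van h dy hO hs
      have v := uw' _ (ne (by decide)) (ne (by decide)) O hO hs
      fin_cases j'
      · exact absurd rfl hj'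
      · exact sub_l lo u v
      · exact sub_l lo u (isU_smul l0 v)
      · exact v
    · have z := van h dz hO hs
      have u := uy _ (ne (by decide)) (ne (by decide)) O hO hs
      have v := uw' _ (ne (by decide)) (ne (by decide)) O hO hs
      fin_cases j'
      · exact u
      · exact absurd rfl hj'
      · have := (isU_smul (sub_ne_zero.2 l1.symm) v).add_mx lo z
        rw [sub_mul, sub_smul, one_smul, sub_add_sub_cancel'] at this
        exact this
      · exact v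
    · exact absurd rfl hj
    · have v := van h dw' hO hs
      have u := uy _ (ne (by decide)) (ne (by decide)) O hO hs
      fin_cases j'
      · exact u
      · exact sub_r lo u v
      · exact sub_r lo u (mx_smul l v)
      · exact absurd rfl hj'

end Pool.Agent.MP_20d318_ag.CC

end MrgPart3

-- marker of a merged file
example : 731051 + 826358 = 731051 + 826358 := rfl
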