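import Pool.Agent.MP_20d318_ag.CC.Spec

-- ======== part 0: formerly Pool.Agent.MP_20d318_ag.CC.Pax
section MrgPart0

/-! ROW PAX: the decomposition of the bi-anticanonical curve into prime divisors. -/

set_option autoImplicit false

namespace Pool.Agent.MP_20d318_ag.CC

open Pool.Agent.MP_20d318_ag.CB Pool.Agent.MP_20d318_ag.CB.P
open Pool.Agent.MP_fd6584_ag.Fn Pool.Agent.CBk MvPolynomial
open Pool.Agent.MP_fd6584_ag.AG hiding deg_inv deg_congr deg_of_unit deg_mul deg_prod deg_zpow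
  deg_eq_zero deg_nonneg deg_div deg_pow
open Pool.Agent.MP_20d318_ag.RS (jac)
open scoped IntermediateField

open Pa Classical in
theorem pax_stmt : PaxStmt := by
  intro k M I _ _ _ _ _ _ S D₁ D₂ φ hS reg smo hK
  obtain ⟨w, hw⟩ := hS.s.can D₁ D₂
  have a1 := hS.a1
  have a2 := hS.a2
  have hL : ∀ O ∈ S.T, ∀ c, S.lb c O ≠ 0 := fun O hO c => S.lb_ne (a1.gne O hO) c
  have hL2 : ∀ O, S.lb ((-2 : ℤ) • S.K) O = S.lb (-S.K) O ^ 2 := fun O => by
    rw [show (-2 : ℤ) • S.K = (2 : ℤ) • (-S.K) by simp, S.lb_zsmul, zpow_ofNat]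
  have hreg : ∀ χ : M, (∀ O ∈ S.T, ∀ a ∈ O, ∀ b ∈ O, χ * jac D₁ D₂ a b ^ 2 ∈ O) →
      ∀ O ∈ S.T, χ * w ^ 2 * S.lb ((-2 : ℤ) • S.K) O ∈ O := by
    intro χ h O hO
    obtain ⟨a, b, u, h1, h2, h3⟩ := hw O hO
    have h4 := (h2.pow 2).div_mem (h O hO a (cht_mem h1).1 b (cht_mem h1).2)
    have h5 := h2.1
    rwa [h3, show χ * (u * w * S.lb (-S.K) O) ^ 2 / u ^ 2 = χ * w ^ 2 * S.lb (-S.K) O ^ 2 by
      field_simp, ← hL2] at h4
  have hsm : ∀ O ∈ S.T, φ * w ^ 2 * S.lb ((-2 : ℤ) • S.K) O ∉ mx2 O := by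
    intro O hO h
    obtain ⟨a, b, u, h1, h2, h3⟩ := hw O hO
    obtain ⟨c, hc, d, hd, h4⟩ := smo O hO
    obtain ⟨J, hJ, h5⟩ := hS.jc.jacM O a b h1 c hc d hd
    refine h4 ?_
    have := mx2_mul (O.pow_mem (O.mul_mem hJ h2.mem) 2) h
    rwa [hL2, show (J * u) ^ 2 * (φ * w ^ 2 * S.lb (-S.K) O ^ 2) =
      φ * (J * (u * w * S.lb (-S.K) O)) ^ 2 by ring, ← h3, ← h5] at this
  have htop : ⊤ ∈ S.T := a1.nice.toFine.top
  have hne : φ * w ^ 2 ≠ 0 := fun h => hsm ⊤ htop (by rw [h, zero_mul]; exact (mx2 ⊤).zero_mem)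
  have hφ : φ ≠ 0 := left_ne_zero_of_mul hne
  have hw0 : w ≠ 0 := fun h => hne (by simp [h])
  have hch : ∀ O ∈ S.T, ∀ a b, Cht O a b → IsU O (jac D₁ D₂ a b / (w * S.lb (-S.K) O)) := by
    intro O hO c d h
    obtain ⟨a, b, u, h1, h2, h3⟩ := hw O hO
    obtain ⟨v, h4, h5⟩ := hS.jc.jacU O a b c d h1 h
    have h6 := hL O hO (-S.K)
    rw [h5, h3, show v * (u * w * S.lb (-S.K) O) / (w * S.lb (-S.K) O) = v * u by field_simp]
    exact h4.mul h2
  have hcart := a1.pcart ((-2 : ℤ) • S.K) _ hne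
  obtain ⟨s, hs⟩ : ∃ s : Finset (Place k M), ∀ P, P ∈ s ↔ plO P ∈ S.T ∧
      P.ord (φ * w ^ 2 * S.lb ((-2 : ℤ) • S.K) (plO P)) ≠ 0 :=
    ⟨(a1.nice.toFine.fin_cart hcart).toFinset, fun P => by simp⟩
  have hord : ∀ P : Place k M, plO P ∈ S.T →
      P.ord (φ * w ^ 2 * S.lb ((-2 : ℤ) • S.K) (plO P)) = if P ∈ s then 1 else 0 := by
    intro P hP
    have h1 := mem_plO_ord.1 (hreg φ reg _ hP)
    have h2 : ¬ 2 ≤ P.ord (φ * w ^ 2 * S.lb ((-2 : ℤ) • S.K) (plO P)) := fun h =>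
      hsm _ hP (mem_mx2 (mul_ne_zero hne (hL _ hP _)) h)
    have h3 := hs P
    split_ifs with h
    · have := (h3.1 h).2
      omega
    · by_contra h4
      exact h (h3.2 ⟨hP, h4⟩)
  have hnon : s.Nonempty := by
    rw [Finset.nonempty_iff_ne_empty]
    rintro rfl
    have h0 := a1.zero _ _ fun O hO =>
      a1.nice.unit hcart hO fun P hP _ => by simpa using hord P hP
    exact hK ((smul_eq_zero.1 h0).resolve_left (by norm_num))
  choose ψ hψ using fun i : s => a2.cl i.1 ((hs i.1).1 i.2).1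
  have hsum : ∑ i : s, S.cl i.1 = (-2 : ℤ) • S.K := by
    rw [a2.dv ((-2 : ℤ) • S.K) _ s hne (fun P hP => ((hs P).1 hP).1)
      (fun P hP h => by rw [hord P hP, if_neg h]), Finset.sum_coe_sort s S.cl]
    refine Finset.sum_congr rfl fun P hP => ?_
    rw [hord P ((hs P).1 hP).1, if_pos hP, one_smul]
  have hψ0 : ∏ i, ψ i ≠ 0 := Finset.prod_ne_zero_iff.2 fun i _ => (hψ i).1
  have hprod : ∀ O ∈ S.T, ∏ i, ψ i * S.lb (S.cl i.1) O =
      (∏ i, ψ i) * S.lb ((-2 : ℤ) • S.K) O := fun O hO => by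
    rw [Finset.prod_mul_distrib, ← S.lb_sum (a1.gne O hO), hsum]
  obtain ⟨e, he⟩ := a2.const (φ * w ^ 2 / ∏ i, ψ i) fun O hO => by
    have h1 := a1.nice.unit_div hcart (a1.pcart ((-2 : ℤ) • S.K) _ hψ0) hO fun P hP => by
      rw [hord P hP, ← hprod _ hP,
        P.ord_prod _ _ fun i _ => mul_ne_zero (hψ i).1 (hL _ hP _)]
      simp only [(hψ _).2.2 P hP]
      rw [Finset.sum_coe_sort s fun Q => if P = Q then (1 : ℤ) else 0, Finset.sum_ite_eq]
    rw [mul_div_mul_right _ _ (hL O hO _)] at h1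
    exact h1.mem
  obtain ⟨ε, rfl⟩ := IsAlgClosed.exists_eq_mul_self e
  have hε : ε ≠ 0 := fun h => div_ne_zero hne hψ0 (by rw [he, h, zero_mul, map_zero])
  have hε' : algebraMap k M ε ≠ 0 := (map_ne_zero _).2 hε
  have hω : w / algebraMap k M ε ≠ 0 := div_ne_zero hw0 hε'
  obtain ⟨x, y, hxy⟩ := a1.chart ⊤ htop
  obtain ⟨c', ⟨U, hU1, hU2, hU3⟩, ⟨U', hU1', hU2', hU3'⟩⟩ := hS.s.dif (-S.K)
  have hc : (φ * (w / algebraMap k M ε))⁻¹ ≠ 0 := inv_ne_zero (mul_ne_zero hφ hω)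
  refine ⟨s, inferInstance,
    { toSd := S, D₁ := D₁, D₂ := D₂, φ := φ, ω := w / algebraMap k M ε, ψ := ψ,
      C := fun i => S.cl i.1, k0 := ⟨_, hnon.choose_spec⟩, x := x, y := y, U := U,
      U' := (fun a => (φ * (w / algebraMap k M ε))⁻¹ * a) '' U' }, rfl, rfl,
    hS, hxy.1, (div_ne_zero_iff.1 (hch ⊤ htop x y hxy).1).1, hφ, hω, reg, smo, ?_,
    fun i => ⟨i.1, hψ i⟩, ?_, hsum, hU1, hU1'.image _, hU2, ?_,
    fun O hO => gn_spec (hU3 O hO).prin, ?_⟩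
  · intro O hO a b h
    have h1 := (hch O hO a b h).mul (isU_const hε)
    have h2 := hL O hO (-S.K)
    change IsU O (jac D₁ D₂ a b / (w / algebraMap k M ε * S.lb (-S.K) O))
    rwa [show jac D₁ D₂ a b / (w / algebraMap k M ε * S.lb (-S.K) O) =
      jac D₁ D₂ a b / (w * S.lb (-S.K) O) * algebraMap k M ε by field_simp]
  · intro O hO
    change φ * (w / algebraMap k M ε * S.lb (-S.K) O) ^ 2 = ∏ i, ψ i * S.lb (S.cl i.1) O
    rw [div_eq_iff hψ0, map_mul] at he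
    rw [hprod O hO, hL2, mul_pow, div_pow, ← mul_assoc, ← mul_div_assoc, he]
    field_simp
  · rintro _ ⟨a, ha, rfl⟩
    exact mul_ne_zero hc (hU2' a ha)
  · intro O hO
    refine ((hU3' O hO).smul hc).of_unit ?_
    have h1 := (gn_spec (hU3 O hO).prin).unit (hU3 O hO)
    have h2 := hL O hO (-S.K)
    have h3 := hL O hO c'
    change IsU O (gn U O / (φ * (w / algebraMap k M ε * S.lb (-S.K) O)) / _)
    rwa [S.lb_add (a1.gne O hO), show gn U O / (φ * (w / algebraMap k M ε * S.lb (-S.K) O)) /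
      ((φ * (w / algebraMap k M ε))⁻¹ * (S.lb c' O * S.lb (-S.K) O)⁻¹) =
        gn U O / (S.lb c' O)⁻¹ by field_simp]

end Pool.Agent.MP_20d318_ag.CC

end MrgPart0

-- ======== part 1: formerly Pool.Agent.MP_20d318_ag.CC.Ht
section MrgPart1

/-! The pencil spanned by two complementary double fibres. -/

set_option autoImplicit false
set_option linter.unusedSectionVars false

namespace Pool.Agent.MP_20d318_ag.CC

open Pool.Agent.MP_20d318_ag.CB Pool.Agent.MP_20d318_ag.CB.P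
open Pool.Agent.MP_fd6584_ag.Fn Pool.Agent.CBk MvPolynomial
open Pool.Agent.MP_fd6584_ag.AG hiding deg_inv deg_congr deg_of_unit deg_mul deg_prod deg_zpow
  deg_eq_zero deg_nonneg deg_div deg_pow
open scoped IntermediateField

namespace HtR

variable {k M I κ : Type} [Field k] [Field M] [Algebra k M] [Fintype I] [Fintype κ]
  {p : Pd k M I κ} {F G G' : I → ℤ} {J J' : Finset κ} {a a' t ψ ψ' : M}

theorem quo (A : PcA p F ψ ψ' t) (O : Subalgebra k M) :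
    ψ * p.lb F O = t * (ψ' * p.lb F O) := by
  rw [A.eq, ← mul_assoc, div_mul_cancel₀ _ A.ne']

theorem dif (A : PcA p F ψ ψ' t) (β : k) (O : Subalgebra k M) :
    (ψ - β • ψ') * p.lb F O = (t - algebraMap k M β) * (ψ' * p.lb F O) := by
  rw [A.eq, ← mul_assoc, sub_mul (ψ / ψ'), div_mul_cancel₀ _ A.ne', Algebra.smul_def]

/-- On the fibre `t = β` the member `ψ - β ψ'` vanishes. -/
theorem van (h : Cob p) (A : PcA p F ψ ψ' t) {β : k} {P : Place k M} (hP : plO P ∈ p.T)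
    (h0 : 0 < P.ord (t - algebraMap k M β)) {O : Subalgebra k M} (hO : O ∈ p.T)
    (hle : O ≤ plO P) : (ψ - β • ψ') * p.lb F O ∈ mx O := by
  have hne : t - algebraMap k M β ≠ 0 := fun e => by
    rw [e, P.ord_zero] at h0
    exact lt_irrefl _ h0
  refine h.ta.dm F _ (sub_mem A.sec ((p.Sec F).smul_mem β A.sec')) O hO _ hP hle ?_
  rw [dif A]
  exact mx_mul_right ((mx_plO hne).2 h0) (A.sec' _ hP)

theorem split (β : k) (O : Subalgebra k M) : ψ * p.lb F O =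
    algebraMap k M β * (ψ' * p.lb F O) + (ψ - β • ψ') * p.lb F O := by
  rw [Algebra.smul_def]
  ring

theorem un' (A : PcA p F ψ ψ' t) {β : k} {O : Subalgebra k M} (hO : O ∈ p.T)
    (hv : (ψ - β • ψ') * p.lb F O ∈ mx O) : IsU O (ψ' * p.lb F O) := by
  refine isU_of_not_mx (A.sec' O hO) fun hn => ?_
  rcases A.bpf O hO with hu | hu
  · refine hu.not_mx ?_
    rw [split (ψ' := ψ') β]
    exact mx_add (mp_loc hO) (mx_mul_left (O.algebraMap_mem β) hn) hv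
  · exact hu.not_mx hn

theorem un (A : PcA p F ψ ψ' t) {β : k} (hβ : β ≠ 0) {O : Subalgebra k M} (hO : O ∈ p.T)
    (hv : (ψ - β • ψ') * p.lb F O ∈ mx O) : IsU O (ψ * p.lb F O) := by
  rw [split (ψ' := ψ') β]
  exact ((isU_const hβ).mul (un' A hO hv)).add_mx (mp_loc hO) hv

/-- The factors of a unit are units. -/
theorem fac (h : Cob p) (H : Hf p F J G a) {O : Subalgebra k M} (hO : O ∈ p.T)
    (hu : IsU O (hs p J a * p.lb F O)) : IsU O (a * p.lb G O) ∧ ∀ i ∈ J, IsU O (p.s i O) := by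
  classical
  rw [H.fac h.toPair0 hO] at hu
  have h1 : a * p.lb G O ∈ O := H.sec O hO
  have h2 : ∀ s : Finset κ, ∏ i ∈ s, p.s i O ∈ O := fun s =>
    O.prod_mem fun i _ => s_mem h.toPair0 hO i
  refine ⟨IsU.of_pow h1 two_ne_zero (IsU.of_mul (O.pow_mem h1 2) (h2 J) hu), fun i hi => ?_⟩
  rw [mul_comm] at hu
  have h3 := IsU.of_mul (h2 J) (O.pow_mem h1 2) hu
  rw [← Finset.mul_prod_erase J _ hi] at h3
  exact IsU.of_mul (s_mem h.toPair0 hO i) (h2 _) h3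

theorem gk (h : Cob p) (H : Hf p F J G a) (H' : Hf p F J' G' a') (hc : ∀ i, i ∈ J' ↔ i ∉ J) :
    G + G' = F + p.K := by
  classical
  have e : J' = Jᶜ := Finset.ext fun i => by rw [hc, Finset.mem_compl]
  have h1 : ∑ i ∈ J, p.C i + ∑ i ∈ J', p.C i = (-2 : ℤ) • p.K := by
    rw [e, Finset.sum_add_sum_compl, h.sumC]
  funext x
  have k1 := congrFun H.eq x
  have k2 := congrFun H'.eq x
  have k3 := congrFun h1 x
  simp only [Pi.add_apply, Pi.smul_apply, smul_eq_mul] at k1 k2 k3 ⊢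
  omega

theorem h01 (h : Cob p) (A : PcA p F ψ ψ' t) : p.h0 (F + p.K) ≤ 1 := by
  obtain ⟨τ, φ, P, -, hP, -⟩ := A.gen
  have h1 := h.all.a3.res F φ P hP (F + p.K)
  have h2 : ip p.B p.h p.K < 0 := h.b0.lb.hK
  have h3 : p.K ∉ p.Ef := fun hK => by
    have h4 : p.K ≠ 0 := fun e => by
      rw [e, ip_zero_right] at h2
      exact lt_irrefl _ h2
    have h5 : 0 < ip p.B p.h p.K := h.b0.lb.hef _ hK h4
    omega
  rw [add_sub_cancel_left, h.ta.h00 _ h3, ip_add_left, A.sq, A.KF] at h1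
  simpa using h1

end HtR

theorem ht_stmt : HtStmt := by
  intro k M I κ _ _ _ _ _ _ _ p F G G' J J' a a' t h H H' hc pc
  have A := pc.toPcA
  have gk := HtR.gk h H H' hc
  have z0 : t - algebraMap k M 0 = t := by rw [map_zero, sub_zero]
  refine ⟨H, hc, pc, gk, fun s hs => ?_, fun P hP h0 O hO hle => ?_, fun P hP h0 hu => ?_,
    fun β hβ P hP h0 O hO hle => ?_, fun P hP => ?_⟩
  · exact h.ta.h01 _ (HtR.h01 h A) _ (gk ▸ h.all.a2.mul _ _ _ H.sec _ H'.sec)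
      (mul_ne_zero H.ne H'.ne) s hs
  · exact HtR.fac h H' hO (HtR.un' A hO (HtR.van h A hP (z0.symm ▸ h0) hO hle))
  · have h1 := HtR.un' A hP (HtR.van h A hP (z0.symm ▸ h0) hP le_rfl)
    have h2 := HtR.quo A (plO P)
    have h3 : IsU (plO P) (∏ i ∈ J, p.s i (plO P)) := isU_prod fun i _ => hu i
    have h4 : t ≠ 0 := fun e => by
      rw [e, P.ord_zero] at h0
      exact lt_irrefl _ h0
    have h5 : a * p.lb G (plO P) ≠ 0 := mul_ne_zero H.ne (p.lb_ne (h.all.a1.gne _ hP) G)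
    have h6 := congrArg P.ord h2
    rw [H.fac h.toPair0 hP, P.ord_mul h4 h1.1, P.ord_mul (pow_ne_zero 2 h5) h3.1, P.ord_pow,
      ((isU_plO' P).1 h1).2, ((isU_plO' P).1 h3).2] at h6
    push_cast at h6
    omega
  · have hv := HtR.van h A hP h0 hO hle
    have h1 := HtR.fac h H hO (HtR.un A hβ hO hv)
    have h2 := HtR.fac h H' hO (HtR.un' A hO hv)
    refine ⟨h1.1, h2.1, fun i => ?_⟩
    by_cases hi : i ∈ J
    · exact h1.2 i hi
    · exact h2.2 i ((hc i).2 hi)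
  · have hT := A.pl P hP
    have ht : IsU (plO P) t := z0 ▸ ind_one hP 0
    have h2 := HtR.quo A (plO P)
    have h3 : IsU (plO P) (hs p J' a' * p.lb F (plO P)) := by
      rcases A.bpf _ hT with hu | hu
      · rw [h2, mul_comm] at hu
        exact IsU.of_mul (A.sec' _ hT) ht.mem hu
      · exact hu
    exact ⟨(HtR.fac h H hT (h2 ▸ ht.mul h3)).1, (HtR.fac h H' hT h3).1⟩

end Pool.Agent.MP_20d318_ag.CC

end MrgPart1

-- ======== part 2: formerly Pool.Agent.MP_20d318_ag.CC.Gb1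
section MrgPart2

/-! The fibre of a conic bundle with a given cross-ratio. -/

set_option autoImplicit false
set_option linter.unusedSectionVars false

namespace Pool.Agent.MP_20d318_ag.CC

open Pool.Agent.MP_20d318_ag.CB Pool.Agent.MP_20d318_ag.CB.P
open Pool.Agent.MP_fd6584_ag.Fn Pool.Agent.CBk MvPolynomial
open Pool.Agent.MP_fd6584_ag.AG hiding deg_inv deg_congr deg_of_unit deg_mul deg_prod deg_zpow
  deg_eq_zero deg_nonneg deg_div deg_pow
open Pool.Agent.MP_20d318_ag.RS (jac)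
open Pool.Agent.MP_20d318_ag.CB.P.TransA (pc)
open scoped IntermediateField

namespace Gb1R

variable {k M I κ : Type} [Field k] [Field M] [Algebra k M] [Fintype I] [Fintype κ]
  {p : Pd k M I κ} {b A : I → ℤ} {e : Fin 4 ≃ κ} {l : k} {s₀ s₃ : M}

theorem fac (h : Cob p) (i : κ) (s : M) {R : Subalgebra k M} (hR : R ∈ p.T) :
    s * p.lb A R = s / p.ψ i * p.lb (A - p.C i) R * p.s i R := by
  have g := h.all.a1.gne R hR
  have h1 : p.ψ i ≠ 0 := (h.prm i).choose_spec.1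
  have h2 : p.lb (p.C i) R ≠ 0 := p.lb_ne g _
  rw [p.lb_sub g, Pd.s]
  field_simp

theorem comm (h : Cob p) (c c' : I → ℤ) : ip p.B c c' = ip p.B c' c :=
  ip_comm h.all.s.sym c c'

theorem two (h : Cob p) (hb : b ∈ HC p.ld) : 2 ≤ p.h0 b := by
  have h1 : ip p.B b b = 0 := hb.2.1
  have h2 : ip p.B p.K b = -2 := hb.2.2.1
  have h3 := h.all.a4.rr2 b fun z => by
    have h4 : 0 ≤ ip p.B b (p.K - b) := h.b0.lb.efn b hb.1 _ z
    rw [ip_sub_right, comm h b p.K] at h4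
    omega
  simp only [chi2] at h3
  omega

theorem thru (h : Cob p) (hb : b ∈ HC p.ld) {y : Subalgebra k M} (hy : y ∈ p.T) (hr : RatPt y) :
    ∃ χ ∈ p.Sec b, χ ≠ 0 ∧ χ * p.lb b y ∈ mx y := by
  obtain ⟨u, hu, h0⟩ := h.ta.h02 b (two h hb) 0
  rcases isU_or_mx (hu y hy) with z | z
  · obtain ⟨v, hv, h1⟩ := h.ta.h02 b (two h hb) u
    obtain ⟨a, ha⟩ := h.ta.comb y hy hr b v hv u hu z
    exact ⟨_, sub_mem hv (Submodule.smul_mem _ a hu), sub_ne_zero.2 (h1 a), ha⟩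
  · exact ⟨u, hu, by simpa using h0 0, z⟩

/-- A point of a curve on a component. -/
theorem pt (h : Cob p) {c : I → ℤ} {φ : M} {P : Place k M} (hP : p.Prm c φ P) {i : κ}
    (hi : ip p.B (p.C i) c = 1) : ∃ O ∈ p.T, O ≤ plO P ∧ p.s i O ∈ mx O := by
  obtain ⟨O, h1, -, h2, h3⟩ := h.ta.zer c φ P hP (p.C i) (p.ψ i)
    (h.all.a1.pmem _ _ _ (h.prm i).choose_spec) (by omega)
  exact ⟨O, h1, h2, h3⟩

theorem unit (h : Cob p) (g : GA p b e l A s₀ s₃) {c : I → ℤ} {φ : M} {P : Place k M}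
    (hP : p.Prm c φ P) {j j' : Fin 4} (hj : j ≠ 2) (hj' : j' ≠ j)
    (hi : ip p.B (p.C (e j)) c = 1) : IsU (plO P) (sg l s₀ s₃ j' * p.lb A (plO P)) := by
  obtain ⟨O, h1, h2, h3⟩ := pt h hP hi
  exact h.ta.dn A _ O h1 _ hP.2.1 h2 (g.un j hj j' hj' O h1 h3)

theorem fibre (h : Cob p) (xn : XN p.ld) (g : GA p b e l A s₀ s₃) :
    ∃ φ P, ∃ y ∈ p.T, p.Prm b φ P ∧ y ≤ plO P ∧ p.s (e 2) y ∈ mx y ∧
      sg l s₀ s₃ 2 * p.lb A y ∈ mx y := by
  obtain ⟨Q, hQ⟩ := h.prm (e 2)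
  have hb := g.hb
  have bb : ip p.B b b = 0 := hb.2.1
  have Cb : ip p.B (p.C (e 2)) b = 1 := hb.2.2.2 _
  have KC : ip p.B p.K (p.C (e 2)) = 2 := h.b0.lb.KC _
  have CC : ip p.B (p.C (e 2)) (p.C (e 2)) = -4 := h.b0.nc.m4 _
  have Ae : ∀ c, ip p.B A c = 2 * ip p.B b c - ip p.B p.K c - ip p.B (p.C (e 2)) c := fun c => by
    rw [g.eq, ip_sub_left, ip_sub_left, ip_smul_left]
  obtain ⟨y, hy, hr, yQ, ys⟩ := h.ta.zer _ _ Q hQ A _ (g.mem 2) (by
    rw [Ae, comm h b]; omega)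
  obtain ⟨χ, hχ, χ0, χy⟩ := thru h hb hy hr
  obtain ⟨P, hP, yP, χP⟩ := h.ta.above b χ hχ χ0 y hy χy
  obtain ⟨φ, hφ⟩ := h.all.a2.cl P hP
  have mem : p.cl P ∈ p.PP := ⟨φ, P, hφ⟩
  have bc : ip p.B b (p.cl P) = 0 := by
    have h1 : 0 ≤ ip p.B b (b - p.cl P) :=
      h.b0.lb.efn b hb.1 _ (h.ta.dvd _ φ P hφ b χ hχ χ0 χP)
    have h2 : 0 ≤ ip p.B b (p.cl P) := hb.1 _ mem
    rw [ip_sub_right] at h1
    omega
  have ne : Q ≠ P := fun z => by
    subst z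
    rw [← h.all.a1.uniq _ _ _ _ _ hQ hφ, comm h b] at bc
    omega
  have hm := (h.ta.meet _ _ Q _ φ P hQ hφ ne).2 ⟨y, hy, yQ, yP⟩
  rcases xn.vert b hb _ mem ((comm h _ _).trans bc) (e 2) hm with z | ⟨-, h1, h2, m, h3, h4, -⟩
  · exact ⟨φ, P, y, hy, z ▸ hφ, yP, (h.all.a1.pmx _ _ _ hQ y hy).2 yQ, ys⟩
  · exfalso
    obtain ⟨j, rfl⟩ := e.surjective m
    have hj : j ≠ 2 := fun z => h3 (by rw [z])
    have h1' : ip p.B p.K (p.cl P) = -1 := h1
    have h2' : ip p.B (p.C (e 2)) (p.cl P) = 1 := h2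
    have u := unit h g hφ hj hj.symm h4
    exact (((h.all.a2.nn _ φ P hφ A _ (g.mem 2) u).2.1 (by rw [Ae]; omega)) y hy yP).not_mx ys

theorem other (j : Fin 4) : ∃ j' : Fin 4, j' ≠ 2 ∧ j ≠ j' := by
  revert j
  decide

end Gb1R

open Gb1R in
theorem gb1_stmt : Gb1Stmt := by
  intro k M I κ _ _ _ _ _ _ _ p b A e l s₀ s₃ h xn g
  obtain ⟨φ, P, y, hy, hP, yP, y2, ys⟩ := fibre h xn g
  have hT := hP.2.1
  have bb : ip p.B b b = 0 := g.hb.2.1
  have Kb : ip p.B p.K b = -2 := g.hb.2.2.1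
  have Cb : ∀ i, ip p.B (p.C i) b = 1 := g.hb.2.2.2
  have ug : ∀ j, IsU (plO P) (sg l s₀ s₃ j * p.lb A (plO P)) := fun j => by
    obtain ⟨j', h1, h2⟩ := other j
    exact unit h g hP h1 h2 (Cb _)
  have ok : ∀ j, j ≠ 2 → ∀ R ∈ p.T, R ≤ plO P → ∃ v, IsU R v ∧
      sg l s₀ s₃ j * p.lb A R = v * p.s (e j) R := fun j hj R hR hle => by
    refine ⟨_, ?_, fac h (e j) _ hR⟩
    have u := ug j
    rw [fac h (e j) _ hT] at u
    refine (h.all.a2.nn b φ P hP _ _ (g.dv j hj)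
      (IsU.of_mul (g.dv j hj _ hT) (s_mem h.toPair0 hT _) u)).2.1 ?_ R hR hle
    rw [g.eq, ip_sub_left, ip_sub_left, ip_sub_left, ip_smul_left, bb, Kb, Cb, Cb]
    rfl
  refine ⟨φ, P, y, g, hP, ?_, ug, ok, hy, yP, y2, ys, ?_⟩
  · obtain ⟨O, h1, h2, h3⟩ := pt h hP (Cb (e 3))
    have q : ∀ R ∈ p.T, s₀ / s₃ = s₀ * p.lb A R / (s₃ * p.lb A R) := fun R hR =>
      (mul_div_mul_right _ _ (p.lb_ne (h.all.a1.gne R hR) _)).symm
    have u : IsU (plO P) (s₀ / s₃) := by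
      rw [q _ hT]
      exact (ug 0).div (ug 3)
    refine h.tb.nc P hT O h1 h2 _ u.mem u.ne ?_
    rw [q O h1, inv_div]
    refine mx_div ?_ (g.un 3 (by decide) 0 (by decide) O h1 h3)
    rw [fac h (e 3) s₃ h1]
    exact mx_mul_left (g.dv 3 (by decide) O h1) h3
  · obtain ⟨v, hv, z⟩ := ok 3 (by decide) y hy yP
    refine (show s₃ * p.lb A y = _ from z) ▸ hv.mul (isU_of_not_mx (s_mem h.toPair0 hy _) fun w => ?_)
    exact absurd (e.injective (h.one y hy _ _ w y2)) (by decide)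

end Pool.Agent.MP_20d318_ag.CC

end MrgPart2

-- ======== part 3: formerly Pool.Agent.MP_20d318_ag.CC.Gb2
section MrgPart3

/-! The coordinate on the fibre with the given cross-ratio. -/

set_option autoImplicit false

namespace Pool.Agent.MP_20d318_ag.CC

open Pool.Agent.MP_20d318_ag.CB Pool.Agent.MP_20d318_ag.CB.P
open Pool.Agent.MP_fd6584_ag.Fn Pool.Agent.CBk
open Pool.Agent.MP_fd6584_ag.AG hiding deg_inv deg_congr deg_of_unit deg_mul deg_prod deg_zpow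
  deg_eq_zero deg_nonneg deg_div deg_pow

namespace Gb2R

variable {k M I κ : Type} [Field k] [Field M] [Algebra k M] [Fintype I] [Fintype κ]
  {p : Pd k M I κ} {b : I → ℤ} {φ : M} {P : Place k M}

theorem rr (h : Cob p) (hb : b ∈ HC p.ld) {c : I → ℤ} (hc : ip p.B c b = 0) :
    chi2 p.B p.K c ≤ 2 * p.h0 c := by
  refine h.all.a4.rr2 c fun he => ?_
  have h1 : 0 ≤ ip p.B b (p.K - c) := h.b0.lb.efn b hb.1 _ he
  have h2 : ip p.B p.K b = -2 := hb.2.2.1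
  rw [ip_comm h.all.s.sym, ip_sub_left, hc, h2] at h1
  omega

theorem exx (h : Cob p) (hb : b ∈ HC p.ld) (hP : p.Prm b φ P) {N : I → ℤ} (hN : ip p.B N b = 0) :
    ∃ m : ℕ, ∃ x ∈ p.Sec (N + (m : ℤ) • b), ∀ R ∈ p.T, R ≤ plO P →
      IsU R (x * p.lb (N + (m : ℤ) • b) R) := by
  have h1 : ip p.B b b = 0 := hb.2.1
  have h2 : ip p.B p.K b = -2 := hb.2.2.1
  have h3 : ∀ m : ℤ, ip p.B (N + m • b) b = 0 := fun m => by
    rw [ip_add_left, ip_smul_left, hN, h1]; ring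
  obtain ⟨m, hm⟩ : ∃ m : ℕ, p.h0 (N + (m : ℤ) • b) < p.h0 (N + ((m + 1 : ℕ) : ℤ) • b) := by
    by_contra hn
    push Not at hn
    have h4 : ∀ m : ℕ, p.h0 (N + (m : ℤ) • b) ≤ p.h0 N := fun m => by
      induction m with
      | zero => simp
      | succ m ih => exact (hn m).trans ih
    have h5 : ∀ m : ℕ, chi2 p.B p.K N + 2 * m ≤ 2 * p.h0 N := fun m => by
      have h6 := rr h hb (h3 m)
      have h7 := h4 m
      rw [chi2, ip_add_right, ip_smul_right, h3, ip_add_left, ip_smul_left, ip_comm h.all.s.sym b,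
        hN, ip_add_right, ip_smul_right, h2] at h6
      rw [chi2]
      omega
    have := h5 ((2 * p.h0 N - chi2 p.B p.K N).toNat + 1)
    omega
  obtain ⟨x, hx, hu⟩ := h.tb.jump b φ P hP (N + ((m + 1 : ℕ) : ℤ) • b) (by
    rwa [show N + ((m + 1 : ℕ) : ℤ) • b - b = N + (m : ℤ) • b by
      rw [Nat.cast_succ, add_smul, one_smul]; abel])
  exact ⟨m + 1, x, hx, (h.all.a2.nn b φ P hP _ x hx hu).2.1 (h3 _)⟩

theorem exb (h : Cob p) (hb : b ∈ HC p.ld) (hP : p.Prm b φ P) :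
    ∃ β ∈ p.Sec b, ∀ R ∈ p.T, R ≤ plO P → IsU R (β * p.lb b R) := by
  have h1 : ip p.B b b = 0 := hb.2.1
  have h2 : ip p.B p.K b = -2 := hb.2.2.1
  have h3 := rr h hb h1
  rw [chi2, h1, h2] at h3
  obtain ⟨β, hβ, hn⟩ := h.ta.h02 b (by omega) φ
  refine ⟨β, hβ, (h.all.a2.nn b φ P hP b β hβ (isU_of_not_mx (hβ _ hP.2.1) fun hm => ?_)).2.1 h1⟩
  have h4 := h.all.a2.sub b φ P hP b β hβ hm
  obtain ⟨a, ha⟩ := h.all.a2.const (β / φ) fun O hO => by
    simpa [Sd.lb_zero] using h4 O hO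
  exact hn a (by rw [Algebra.smul_def, ← ha, div_mul_cancel₀ _ hP.1])

end Gb2R

open Gb2R in
theorem gb2_stmt : Gb2Stmt := by
  intro k M I κ _ _ _ _ _ _ _ p b A e l s₀ s₃ φ P y h g
  refine ⟨g.prm, g.mem 0, g.mem 3, g.ind, g.hb.2.2.2, g.hb.2.1, fun j R hR hle => ?_⟩
  by_cases hj : j ≠ 2
  · obtain ⟨v, hv, e1⟩ := g.ok j hj R hR hle
    exact ⟨v, hv, by rw [e1, sub_self]; exact zero_mem_mx⟩
  obtain rfl : j = 2 := not_not.1 hj
  have h1 : ip p.B b b = 0 := g.hb.2.1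
  have h2 : ip p.B p.K b = -2 := g.hb.2.2.1
  have h3 : ip p.B (p.C (e 2)) b = 1 := g.hb.2.2.2 _
  have hA : ip p.B A b = 1 := by
    rw [g.eq, ip_sub_left, ip_sub_left, ip_smul_left, h1, h2, h3]; ring
  have hP := g.prm.2.1
  obtain ⟨m, x, hx, ux⟩ := exx h g.hb g.prm (N := A - p.C (e 2)) (by rw [ip_sub_left, hA, h3]; ring)
  obtain ⟨β, hβ, uβ⟩ := exb h g.hb g.prm
  obtain ⟨Q, hQ⟩ := h.prm (e 2)
  have f1 : ∀ (s : M), ∀ O ∈ p.T, s * β ^ m * p.lb (A + (m : ℤ) • b) O =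
      s * p.lb A O * (β * p.lb b O) ^ m := fun s O hO => by
    rw [p.lb_add (h.all.a1.gne O hO), p.lb_zsmul, zpow_natCast]; ring
  have f2 : ∀ O ∈ p.T, p.ψ (e 2) * x * p.lb (A + (m : ℤ) • b) O =
      p.s (e 2) O * (x * p.lb (A - p.C (e 2) + (m : ℤ) • b) O) := fun O hO => by
    rw [show A + (m : ℤ) • b = p.C (e 2) + (A - p.C (e 2) + (m : ℤ) • b) by abel,
      p.lb_add (h.all.a1.gne O hO), Pd.s]
    ring
  have m1 : ∀ s ∈ p.Sec A, s * β ^ m ∈ p.Sec (A + (m : ℤ) • b) := fun s hs O hO => by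
    rw [f1 s O hO]; exact O.mul_mem (hs O hO) (O.pow_mem (hβ O hO) m)
  have m2 : p.ψ (e 2) * x ∈ p.Sec (A + (m : ℤ) • b) := fun O hO => by
    rw [f2 O hO]; exact O.mul_mem (s_mem h.toPair0 hO _) (hx O hO)
  have m0 : s₀ ∈ p.Sec A := g.mem 0
  have m3 : s₃ ∈ p.Sec A := g.mem 3
  obtain ⟨α, α', γ, hn, hw⟩ := h.tb.dep b φ P g.prm (A + (m : ℤ) • b)
    (by rw [ip_add_left, ip_smul_left, hA, h1]; ring) _ (m1 s₀ m0) _ (m1 s₃ m3) _ m2
  have f3 : ∀ O ∈ p.T, (α • (s₀ * β ^ m) + α' • (s₃ * β ^ m) + γ • (p.ψ (e 2) * x)) *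
      p.lb (A + (m : ℤ) • b) O = (algebraMap k M α * (sg l s₀ s₃ 2 * p.lb A O) +
        algebraMap k M (α' + l * α) * (s₃ * p.lb A O)) * (β * p.lb b O) ^ m +
      algebraMap k M γ * (p.s (e 2) O * (x * p.lb (A - p.C (e 2) + (m : ℤ) • b) O)) :=
    fun O hO => by
      rw [add_mul, add_mul, smul_mul_assoc, smul_mul_assoc, smul_mul_assoc, f1 _ O hO, f1 _ O hO,
        f2 O hO, show sg l s₀ s₃ 2 = s₀ - l • s₃ from rfl]
      simp only [Algebra.smul_def, map_add, map_mul]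
      ring
  have hy := h.ta.dm _ _ (add_mem (add_mem (Submodule.smul_mem _ α (m1 s₀ m0))
    (Submodule.smul_mem _ α' (m1 s₃ m3))) (Submodule.smul_mem _ γ m2)) y g.ym _ hP g.yl hw
  have ly := mp_loc g.ym
  have z : α' + l * α = 0 := by
    rw [f3 y g.ym] at hy
    have a1 := mx_sub' ly hy (mx_mul_left (y.algebraMap_mem γ) (mx_mul_right g.y2 (hx y g.ym)))
    rw [add_sub_cancel_right] at a1
    have a2 := mx_div a1 ((uβ y g.ym g.yl).pow m)
    rw [mul_div_cancel_right₀ _ ((uβ y g.ym g.yl).pow m).1] at a2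
    have a3 := mx_sub' ly a2 (mx_mul_left (y.algebraMap_mem α) g.ys)
    rw [add_sub_cancel_left] at a3
    have a4 := mx_div a3 g.y3
    rwa [mul_div_cancel_right₀ _ g.y3.1, const_mem_mx] at a4
  simp only [z, map_zero, zero_mul, add_zero] at f3
  have uC : IsU (plO P) (p.s (e 2) (plO P)) := isU_of_not_mx (s_mem h.toPair0 hP _) fun hm => by
    obtain rfl := h.all.a1.peq _ _ _ hQ P hP hm
    rw [h.all.a1.uniq _ _ _ _ _ hQ g.prm, h1] at h3
    omega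
  have hw' := hw
  rw [f3 _ hP] at hw'
  have hα : α ≠ 0 := fun a0 => by
    have a1 : γ ≠ 0 := fun a1 => hn ⟨a0, by simpa [a0] using z, a1⟩
    rw [a0, map_zero, zero_mul, zero_mul, zero_add] at hw'
    exact ((isU_const a1).mul (uC.mul (ux _ hP le_rfl))).not_mx hw'
  have hγ : γ ≠ 0 := fun a0 => by
    rw [a0, map_zero, zero_mul, add_zero] at hw'
    exact (((isU_const hα).mul (g.ug 2)).mul ((uβ _ hP le_rfl).pow m)).not_mx hw'
  have uR := (isU_const (O := R) hα).mul ((uβ R hR hle).pow m)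
  have a1 := mx_mul_right hw ((h.all.a1.cart (A + (m : ℤ) • b)).unit hR hP hle).mem
  rw [mul_assoc, mul_div_cancel₀ _ (p.lb_ne (h.all.a1.gne _ hP) _), f3 R hR] at a1
  refine ⟨_, (((isU_const hγ).mul (ux R hR hle)).div uR).neg, ?_⟩
  convert mx_div a1 (uR.mono hle) using 1
  have n1 := (isU_const (O := R) hα).1
  have n2 := ((uβ R hR hle).pow m).1
  generalize (β * p.lb b R) ^ m = U at n2 ⊢
  field_simp
  ring

end Pool.Agent.MP_20d318_ag.CC

end MrgPart3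

-- marker of a merged file
example : 731051 + 497946 = 731051 + 497946 := rfl
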