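import Pool.Agent.MP_20d318_ag.CC.Spec

-- ======== part 0: formerly Pool.Agent.MP_20d318_ag.CC.St
section MrgPart0

/-! The tower of blow-ups with its exceptional classes. -/

set_option autoImplicit false
set_option linter.unusedSectionVars false

namespace Pool.Agent.MP_20d318_ag.CC

open Pool.Agent.MP_20d318_ag.CB Pool.Agent.MP_20d318_ag.CB.P
open Pool.Agent.MP_fd6584_ag.Fn Pool.Agent.CBk MvPolynomial
open Pool.Agent.MP_fd6584_ag.AG hiding deg_inv deg_congr deg_of_unit deg_mul deg_prod deg_zpow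
  deg_eq_zero deg_nonneg deg_div deg_pow

namespace StR

variable {I : Type} [Fintype I]

/-- The exceptional classes after one more blow-up. -/
def ep (N : ℕ) (ε : ℕ → I → ℤ) (j : ℕ) : Option I → ℤ := if j < N then pb (ε j) 0 else pb 0 1

theorem ep_lt {N j : ℕ} (ε : ℕ → I → ℤ) (h : j < N) : ep N ε j = pb (ε j) 0 := if_pos h

theorem ep_self (N : ℕ) (ε : ℕ → I → ℤ) : ep N ε N = pb 0 1 := if_neg (lt_irrefl N)

theorem pb_sub (c c' : I → ℤ) (m m' : ℤ) : pb c m - pb c' m' = pb (c - c') (m - m') := by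
  funext o; cases o <;> rfl

theorem sum_ep {N : ℕ} (ε : ℕ → I → ℤ) (s : Finset ℕ) (hs : ∀ j ∈ s, j < N) (a a' : ℕ → ℤ)
    (ha : ∀ j ∈ s, a' j = a j) :
    ∑ j ∈ s, a' j • ep N ε j = pb (∑ j ∈ s, a j • ε j) 0 := by
  rw [Finset.sum_congr rfl fun j hj => by rw [ep_lt ε (hs j hj), ha j hj]]
  funext o
  cases o <;> simp [pb, Finset.sum_apply]

theorem sum_ep1 (N : ℕ) (ε : ℕ → I → ℤ) :
    ∑ j ∈ Finset.range (N + 1), ep N ε j = pb (∑ j ∈ Finset.range N, ε j) 1 := by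
  have := sum_ep ε (Finset.range N) (fun j hj => Finset.mem_range.1 hj) (fun _ => 1) (fun _ => 1)
    fun _ _ => rfl
  simp only [one_smul] at this
  rw [Finset.sum_range_succ, this, ep_self, pb_add, add_zero, zero_add]

theorem step {B : I → I → ℤ} {K : I → ℤ} {P : Set (I → ℤ)} {N : ℕ} {ε : ℕ → I → ℤ}
    (h : ST B K P N ε) {B' : Option I → Option I → ℤ} {P' : Set (Option I → ℤ)}
    (hi : ∀ (c c' : I → ℤ) (m m' : ℤ), ip B' (pb c m) (pb c' m') = ip B c c' - m * m')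
    (hP : ∀ c' ∈ P', c' = pb 0 1 ∨ ∃ c ∈ P, ∃ μ : ℤ, 0 ≤ μ ∧ c' = pb c (-μ))
    (hE : pb 0 1 ∈ P') (hU : ∀ c ∈ P, ∃ μ : ℕ, pb c (-(μ : ℤ)) ∈ P') :
    ST B' (pb K 1) P' (N + 1) (ep N ε) := by
  have lt : ∀ (c : I → ℤ) (m : ℤ), ∀ j < N, ip B' (pb c m) (ep N ε j) = ip B c (ε j) :=
    fun c m j hj => by rw [ep_lt ε hj, hi, mul_zero, sub_zero]
  have eq : ∀ (c : I → ℤ) (m : ℤ), ip B' (pb c m) (ep N ε N) = -m := fun c m => by
    rw [ep_self, hi, ip_zero_right, mul_one, zero_sub]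
  have cs : ∀ j < N + 1, j < N ∨ j = N := fun j hj => by omega
  have sm : ∀ (c : I → ℤ) (m : ℤ), ∑ j ∈ Finset.range (N + 1),
      ip B' (pb c m) (ep N ε j) • ep N ε j =
        pb (∑ j ∈ Finset.range N, ip B c (ε j) • ε j) (-m) := fun c m => by
    rw [Finset.sum_range_succ, sum_ep ε _ (fun j hj => Finset.mem_range.1 hj) _ _
      (fun j hj => lt c m j (Finset.mem_range.1 hj)), eq, ep_self, pb_smul, pb_add]
    simp
  refine ⟨fun j hj => ?_, fun i hi' j hj ne => ?_, fun j hj => ?_, fun c' hc' => ?_, ?_⟩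
  · rcases cs j hj with hj | rfl
    · nth_rewrite 1 [ep_lt ε hj]
      rw [lt _ _ j hj, h.sq j hj]
    · nth_rewrite 1 [ep_self]
      rw [eq]
  · rcases cs i hi' with hi' | rfl <;> rcases cs j hj with hj | rfl
    · rw [ep_lt ε hi', lt _ _ j hj, h.orth i hi' j hj ne]
    · rw [ep_lt ε hi', eq, neg_zero]
    · rw [ep_self, lt _ _ j hj, ip_zero_left]
    · exact absurd rfl ne
  · rcases cs j hj with hj | rfl
    · rw [ep_lt ε hj]
      have := h.ef j hj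
      generalize ε j = c at this
      induction this using AddSubmonoid.closure_induction with
      | mem c hc =>
        obtain ⟨μ, hμ⟩ := hU c hc
        have e : pb c 0 = pb c (-(μ : ℤ)) + μ • pb (0 : I → ℤ) (1 : ℤ) := by
          funext o; cases o <;> simp [pb]
        rw [e]
        exact add_mem (AddSubmonoid.subset_closure hμ)
          (nsmul_mem (AddSubmonoid.subset_closure hE) μ)
      | zero =>
        have e : pb (0 : I → ℤ) (0 : ℤ) = 0 := by funext o; cases o <;> rfl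
        rw [e]; exact zero_mem _
      | add c c' _ _ a b =>
        have := add_mem a b
        rwa [pb_add, add_zero] at this
    · rw [ep_self]; exact AddSubmonoid.subset_closure hE
  · rcases hP c' hc' with rfl | ⟨c, hc, μ, hμ, rfl⟩
    · refine Or.inr ⟨N, Nat.lt_succ_self N, fun j hj ne => ?_, ?_⟩
      · rw [lt _ _ j (by omega), ip_zero_left]
      · rw [show Finset.Ioo N (N + 1) = ∅ by ext; simp, Finset.sum_empty, sub_zero, ep_self]
    · rcases h.prm c hc with a | ⟨i, hi', a, e⟩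
      · refine Or.inl fun j hj => ?_
        rcases cs j hj with hj | rfl
        · rw [lt _ _ j hj]; exact a j hj
        · rw [eq, neg_neg]; exact hμ
      · refine Or.inr ⟨i, by omega, fun j hj ne => ?_, ?_⟩
        · rcases cs j hj with hj | rfl
          · rw [lt _ _ j hj]; exact a j hj ne
          · rw [eq, neg_neg]; exact hμ
        · rw [show Finset.Ioo i (N + 1) = insert N (Finset.Ioo i N) by
              ext; simp only [Finset.mem_Ioo, Finset.mem_insert]; omega,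
            Finset.sum_insert (by simp), sum_ep ε _ (fun j hj => (Finset.mem_Ioo.1 hj).2) _ _
              (fun j hj => lt c (-μ) j (Finset.mem_Ioo.1 hj).2), eq, ep_self, ep_lt ε hi', pb_smul,
            pb_add, pb_sub, smul_zero, zero_add, ← e]
          simp
  · rcases h.base with ⟨H, a1, a2, a3, a4⟩ | ⟨f, s, m, a1, a2, a3, a4, a5, a6, a7⟩
    · refine Or.inl ⟨pb H 0, by rw [hi, a1]; simp, fun j hj => ?_, ?_, fun v => ?_⟩
      · rcases cs j hj with hj | rfl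
        · rw [lt _ _ j hj, a2 j hj]
        · rw [eq, neg_zero]
      · rw [sum_ep1, pb_smul, pb_add, ← a3]; simp
      · obtain ⟨v, n, rfl⟩ := exists_pb v
        rw [sm, hi, pb_smul, pb_sub, mul_zero, sub_zero, ← a4 v]; simp
    · refine Or.inr ⟨pb f 0, pb s 0, m, by rw [hi, a1]; simp, by rw [hi, a2]; simp,
        by rw [hi, a3]; simp, fun j hj => ?_, fun c' hc' => ?_, ?_, fun v => ?_⟩
      · rcases cs j hj with hj | rfl
        · rw [lt _ _ j hj, lt _ _ j hj]; exact a4 j hj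
        · rw [eq, eq, neg_zero]; exact ⟨rfl, rfl⟩
      · rcases hP c' hc' with rfl | ⟨c, hc, μ, -, rfl⟩
        · rw [hi, ip_zero_right]; simp
        · rw [hi, zero_mul, sub_zero]; exact a5 c hc
      · rw [sum_ep1, pb_smul, pb_smul, pb_sub, pb_add, ← a6]; simp
      · obtain ⟨v, n, rfl⟩ := exists_pb v
        obtain ⟨β, hβ⟩ := a7 v
        refine ⟨β, ?_⟩
        rw [sm, hi, pb_smul, pb_smul, pb_add, pb_sub, mul_zero, sub_zero, ← hβ]; simp

end StR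

open StR in
theorem st_stmt : StStmt := by
  intro k M _ _ _ _ _ T h
  have m := tmods
  have ha := m.aff m.plane k M
  induction h with
  | plane x y hg =>
    obtain ⟨L, h⟩ := m.p2A m.plane k M x y ⟨hg.1, hg.2⟩
    have h0 := m.p2B m.plane m.mult k M x y L ha h
    obtain ⟨h1, h2, h3⟩ := m.p2C k M x y L ha h
    refine ⟨Unit, inferInstance, p2 k x y, 0, fun _ => 0, h.eq, ⟨h0, h1, h2, fun c φ P hp =>
      Or.inl ((m.a1 m.plane m.curve k M _ _ h0).hpos c ⟨φ, P, hp⟩), h3⟩, by simp, by simp, by simp,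
      fun c _ => Or.inl (by simp), Or.inl ⟨fun _ => 1, by simp [ip, p2], by simp, ?_, fun v => ?_⟩⟩
    · funext i; simp [p2]
    · funext i; simp [ip, p2]
  | hirz n x y hg =>
    obtain ⟨F, G, h⟩ := m.fnP m.plane k M n x y ha (m.fnA m.plane k M n x y ⟨hg.1, hg.2⟩)
    obtain ⟨h0, h1, h3⟩ := m.fnL k M n x y F G h (m.fnD m.mult k M n x y F G h)
    refine ⟨Fin 2, inferInstance, fn k n x y, 0, fun _ => 0, h.eq, ⟨h0, h1,
      m.fnR k M n x y F G ha h,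
      fun c φ P hp => Or.inl ((m.a1 m.plane m.curve k M _ _ h0).hpos c ⟨φ, P, hp⟩), h3⟩, by simp,
      by simp, by simp, fun c _ => Or.inl (by simp), Or.inr ⟨![1, 0], ![0, 1], n,
        by simp [ip, fn, Fin.sum_univ_two], by simp [ip, fn, Fin.sum_univ_two],
        by simp [ip, fn, Fin.sum_univ_two], by simp, ?_, ?_, fun v => ⟨v 0, ?_⟩⟩⟩
    · rintro c ⟨φ, P, hp⟩
      rcases h.prm c φ P hp with ⟨-, rfl⟩ | ⟨-, rfl⟩ | ⟨q, -, rfl⟩ <;>
        simp [ip, fn, Fin.sum_univ_two]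
    · funext i; fin_cases i <;> simp [fn]
    · funext i; fin_cases i <;> simp [ip, fn, Fin.sum_univ_two]
  | blow T O _ hO hr ih =>
    obtain ⟨I, _, S, N, ε, rfl, hS, hT⟩ := ih
    have a1 := m.a1 m.plane m.curve k M I S hS.toSurf0
    obtain ⟨a, ha, b, hb, hc⟩ := a1.cen O hO hr
    obtain ⟨H', e, h0⟩ := m.blA k M I S O a b ⟨hS, a1, m.jac m.plane k M, hO, hr, ha, hb, hc⟩
    obtain ⟨E, h⟩ := m.blP m.plane k M I S O a b H' e (m.blB m.plane k M I S O a b H' e h0)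
    obtain ⟨h1, h2, h3⟩ := m.blE k M I S O a b H' e E h (m.blC m.mult k M I S O a b H' e E h)
    have mu : ∀ c φ P, S.Prm c φ P → ∃ μ : ℕ, E.ord (φ * S.lb c O) = μ := fun c φ P hp => by
      rcases h.mult c φ P hp with ⟨-, -, z⟩ | ⟨q, μ, -, -, -, -, z⟩
      exacts [⟨0, z⟩, ⟨μ, z⟩]
    refine ⟨Option I, inferInstance, S.blow H' e, N + 1, ep N ε, h0.eq, ⟨h1, h2,
      m.blD k M I S O a b H' e E h, m.blF m.plane k M I S O a b H' e E h, h3⟩,
      step hT (ip_pb S H' e) ?_ ⟨1, E, (h.prm 0 1 1 E).2 (Or.inl ⟨rfl, rfl, rfl, fun R _ =>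
        ⟨one_ne_zero, one_mem R, by rw [inv_one]; exact one_mem R⟩⟩)⟩ ?_⟩
    · rintro c' ⟨φ, P, hp⟩
      obtain ⟨c, n, rfl⟩ := exists_pb c'
      rcases (h.prm c n φ P).1 hp with ⟨-, rfl, rfl, -⟩ | ⟨hq, rfl⟩
      · exact Or.inl rfl
      · obtain ⟨μ, hμ⟩ := mu c φ P hq
        exact Or.inr ⟨c, ⟨φ, P, hq⟩, _, hμ ▸ Int.natCast_nonneg μ, rfl⟩
    · rintro c ⟨φ, P, hp⟩
      obtain ⟨μ, hμ⟩ := mu c φ P hp
      exact ⟨μ, φ, P, (h.prm c _ φ P).2 (Or.inr ⟨hp, by rw [hμ]⟩)⟩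

end Pool.Agent.MP_20d318_ag.CC

end MrgPart0

-- ======== part 1: formerly Pool.Agent.MP_20d318_ag.CC.Un
section MrgPart1

/-! The involution attached to two pencils. -/

set_option autoImplicit false
set_option linter.unusedSectionVars false

namespace Pool.Agent.MP_20d318_ag.CC

open Pool.Agent.MP_20d318_ag.CB Pool.Agent.MP_20d318_ag.CB.P
open Pool.Agent.MP_fd6584_ag.Fn Pool.Agent.CBk MvPolynomial
open Pool.Agent.MP_fd6584_ag.AG hiding deg_inv deg_congr deg_of_unit deg_mul deg_prod deg_zpow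
  deg_eq_zero deg_nonneg deg_div deg_pow
open Pool.Agent.MP_20d318_ag.RS (jac)
open Pool.Agent.MP_20d318_ag.CB.P.TransA (pc)
open scoped IntermediateField

namespace UnR

theorem sum_two {κ A : Type} [Fintype κ] [DecidableEq κ] [AddCommGroup A] (f : κ → A)
    (J L : Finset κ) : ∑ i ∈ J, f i + ∑ i ∈ L, f i =
      (2 : ℤ) • ∑ i ∈ J ∩ L, f i + ∑ i, if (i ∈ J ↔ i ∈ L) then 0 else f i := by
  have e : ∀ X : Finset κ, ∑ i ∈ X, f i = ∑ i, if i ∈ X then f i else 0 := fun X => by simp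
  rw [e J, e L, e (J ∩ L), Finset.smul_sum, ← Finset.sum_add_distrib, ← Finset.sum_add_distrib]
  refine Finset.sum_congr rfl fun i _ => ?_
  by_cases h1 : i ∈ J <;> by_cases h2 : i ∈ L <;> simp [h1, h2, two_smul]

theorem prod_two {κ A : Type} [Fintype κ] [DecidableEq κ] [CommMonoid A] (f : κ → A)
    (J L : Finset κ) : (∏ i ∈ J, f i) * ∏ i ∈ L, f i =
      (∏ i ∈ J ∩ L, f i) ^ 2 * ∏ i, if (i ∈ J ↔ i ∈ L) then 1 else f i := by
  have e : ∀ X : Finset κ, ∏ i ∈ X, f i = ∏ i, if i ∈ X then f i else 1 := fun X => by simp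
  rw [e J, e L, e (J ∩ L), ← Finset.prod_pow, ← Finset.prod_mul_distrib,
    ← Finset.prod_mul_distrib]
  refine Finset.prod_congr rfl fun i _ => ?_
  by_cases h1 : i ∈ J <;> by_cases h2 : i ∈ L <;> simp [h1, h2, sq]

variable {k M I κ : Type} [Field k] [Field M] [Algebra k M] [Fintype I] [Fintype κ]
  {p : Pd k M I κ}

theorem pos_mx {P : Place k M} {r : M} (h : 0 < P.ord r) : r ≠ 0 ∧ r ∈ mx (plO P) := by
  have h0 : r ≠ 0 := fun e => by simp [e] at h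
  exact ⟨h0, (mx_plO h0).2 h⟩

theorem unit_of_ind {O : Subalgebra k M} {x : M} (h : Ind O ![x]) : IsU O x := by
  simpa using ind_one h 0

theorem prod_sec (h : Pair0 p) (X : Finset κ) : ∏ i ∈ X, p.ψ i ∈ p.Sec (∑ i ∈ X, p.C i) :=
  fun O hO => by
    rw [p.lb_sum (h.all.a1.gne O hO), ← Finset.prod_mul_distrib]
    exact O.prod_mem fun i _ => s_mem h hO i

theorem ind_u (h : Pair0 p) {P : Place k M} (hP : plO P ∈ p.T) {t t₂ u : M} {β : k} (hβ : β ≠ 0)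
    (e : u ^ 2 = t * t₂) (h2 : Ind (plO P) ![t₂]) (ht : t - algebraMap k M β ∈ mx (plO P)) :
    Ind (plO P) ![u] := by
  have hl := (plO_isVal P).isLocalRing
  have u1 : IsU (plO P) t := by
    simpa using (isU_const (O := plO P) hβ).add_mx hl ht
  have u2 := unit_of_ind h2
  have u3 : IsU (plO P) (u ^ 2) := e ▸ u1.mul u2
  have hu : u ∈ plO P := by_contra fun hn => by
    have := mx_pow ((plO_isVal P).inv_mx hn) two_ne_zero
    rw [inv_pow] at this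
    exact u3.inv.not_mx this
  refine (h.all.a1.ind P hP u hu).resolve_right ?_
  rintro ⟨c, hc⟩
  have hb : algebraMap k M β ≠ 0 := (map_ne_zero _).2 hβ
  have e2 : t₂ - algebraMap k M (c ^ 2 / β) = ((u - algebraMap k M c) * (u + algebraMap k M c) -
      (t - algebraMap k M β) * t₂) / algebraMap k M β := by
    rw [map_div₀, map_pow, eq_div_iff hb, sub_mul, div_mul_cancel₀ _ hb]
    linear_combination -e
  refine (ind_one h2 (c ^ 2 / β)).not_mx ?_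
  rw [e2]
  exact mx_div (mx_sub' hl (mx_mul_right hc ((plO P).add_mem hu ((plO P).algebraMap_mem c)))
    (mx_mul_right ht u2.mem)) (isU_const hβ)

theorem mem1 (x y : M) : x ∈ k⟮x, y⟯ := IntermediateField.subset_adjoin _ _ (by simp)

theorem mem2 (x y : M) : y ∈ k⟮x, y⟯ := IntermediateField.subset_adjoin _ _ (by simp)

end UnR

open UnR in
theorem un_stmt : UnStmt := by
  intro k M I κ _ _ _ _ _ _ _ p F G G' F₂ E E' J J' L L' a a' t b b' t₂ h H1 H2 h4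
  classical
  have h0 := h.toPair0
  have A1 := h0.all.a1
  have A2 := h0.all.a2
  have sy : ∀ c c' : I → ℤ, ip p.B c c' = ip p.B c' c := ip_comm h.b0.nc.sym
  have P1 := H1.l.pc
  have P2 := H2.l.pc
  have hiff : ∀ i, (i ∈ J' ↔ i ∈ L') ↔ (i ∈ J ↔ i ∈ L) := fun i => by
    rw [H1.l.cpl, H2.l.cpl, not_iff_not]
  have d1 : (2 : ℤ) • (G + E + ∑ i ∈ J ∩ L, p.C i) - (F + F₂) =
      -∑ i, if (i ∈ J ↔ i ∈ L) then 0 else p.C i := by
    have e := sum_two p.C J L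
    have e1 := H1.l.h.eq
    have e2 := H2.l.h.eq
    rw [smul_add, smul_add]
    linear_combination (exp := 1) -e1 - e2 - e
  have d2 : (2 : ℤ) • (G' + E' + ∑ i ∈ J' ∩ L', p.C i) - (F + F₂) =
      -∑ i, if (i ∈ J ↔ i ∈ L) then 0 else p.C i := by
    have e := sum_two p.C J' L'
    have e1 := H1.r.h.eq
    have e2 := H2.r.h.eq
    simp only [hiff] at e
    rw [smul_add, smul_add]
    linear_combination (exp := 1) -e1 - e2 - e
  have dd : G' + E' + ∑ i ∈ J' ∩ L', p.C i = G + E + ∑ i ∈ J ∩ L, p.C i :=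
    smul_right_injective _ (two_ne_zero (α := ℤ)) (sub_left_injective (d2.trans d1.symm))
  have ψ0 : ∀ i, p.ψ i ≠ 0 := fun i => (h0.prm i).choose_spec.1
  have s0 : a' * b' * ∏ i ∈ J' ∩ L', p.ψ i ≠ 0 :=
    mul_ne_zero (mul_ne_zero H1.r.h.ne H2.r.h.ne) (Finset.prod_ne_zero_iff.2 fun i _ => ψ0 i)
  have t0 : t ≠ 0 := P1.eq ▸ div_ne_zero P1.ne P1.ne'
  have t20 : t₂ ≠ 0 := P2.eq ▸ div_ne_zero P2.ne P2.ne'
  have eu : (a * b * (∏ i ∈ J ∩ L, p.ψ i) / (a' * b' * ∏ i ∈ J' ∩ L', p.ψ i)) ^ 2 = t * t₂ := by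
    have e := prod_two p.ψ J L
    have e' := prod_two p.ψ J' L'
    simp only [hiff] at e'
    rw [P1.eq, P2.eq, div_mul_div_comm, div_pow,
      div_eq_div_iff (pow_ne_zero 2 s0) (mul_ne_zero P1.ne' P2.ne')]
    simp only [hs]
    linear_combination (a * b * a' * b') ^ 2 * (∏ i ∈ J ∩ L, p.ψ i) ^ 2 * e' -
      (a * b * a' * b') ^ 2 * (∏ i ∈ J' ∩ L', p.ψ i) ^ 2 * e
  have sec := A2.mul _ _ _ (A2.mul _ _ _ H1.l.h.sec _ H2.l.h.sec) _ (prod_sec h0 (J ∩ L))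
  have sec' := A2.mul _ _ _ (A2.mul _ _ _ H1.r.h.sec _ H2.r.h.sec) _ (prod_sec h0 (J' ∩ L'))
  rw [dd] at sec'
  refine ⟨_, _, sec, _, sec', ?_, s0, ?_⟩
  · have e := congrArg (fun c => ip p.B c F) d1
    have z : ip p.B (∑ i, if (i ∈ J ↔ i ∈ L) then 0 else p.C i) F = 0 := by
      rw [ip_sum_left]
      refine Finset.sum_eq_zero fun i _ => ?_
      split_ifs
      · exact ip_zero_left _
      · exact P1.vC i
    simp only [ip_sub_left, ip_neg_left, z] at e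
    rw [ip_smul_left, ip_add_left F F₂, P1.sq, sy F₂ F, h4] at e
    omega
  generalize a * b * (∏ i ∈ J ∩ L, p.ψ i) / (a' * b' * ∏ i ∈ J' ∩ L', p.ψ i) = u at eu ⊢
  have u0 : u ≠ 0 := fun e => mul_ne_zero t0 t20 (by rw [← eu, e]; ring)
  refine ⟨?_, ?_, fun σ ρ hU => ?_⟩
  · obtain ⟨τ, φ, P₀, hτ, hp, ho, -⟩ := P1.gen
    obtain ⟨n, m⟩ := pos_mx (P := P₀) (r := t - algebraMap k M τ) (by omega)
    exact h.tb.ind2 _ t u τ n m
      (ind_u h0 hp.2.1 hτ eu ((P2.hor F φ P₀ hp).1 (by omega)) m)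
  · rw [d1, toR_neg, toR_sum]
    refine neg_mem (sum_mem fun i _ => ?_)
    split_ifs
    · rw [toR_zero]; exact zero_mem _
    · exact vf_C h P1.vC i
  have e2 : t₂ = u ^ 2 / t := by rw [eu, mul_div_cancel_left₀ _ t0]
  have e1 : t = u ^ 2 / t₂ := by rw [eu, mul_div_cancel_right₀ _ t20]
  have s2 : σ t₂ = t₂ := by rw [e2, map_div₀, map_pow, hU.iv.ft, hU.iv.fu]
  refine ⟨?_, fun r hr P Q hP hQ oP oQ nP nQ => ?_⟩
  · obtain ⟨τ, φ, P₀, -, hp, ho, hu⟩ := P2.gen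
    obtain ⟨φ', hp'⟩ := h.tb.plc σ ρ hU.ac hU.iv.inv _ _ _ hp
    have e : pc σ P₀ = P₀ := hu _ hp'.2.1 (by
      rw [TransA.pc_ord, map_sub, s2, AlgEquiv.commutes, ho]; exact one_pos)
    rw [e] at hp'
    rw [act_add, hU.fF, A1.uniq _ _ _ _ _ hp' hp]
  obtain ⟨s, hs1, -, hs2⟩ := P1.fd r hr
  have ind : ∀ R : Place k M, plO R ∈ p.T → 0 < R.ord r → ip p.B (p.cl R) (F + F₂) ≠ 0 →
      Ind (plO R) ![t₂] := fun R hR oR nR => by
    obtain ⟨φ, hφ⟩ := A2.cl R hR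
    rw [ip_add_right, hs2 R ((hs1 R).2 ⟨hR, oR⟩), zero_add] at nR
    exact (P2.hor _ φ R hφ).1 nR
  have iP := ind P hP oP nP
  have iQ := ind Q hQ oQ nQ
  obtain ⟨r0, mP⟩ := pos_mx oP
  have mQ := (pos_mx oQ).2
  rcases hr with rfl | ⟨α, rfl⟩
  · have m : ∀ R : Place k M, Ind (plO R) ![t₂] → t⁻¹ ∈ mx (plO R) → u⁻¹ ∈ mx (plO R) :=
      fun R i m => XTst.val_mx (plO_isVal R) (by
        rw [inv_pow, eu, mul_inv]; exact mx_mul_right m (unit_of_ind i).inv_mem)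
    have hu : u ∈ k⟮t₂, u⁻¹⟯ := by simpa using inv_mem (mem2 (k := k) t₂ u⁻¹)
    exact h.tb.cj σ t u u⁻¹ t₂ P Q hU.iv.inv hU.iv.fix
      (by rw [e1]; exact div_mem (pow_mem hu 2) (mem1 _ _)) hu iP iQ (inv_ne_zero u0)
      (m P iP mP) (m Q iQ mQ)
  by_cases hα : α = 0
  · subst hα
    rw [map_zero, sub_zero] at mP mQ
    have m : ∀ R : Place k M, Ind (plO R) ![t₂] → t ∈ mx (plO R) → u ∈ mx (plO R) :=
      fun R i m => XTst.val_mx (plO_isVal R) (by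
        rw [eu]; exact mx_mul_right m (unit_of_ind i).mem)
    exact h.tb.cj σ t u u t₂ P Q hU.iv.inv hU.iv.fix
      (by rw [e1]; exact div_mem (pow_mem (mem2 _ _) 2) (mem1 _ _)) (mem2 _ _) iP iQ u0
      (m P iP mP) (m Q iQ mQ)
  · refine h.tb.cj σ t u _ u P Q hU.iv.inv hU.iv.fix ?_ (mem1 _ _)
      (ind_u h0 hP hα eu iP mP) (ind_u h0 hQ hα eu iQ mQ) r0 mP mQ
    simpa using add_mem (mem2 (k := k) u (t - algebraMap k M α))
      (IntermediateField.algebraMap_mem _ α)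

end Pool.Agent.MP_20d318_ag.CC

end MrgPart1

-- ======== part 2: formerly Pool.Agent.MP_20d318_ag.CC.Gr2b
section MrgPart2

/-! The degrees of the graph curves on the threefold. -/

set_option autoImplicit false
set_option linter.unusedSectionVars false

namespace Pool.Agent.MP_20d318_ag.CC

open Pool.Agent.MP_20d318_ag.CB Pool.Agent.MP_20d318_ag.CB.P
open Pool.Agent.MP_fd6584_ag.Fn Pool.Agent.CBk
open Pool.Agent.MP_fd6584_ag.AG hiding deg_inv deg_congr deg_of_unit deg_mul deg_prod deg_zpow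
  deg_eq_zero deg_nonneg deg_div deg_pow

namespace Gr2bR

variable {k M K I κ : Type} [Field k] [NeZero (2 : k)] [IsAlgClosed k] [Field M] [Field K]
  [Algebra k M] [Algebra k K] [Fintype I] [Fintype κ]

theorem degV {X : Set (Subalgebra k K)} {f g : Subalgebra k K → K} (hX : Good X) (hf : IsCart X f)
    (hg : IsCart X g) (ν : Curve X) (uf : IsU ν.gen (f ν.gen)) (ug : IsU ν.gen (g ν.gen))
    (h : ∀ Q : Place k ν.L, Q.v (ν.ev (f (ν.pt Q))) = Q.v (ν.ev (g (ν.pt Q)))) :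
    ν.deg f = ν.deg g := by
  rw [deg_of_unit hX hf ν uf, deg_of_unit hX hg ν ug]
  exact finsum_congr fun Q => by unfold Place.ord; rw [h Q]

theorem cartU {X : Set (Subalgebra k K)} {f : Subalgebra k K → K} (hf : IsCart X f) (ν : Curve X)
    (uf : IsU ν.gen (f ν.gen)) {O : Subalgebra k K} (hO : O ∈ X) (hle : O ≤ ν.gen) :
    IsU ν.gen (f O) := by
  have := (hf.unit hO ν.gen_mem hle).mul uf
  rwa [div_mul_cancel₀ _ uf.1] at this

variable {p : Pd k M I κ} {ι : M →ₐ[k] K} {l : k} {ζ w : K} {b A : I → ℤ} {e : Fin 4 ≃ κ}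
  {s₀ s₃ φ : M} {P : Place k M} {ν : Curve (XX p ι ζ w)} (h : XAll p ι l ζ w)
  (g : G1 p b e l A s₀ s₃ φ P) (hP : pr ι p.T ν.gen = plO P) (hz : ζ - ι (s₀ / s₃) ∈ mx ν.gen)

include h g hP

theorem sG (i : κ) : IsU ν.gen (sX p ι i ν.gen) := by
  obtain ⟨Q, hQ⟩ := h.t.prm i
  refine h.loc.maps.isU_up ν.gen_mem ?_
  rw [hP]
  refine isU_of_not_mx (s_mem h.t g.prm.2.1 i) fun hm => ?_
  obtain rfl := h.t.all.a1.peq _ _ _ hQ P g.prm.2.1 hm
  have h1 := g.Cb i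
  rw [h.t.all.a1.uniq _ _ _ _ _ hQ g.prm, g.bb] at h1
  exact zero_ne_one h1

include hz

theorem core {O : Subalgebra k K} (hO : O ∈ XX p ι ζ w) (hle : O ≤ ν.gen) :
    ∃ (t : Fin 4 → ν.L) (u : Fin 4 → K), (∀ j, IsU O (u j)) ∧ (∀ j, t j ≠ 0) ∧
      (∀ j, t j = ν.ev (u j) * ν.ev (sX p ι (e j) O)) ∧ ζ ∈ ν.gen ∧
      ∀ j, ![ζ, ζ - 1, ζ - algebraMap k K l, 1] j ∈ ν.gen ∧
        ν.ev (![ζ, ζ - 1, ζ - algebraMap k K l, 1] j) = t j / t 3 := by
  have hX := h.loc.fine.toGood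
  have m := h.loc.maps
  have hR := m.mem hO
  have hl : pr ι p.T O ≤ plO P :=
    hP ▸ pr_mono h.t.all.a1.nice.toFine.toGood hX m hO ν.gen_mem hle
  choose v hv hc using fun j => g.cg j _ hR hl
  have hs : ∀ j, sg l s₀ s₃ j ∈ p.Sec A := fun j => by
    fin_cases j
    exacts [g.m0, sub_mem g.m0 g.m3, sub_mem g.m0 (Submodule.smul_mem _ l g.m3), g.m3]
  set lam := p.lb A (pr ι p.T O) with hlam
  have l0 : lam ≠ 0 := p.lb_ne (h.t.all.a1.gne _ hR) A
  have hT : ∀ j, ι (sg l s₀ s₃ j * lam) ∈ ν.gen := fun j => hle (m.mem_up hO (hs j _ hR))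
  have hu : ∀ j, IsU O (ι (v j)) := fun j => m.isU_up hO (hv j)
  have hsO : ∀ j, IsU ν.gen (sX p ι (e j) O) := fun j =>
    cartU (h.div.cartS _) ν (sG h g hP _) hO hle
  have e1 : ∀ j, ν.ev (ι (sg l s₀ s₃ j * lam)) = ν.ev (ι (v j)) * ν.ev (sX p ι (e j) O) :=
    fun j => by
      have h1 := hc j
      rw [← hP] at h1
      have h2 := (m.mx_up ν.gen_mem h1.1).2 h1
      have h3 := (ev_eq_zero ν h2.1).2 h2
      rw [map_sub, map_mul ι (v j), show ι (p.s (e j) (pr ι p.T O)) = sX p ι (e j) O from rfl,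
        ν.ev_eq, evO_sub _ (hT j)
        (mul_mem (hle (hu j).mem) (hsO j).mem), sub_eq_zero,
        evO_mul _ (hle (hu j).mem) (hsO j).mem] at h3
      exact h3
  have t0 : ∀ j, ν.ev (ι (sg l s₀ s₃ j * lam)) ≠ 0 := fun j =>
    e1 j ▸ mul_ne_zero (evO_ne _ ((hu j).mono hle)) (evO_ne _ (hsO j))
  have u3 : IsU ν.gen (ι (s₃ * lam)) :=
    isU_of_not_mx (hT 3) fun hm => t0 3 ((ev_eq_zero ν (hT 3)).2 hm)
  have e2 : ι (s₀ / s₃) = ι (s₀ * lam) / ι (s₃ * lam) := by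
    rw [← map_div₀, mul_div_mul_right _ _ l0]
  have m0 : ι (s₀ * lam) ∈ ν.gen := hT 0
  have m1 : ι (s₀ / s₃) ∈ ν.gen := e2 ▸ u3.div_mem m0
  have mζ : ζ ∈ ν.gen := by simpa using add_mem hz.1 m1
  have e3 : ν.ev ζ = ν.ev (ι (s₀ * lam)) / ν.ev (ι (s₃ * lam)) := by
    have h3 := (ev_eq_zero ν hz.1).2 hz
    rwa [ν.ev_eq, evO_sub _ mζ m1, sub_eq_zero, e2, evO_div _ m0 u3] at h3
  have e4 : ∀ c : k, ν.ev (ζ - algebraMap k K c) =
      ν.ev (ι ((s₀ - c • s₃) * lam)) / ν.ev (ι (s₃ * lam)) := fun c => by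
    have d0 : evO ν.gen ν.ρ (ι (s₃ * lam)) ≠ 0 := evO_ne _ u3
    rw [ev_sub_const ν mζ, e3, sub_mul, smul_mul_assoc, Algebra.smul_def, map_sub, map_mul ι
      (algebraMap k M c), AlgHom.commutes, ν.ev_eq, ν.ev_eq, ν.ev_eq, evO_sub _ m0
      (mul_mem (algebraMap_mem _ c) u3.mem), evO_mul _ (algebraMap_mem _ c) u3.mem, evO_const,
      sub_div, mul_div_cancel_right₀ _ d0]
  refine ⟨fun j => ν.ev (ι (sg l s₀ s₃ j * lam)), fun j => ι (v j), hu, t0, e1, mζ, fun j => ?_⟩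
  fin_cases j
  · exact ⟨mζ, e3⟩
  · refine ⟨sub_mem mζ (one_mem _), ?_⟩
    have := e4 1
    rw [map_one, one_smul] at this
    exact this
  · exact ⟨sub_mem mζ (algebraMap_mem _ l), e4 l⟩
  · exact ⟨one_mem _, (evO_one _).trans (div_self (t0 3)).symm⟩

theorem tG (j : Fin 4) : IsU ν.gen (tau l ζ j ν.gen) := by
  obtain ⟨t, u, -, t0, -, mζ, h1⟩ := core h g hP hz ν.gen_mem le_rfl
  unfold tau eta
  rw [if_pos mζ, div_one]
  exact isU_of_not_mx (h1 j).1 fun hm => div_ne_zero (t0 j) (t0 3)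
    ((h1 j).2 ▸ (ev_eq_zero ν (h1 j).1).2 hm)

theorem key (Q : Place k ν.L) (j : Fin 4) :
    Q.v (ν.ev (tau l ζ j (ν.pt Q))) = Q.v (ν.ev (sX p ι (e j) (ν.pt Q))) := by
  have hO := ν.pt_mem Q
  obtain ⟨t, u, hu, t0, e1, mζ, h1⟩ := core h g hP hz hO (ν.pt_le Q)
  have v1 : ∀ j, Q.v (t j) = Q.v (ν.ev (sX p ι (e j) (ν.pt Q))) := fun j => by
    rw [e1, map_mul, (ν.v_eq_one_iff Q (hu j).mem).2 (hu j), one_mul]
  have v2 : ∀ j, Q.v (t j) ≤ 1 := fun j => v1 j ▸ ν.v_le Q (h.loc.sm _ hO _)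
  have v0 : ∀ j, 0 < Q.v (t j) := fun j => (Valuation.pos_iff _).2 (t0 j)
  have v3 : Q.v (t 0) = 1 ∨ Q.v (t 3) = 1 := by
    rw [v1, v1, ν.v_eq_one_iff Q (h.loc.sm _ hO _), ν.v_eq_one_iff Q (h.loc.sm _ hO _)]
    by_contra hn
    have := e.injective (h.loc.s1 _ hO _ _ ⟨h.loc.sm _ hO _, fun a => hn (.inl a)⟩
      ⟨h.loc.sm _ hO _, fun a => hn (.inr a)⟩)
    exact absurd this (by decide)
  have eζ : ν.ev ζ = t 0 / t 3 := (h1 0).2
  have hm := h.loc.zm _ hO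
  unfold zc at hm
  unfold tau eta
  split_ifs at hm ⊢ with c
  · have h2 := ν.v_le Q hm
    rw [eζ, map_div₀, div_le_one₀ (v0 3)] at h2
    rw [div_one, (h1 j).2, map_div₀, v3.elim (fun a => le_antisymm (v2 3) (a ▸ h2)) id, div_one,
      v1]
  · have uζ : IsU ν.gen ζ := isU_of_not_mx mζ fun a => div_ne_zero (t0 0) (t0 3)
      (eζ ▸ (ev_eq_zero ν mζ).2 a)
    have h2 := ν.v_le Q hm
    rw [ν.ev_eq, evO_inv _ uζ, ← ν.ev_eq, eζ, inv_div, map_div₀, div_le_one₀ (v0 0)] at h2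
    rw [ev_div ν (h1 j).1 uζ, (h1 j).2, eζ, div_div_div_cancel_right₀ (t0 3), map_div₀,
      v3.elim id fun a => le_antisymm (v2 0) (a ▸ h2), div_one, v1]

theorem keyE (Q : Place k ν.L) (j : Fin 4) :
    Q.v (ν.ev (EE p ι l ζ (e j) j (ν.pt Q))) = Q.v (ν.ev (sX p ι (e j) (ν.pt Q))) := by
  have hO := ν.pt_mem Q
  have uE := cartU (h.div.cartE (e j) j) ν (h.div.eu _ ν.gen_mem _ _ (.inl (sG h g hP _))) hO
    (ν.pt_le Q)
  have h0 : Q.v (ν.ev (EE p ι l ζ (e j) j (ν.pt Q))) ≠ 0 :=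
    (Valuation.ne_zero_iff _).2 (evO_ne _ uE)
  obtain ⟨a, ha, hu⟩ := (h.div.gE _ hO (e j) j).2
  have h1 := (ν.v_eq_one_iff Q hu.mem).2 hu
  rcases ha with rfl | rfl
  · rw [ev_div ν (ν.pt_le Q (h.loc.sm _ hO _)) uE, map_div₀, div_eq_one_iff_eq h0] at h1
    exact h1.symm
  · rw [ev_div ν (ν.pt_le Q (h.loc.tm _ hO _)) uE, map_div₀, div_eq_one_iff_eq h0] at h1
    exact h1.symm.trans (key h g hP hz Q j)

end Gr2bR

open Gr2bR in
theorem gr2b_stmt : Gr2bStmt := by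
  intro k M K I κ _ _ _ _ _ _ _ _ _ p ι l ζ w b A e s₀ s₃ φ P ν h g hP hz
  have hX := h.loc.fine.toGood
  obtain ⟨n, hn, h1⟩ := XCurA.c1 h ν _ _ _ g.prm hP
  have hS : ∀ i, ν.deg (sX p ι i) = n := fun i => by
    rw [h.div.degS, h1, ip_nsmul_right, g.Cb, mul_one]
  refine ⟨n, hn, Prod.ext h1 (Prod.ext ?_ (funext fun i => funext fun j => ?_))⟩
  · exact (h.div.degT ν 0).symm.trans ((degV hX (h.div.cartT 0) (h.div.cartS _) ν (tG h g hP hz 0)
      (sG h g hP _) fun Q => key h g hP hz Q 0).trans (hS _))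
  · dsimp only
    split_ifs with c
    · subst c
      exact (degV hX (h.div.cartE _ j) (h.div.cartS _) ν
        (h.div.eu _ ν.gen_mem _ _ (.inl (sG h g hP _))) (sG h g hP _)
        fun Q => keyE h g hP hz Q j).trans (hS _)
    · refine XCurA.zeroE h ν i j fun Q => ?_
      have hO := ν.pt_mem Q
      refine (isU_or_mx (h.loc.sm _ hO i)).imp_right fun a => ?_
      rw [← ν.v_eq_one_iff Q (h.loc.tm _ hO j), key h g hP hz,
        ν.v_eq_one_iff Q (h.loc.sm _ hO _)]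
      exact isU_of_not_mx (h.loc.sm _ hO _) fun a' => c (h.loc.s1 _ hO _ _ a a')

end Pool.Agent.MP_20d318_ag.CC

end MrgPart2

-- ======== part 3: formerly Pool.Agent.MP_20d318_ag.CC.Gluex
section MrgPart3

/-! GLUE: from the lattice statements to the cone statement. -/

set_option autoImplicit false
set_option linter.unusedSectionVars false

namespace Pool.Agent.MP_20d318_ag.CC

open Pool.Agent.MP_20d318_ag.CB Pool.Agent.MP_20d318_ag.CB.P
open Pool.Agent.MP_fd6584_ag.Fn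
open Pool.Agent.MP_20d318_ag.Lat hiding act actW W
open Pool.Agent.MP_fd6584_ag.AG hiding deg_inv deg_congr deg_of_unit deg_mul deg_prod deg_zpow
  deg_eq_zero deg_nonneg deg_div deg_pow
open Pool.Agent.CBk.Glue (cvint gL gEf gC cone_of_concl Ef NEf)
open Pool.Agent.MP_20d318_ag.CB.P.GlueA (mem_LW Psi psi_cls real)

namespace Gluex

variable {I κ : Type} [Fintype I] [Fintype κ] {k K : Type} [Field k] [Field K] [Algebra k K]
  {X : Set (Subalgebra k K)} {Λ : Ld I κ} {Z : Curve X → W I κ ℤ} {G : Set (Matrix I I ℤ)}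

theorem psi_tG {D : W I κ ℝ} {ν : Curve X} {n : ℕ} {c : I → ℤ} (e : Z ν = (n • c, 0, 0)) :
    Psi Λ.B Z D ν = n * ip Λ.B D.1 (toR c) := by
  change ipW _ D (toRW (Z ν)) = _
  rw [e]
  simp only [ipW, toRW, toR_nsmul]
  rw [ip_smul_right]
  simp

theorem nn_of_nef (h : GeoC X Λ Z G) {D : W I κ ℝ} (hD : ∀ ν, 0 ≤ Psi Λ.B Z D ν) :
    D ∈ NN Λ := by
  classical
  refine ⟨⟨fun i j => ?_, fun i => ?_, fun c hc => ?_, fun j c hc => ?_⟩, fun b hb e => ?_⟩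
  · obtain ⟨ν, n, hn, e⟩ := h.tE i j
    have h1 : Psi Λ.B Z D ν = n * D.2.2 i j := by
      change ipW _ D (toRW (Z ν)) = _
      rw [e]
      simp [ipW, toRW, toR_zero, ip_zero_right, ite_and, mul_comm]
    have h2 := hD ν
    rw [h1] at h2
    exact nonneg_of_mul_nonneg_right h2 (by exact_mod_cast hn)
  · obtain ⟨ν, n, hn, e⟩ := h.tC i
    have h1 : Psi Λ.B Z D ν = n * (D.2.1 - ∑ j, D.2.2 i j) := by
      change ipW _ D (toRW (Z ν)) = _
      rw [e]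
      simp [ipW, toRW, toR_zero, ip_zero_right, mul_sub, Finset.mul_sum, mul_comm]
    have h2 := hD ν
    rw [h1] at h2
    exact sub_nonneg.1 (nonneg_of_mul_nonneg_right h2 (by exact_mod_cast hn))
  · obtain ⟨ν, n, hn, e⟩ := h.tG c hc
    have h2 := hD ν
    rw [psi_tG e] at h2
    exact nonneg_of_mul_nonneg_right h2 (by exact_mod_cast hn)
  · obtain ⟨ν, n, hn, e⟩ := h.tT c hc j
    have h1 : Psi Λ.B Z D ν = n * ip Λ.B (D.1 - ∑ i, D.2.2 i j • toR (Λ.C i)) (toR c) := by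
      change ipW _ D (toRW (Z ν)) = _
      rw [e]
      have h3 : ∀ i, ((ip Λ.B (Λ.C i) (n • c) : ℤ) : ℝ) = n * ip Λ.B (toR (Λ.C i)) (toR c) :=
        fun i => by rw [← ip_toR, toR_nsmul, ip_smul_right]
      simp only [ipW, toRW, toR_nsmul, ip_sub_left, ip_sum_left, ip_smul_left, ip_smul_right,
        apply_ite, h3]
      simp [mul_sub, Finset.mul_sum, mul_left_comm]
    have h2 := hD ν
    rw [h1] at h2
    exact nonneg_of_mul_nonneg_right h2 (by exact_mod_cast hn)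
  · obtain ⟨ν, n, hn, e1⟩ := h.tH b hb e
    have h1 : Psi Λ.B Z D ν = n * (ip Λ.B D.1 (toR b) + D.2.1 - ∑ j, D.2.2 (e j) j) := by
      change ipW _ D (toRW (Z ν)) = _
      rw [e1]
      simp only [ipW, toRW, toR_nsmul, ip_smul_right]
      rw [Finset.sum_comm]
      simp [mul_sub, mul_add, Finset.mul_sum, mul_comm]
    have h2 := hD ν
    rw [h1] at h2
    exact sub_nonneg.1 (nonneg_of_mul_nonneg_right h2 (by exact_mod_cast hn))

theorem fst_eq (h : GeoC X Λ Z G) {D E : W I κ ℝ} (e : Psi Λ.B Z D = Psi Λ.B Z E) :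
    D.1 = E.1 := by
  refine sub_eq_zero.1 (h.b0.hg.nd _ fun y => ?_)
  let f : (I → ℝ) →ₗ[ℝ] ℝ :=
    ⟨⟨fun v => ip Λ.B (D.1 - E.1) v, fun a b => ip_add_right _ a b⟩,
      fun r a => ip_smul_right r _ a⟩
  have h1 := h.b0.lb.span (LinearMap.ker f) fun c hc => by
    obtain ⟨ν, n, hn, e1⟩ := h.tG c hc
    have h2 := congrFun e ν
    rw [psi_tG e1, psi_tG e1] at h2
    have h3 : (n : ℝ) ≠ 0 := by exact_mod_cast hn.ne'
    change ip Λ.B (D.1 - E.1) (toR c) = 0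
    rw [ip_sub_left, mul_left_cancel₀ h3 h2, sub_self]
  have h2 : toR y ∈ LinearMap.ker f := by rw [h1]; trivial
  exact h2

theorem ef_cone {c : I → ℤ} (hc : c ∈ Λ.Ef) : toR c ∈ cone (toR '' Λ.P) := by
  induction hc using AddSubmonoid.closure_induction with
  | mem x hx => exact subset_cone _ ⟨x, hx, rfl⟩
  | zero => rw [toR_zero]; exact (isCone_cone _).zero
  | add x y _ _ hx hy => rw [toR_add]; exact (isCone_cone _).add _ hx _ hy

theorem psi_div {C : Cartier X} {N : ℤ} {D : W I κ ℤ} (hN : 0 < N)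
    (e : ∀ ν : Curve X, N * ν.deg C.f = ipW Λ.B D (Z ν)) :
    Psi Λ.B Z ((N : ℝ)⁻¹ • toRW D) = C.cls := by
  refine funext fun ν => ?_
  have h3 : (N : ℝ) ≠ 0 := by exact_mod_cast hN.ne'
  rw [map_smul]
  change (N : ℝ)⁻¹ * ipW _ (toRW D) (toRW (Z ν)) = (ν.deg C.f : ℝ)
  rw [ipW_toRW, ← e, Int.cast_mul, inv_mul_cancel_left₀ h3]

end Gluex

open Gluex in
theorem gluex_stmt : GluexStmt := by
  classical
  intro k K I κ _ _ _ _ _ X Λ Z G h
  have c2 := h.lc.lcb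
  have c3 := h.lc.spn
  have hnef : ∀ D ∈ NN Λ, ∀ ν, 0 ≤ Psi Λ.B Z D ν := fun D hD ν => h.lc.lca D hD _ (h.cur ν)
  obtain ⟨R, hRL, hPN, hcov⟩ := h.lc.cov
  have hmem : ∀ D, Psi Λ.B Z D ∈ N1 X := by
    intro D
    have h1 : D ∈ Submodule.span ℝ (NN Λ ∩ Set.range toRW) := by rw [c3]; trivial
    have h2 : Submodule.span ℝ (NN Λ ∩ Set.range toRW) ≤ (N1 X).comap (Psi Λ.B Z) := by
      refine Submodule.span_le.2 ?_
      rintro _ ⟨-, E, rfl⟩
      obtain ⟨C, hC⟩ := h.cart E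
      exact Submodule.subset_span ⟨C, (psi_cls hC).symm⟩
    exact h2 h1
  let Φ : W I κ ℝ →ₗ[ℝ] N1 X := (Psi Λ.B Z).codRestrict _ hmem
  have hΦs : Function.Surjective Φ := by
    rintro ⟨ξ, hξ⟩
    have h2 : N1 X ≤ LinearMap.range (Psi Λ.B Z) := by
      refine Submodule.span_le.2 ?_
      rintro _ ⟨C, rfl⟩
      obtain ⟨N, D, hN, e, -⟩ := h.cls C
      exact ⟨_, psi_div hN e⟩
    obtain ⟨D, rfl⟩ := h2 hξ
    exact ⟨D, rfl⟩
  have hfd : FiniteDimensional ℝ (N1 X) := Module.Finite.of_surjective Φ hΦs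
  have hZE : ∀ E : W I κ ℤ, toRW E ∈ NN Λ → Φ (toRW E) ∈ Ef X := by
    intro E hE
    refine ((isCone_cone _).preimage Φ).cone_subset ?_ (c2 E hE)
    rintro _ ⟨E', hE', rfl⟩
    obtain ⟨C, hC, e⟩ := h.eff E' hE'
    exact subset_cone _ ⟨C, hC, Subtype.ext (psi_cls e).symm⟩
  have hRE : ∀ D ∈ cone (R : Set (W I κ ℝ)), Φ D ∈ Ef X := by
    refine fun D hD => ((isCone_cone _).preimage Φ).cone_subset (fun r hr => ?_) hD
    obtain ⟨E, rfl⟩ := mem_LW (hRL hr)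
    exact hZE E (hPN (subset_cone _ hr))
  have hEP : ∀ D, Φ D ∈ Ef X → D.1 ∈ cone (toR '' Λ.P) := by
    intro D hD
    have h1 : Ef X ⊆ Φ '' (LinearMap.fst ℝ _ _ ⁻¹' cone (toR '' Λ.P)) := by
      refine (((isCone_cone _).preimage _).image Φ).cone_subset ?_
      rintro _ ⟨C, hC, rfl⟩
      obtain ⟨N, D', hN, e, h2⟩ := h.cls C
      refine ⟨(N : ℝ)⁻¹ • toRW D', ?_, Subtype.ext (psi_div hN e)⟩
      have h3 := (isCone_cone _).smul ((N : ℝ)⁻¹ * 2⁻¹) (by positivity) _ (ef_cone (h2 hC))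
      rw [toR_zsmul, smul_smul] at h3
      have h4 : (N : ℝ)⁻¹ * 2⁻¹ * ((2 : ℤ) : ℝ) = (N : ℝ)⁻¹ := by push_cast; ring
      rw [h4] at h3
      exact h3
    obtain ⟨E, hE, e⟩ := h1 hD
    rw [← fst_eq h (congrArg Subtype.val e)]
    exact hE
  refine cone_of_concl (looijenga (Cv := Set.range Curve.lin)
    (P := Φ '' cone (R : Set (W I κ ℝ)))
    ((isCone_dual _).inter (isCone_cone _)) cvint (fun c hc x hx => hx.1 c hc)
    (fun x hx => Subtype.ext (funext fun ν => hx _ ⟨ν, rfl⟩)) gL gC ?_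
    ⟨R.image Φ, ?_, by rw [Finset.coe_image, cone_image]⟩ ?_ ?_)
  · rw [eq_top_iff, ← LinearMap.range_eq_top.2 hΦs, ← Submodule.map_top, ← c3, Submodule.map_span]
    refine Submodule.span_mono ?_
    rintro _ ⟨_, ⟨hD, E, rfl⟩, rfl⟩
    exact ⟨by rintro _ ⟨ν, rfl⟩; exact hnef _ hD ν, hZE E hD⟩
  · rw [Finset.coe_image]
    rintro _ ⟨r, hr, rfl⟩
    obtain ⟨E, rfl⟩ := mem_LW (hRL hr)
    obtain ⟨C, hC⟩ := h.cart E
    exact AddSubgroup.subset_closure ⟨C, Subtype.ext (psi_cls hC).symm⟩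
  · rintro _ ⟨D, hD, rfl⟩
    exact ⟨by rintro _ ⟨ν, rfl⟩; exact hnef _ (hPN hD) ν, hRE D hD⟩
  · intro x hx
    obtain ⟨D, rfl⟩ := hΦs x
    have hD : D ∈ NN Λ := nn_of_nef h fun ν => hx.1 _ ⟨ν, rfl⟩
    obtain ⟨ρ, hρ, h1, h2⟩ := hcov D hD (hEP D hx.2)
    obtain ⟨g, hg⟩ := h.aut ρ hρ h1
    have h3 := real c3 g ρ hg D
    refine ⟨_, ⟨g, rfl⟩, actW ρ D, h2 (nn_of_nef h fun ν => ?_), Subtype.ext h3.symm⟩
    rw [← h3]
    exact hnef D hD _

end Pool.Agent.MP_20d318_ag.CC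

end MrgPart3

-- marker of a merged file
example : 731051 + 435911 = 731051 + 435911 := rfl
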