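import Pool.Agent.MP_20d318_ag.CC.Spec

-- ======== part 0: formerly Pool.Agent.MP_20d318_ag.CC.Pen2
section MrgPart0

/-! The map to the line defined by a pencil with a prime member. -/

set_option autoImplicit false

namespace Pool.Agent.MP_20d318_ag.CC

open Pool.Agent.MP_20d318_ag.CB Pool.Agent.MP_20d318_ag.CB.P
open Pool.Agent.MP_fd6584_ag.Fn Pool.Agent.CBk MvPolynomial
open Pool.Agent.MP_fd6584_ag.AG hiding deg_inv deg_congr deg_of_unit deg_mul deg_prod deg_zpow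
  deg_eq_zero deg_nonneg deg_div deg_pow

theorem pen2_stmt : Pen2Stmt := by
  intro k M I κ _ _ _ _ _ _ _ p F ψ ψ' hp H
  have A := hp.all.a1
  have B := hp.all.a2
  obtain ⟨τ, P₀, hτ, hP₀⟩ := H.ex
  have hl : ∀ O ∈ p.T, p.lb F O ≠ 0 := fun O hO => p.lb_ne (A.gne O hO) _
  have m0 : ∀ O ∈ p.T, (ψ - τ • ψ') * p.lb F O ∈ O := A.pmem _ _ _ hP₀
  have m1 : ∀ O ∈ p.T, ψ' * p.lb F O ∈ O := H.sec'
  have m2 : ∀ O ∈ p.T, ψ * p.lb F O ∈ O := H.sec
  have u0 : IsU (plO P₀) (ψ' * p.lb F (plO P₀)) := by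
    refine isU_of_not_mx (m1 _ hP₀.2.1) fun hm => ?_
    have h1 := B.sub _ _ _ hP₀ _ _ H.sec' hm
    rw [sub_self] at h1
    obtain ⟨a, ha⟩ := B.const (ψ' / (ψ - τ • ψ')) fun O hO => by
      simpa [Sd.lb_zero] using p.mem_Sec.1 h1 O hO
    have e : ψ' = a • (ψ - τ • ψ') := by rw [Algebra.smul_def, ← ha, div_mul_cancel₀ _ hP₀.1]
    have a0 : a ≠ 0 := fun z => H.ne' (by rw [e, z, zero_smul])
    refine H.nc (a⁻¹ + τ) ?_
    rw [add_smul, ← sub_eq_iff_eq_add, eq_inv_smul_iff₀ a0]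
    exact e.symm
  have u1 := (B.nn _ _ _ hP₀ _ _ H.sec' u0).2.1 H.sq
  have bpf : ∀ O ∈ p.T, IsU O (ψ * p.lb F O) ∨ IsU O (ψ' * p.lb F O) := fun O hO => by
    by_cases hle : O ≤ plO P₀
    · exact Or.inr (u1 O hO hle)
    refine (isU_or_mx (m2 O hO)).imp_right fun h2 => isU_of_not_mx (m1 O hO) fun h1 => hle ?_
    refine (A.pmx _ _ _ hP₀ O hO).1 ?_
    rw [sub_mul, Algebra.smul_def, mul_assoc]
    exact mx_sub' (A.nice.loc O hO) h2 (mx_mul_left (O.algebraMap_mem τ) h1)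
  have et : ∀ O ∈ p.T, ψ / ψ' = ψ * p.lb F O / (ψ' * p.lb F O) := fun O hO =>
    (mul_div_mul_right _ _ (hl O hO)).symm
  have et' : ∀ O ∈ p.T, ψ / ψ' - algebraMap k M τ =
      (ψ - τ • ψ') * p.lb F O / (ψ' * p.lb F O) := fun O hO => by
    rw [mul_div_mul_right _ _ (hl O hO), sub_div, Algebra.smul_def, mul_div_cancel_right₀ _ H.ne']
  have hord : P₀.ord (ψ / ψ' - algebraMap k M τ) = 1 := by
    rw [et' _ hP₀.2.1, P₀.ord_div (mul_ne_zero hP₀.1 (hl _ hP₀.2.1)) u0.ne, hP₀.2.2 _ hP₀.2.1,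
      if_pos rfl, ((isU_plO' P₀).1 u0).2, sub_zero]
  have hreg : ∀ O ∈ p.T, ψ / ψ' ∈ O ∨ (ψ / ψ')⁻¹ ∈ O := fun O hO => by
    rw [et O hO, inv_div]
    exact (bpf O hO).symm.imp (·.div_mem (m2 O hO)) (·.div_mem (m1 O hO))
  have hG : ∀ O ∈ p.T, Gn {ψ / ψ', 1} O (ψ' * p.lb F O)⁻¹ := fun O hO => by
    have e1 : ψ / ψ' / (ψ' * p.lb F O)⁻¹ = ψ * p.lb F O := by
      rw [div_inv_eq_mul, ← mul_assoc, div_mul_cancel₀ _ H.ne']
    have e2 : 1 / (ψ' * p.lb F O)⁻¹ = ψ' * p.lb F O := by rw [div_inv_eq_mul, one_mul]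
    refine ⟨?_, ?_⟩
    · rintro a (rfl | rfl)
      · rw [e1]; exact m2 O hO
      · rw [e2]; exact m1 O hO
    · rcases bpf O hO with h | h
      · exact ⟨_, Or.inl rfl, by rwa [e1]⟩
      · exact ⟨1, Or.inr rfl, by rwa [e2]⟩
  have hhor : ∀ c φ P, p.Prm c φ P → (ip p.B c F ≠ 0 ↔ Ind (plO P) ![ψ / ψ']) :=
    fun c φ P h => by
      rw [ip_comm hp.all.s.sym]
      exact B.mor _ _ _ hG c φ P h
  have hpl : ∀ P : Place k M, Ind (plO P) ![ψ / ψ'] → plO P ∈ p.T := fun P hi => by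
    obtain ⟨O, hO, hd⟩ := A.nice.cpl _ (plO_isVal P)
    rcases A.tri O hO with rfl | hr | ⟨P', rfl⟩
    · exact absurd (top_le_iff.1 hd.1) (plO_ne_top P)
    · exact (Pen.not_rat hd hr (hreg O hO) hi).elim
    · rwa [← plO_inj hd.1]
  have hm : F ∈ p.PP := ⟨_, _, hP₀⟩
  refine ⟨H, rfl, hm, hp.b0.lb.pn F hm H.sq.ge, hp.ll.K0 F fun i => ?_, bpf,
    ⟨τ, _, P₀, hτ, hP₀, hord, fun P hP h => ?_⟩, hreg, hhor, hpl, fun P hi i => ?_⟩
  · exact (ip_comm hp.all.s.sym _ _).trans (H.vC i)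
  · refine A.peq _ _ _ hP₀ P hP ?_
    have n0 := mul_ne_zero hP₀.1 (hl _ hP)
    have n1 := mul_ne_zero H.ne' (hl _ hP)
    rw [et' _ hP, P.ord_div n0 n1] at h
    have := mem_plO_ord.1 (m1 _ hP)
    exact (mx_plO n0).2 (by omega)
  · have hP := hpl P hi
    obtain ⟨Q, hQ⟩ := hp.prm i
    refine isU_of_not_mx (A.pmem _ _ _ hQ _ hP) fun hm => ?_
    have e := A.peq _ _ _ hQ P hP hm
    subst e
    exact (hhor _ _ _ hQ).2 hi (H.vC i)

end Pool.Agent.MP_20d318_ag.CC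

end MrgPart0

-- ======== part 1: formerly Pool.Agent.MP_20d318_ag.CC.Pen3
section MrgPart1

/-! The fibres of the pencil. -/

set_option autoImplicit false
set_option linter.unusedSectionVars false

namespace Pool.Agent.MP_20d318_ag.CC

open Pool.Agent.MP_20d318_ag.CB Pool.Agent.MP_20d318_ag.CB.P
open Pool.Agent.MP_fd6584_ag.Fn Pool.Agent.CBk MvPolynomial
open Pool.Agent.MP_fd6584_ag.AG hiding deg_inv deg_congr deg_of_unit deg_mul deg_prod deg_zpow
  deg_eq_zero deg_nonneg deg_div deg_pow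

namespace Pen3R

variable {k M I κ : Type} [Field k] [NeZero (2 : k)] [IsAlgClosed k] [Field M] [Algebra k M]
  [Fintype I] [Fintype κ] {p : Pd k M I κ} {F : I → ℤ} {ψ ψ' t : M}

theorem quo (P : Place k M) {x y L : M} (hx : x ≠ 0) (hy : y ≠ 0) (hL : L ≠ 0)
    (my : y * L ∈ plO P) (h : x * L ∈ mx (plO P) → IsU (plO P) (y * L)) :
    (0 < P.ord (x / y) ↔ x * L ∈ mx (plO P)) ∧
      (0 < P.ord (x / y) → P.ord (x / y) = P.ord (x * L)) := by
  have e : P.ord (x / y) = P.ord (x * L) - P.ord (y * L) := by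
    rw [← P.ord_div (mul_ne_zero hx hL) (mul_ne_zero hy hL), mul_div_mul_right _ _ hL]
  have a := mem_plO_ord.1 my
  have b := mx_plO (P := P) (mul_ne_zero hx hL)
  have c : 0 < P.ord (x * L) → P.ord (y * L) = 0 := fun h' => ((isU_plO' P).1 (h (b.2 h'))).2
  rw [e, b]
  refine ⟨⟨fun h' => by omega, fun h' => ?_⟩, fun h' => ?_⟩
  · have := c h'; omega
  · have := c (by omega); omega

theorem sub_ne (H : PcA p F ψ ψ' t) (α : k) : ψ - α • ψ' ≠ 0 := fun e => H.nc α (sub_eq_zero.1 e)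

theorem t_sub (H : PcA p F ψ ψ' t) (α : k) : t - algebraMap k M α = (ψ - α • ψ') / ψ' := by
  rw [H.eq, Algebra.smul_def, sub_div, mul_div_cancel_right₀ _ H.ne']

theorem vt (h : Cob p) (H : PcA p F ψ ψ' t) (P : Place k M) (hP : plO P ∈ p.T)
    (n : ¬ Ind (plO P) ![t]) : ∃ r, Fr k t r ∧ 0 < P.ord r := by
  by_cases m : t ∈ plO P
  · obtain ⟨c, hc⟩ := (h.all.a1.ind P hP t m).resolve_left n
    refine ⟨_, Or.inr ⟨c, rfl⟩, (mx_plO ?_).1 hc⟩
    rw [t_sub H]
    exact div_ne_zero (sub_ne H c) H.ne'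
  · refine ⟨_, Or.inl rfl, (mx_plO ?_).1 ((plO_isVal P).inv_mx m)⟩
    rw [H.eq]
    exact inv_ne_zero (div_ne_zero H.ne H.ne')

theorem mb (h : Cob p) (H : PcA p F ψ ψ' t) (r : M) (hr : Fr k t r) :
    ∃ χ ∈ p.Sec F, χ ≠ 0 ∧ (χ = ψ' ∨ ∃ α : k, χ = ψ - α • ψ') ∧
    ∀ P : Place k M, plO P ∈ p.T → (0 < P.ord r ↔ χ * p.lb F (plO P) ∈ mx (plO P)) ∧
      (0 < P.ord r → P.ord r = P.ord (χ * p.lb F (plO P))) := by
  rcases hr with rfl | ⟨α, rfl⟩
  · refine ⟨ψ', H.sec', H.ne', Or.inl rfl, fun P hP => ?_⟩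
    rw [H.eq, inv_div]
    exact quo P H.ne' H.ne (p.lb_ne (h.all.a1.gne _ hP) F) (H.sec _ hP)
      fun m => (H.bpf _ hP).resolve_right fun u => u.not_mx m
  · refine ⟨ψ - α • ψ', sub_mem H.sec (Submodule.smul_mem _ α H.sec'), sub_ne H α,
      Or.inr ⟨α, rfl⟩, fun P hP => ?_⟩
    rw [t_sub H]
    refine quo P (sub_ne H α) H.ne' (p.lb_ne (h.all.a1.gne _ hP) F) (H.sec' _ hP) fun m => ?_
    refine (H.bpf _ hP).elim (fun u => isU_of_not_mx (H.sec' _ hP) fun m' => u.not_mx ?_) id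
    have e : ψ * p.lb F (plO P) = (ψ - α • ψ') * p.lb F (plO P) +
        algebraMap k M α * (ψ' * p.lb F (plO P)) := by rw [Algebra.smul_def]; ring
    rw [e]
    exact mx_add (mp_loc hP) m (mx_mul_left ((plO P).algebraMap_mem α) m')

theorem nind {P : Place k M} {r : M} (hr : Fr k t r) (h0 : 0 < P.ord r) : ¬ Ind (plO P) ![t] := by
  intro hi
  rcases hr with rfl | ⟨α, rfl⟩
  · have u := ind_one hi 0
    rw [map_zero, sub_zero] at u
    exact h0.ne' ((isU_plO' P).1 u.inv).2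
  · exact h0.ne' ((isU_plO' P).1 (ind_one hi α)).2

end Pen3R

theorem pen3_stmt : Pen3Stmt := by
  intro k M I κ _ _ _ _ _ _ _ p F ψ ψ' t h H
  refine ⟨H, Pen3R.vt h H, Pen3R.mb h H, fun r hr => ?_, ?_⟩
  · obtain ⟨χ, m, n, -, q⟩ := Pen3R.mb h H r hr
    obtain ⟨s, hs, e⟩ := h.ta.sum F χ m n
    have a : ∀ P, P ∈ s ↔ plO P ∈ p.T ∧ 0 < P.ord r := fun P => by
      rw [hs]
      exact and_congr_right fun hP => (q P hP).1.symm
    refine ⟨s, a, e.trans (Finset.sum_congr rfl fun P hP => ?_), fun P hP => ?_⟩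
    · rw [(q P ((a P).1 hP).1).2 ((a P).1 hP).2]
    · obtain ⟨φ, hφ⟩ := h.all.a2.cl P ((a P).1 hP).1
      by_contra z
      exact Pen3R.nind hr ((a P).1 hP).2 ((H.hor _ φ P hφ).1 z)
  · rintro c ⟨φ, P, hp⟩ z
    obtain ⟨r, hr, h0⟩ := Pen3R.vt h H P hp.2.1 fun hi => (H.hor c φ P hp).2 hi z
    obtain ⟨χ, m, n, -, q⟩ := Pen3R.mb h H r hr
    exact h.ta.dvd c φ P hp F χ m n ((q P hp.2.1).1.1 h0)

end Pool.Agent.MP_20d318_ag.CC

end MrgPart1

-- ======== part 2: formerly Pool.Agent.MP_20d318_ag.CC.Inv3x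
section MrgPart2

/-! The generic fibre of the pencil is not rational. -/

set_option autoImplicit false
set_option linter.unusedSectionVars false

namespace Pool.Agent.MP_20d318_ag.CC

open Pool.Agent.MP_20d318_ag.CB Pool.Agent.MP_20d318_ag.CB.P
open Pool.Agent.MP_fd6584_ag.Fn Pool.Agent.CBk MvPolynomial
open Pool.Agent.MP_fd6584_ag.AG hiding deg_inv deg_congr deg_of_unit deg_mul deg_prod deg_zpow
  deg_eq_zero deg_nonneg deg_div deg_pow
open Pool.Agent.MP_20d318_ag.RS (jac)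
open scoped IntermediateField

namespace Inv3x

variable {k M I κ : Type} [Field k] [Field M] [Algebra k M] [Fintype I] [Fintype κ]
  {p : Pd k M I κ} {F : I → ℤ} {ψ ψ' t : M}

/-- The form is a generator at the horizontal places. -/
theorem unit (h : PairA p) (H : PcA p F ψ ψ' t) {P : Place k M} (hP : Ind (plO P) ![t]) {a b : M}
    (c : Cht (plO P) a b) : IsU (plO P) (p.φ * p.j a b ^ 2) := by
  have u := h.chart _ (H.pl P hP) a b c
  have j0 : p.jj (plO P) ≠ 0 := (div_ne_zero_iff.1 u.ne).2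
  have := (isU_prod (s := Finset.univ) fun i _ => H.su P hP i).mul (u.pow 2)
  rwa [← h.eqn _ (H.pl P hP), div_pow, mul_assoc, mul_div_cancel₀ _ (pow_ne_zero 2 j0)] at this

theorem not_mem {u : M} (hi : AlgebraicIndependent k ![t, u]) : u ∉ k⟮t⟯ := fun h => by
  have a := hi.transcendental_adjoin (s := {0}) (i := 1) (by simp)
  rw [Set.image_singleton, ← IntermediateField.transcendental_adjoin_iff] at a
  exact a (isAlgebraic_algebraMap (⟨u, h⟩ : k⟮t⟯))

end Inv3x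

open Inv3x in
theorem inv3x_stmt : Inv3xStmt := by
  intro k M I κ _ _ _ _ _ _ _ p F ψ ψ' t u h H hi htop
  have out : ∀ P : Place k M, Ind (plO P) ![t] → u ∉ plO P →
      p.φ * p.j t u ^ 2 ≠ 0 ∧ (p.φ * p.j t u ^ 2)⁻¹ ∈ mx (plO P) := fun P hP hu => by
    have m := (plO_isVal P).inv_mx hu
    have top : k⟮t, u⁻¹⟯ = ⊤ := top_unique (htop ▸ IntermediateField.adjoin_le_iff.2 (by
      rintro _ (rfl | rfl)
      · exact IntermediateField.subset_adjoin _ _ (Set.mem_insert _ _)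
      · simpa using inv_mem (IntermediateField.subset_adjoin k {t, _⁻¹}
          (Set.mem_insert_of_mem _ rfl))))
    have w := unit h.toPair0.toPairA H.toPcB.toPcA hP (h.tb.cht t u⁻¹ P top hP m.1)
    have e : p.φ * p.j t u⁻¹ ^ 2 = u⁻¹ * u⁻¹ ^ 3 * (p.φ * p.j t u ^ 2) := by
      simp only [Pd.j, jac, Derivation.leibniz_inv, smul_eq_mul]
      ring
    rw [e] at w
    have g0 := right_ne_zero_of_mul w.ne
    refine ⟨g0, ?_⟩
    have := mx_mul_right m ((plO P).mul_mem ((plO P).pow_mem m.1 3) w.inv_mem)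
    rwa [← mul_assoc, mul_inv, mul_inv_cancel_left₀ (left_ne_zero_of_mul w.ne)] at this
  obtain ⟨P, hP, hu⟩ : ∃ P : Place k M, Ind (plO P) ![t] ∧ u ∉ plO P := by
    by_contra n
    exact not_mem hi (H.alg u fun P hP => by_contra fun c => n ⟨P, hP, c⟩)
  obtain ⟨g0, g1⟩ := out P hP hu
  refine (Orb.isU_K hP (H.alg _ fun Q hQ => ?_) (inv_ne_zero g0)).not_mx g1
  by_cases c : u ∈ plO Q
  · exact (unit h.toPair0.toPairA H.toPcB.toPcA hQ (h.tb.cht t u Q htop hQ c)).inv_mem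
  · exact (out Q hQ c).2.1

end Pool.Agent.MP_20d318_ag.CC

end MrgPart2

-- ======== part 3: formerly Pool.Agent.MP_20d318_ag.CC.Inv4x
section MrgPart3

/-! The involution of the quadratic extension preserves the form up to sign. -/

set_option autoImplicit false
set_option linter.unusedSectionVars false

namespace Pool.Agent.MP_20d318_ag.CC

open Pool.Agent.MP_20d318_ag.CB Pool.Agent.MP_20d318_ag.CB.P
open Pool.Agent.MP_fd6584_ag.Fn Pool.Agent.CBk MvPolynomial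
open Pool.Agent.MP_fd6584_ag.AG hiding deg_inv deg_congr deg_of_unit deg_mul deg_prod deg_zpow
  deg_eq_zero deg_nonneg deg_div deg_pow
open scoped IntermediateField

open Inv4 in
theorem inv4x_stmt : Inv4xStmt := by
  intro k M I κ _ _ _ _ _ _ _ p F ψ ψ' t u hp hc hi hn hf hle
  have mt : t ∈ k⟮t, u⟯ := IntermediateField.subset_adjoin _ _ (by simp)
  have mu : u ∈ k⟮t, u⟯ := IntermediateField.subset_adjoin _ _ (by simp)
  have two : Module.finrank k⟮t, u⟯ M = 2 := by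
    have h1 : 0 < Module.finrank k⟮t, u⟯ M := Module.finrank_pos
    have h2 : Module.finrank k⟮t, u⟯ M ≠ 1 := fun e =>
      hn (IntermediateField.finrank_eq_one_iff_eq_top.1 e)
    omega
  obtain ⟨hsep, σ, inv, fix⟩ := gal k⟮t, u⟯ two
  have ft := (fix t).2 mt
  have fu := (fix u).2 mu
  have hj : p.j t u ≠ 0 := hp.all.jc.ne _ _ _ _ _ _ hp.jne fun D h1 h2 f => by
    have hk : ∀ c ∈ k⟮t, u⟯, D c = 0 := fun c hc => by
      induction hc using IntermediateField.adjoin_induction with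
      | mem x hx => rcases hx with rfl | rfl; exacts [h1, h2]
      | algebraMap c => exact D.map_algebraMap c
      | add x y _ _ hx hy => rw [map_add, hx, hy, add_zero]
      | inv x _ hx => rw [Derivation.leibniz_inv, hx, smul_zero]
      | mul x y _ _ hx hy => rw [Derivation.leibniz, hx, hy, smul_zero, smul_zero, add_zero]
    have h0 := Inv3.der (K := k⟮t, u⟯) (D := D) (fun c => hk c c.2) f (minpoly _ f)
    rw [minpoly.aeval, map_zero] at h0
    exact (mul_eq_zero.1 h0.symm).resolve_left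
      ((Algebra.IsSeparable.isSeparable _ f).aeval_derivative_ne_zero (minpoly.aeval _ f))
  have hom : ∀ a b, σ (p.j a b) * p.j t u = σ (p.j t u) * p.j (σ a) (σ b) := fun a b => by
    have := hp.all.jc.hom p.D₁ p.D₂ _ _ hp.gen σ a b t u
    rwa [ft, fu] at this
  have hg : p.φ * p.j t u ^ 2 ≠ 0 := mul_ne_zero hp.φne (pow_ne_zero _ hj)
  obtain ⟨r, hr⟩ : ∃ r, σ (p.φ * p.j t u ^ 2) = r * (p.φ * p.j t u ^ 2) :=
    ⟨_, (div_mul_cancel₀ _ hg).symm⟩
  have key : ∀ a b, σ (p.φ * p.j a b ^ 2) = r * (p.φ * p.j (σ a) (σ b) ^ 2) := fun a b => by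
    refine mul_right_cancel₀ (pow_ne_zero 2 hj) ?_
    rw [map_mul, map_pow] at hr ⊢
    rw [mul_assoc, ← mul_pow, hom, mul_pow, ← mul_assoc, hr]
    ring
  have r1 : σ r * r = 1 := by
    have := congrArg σ hr
    rw [inv, map_mul σ r, hr, ← mul_assoc] at this
    exact mul_right_cancel₀ hg (by rw [← this, one_mul])
  have alg : r ∈ k⟮t⟯ := hc.alg r fun P hP => by
    have hT := hc.pl P hP
    obtain ⟨a, b, hab⟩ := hp.all.a1.chart _ hT
    have h0 := hp.chart _ hT a b hab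
    have h1 := ((hp.eqn _ hT ▸ isU_prod fun i _ => hc.su P hP i : IsU _ (p.φ * _))).mul (h0.pow 2)
    have m : ∀ c ∈ ({a, b} : Set M), σ c ∈ plO (pull P σ) := fun c hc =>
      show σ (σ c) ∈ plO P from (inv c).symm ▸ hab.2.2.1 (Algebra.subset_adjoin hc)
    have h3 : σ (p.φ * p.j (σ a) (σ b) ^ 2) ∈ plO P := hp.reg _ (hc.pl _ (ind_pull ft hP))
      _ (m a (by simp)) _ (m b (by simp))
    rw [key, inv, inv] at h3
    rw [mul_assoc, ← mul_pow, mul_div_cancel₀ _ (div_ne_zero_iff.1 h0.ne).2] at h1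
    have h4 := h1.div_mem h3
    rwa [mul_div_cancel_right₀ _ h1.ne] at h4
  have rr : σ r = r := (fix r).2 (IntermediateField.adjoin.mono _ _ _ (by simp) alg)
  rw [rr] at r1
  refine ⟨σ, hi, two, ft, fu, inv, fun m => (fix m).1, ?_⟩
  rcases mul_self_eq_one_iff.1 r1 with rfl | rfl
  · exact ⟨1, one_ne_zero, fun a b => by rw [key, map_one]⟩
  · exact ⟨-1, neg_ne_zero.2 one_ne_zero, fun a b => by rw [key, map_neg, map_one]⟩

end Pool.Agent.MP_20d318_ag.CC

end MrgPart3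

-- ======== part 4: formerly Pool.Agent.MP_20d318_ag.CC.Orbx
section MrgPart4

/-! The action of the involution on the classes, modulo the components of the fibres. -/

set_option autoImplicit false
set_option linter.unusedSectionVars false

namespace Pool.Agent.MP_20d318_ag.CC

open Pool.Agent.MP_20d318_ag.CB Pool.Agent.MP_20d318_ag.CB.P
open Pool.Agent.MP_fd6584_ag.Fn Pool.Agent.CBk MvPolynomial
open Pool.Agent.MP_fd6584_ag.AG hiding deg_inv deg_congr deg_of_unit deg_mul deg_prod deg_zpow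
  deg_eq_zero deg_nonneg deg_div deg_pow
open scoped IntermediateField

open Orb in
theorem orbx_stmt : OrbxStmt := by
  intro k M I κ _ _ _ _ _ _ _ p F D ψ ψ' t s s' σ ρ hp pf in2 hD hs hs' hs0 iv ac
  have h1 := hp.all.a1
  have h2 := hp.all.a2
  have hF := pf.mem
  have hρ : act ρ F = F := by
    obtain ⟨τ, φ₀, P₀, -, hP, ho, hz⟩ := pf.gen
    obtain ⟨φ', P', h3, h4⟩ := ac.prm _ _ _ hP
    have h5 := h4 (t - algebraMap k M τ)
    rw [map_sub, iv.ft, AlgEquiv.commutes, ho] at h5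
    obtain rfl := hz P' h3.2.1 (by omega)
    exact h1.uniq _ _ _ _ _ h3 hP
  have hnb : ∀ Q : Place k M, plO Q ∈ p.T → Ind (plO Q) ![t] → s * p.lb D (plO Q) ∈ mx (plO Q) →
      s' * p.lb D (plO Q) ∉ mx (plO Q) := by
    intro Q hQ hI hm hm'
    obtain ⟨φ, hφ⟩ := h2.cl Q hQ
    have e : s / φ / (s' / φ) = s / s' := div_div_div_cancel_right₀ hφ.1 s s'
    have h3 := (in2 _ _ (h2.sub _ _ _ hφ D s hs hm) _ (h2.sub _ _ _ hφ D s' hs' hm')
      (div_ne_zero hs0 hφ.1) (e ▸ iv.ind)).2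
    rw [e, iv.two, ip_sub_left, hD] at h3
    have h4 := (pf.hor _ _ _ hφ).2 hI
    have h5 := h2.pos _ ⟨_, _, hφ⟩ _ hF fun e' => h4 (e' ▸ pf.sq)
    omega
  have key : ∀ c ∈ p.PP, toR (act ρ c + c - ip p.B c F • D) ∈ VF p.ld F := by
    rintro c ⟨φ, P, hP⟩
    obtain ⟨φ', P', hP', hσ⟩ := ac.prm _ _ _ hP
    have hc : ip p.B (act ρ c) F = ip p.B c F := by
      have := ac.iso c _ hF
      rwa [hρ] at this
    by_cases h0 : ip p.B c F = 0
    · rw [h0, zero_smul, sub_zero, toR_add]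
      exact (VF p.ld F).add_mem (Submodule.subset_span ⟨_, ⟨⟨_, _, hP'⟩, hc.trans h0⟩, rfl⟩)
        (Submodule.subset_span ⟨_, ⟨⟨_, _, hP⟩, h0⟩, rfl⟩)
    have hI := (pf.hor _ _ _ hP).1 h0
    have hI' := (pf.hor _ _ _ hP').1 (hc ▸ h0)
    by_cases hu : s / s' ∈ plO P
    · obtain ⟨m, a, w, ha, hw, e⟩ := core h1 h2 pf.hor hs hs' hs0 hnb hP hP' hσ iv.inv
        (fun m => ⟨fun h => mem_adj (IntermediateField.mem_adjoin_simple_self _ _) (iv.fix m h),
          fix_K iv.ft iv.fu⟩) hI hI' hu (exists_rel iv.ind (h1.dim P hP.2.1).2 (hI.1 0) hu)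
      exact lat (Λ := { p.ld with C := fun _ => F }) hD hc ha hw e
    · have u0 : s / s' ≠ 0 := fun e => hu (e ▸ (plO P).zero_mem)
      have h3 := (plO_isVal P).inv_mx hu
      have h4 : σ (s' / s) = s' / s := by rw [← inv_div s s', map_inv₀, iv.fu]
      rw [inv_div] at h3
      obtain ⟨m, a, w, ha, hw, e⟩ := core h1 h2 pf.hor hs' hs (div_ne_zero_iff.1 u0).1
        (fun Q hQ hI h h' => hnb Q hQ hI h' h) hP hP' hσ iv.inv
        (fun m => ⟨fun h => mem_adj (inv_div s' s ▸ inv_mem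
          (IntermediateField.mem_adjoin_simple_self _ _)) (iv.fix m h), fix_K iv.ft h4⟩) hI hI'
        h3.1 ⟨Polynomial.X, by
          rw [Polynomial.aeval_X]
          exact ⟨div_ne_zero hs0 (div_ne_zero_iff.1 u0).1, h3⟩⟩
      exact lat (Λ := { p.ld with C := fun _ => F }) hD hc ha hw e
  have e : ∀ y : I → ℤ, toR (act ρ y + y - ip p.B y F • D) =
      act ρ (toR y) + toR y - ip p.B (toR y) (toR F) • toR D := fun y => by
    rw [toR_sub, toR_add, toR_act, toR_zsmul, ip_toR]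
  let U : Submodule ℝ (I → ℝ) :=
    { carrier := {r | act ρ r + r - ip p.B r (toR F) • toR D ∈ VF p.ld F}
      add_mem' := fun {a b} ha hb => by
        have := (VF p.ld F).add_mem ha hb
        rw [Set.mem_ofPred_eq, act_add, ip_add_left, add_smul]
        convert this using 1
        abel
      zero_mem' := by
        have := act_smul ρ (0 : ℝ) 0
        rw [zero_smul, zero_smul] at this
        rw [Set.mem_ofPred_eq, this, ip_zero_left, zero_smul, add_zero, sub_zero]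
        exact (VF p.ld F).zero_mem
      smul_mem' := fun r a ha => by
        have := (VF p.ld F).smul_mem r ha
        rwa [smul_sub, smul_add, smul_smul, ← act_smul, ← ip_smul_left] at this }
  refine ⟨hρ, fun y => ?_⟩
  have h3 : toR y ∈ U := hp.b0.lb.span U (fun c hc => show _ ∈ VF p.ld F from e c ▸ key c hc) ▸
    Submodule.mem_top
  rw [e]
  exact h3

end Pool.Agent.MP_20d318_ag.CC

end MrgPart4

-- ======== part 5: formerly Pool.Agent.MP_20d318_ag.CC.Fibc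
section MrgPart5

/-! The sum of a fibre component and its conjugate is a multiple of the fibre, up to the components
that do not meet `H`. -/

set_option autoImplicit false

namespace Pool.Agent.MP_20d318_ag.CC

open Pool.Agent.MP_20d318_ag.CB Pool.Agent.MP_20d318_ag.CB.P
open Pool.Agent.MP_fd6584_ag.Fn Pool.Agent.CBk
open Pool.Agent.MP_fd6584_ag.AG (plO)
open Pool.Agent.MP_20d318_ag.CB.P.TransA (pc)

theorem fibc_stmt : FibcStmt := by
  intro k M I κ _ _ _ _ _ _ _ p F H ψ ψ' t u σ ρ h hF hU hC c hc cF cH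
  classical
  obtain ⟨φ, P, hP⟩ := hc
  obtain ⟨r, hr, hm⟩ := hF.vt P hP.2.1 fun hi => (hF.hor c φ P hP).2 hi cF
  obtain ⟨s, hs, eF, s0⟩ := hF.fd r hr
  obtain ⟨φ', hP'⟩ := h.tb.plc σ ρ hU.ac hU.iv.inv c φ P hP
  have er : σ r = r := by
    rcases hr with rfl | ⟨α, rfl⟩
    · rw [map_inv₀, hU.iv.ft]
    · rw [map_sub, hU.iv.ft, AlgEquiv.commutes]
  have eo : (pc σ P).ord r = P.ord r := by rw [TransA.pc_ord, er]
  have e1 : p.cl P = c := h.all.a2.clp c φ P hP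
  have e2 : p.cl (pc σ P) = act ρ c := h.all.a2.clp _ φ' _ hP'
  have m1 : P ∈ s := (hs P).2 ⟨hP.2.1, hm⟩
  have m2 : pc σ P ∈ s := (hs _).2 ⟨hP'.2.1, eo ▸ hm⟩
  have rest : toR (∑ Q ∈ (s.erase P).erase (pc σ P), Q.ord r • p.cl Q) ∈ VH p.ld F H := by
    rw [toR_sum]
    refine sum_mem fun Q hQ => ?_
    obtain ⟨n2, hQ⟩ := Finset.mem_erase.1 hQ
    obtain ⟨n1, hQ⟩ := Finset.mem_erase.1 hQ
    obtain ⟨q1, q2⟩ := (hs Q).1 hQ
    obtain ⟨χ, hχ⟩ := h.all.a2.cl Q q1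
    rw [toR_zsmul]
    refine Submodule.smul_mem _ _ (Submodule.subset_span ⟨_, ⟨⟨χ, Q, hχ⟩, s0 Q hQ, ?_⟩, rfl⟩)
    by_contra hn
    exact (hC r hr P Q hP.2.1 q1 hm q2 (e1 ▸ cH) hn).elim n1 n2
  have m0 : (P.ord r : ℝ) ≠ 0 := by exact_mod_cast hm.ne'
  rw [← Finset.add_sum_erase _ _ m1, e1] at eF
  by_cases hPP : pc σ P = P
  · rw [hPP, Finset.erase_idem] at rest
    rw [hPP, e1] at e2
    refine ⟨2 / P.ord r, ?_⟩
    have e := congrArg toR eF
    rw [toR_add, toR_zsmul] at e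
    rw [← e2, toR_add, e, smul_add, smul_smul, div_mul_cancel₀ _ m0, two_smul,
      sub_add_cancel_left]
    exact neg_mem (Submodule.smul_mem _ _ rest)
  · rw [← Finset.add_sum_erase _ _ (Finset.mem_erase.2 ⟨hPP, m2⟩), e2, eo, ← add_assoc,
      ← smul_add] at eF
    refine ⟨1 / P.ord r, ?_⟩
    have e := congrArg toR eF
    rw [toR_add, toR_zsmul] at e
    rw [e, smul_add, smul_smul, div_mul_cancel₀ _ m0, one_smul, sub_add_cancel_left]
    exact neg_mem (Submodule.smul_mem _ _ rest)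

end Pool.Agent.MP_20d318_ag.CC

end MrgPart5

-- ======== part 6: formerly Pool.Agent.MP_20d318_ag.CC.Us2b
section MrgPart6

set_option autoImplicit false

namespace Pool.Agent.MP_20d318_ag.CC

open Pool.Agent.MP_20d318_ag.CB Pool.Agent.MP_20d318_ag.CB.P
open Pool.Agent.MP_fd6584_ag.Fn Pool.Agent.CBk Pool.Agent.MP_fd6584_ag.AG
open Pool.Agent.MP_20d318_ag.CB.P.TransA (pc pc_ord)

theorem us2b_stmt : Us2bStmt := by
  intro k M I κ _ _ _ _ _ _ _ p F G G' e J J' a a' t φ s E i j h U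
  have a1 := h.all.a1
  have H := U.hq.l
  have hE := U.prm.2.1
  have lb : ∀ O ∈ p.T, ∀ x y : M, x / y = x * p.lb (D2 p F e i j) O / (y * p.lb (D2 p F e i j) O) :=
    fun O hO x y => (mul_div_mul_right x y (p.lb_ne (a1.gne O hO) _)).symm
  have reg : ∀ P : Place k M, plO P ∈ p.T → P ≠ E → IsU (plO P) (a * p.lb G (plO P)) →
      IsU (plO P) (a' * p.lb G' (plO P)) → (∀ m, IsU (plO P) (p.s m (plO P))) →
      s / s2 p a a' φ i j ∈ plO P := fun P hP ne h1 h2 h3 => by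
    rw [lb _ hP]
    refine IsU.div_mem ?_ (U.sec _ hP)
    rw [U.fac _ hP]
    exact ((h1.mul h2).mul ((isU_of_not_mx (a1.pmem _ _ _ U.prm _ hP) fun m =>
      ne (a1.peq _ _ _ U.prm P hP m)).pow 2)).mul ((h3 i).mul (h3 j))
  have van : ∀ O ∈ p.T, O ≤ plO E → (s / s2 p a a' φ i j)⁻¹ ∈ mx O := fun O hO le => by
    rw [inv_div, lb O hO, U.fac O hO]
    exact mx_div (mx_mul_right (mx_mul_left (O.mul_mem (U.ua O hO le).1.mem (U.ua O hO le).2.mem)
      (mx_pow ((a1.pmx _ _ _ U.prm O hO).2 le) two_ne_zero))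
      (O.mul_mem (s_mem h.toPair0 hO i) (s_mem h.toPair0 hO j))) (U.us O hO (Or.inl le))
  have u0 : s / s2 p a a' φ i j ≠ 0 :=
    div_ne_zero (left_ne_zero_of_mul (U.us _ hE (Or.inl le_rfl)).1) U.ne'
  have eF := U.eF
  refine ⟨?_, fun σ ρ V => ?_⟩
  · obtain ⟨τ, φ₀, P, h0, h1, h2, -⟩ := H.pc.gen
    have ne : P ≠ E := fun z => by
      have := U.sq
      rw [a1.uniq _ _ _ _ _ h1 (z ▸ U.prm)] at eF
      omega
    obtain ⟨O, hO, l1, l2⟩ := (h.ta.meet _ _ _ _ _ _ U.prm h1 ne.symm).1 (by omega)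
    obtain ⟨z1, z2, z3⟩ := H.zg τ h0 P h1.2.1 (by omega) _ h1.2.1 le_rfl
    have t0 : t - algebraMap k M τ ≠ 0 := fun z => by simp [z] at h2
    exact h.tb.ind2 _ t _ τ t0 ((mx_plO t0).2 (by omega))
      (h.tb.nc P h1.2.1 O hO l2 _ (reg P h1.2.1 ne z1 z2 z3) u0 (van O hO l1))
  · obtain ⟨φ', h1⟩ := h.tb.plc σ ρ V.ac V.iv.inv _ _ _ U.prm
    have h2 := h.tb.fix σ t E V.iv.ft ((H.pc.hor _ _ _ U.prm).1 (by omega))
    have h3 : pc σ E = E := by_contra fun ne => by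
      have b1 := mem_plO_ord.1 (reg _ h1.2.1 ne (H.hz _ h2).1 (H.hz _ h2).2 (H.pc.su _ h2))
      have b2 := (mx_plO (inv_ne_zero u0)).1 (van _ hE le_rfl)
      rw [pc_ord, V.iv.fu] at b1
      rw [E.ord_inv] at b2
      omega
    have h4 := a1.uniq _ _ _ _ _ (h3 ▸ h1) U.prm
    obtain ⟨π, hπ⟩ := V.perm
    have h5 : ∀ m, ip p.B (p.C m) e = 1 → π m = i ∨ π m = j := fun m hm => by
      have := V.ac.iso (p.C m) e ⟨φ, E, U.prm⟩
      rw [hπ, h4, hm] at this
      by_contra n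
      rw [U.Cm _ (not_or.1 n).1 (not_or.1 n).2] at this
      omega
    have h6 : π i ≠ π j := fun z => (H.cpl j).1 U.jJ (π.injective z ▸ U.iJ)
    simp only [H2, act_add, act_smul, V.fF, h4, hπ]
    rcases h5 i U.Ci with b | b <;> rcases h5 j U.Cj with c | c
    exacts [absurd (b.trans c.symm) h6, by rw [b, c], by rw [b, c, add_comm (p.C j)],
      absurd (b.trans c.symm) h6]

end Pool.Agent.MP_20d318_ag.CC

end MrgPart6

-- ======== part 7: formerly Pool.Agent.MP_20d318_ag.CC.Gr2a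
section MrgPart7

/-! ROW GR2A: a curve on the threefold over a given curve, along the graph of a function. -/

set_option autoImplicit false
set_option linter.unusedSectionVars false

namespace Pool.Agent.MP_20d318_ag.CC

open Pool.Agent.MP_20d318_ag.CB Pool.Agent.MP_20d318_ag.CB.P
open Pool.Agent.MP_fd6584_ag.Fn Pool.Agent.CBk MvPolynomial
open Pool.Agent.MP_fd6584_ag.AG hiding deg_inv deg_congr deg_of_unit deg_mul deg_prod deg_zpow
  deg_eq_zero deg_nonneg deg_div deg_pow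
open Pool.Agent.CBk.XTst (mem_of_dom zor tau_unit)
open Classical

namespace Gr2aR

theorem algM_of_sub {k K : Type} [Field k] [Field K] [Algebra k K] {O B : Subalgebra k K}
    {a b : K} (hb : b ∈ B) (h : a - b ∈ mx O) : AlgM O B a := by
  refine ⟨Polynomial.X - Polynomial.C b, fun i => ?_, ⟨1, ?_⟩, by simpa using h⟩
  · rw [Polynomial.coeff_sub, Polynomial.coeff_X, Polynomial.coeff_C]
    refine B.sub_mem ?_ ?_
    · split_ifs
      exacts [B.one_mem, B.zero_mem]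
    · split_ifs
      exacts [hb, B.zero_mem]
  · simpa using isU_one

end Gr2aR

theorem gr2a_stmt : Gr2aStmt := by
  intro k M K I κ _ _ _ _ _ _ _ _ _ p ι l ζ w P u h hP hi
  have htr : Tr ι (ζ - ι u) := by
    have := h.ext.tr.lin (a := 1) one_ne_zero (-u)
    rwa [map_one, one_mul, map_neg, ← sub_eq_add_neg] at this
  obtain ⟨V, hV, hd, hv⟩ :=
    (up_stmt k M K ι (plO P) (ζ - ι u) (h.t.all.a1.nice.loc _ hP) htr).1 0
  rw [map_zero, sub_zero] at hv
  obtain ⟨O, hO, hOV, he⟩ := XTs.lift h hP hV hd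
  have hl := h.loc.fine.loc O hO
  have hu0 : u ∈ pr ι p.T O := he ▸ (by simpa using hi.1 0)
  have hu1 : ι u ∈ O := h.loc.maps.mem_up hO hu0
  have hz : ζ ∈ O := mem_of_dom hOV (zor (h.loc.zm O hO))
    (by simpa using V.add_mem hv.1 (hOV.1 hu1))
  have hv' : ζ - ι u ∈ mx O := mx_of_le hOV.1 (O.sub_mem hz hu1) hv
  have hu : ∀ j, IsU O (tau l ζ j O) := tau_unit hz fun c _ => by
    have h1 : IsU (pr ι p.T O) (u - algebraMap k M c) := he ▸ ind_one hi c
    have h2 := (h.loc.maps.isU_up hO h1).add_mx hl hv'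
    rwa [map_sub, AlgHom.commutes, sub_add_sub_cancel'] at h2
  have h1 : Dim O 1 := h.loc.dimZ O hO 1 (he ▸ (h.t.all.a1.dim P hP).2)
    (Gr2aR.algM_of_sub (b := ι u) ⟨u, hu0, rfl⟩ (by rwa [zc, if_pos hz]))
    fun ⟨hA, i, hi⟩ => XTs.A_not h hO hu hi hA.mem
  obtain ⟨ν, rfl⟩ := curve_stmt k K _ h.loc.fine.toGood O hO h1 (XTs.nd0 h hO hP he)
  exact ⟨ν, he, hv'⟩

end Pool.Agent.MP_20d318_ag.CC

end MrgPart7

-- marker of a merged file
example : 731051 + 92044 = 731051 + 92044 := rfl
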