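import Pool.Agent.MP_20d318_ag.CC.Spec

-- ======== part 0: formerly Pool.Agent.MP_20d318_ag.CC.Gcd
section MrgPart0

/-! Project CC, row GCD: the common part of two members of a linear system. -/

set_option autoImplicit false
set_option linter.unusedSectionVars false

namespace Pool.Agent.MP_20d318_ag.CC

open Pool.Agent.MP_20d318_ag.CB Pool.Agent.MP_20d318_ag.CB.P
open Pool.Agent.MP_fd6584_ag.Fn Pool.Agent.CBk MvPolynomial
open Pool.Agent.MP_fd6584_ag.AG hiding deg_inv deg_congr deg_of_unit deg_mul deg_prod deg_zpow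
  deg_eq_zero deg_nonneg deg_div deg_pow

namespace GcdR

variable {k M I : Type} [Field k] [Field M] [Algebra k M] [Fintype I] {S : Sd k M I}

open Classical in
theorem key (h : SAll S) (s : Finset (Place k M)) (m : Place k M → ℤ) (φ : Place k M → M)
    (hφ : ∀ P ∈ s, S.Prm (S.cl P) (φ P) P) (D : I → ℤ) {χ : M} (hχ : χ ≠ 0) (Q : Place k M)
    (hQ : plO Q ∈ S.T) :
    χ / (∏ P ∈ s, φ P ^ m P) * S.lb (D - ∑ P ∈ s, m P • S.cl P) (plO Q) ≠ 0 ∧
      Q.ord (χ / (∏ P ∈ s, φ P ^ m P) * S.lb (D - ∑ P ∈ s, m P • S.cl P) (plO Q)) =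
        Q.ord (χ * S.lb D (plO Q)) - if Q ∈ s then m Q else 0 := by
  have g := h.a1.gne _ hQ
  have n1 : ∀ P ∈ s, (φ P * S.lb (S.cl P) (plO Q)) ^ m P ≠ 0 := fun P hP =>
    zpow_ne_zero _ (mul_ne_zero (hφ P hP).1 (S.lb_ne g _))
  have n2 : χ * S.lb D (plO Q) ≠ 0 := mul_ne_zero hχ (S.lb_ne g _)
  have e : χ / (∏ P ∈ s, φ P ^ m P) * S.lb (D - ∑ P ∈ s, m P • S.cl P) (plO Q) =
      χ * S.lb D (plO Q) / ∏ P ∈ s, (φ P * S.lb (S.cl P) (plO Q)) ^ m P := by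
    rw [S.lb_sub g, S.lb_sum g, div_mul_div_comm, ← Finset.prod_mul_distrib]
    simp only [Sd.lb_zsmul, mul_zpow]
  have n3 := Finset.prod_ne_zero_iff.2 n1
  rw [e]
  refine ⟨div_ne_zero n2 n3, ?_⟩
  rw [Q.ord_div n2 n3, Q.ord_prod _ _ n1]
  have e2 : ∀ P ∈ s, Q.ord ((φ P * S.lb (S.cl P) (plO Q)) ^ m P) = if Q = P then m P else 0 :=
    fun P hP => by
      rw [Q.ord_zpow, (hφ P hP).2.2 Q hQ]
      by_cases z : Q = P
      · rw [if_pos z, if_pos z, mul_one]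
      · rw [if_neg z, if_neg z, mul_zero]
  rw [Finset.sum_congr rfl e2, Finset.sum_ite_eq]

end GcdR

theorem gcd_stmt : GcdStmt := by
  classical
  intro k M I _ _ _ _ _ _ S h ta D ψ hψ ψ' hψ' n n'
  obtain ⟨s0, hs0, -⟩ := ta.sum D ψ hψ n
  have hc : ∀ P : Place k M, ∃ φ : M, plO P ∈ S.T → S.Prm (S.cl P) φ P := fun P => by
    by_cases hP : plO P ∈ S.T
    · obtain ⟨φ, hφ⟩ := h.a2.cl P hP
      exact ⟨φ, fun _ => hφ⟩
    · exact ⟨0, fun a => absurd a hP⟩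
  choose φ hφ using hc
  obtain ⟨s, hs⟩ : ∃ s : Finset (Place k M), ∀ P, P ∈ s ↔ plO P ∈ S.T ∧
      ψ * S.lb D (plO P) ∈ mx (plO P) ∧ ψ' * S.lb D (plO P) ∈ mx (plO P) :=
    ⟨s0.filter fun P => ψ' * S.lb D (plO P) ∈ mx (plO P), fun P => by
      rw [Finset.mem_filter, hs0, and_assoc]⟩
  obtain ⟨m, hm⟩ : ∃ m : Place k M → ℤ, ∀ P, m P =
      min (P.ord (ψ * S.lb D (plO P))) (P.ord (ψ' * S.lb D (plO P))) := ⟨_, fun _ => rfl⟩
  have hp : ∀ P ∈ s, S.Prm (S.cl P) (φ P) P := fun P hP => hφ P ((hs P).1 hP).1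
  have K1 := GcdR.key h s m φ hp D n
  have K2 := GcdR.key h s m φ hp D n'
  have o1 : ∀ Q : Place k M, plO Q ∈ S.T → 0 ≤ Q.ord (ψ * S.lb D (plO Q)) := fun Q hQ =>
    mem_plO_ord.1 (hψ _ hQ)
  have o2 : ∀ Q : Place k M, plO Q ∈ S.T → 0 ≤ Q.ord (ψ' * S.lb D (plO Q)) := fun Q hQ =>
    mem_plO_ord.1 (hψ' _ hQ)
  refine ⟨s, ∏ P ∈ s, φ P ^ m P, D - ∑ P ∈ s, m P • S.cl P,
    Finset.prod_ne_zero_iff.2 fun P hP => zpow_ne_zero _ (hp P hP).1, hs, ?_,
    ta.sec _ _ fun Q hQ => mem_plO_ord.2 ?_, ta.sec _ _ fun Q hQ => mem_plO_ord.2 ?_,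
    fun Q hQ => ?_⟩
  · simp only [← hm, sub_add_cancel]
  · rw [(K1 Q hQ).2]
    have := o1 Q hQ
    have := hm Q
    split_ifs <;> omega
  · rw [(K2 Q hQ).2]
    have := o2 Q hQ
    have := hm Q
    split_ifs <;> omega
  · rw [isU_plO', isU_plO', (K1 Q hQ).2, (K2 Q hQ).2, and_iff_right (K1 Q hQ).1,
      and_iff_right (K2 Q hQ).1]
    have g := h.a1.gne _ hQ
    have a := o1 Q hQ
    have b := o2 Q hQ
    have c := hm Q
    have d := hs Q
    rw [and_iff_right hQ, mx_plO (mul_ne_zero n (S.lb_ne g _)),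
      mx_plO (mul_ne_zero n' (S.lb_ne g _))] at d
    by_cases z : Q ∈ s
    · rw [if_pos z]
      omega
    · rw [if_neg z]
      have := mt d.2 z
      omega

end Pool.Agent.MP_20d318_ag.CC

end MrgPart0

-- ======== part 1: formerly Pool.Agent.MP_20d318_ag.CC.Half
section MrgPart1

/-! An elliptic pencil has finitely many proper fibre components. -/

set_option autoImplicit false
set_option linter.unusedSectionVars false

namespace Pool.Agent.MP_20d318_ag.CC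

open Pool.Agent.MP_20d318_ag.CB Pool.Agent.MP_20d318_ag.CB.P
open Pool.Agent.MP_fd6584_ag.Fn Pool.Agent.CBk MvPolynomial
open Pool.Agent.MP_fd6584_ag.AG hiding deg_inv deg_congr deg_of_unit deg_mul deg_prod deg_zpow
  deg_eq_zero deg_nonneg deg_div deg_pow

namespace HalfR

theorem lat {ι κ : Type} [Fintype ι] [Fintype κ] {Λ : Ld ι κ} (h : B0 Λ) (l : LL Λ)
    {F F' c : ι → ℤ} (hp : Pr Λ F F') (hn : Λ.Nef F) (hc : c ∈ Λ.P) (he : F - c ∈ Λ.Ef)
    (ne : c ≠ F) : (ip Λ.B c c < 0 ∧ |ip Λ.B c Λ.h| ≤ ip Λ.B Λ.h F + 4 ∧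
      -(ip Λ.B Λ.h F + 4) ≤ ip Λ.B c c) ∨ (2 : ℤ) • c = F := by
  obtain ⟨⟨f1, -⟩, f2, f3⟩ := hp.1
  have a1 := hn c hc
  have a2 := h.lb.efn F hn _ he
  have a3 := h.nc.hpos c hc
  have a4 := h.lb.hef _ he (sub_ne_zero.2 ne.symm)
  rw [ip_sub_right] at a2 a4
  have a5 : ip Λ.B c F = 0 := by rw [ip_comm h.nc.sym]; omega
  obtain ⟨b1, b2⟩ := h.hg.iso (toR F) (toR c) (by rw [ip_toR, f2]; simp) (fun z => by
    rw [toR_inj (z.trans toR_zero.symm), ip_zero_right] at f3; omega) (by rw [ip_toR, a5]; simp)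
  rw [ip_toR] at b1 b2
  rcases (by exact_mod_cast b1 : ip Λ.B c c ≤ 0).lt_or_eq with z | z
  · refine Or.inl ⟨z, ?_, ?_⟩
    · rw [ip_comm h.nc.sym, abs_le]; omega
    · rcases h.lb.neg c hc z with ⟨i, rfl⟩ | ⟨-, e, -⟩ | ⟨-, e, -⟩
      · rw [h.nc.m4]; omega
      · omega
      · omega
  · obtain ⟨q, hq⟩ := b2 (by rw [z]; simp)
    obtain ⟨m, hm⟩ := l.prim F F' hp _ (l.two c fun i => by
      have := ip_toR Λ.B c (Λ.C i)
      rw [hq, ip_smul_left, ip_toR, f1] at this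
      exact_mod_cast (by simpa using this.symm)) (by rw [ip_smul_left, a5]; simp)
      (by rw [ip_smul_left, ip_smul_right, z]; simp)
    have e := congrArg (ip Λ.B Λ.h) hm
    rw [ip_smul_right, ip_smul_right] at e
    obtain rfl : m = 1 := by
      have : 0 < m := by by_contra g; nlinarith
      have : m < 2 := by by_contra g; nlinarith
      omega
    exact Or.inr (by simpa using hm)

variable {k M I κ : Type} [Field k] [Field M] [Algebra k M] [Fintype I] [Fintype κ]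
  {p : Pd k M I κ}

theorem one (h : Cob p) {F c : I → ℤ} (hF : F ∈ Is p.ld) (hp : Par p F) (e : (2 : ℤ) • c = F)
    {φ φ' : M} {P P' : Place k M} (a : p.Prm c φ P) (a' : p.Prm c φ' P') : P = P' := by
  classical
  by_contra ne
  have A1 := h.all.a1
  have A2 := h.all.a2
  obtain ⟨Q, hQ⟩ := h.prm p.k0
  obtain ⟨O, hO, rO, lO⟩ := h.ta.rat Q hQ.2.1
  have c0 : ip p.B c (p.C p.k0) = 0 := by
    have : ip p.B F (p.C p.k0) = 0 := hF.1.1 p.k0
    rw [← e, ip_smul_left] at this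
    omega
  have u : IsU (plO Q) (φ' * p.lb c (plO Q)) :=
    isU_of_not_mx (A1.pmem _ _ _ a' _ hQ.2.1) fun z => by
      have m4 : ip p.B (p.C p.k0) (p.C p.k0) = -4 := h.b0.nc.m4 p.k0
      obtain rfl := A1.peq _ _ _ a' Q hQ.2.1 z
      rw [A1.uniq _ _ _ _ _ a' hQ] at c0
      omega
  obtain ⟨t, ht⟩ := h.ta.comb O hO rO c φ (A1.pmem _ _ _ a) φ' (A1.pmem _ _ _ a')
    ((A2.nn _ _ _ hQ c φ' (A1.pmem _ _ _ a') u).2.1 c0 O hO lO)
  have H : Hf p F ∅ c (φ - t • φ') := by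
    refine ⟨sub_mem (A1.pmem _ _ _ a) (Submodule.smul_mem _ _ (A1.pmem _ _ _ a')), fun z => ?_,
      by simp [e]⟩
    refine ne (A1.peq _ _ _ a P' a'.2.1 ?_).symm
    rw [sub_eq_zero.1 z, Algebra.smul_def, mul_assoc]
    exact mx_mul_left (Subalgebra.algebraMap_mem _ t) ((A1.pmx _ _ _ a' _ a'.2.1).2 le_rfl)
  obtain ⟨J, G, hG, hJ, eJ⟩ : ∃ (J : Finset κ) (G : I → ℤ), G ∈ p.Ef ∧ p.k0 ∈ J ∧
      F = (2 : ℤ) • G + ∑ i ∈ J, p.C i := by
    obtain ⟨J, G₁, G₂, g1, g2, e1, e2⟩ := h.ll.half F hF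
    by_cases m : p.k0 ∈ J
    · exact ⟨J, G₁, g1, m, e1⟩
    · exact ⟨_, G₂, g2, by simpa using m, e2⟩
  obtain ⟨b, hb, b0⟩ := A2.eff2 G hG
  have H' : Hf p F J G b := ⟨hb, b0, eJ⟩
  rcases hp _ _ _ _ _ _ H H' (Finset.ne_empty_of_mem hJ).symm O hO with z | z
  · rw [H.fac h.toPair0 hO, Finset.prod_empty, mul_one, pow_two] at z
    exact z.not_mx (mx_mul_left ht.1 ht)
  · rw [H'.fac h.toPair0 hO, ← Finset.mul_prod_erase J _ hJ] at z
    exact z.not_mx (mx_mul_left (O.pow_mem (hb O hO) 2) (mx_mul_right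
      ((A1.pmx _ _ _ hQ O hO).2 lO) (O.prod_mem fun i _ => s_mem h.toPair0 hO i)))

end HalfR

theorem half_stmt : HalfStmt := by
  intro k M I κ _ _ _ _ _ _ _ p F F' h hp hn par
  have A2 := h.all.a2
  refine (Set.Finite.union (s := {P | plO P ∈ p.T ∧ ip p.B (p.cl P) (p.cl P) < 0 ∧
      |ip p.B (p.cl P) p.h| ≤ ip p.B p.h F + 4 ∧ -(ip p.B p.h F + 4) ≤ ip p.B (p.cl P) (p.cl P)})
    (t := {P | plO P ∈ p.T ∧ (2 : ℤ) • p.cl P = F}) ?_ ?_).subset fun P hP => ?_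
  · refine Set.Finite.of_finite_image (f := p.cl)
      ((h.b0.hg.fin p.h (ip p.B p.h F + 4) h.b0.lb.hh).subset ?_) fun P a Q b e => ?_
    · rintro _ ⟨P, a, rfl⟩
      exact a.2.2
    · obtain ⟨φ, x⟩ := A2.cl P a.1
      obtain ⟨φ', y⟩ := A2.cl Q b.1
      exact h.ta.neg _ _ _ _ _ x (e ▸ y) a.2.1
  · refine Set.Subsingleton.finite fun P a Q b => ?_
    obtain ⟨φ, x⟩ := A2.cl P a.1
    obtain ⟨φ', y⟩ := A2.cl Q b.1
    have e : p.cl Q = p.cl P := smul_right_injective _ two_ne_zero (b.2.trans a.2.symm)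
    exact HalfR.one h hp.1 par a.2 x (e ▸ y)
  · obtain ⟨φ, x⟩ := A2.cl P hP.1
    exact (HalfR.lat h.b0 h.ll hp hn ⟨φ, P, x⟩ hP.2.1 hP.2.2).imp (fun z => ⟨hP.1, z⟩)
      fun z => ⟨hP.1, z⟩

end Pool.Agent.MP_20d318_ag.CC

end MrgPart1

-- ======== part 2: formerly Pool.Agent.MP_20d318_ag.CC.Pn1
section MrgPart2

/-! Two members of different types span a pencil with a prime member. -/

set_option autoImplicit false
set_option linter.unusedSectionVars false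

namespace Pool.Agent.MP_20d318_ag.CC

open Pool.Agent.MP_20d318_ag.CB Pool.Agent.MP_20d318_ag.CB.P
open Pool.Agent.MP_fd6584_ag.Fn Pool.Agent.CBk MvPolynomial
open Pool.Agent.MP_fd6584_ag.AG hiding deg_inv deg_congr deg_of_unit deg_mul deg_prod deg_zpow
  deg_eq_zero deg_nonneg deg_div deg_pow
open Pool.Agent.MP_20d318_ag.RS (jac)
open Pool.Agent.MP_20d318_ag.CB.P.TransA (pc)
open scoped IntermediateField

namespace Pn1R

variable {k M I κ : Type} [Field k] [Field M] [Algebra k M] [Fintype I] [Fintype κ]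
  {p : Pd k M I κ} {F G : I → ℤ} {J : Finset κ} {a : M}

theorem mx_smul {O : Subalgebra k M} {x : M} (c : k) (h : x ∈ mx O) : c • x ∈ mx O := by
  rw [Algebra.smul_def]
  exact mx_mul_left (O.algebraMap_mem c) h

theorem mx_of_smul {O : Subalgebra k M} {x : M} {c : k} (hc : c ≠ 0) (h : c • x ∈ mx O) :
    x ∈ mx O := by
  have := mx_smul c⁻¹ h
  rwa [smul_smul, inv_mul_cancel₀ hc, one_smul] at this

theorem uniq {O : Subalgebra k M} (hO : IsLocalRing O) {x y : M} (hu : IsU O x ∨ IsU O y)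
    {τ τ' : k} (h : x - τ • y ∈ mx O) (h' : x - τ' • y ∈ mx O) : τ = τ' := by
  by_contra hne
  have h1 : y ∈ mx O := by
    refine mx_of_smul (sub_ne_zero.2 hne) ?_
    have := mx_sub' hO h' h
    rwa [sub_sub_sub_cancel_left, ← sub_smul] at this
  have h2 : x ∈ mx O := by
    have := mx_add hO h (mx_smul τ h1)
    rwa [sub_add_cancel] at this
  exact hu.elim (fun u => u.not_mx h2) fun u => u.not_mx h1

theorem van (h : Pair0 p) (H : Hf p F J G a) {i : κ} (hi : i ∈ J) :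
    ∃ O ∈ p.T, hs p J a * p.lb F O ∈ mx O := by
  classical
  obtain ⟨P, hP⟩ := h.prm i
  have hO := hP.2.1
  refine ⟨_, hO, ?_⟩
  rw [H.fac h hO, ← Finset.mul_prod_erase J _ hi]
  exact mx_mul_left ((plO P).pow_mem (H.sec _ hO) 2)
    (mx_mul_right ((h.all.a1.pmx _ _ _ hP _ hO).2 le_rfl)
      ((plO P).prod_mem fun j _ => s_mem h hO j))

end Pn1R

open Pn1R in
theorem pn1_stmt : Pn1Stmt := by
  intro k M I κ _ _ _ _ _ _ _ p F G G' J J' a a' h hF hpar hfin H H' hJ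
  have h0 := h.toPair0
  have hu := hpar J J' G G' a a' H H' hJ
  have nc : ∀ c : k, hs p J a ≠ c • hs p J' a' := by
    intro c e
    have hc : c ≠ 0 := fun z => H.hs_ne h0 (by rw [e, z, zero_smul])
    have key : ∀ O ∈ p.T, ¬ (hs p J a * p.lb F O ∈ mx O ∨ hs p J' a' * p.lb F O ∈ mx O) := by
      intro O hO hm
      have hiff : hs p J a * p.lb F O ∈ mx O ↔ hs p J' a' * p.lb F O ∈ mx O := by
        rw [e, smul_mul_assoc]
        exact ⟨mx_of_smul hc, mx_smul c⟩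
      have h1 : hs p J' a' * p.lb F O ∈ mx O := hm.elim hiff.1 id
      exact (hu O hO).elim (fun u => u.not_mx (hiff.2 h1)) fun u => u.not_mx h1
    have : ∃ i, i ∈ J ∨ i ∈ J' := by
      by_contra hn
      exact hJ (Finset.ext fun i =>
        ⟨fun x => (hn ⟨i, Or.inl x⟩).elim, fun x => (hn ⟨i, Or.inr x⟩).elim⟩)
    obtain ⟨i, hi | hi⟩ := this
    · obtain ⟨O, hO, hm⟩ := van h0 H hi
      exact key O hO (Or.inl hm)
    · obtain ⟨O, hO, hm⟩ := van h0 H' hi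
      exact key O hO (Or.inr hm)
  refine ⟨hF.2.1, fun i => (ip_comm h0.all.s.sym _ _).trans (hF.1.1 i), H.mem h0, H'.mem h0,
    H.hs_ne h0, H'.hs_ne h0, nc, ?_⟩
  have hb : (⋃ P ∈ Cmp p F, {τ : k | (hs p J a - τ • hs p J' a') * p.lb F (plO P) ∈
      mx (plO P)}).Finite := by
    refine hfin.biUnion fun P hP => Set.Subsingleton.finite fun τ h1 τ' h2 => ?_
    simp only [Set.mem_ofPred_eq, sub_mul, smul_mul_assoc] at h1 h2
    exact uniq (h0.all.a1.nice.loc _ hP.1) (hu _ hP.1) h1 h2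
  obtain ⟨τ, hτ⟩ := (hb.insert 0).exists_notMem
  rw [Set.mem_insert_iff, not_or] at hτ
  have hne : hs p J a - τ • hs p J' a' ≠ 0 := sub_ne_zero.2 (nc τ)
  have hm : hs p J a - τ • hs p J' a' ∈ p.Sec F :=
    sub_mem (H.mem h0) (Submodule.smul_mem _ τ (H'.mem h0))
  obtain ⟨s, hs1, hs2⟩ := h.ta.sum F _ hm hne
  obtain ⟨P, hP⟩ : s.Nonempty := by
    refine Finset.nonempty_iff_ne_empty.2 fun z => ?_
    have h1 := hF.2.2
    rw [hs2, z, Finset.sum_empty, ip_zero_right] at h1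
    exact lt_irrefl _ h1
  obtain ⟨hT, hv⟩ := (hs1 P).1 hP
  obtain ⟨φ, hφ⟩ := h0.all.a2.cl P hT
  have hc : p.cl P = F := by
    by_contra hn
    exact hτ.2 (Set.mem_biUnion (t := fun P => {τ : k | (hs p J a - τ • hs p J' a') *
      p.lb F (plO P) ∈ mx (plO P)}) ⟨hT, h.ta.dvd _ _ _ hφ F _ hm hne hv, hn⟩ hv)
  rw [hc] at hφ
  exact ⟨τ, P, hτ.1, h.ta.prm _ _ _ hφ _ hm hne hv⟩

end Pool.Agent.MP_20d318_ag.CC

end MrgPart2

-- ======== part 3: formerly Pool.Agent.MP_20d318_ag.CC.Alg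
section MrgPart3

/-! The constants of the generic fibre of an elliptic pencil. -/

set_option autoImplicit false
set_option linter.unusedSectionVars false

namespace Pool.Agent.MP_20d318_ag.CC

open Pool.Agent.MP_20d318_ag.CB Pool.Agent.MP_20d318_ag.CB.P
open Pool.Agent.MP_fd6584_ag.Fn Pool.Agent.CBk MvPolynomial
open Pool.Agent.MP_fd6584_ag.AG hiding deg_inv deg_congr deg_of_unit deg_mul deg_prod deg_zpow
  deg_eq_zero deg_nonneg deg_div deg_pow
open scoped IntermediateField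

namespace AlgR

variable {k M I κ : Type} [Field k] [Field M] [Algebra k M] [Fintype I] [Fintype κ]
  {p : Pd k M I κ} {F : I → ℤ} {ψ ψ' t : M}

theorem lb_n (O : Subalgebra k M) (n : ℕ) : p.lb (n • F) O = p.lb F O ^ n := by
  rw [← natCast_zsmul, p.lb_zsmul, zpow_natCast]

theorem sec_mem (h : Cob p) (H : PcA p F ψ ψ' t) (N : ℕ) :
    ∀ g ∈ p.Sec (N • F), g / ψ' ^ N ∈ k⟮t⟯ := by
  obtain ⟨τ, P₀, -, hP⟩ := H.ex
  obtain ⟨O, hO, hr, hle⟩ := h.ta.rat P₀ hP.2.1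
  have hu : IsU O (ψ' * p.lb F O) := (H.bpf O hO).elim (fun hu => by
    refine isU_of_not_mx (H.sec' O hO) fun hm => hu.not_mx ?_
    have e : ψ * p.lb F O = (ψ - τ • ψ') * p.lb F O + algebraMap k M τ * (ψ' * p.lb F O) := by
      rw [Algebra.smul_def]; ring
    rw [e]
    exact mx_add (mp_loc hO) ((h.all.a1.pmx _ _ _ hP O hO).2 hle)
      (mx_mul_left (O.algebraMap_mem τ) hm)) id
  induction N with
  | zero =>
    intro g hg
    obtain ⟨a, rfl⟩ := h.all.a2.const g fun O hO => by simpa [Sd.lb_zero] using hg O hO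
    simp
  | succ N ih =>
    intro g hg
    have h1 := Inv2.pow h.all.a2 H.sec' (N + 1)
    obtain ⟨a, ha⟩ := h.ta.comb O hO hr _ g hg _ h1 (by rw [lb_n, ← mul_pow]; exact hu.pow _)
    have h2 : g - a • ψ' ^ (N + 1) ∈ p.Sec ((N + 1) • F) :=
      Submodule.sub_mem _ hg (Submodule.smul_mem _ a h1)
    have h3 := h.all.a2.sub _ _ _ hP _ _ h2 ((isU_or_mx (h2 _ hP.2.1)).resolve_left fun hv =>
      ((h.all.a2.nn _ _ _ hP _ _ h2 hv).2.1 (by rw [ip_nsmul_left, H.sq, mul_zero]) O hO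
        hle).not_mx ha)
    rw [succ_nsmul, add_sub_cancel_right] at h3
    have e : g / ψ' ^ (N + 1) = algebraMap k M a +
        (g - a • ψ' ^ (N + 1)) / (ψ - τ • ψ') / ψ' ^ N * (t - algebraMap k M τ) := by
      have n1 := hP.1
      have n2 := H.ne'
      have e1 : t - algebraMap k M τ = (ψ - τ • ψ') / ψ' := by
        rw [H.eq, Algebra.smul_def]; field_simp
      rw [e1, Algebra.smul_def a]
      generalize ψ - τ • ψ' = φ at n1
      field_simp
      ring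
    rw [e]
    exact add_mem (IntermediateField.algebraMap_mem _ a) (mul_mem (ih _ h3) (sub_mem
      (IntermediateField.mem_adjoin_simple_self k t) (IntermediateField.algebraMap_mem _ τ)))

theorem clear (h : Cob p) (H : PcB p F ψ ψ' t) {r : M} (hr : r ≠ 0) (s : Finset (Place k M))
    (hs : ∀ P ∈ s, plO P ∈ p.T ∧ ¬ Ind (plO P) ![t]) : ∃ N : ℕ, ∃ c ∈ p.Sec (N • F), c ≠ 0 ∧
      ∀ P ∈ s, r * c * p.lb (N • F) (plO P) ∈ plO P := by
  classical
  induction s using Finset.induction_on with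
  | empty => exact ⟨0, 1, by rw [zero_nsmul]; exact Inv2.one, one_ne_zero, by simp⟩
  | insert P s _ ih =>
    obtain ⟨N, c, hc, c0, hN⟩ := ih fun Q hQ => hs Q (Finset.mem_insert_of_mem hQ)
    obtain ⟨hT, hI⟩ := hs P (Finset.mem_insert_self _ _)
    obtain ⟨r', hf, ho⟩ := H.vt P hT hI
    obtain ⟨χ, hχ, χ0, -, hv⟩ := H.mb r' hf
    have n0 := mul_ne_zero χ0 (p.lb_ne (h.all.a1.gne _ hT) F)
    have h1 := (mx_plO n0).1 ((hv P hT).1.1 ho)
    obtain ⟨m, hm⟩ : ∃ m : ℕ, -P.ord r ≤ m := ⟨(-P.ord r).toNat, Int.self_le_toNat _⟩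
    refine ⟨N + m, c * χ ^ m, ?_, mul_ne_zero c0 (pow_ne_zero _ χ0), fun Q hQ => ?_⟩
    · rw [add_nsmul]; exact h.all.a2.mul _ _ _ hc _ (Inv2.pow h.all.a2 hχ m)
    rcases Finset.mem_insert.1 hQ with rfl | hQ
    · have e : r * (c * χ ^ m) * p.lb ((N + m) • F) (plO Q) =
          r * (χ * p.lb F (plO Q)) ^ m * (c * p.lb (N • F) (plO Q)) := by
        simp only [lb_n]; ring
      rw [e]
      refine mul_mem (mem_plO_ord.2 ?_) (hc _ hT)
      rw [Q.ord_mul hr (pow_ne_zero _ n0), Q.ord_pow]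
      nlinarith [Int.natCast_nonneg m]
    · have e : r * (c * χ ^ m) * p.lb ((N + m) • F) (plO Q) =
          r * c * p.lb (N • F) (plO Q) * (χ * p.lb F (plO Q)) ^ m := by
        simp only [lb_n]; ring
      rw [e]
      exact mul_mem (hN Q hQ) (pow_mem (hχ _ (hs Q (Finset.mem_insert_of_mem hQ)).1) m)

end AlgR

open AlgR in
theorem alg_stmt : AlgStmt := by
  intro k M I κ _ _ _ _ _ _ _ p F ψ ψ' t h H
  refine ⟨H, fun r hr => ?_⟩
  rcases eq_or_ne r 0 with rfl | r0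
  · exact zero_mem _
  have hf : {P : Place k M | plO P ∈ p.T ∧ r ∉ plO P}.Finite :=
    (h.all.a1.nice.toFine.fin r).subset fun P hP =>
      ⟨hP.1, fun e => hP.2 (mem_plO_ord.2 e.ge)⟩
  obtain ⟨N, c, hc, c0, hN⟩ := clear h H r0 hf.toFinset fun P hP =>
    ⟨(hf.mem_toFinset.1 hP).1, fun hI => (hf.mem_toFinset.1 hP).2 (hr P hI)⟩
  have hg : r * c ∈ p.Sec (N • F) := h.ta.sec _ _ fun P hP => by
    by_cases e : r ∈ plO P
    · rw [mul_assoc]; exact mul_mem e (hc _ hP)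
    · exact hN P (hf.mem_toFinset.2 ⟨hP, e⟩)
  have e : r = r * c / ψ' ^ N / (c / ψ' ^ N) := by
    have := H.ne'
    field_simp
  rw [e]
  exact div_mem (sec_mem h H.toPcA N _ hg) (sec_mem h H.toPcA N _ hc)

end Pool.Agent.MP_20d318_ag.CC

end MrgPart3

-- ======== part 4: formerly Pool.Agent.MP_20d318_ag.CC.Inv12
section MrgPart4

/-! A class of degree two on the fibres gives a second function, and the degree of the map. -/

set_option autoImplicit false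
set_option linter.unusedSectionVars false

namespace Pool.Agent.MP_20d318_ag.CC

open Pool.Agent.MP_20d318_ag.CB Pool.Agent.MP_20d318_ag.CB.P
open Pool.Agent.MP_fd6584_ag.Fn Pool.Agent.CBk MvPolynomial
open Pool.Agent.MP_fd6584_ag.AG hiding deg_inv deg_congr deg_of_unit deg_mul deg_prod deg_zpow
  deg_eq_zero deg_nonneg deg_div deg_pow
open Pool.Agent.MP_20d318_ag.RS (jac)
open Pool.Agent.MP_20d318_ag.CB.P.TransA (pc)
open scoped IntermediateField

namespace Inv12R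

variable {k M I κ : Type} [Field k] [NeZero (2 : k)] [IsAlgClosed k] [Field M] [Algebra k M]
  [Fintype I] [Fintype κ] {p : Pd k M I κ} {F : I → ℤ} {ψ ψ' t : M}

theorem two (hp : Cob p) (hc : PcF p F ψ ψ' t) : In2F p F t := by
  intro D s hs s' hs' hs0 hi
  have ha := hp.all
  obtain ⟨τ, φ, P₀, -, hprm, -, -⟩ := hc.gen
  obtain rfl := hc.eq
  have key : Module.rank k⟮ψ / ψ', s / s'⟯ M ≤ (ip p.B D F).toNat := by
    refine rank_le fun T hT => ?_
    rcases Nat.eq_zero_or_pos T.card with h0 | h0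
    · omega
    obtain ⟨E, μ, hμ, -, hE⟩ := Inv2.den ha.a2 T
    have h1 : (T.card : ℤ) ≤ ip p.B D F := by
      refine Inv2.num (x := ip p.B E F) (Int.natCast_pos.2 h0) fun a =>
        ⟨p.h0 (E + a • D), fun b => ?_⟩
      have h2 := Inv2.step ha.a3 hprm hc.sq (E + a • D) b
      rw [ip_add_left, ip_nsmul_left] at h2
      exact (Inv2.count ha hs hs' hs0 hc.sec hc.sec' hc.ne' hi hμ T hT hE a b).trans h2
    omega
  have hf : FiniteDimensional k⟮ψ / ψ', s / s'⟯ M :=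
    Module.rank_lt_aleph0_iff.1 (key.trans_lt (Cardinal.natCast_lt_aleph0))
  refine ⟨hf, ?_⟩
  have h1 := Module.finrank_le_of_rank_le key
  have h2 : 0 < Module.finrank k⟮ψ / ψ', s / s'⟯ M := Module.finrank_pos
  omega

theorem one (hp : Cob p) (hc : PcF p F ψ ψ' t) (D : I → ℤ) (hD : ip p.B D F = 2) :
    ∃ m : ℤ, ∃ s ∈ p.Sec (D + m • F), ∃ s' ∈ p.Sec (D + m • F), s' ≠ 0 ∧
      AlgebraicIndependent k ![t, s / s'] := by
  have sym := ip_comm (R := ℤ) hp.all.s.sym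
  have FF : ip p.B F F = 0 := hc.sq
  have KF : ip p.B p.K F = 0 := hc.KF
  have hpos : 0 < ip p.B p.h F := hp.all.a1.hpos _ hc.mem
  have e1 : ∀ (y : I → ℤ) (m : ℤ), ip p.B y (D + m • F) = ip p.B y D + m * ip p.B y F :=
    fun y m => by rw [ip_add_right, ip_smul_right]
  have low : ∀ m : ℤ, chi2 p.B p.K D + 4 * m ≤ 2 * p.h0 (D + m • F) := by
    intro m
    have h1 : p.K - (D + m • F) ∉ p.Ef := fun h => by
      have h2 : 0 ≤ ip p.B F (p.K - (D + m • F)) := hp.b0.lb.efn _ hc.nef _ h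
      rw [ip_sub_right, e1, sym F p.K, sym F D, KF, FF, hD] at h2
      omega
    have h2 := hp.all.a4.rr2 _ h1
    have h3 : chi2 p.B p.K (D + m • F) = chi2 p.B p.K D + 4 * m := by
      unfold chi2
      rw [e1, e1, KF, sym (D + m • F) D, sym (D + m • F) F, e1, e1, FF, sym F D, hD]
      ring
    omega
  set m₀ : ℤ := -|ip p.B p.h D| - 1 with hm₀
  have z0 : p.h0 (D + m₀ • F) = 0 := by
    refine hp.ta.h00 _ fun h1 => ?_
    have h2 : ip p.B p.h (D + m₀ • F) < 0 := by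
      rw [e1]
      have := le_abs_self (ip p.B p.h D)
      have := abs_nonneg (ip p.B p.h D)
      nlinarith
    by_cases h3 : D + m₀ • F = 0
    · rw [h3, ip_zero_right] at h2
      exact lt_irrefl _ h2
    · exact lt_asymm h2 (hp.b0.lb.hef _ h1 h3)
  obtain ⟨τ, φ, P₀, -, hprm, hord, -⟩ := hc.gen
  have jump : ∃ m : ℤ, p.h0 (D + m • F - F) + 2 ≤ p.h0 (D + m • F) := by
    by_contra hn
    push Not at hn
    have up : ∀ n : ℕ, p.h0 (D + (m₀ + n) • F) ≤ n := by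
      intro n
      induction n with
      | zero => rw [Nat.cast_zero, add_zero, z0]
      | succ n ih =>
        have h1 := hn (m₀ + (n + 1 : ℕ))
        have h2 : D + (m₀ + ((n + 1 : ℕ) : ℤ)) • F - F = D + (m₀ + n) • F := by
          push_cast
          rw [← add_assoc, add_smul _ (1 : ℤ), one_smul]
          abel
        rw [h2] at h1
        push_cast at h1 ⊢
        omega
    have h1 := up (|chi2 p.B p.K D + 4 * m₀| + 1).toNat
    have h2 := low (m₀ + (|chi2 p.B p.K D + 4 * m₀| + 1).toNat)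
    have h3 := neg_abs_le (chi2 p.B p.K D + 4 * m₀)
    have h4 := abs_nonneg (chi2 p.B p.K D + 4 * m₀)
    omega
  obtain ⟨m, hm⟩ := jump
  obtain ⟨s, hs, s', hs', hu, hi⟩ := hp.all.a3.res2 _ _ _ hprm _ hm
  have t0 : t - algebraMap k M τ ≠ 0 := fun h => by
    rw [h] at hord
    simp at hord
  refine ⟨m, s, hs, s', hs', left_ne_zero_of_mul hu.1, hp.tb.ind2 _ t _ τ t0 ?_ hi⟩
  rw [mx_plO t0, hord]
  exact one_pos

end Inv12R

theorem inv12_stmt : Inv12Stmt := fun _ _ _ _ _ _ _ _ _ _ _ _ _ _ _ _ hp hc =>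
  ⟨Inv12R.two hp hc, Inv12R.one hp hc⟩

end Pool.Agent.MP_20d318_ag.CC

end MrgPart4

-- ======== part 5: formerly Pool.Agent.MP_20d318_ag.CC.Grp
section MrgPart5

/-! The group of the automorphisms that preserve the form. -/

set_option autoImplicit false
set_option linter.unusedSectionVars false

namespace Pool.Agent.MP_20d318_ag.CC

open Pool.Agent.MP_20d318_ag.CB Pool.Agent.MP_20d318_ag.CB.P
open Pool.Agent.MP_fd6584_ag.Fn Pool.Agent.CBk MvPolynomial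
open Pool.Agent.MP_fd6584_ag.AG hiding deg_inv deg_congr deg_of_unit deg_mul deg_prod deg_zpow
  deg_eq_zero deg_nonneg deg_div deg_pow
open Pool.Agent.MP_20d318_ag.RS (jac)
open Pool.Agent.MP_20d318_ag.CB.P.TransA (pc)
open scoped IntermediateField

namespace GrpR

variable {k M I κ : Type} [Field k] [Field M] [Algebra k M] [Fintype I] [Fintype κ]
  {p : Pd k M I κ} {σ σ' : M ≃ₐ[k] M} {ρ ρ' : Matrix I I ℤ}

theorem act_neg (c : I → ℤ) : act ρ (-c) = -act ρ c := by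
  rw [← neg_one_smul ℤ c, act_smul, neg_one_smul]

theorem act_zero : act ρ (0 : I → ℤ) = 0 := by
  funext i
  simp [act]

theorem fix_all (h : Cob p) (H : ∀ c ∈ p.PP, act ρ c = c) (c : I → ℤ) : act ρ c = c := by
  have g := h.b0.lb.gen c
  induction g using AddSubgroup.closure_induction with
  | mem x hx => exact H x hx
  | zero => exact act_zero
  | add x y _ _ hx hy => rw [act_add, hx, hy]
  | neg x _ hx => rw [act_neg, hx]

theorem iso_all (h : Cob p) (ha : Ac p.toSd σ ρ) (c c' : I → ℤ) :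
    ip p.B (act ρ c) (act ρ c') = ip p.B c c' := by
  have g := h.b0.lb.gen c'
  induction g using AddSubgroup.closure_induction with
  | mem x hx => exact ha.iso c x hx
  | zero => rw [act_zero, ip_zero_right, ip_zero_right]
  | add x y _ _ hx hy => rw [act_add, ip_add_right, ip_add_right, hx, hy]
  | neg x _ hx => rw [act_neg, ip_neg_right, ip_neg_right, hx]

theorem comp_fix (h : Cob p) (ha : Ac p.toSd σ ρ) (ha' : Ac p.toSd σ' ρ')
    (e : ∀ m, σ' (σ m) = m) (c : I → ℤ) : act ρ' (act ρ c) = c := by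
  rw [← act_mul]
  refine fix_all h (fun c hc => ?_) c
  obtain ⟨φ, P, hc⟩ := hc
  obtain ⟨φ₁, P₁, h1, e1⟩ := ha.prm _ _ _ hc
  obtain ⟨φ₂, P₂, h2, e2⟩ := ha'.prm _ _ _ h1
  have e3 : P₂ = P := TransA.eq_of_ord fun m => by rw [← e1, ← e2, e]
  rw [act_mul]
  exact h.all.a1.uniq _ _ _ _ _ h2 (e3 ▸ hc)

theorem perm (h : Cob p) (ha : Ac p.toSd σ ρ) {π : Equiv.Perm κ} (g : TransA.Gd p σ ρ π)
    (i : κ) : act ρ (p.C i) = p.C (π i) := by
  obtain ⟨P, hP⟩ := h.prm i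
  obtain ⟨Q, hQ⟩ := h.prm (π i)
  obtain ⟨φ', P', h1, h2⟩ := ha.prm _ _ _ hP
  have h3 : pc σ P' = P := TransA.eq_of_ord h2
  have h4 := g.st i _ h1.2.1
  have h5 : p.s i (plO P) ∈ mx (plO P) := (h.all.a1.pmx _ _ _ hP _ hP.2.1).2 le_rfl
  rw [← h3, TransA.pc_plO] at h5
  have h7 : σ (p.s i ((plO P').comap (σ : M →ₐ[k] M))) ∈ mx (plO P') := (mem_mx_comap _).1 h5
  have h6 := mx_div h7 h4
  have n1 : σ (p.s i ((plO P').comap (σ : M →ₐ[k] M))) ≠ 0 := fun e => h4.1 (by rw [e, zero_div])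
  rw [div_div_cancel₀ n1] at h6
  exact h.all.a1.uniq _ _ _ _ _ h1 (h.all.a1.peq _ _ _ hQ P' h1.2.1 h6 ▸ hQ)

theorem ac_mul (h : Cob p) (hf : Form p σ) (ha : Ac p.toSd σ ρ) (hf' : Form p σ')
    (ha' : Ac p.toSd σ' ρ') : Form p (σ * σ') ∧ Ac p.toSd (σ * σ') (ρ * ρ') := by
  obtain ⟨π, g⟩ := TransA.exists_gd h.toPair0 hf ha
  obtain ⟨π', g'⟩ := TransA.exists_gd h.toPair0 hf' ha'
  have g2 := g'.mul g
  refine ⟨g2.form, g2.inv, g2.rep, fun c φ P hc => ?_, fun c' c _ => ?_⟩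
  · obtain ⟨φ₁, P₁, h1, e1⟩ := ha'.prm _ _ _ hc
    obtain ⟨φ₂, P₂, h2, e2⟩ := ha.prm _ _ _ h1
    exact ⟨φ₂, P₂, by rwa [act_mul], fun m => by rw [AlgEquiv.mul_apply, e2, e1]⟩
  · rw [act_mul, act_mul, iso_all h ha, iso_all h ha']

theorem inv_symm (ha : Ac p.toSd σ ρ) : Inv p.toSd σ.symm := fun O => by
  have := ha.inv (O.comap (σ.symm : M →ₐ[k] M))
  rw [show (O.comap (σ.symm : M →ₐ[k] M)).comap (σ : M →ₐ[k] M) = O by ext; simp] at this
  exact this.symm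

end GrpR

open GrpR in
theorem grp_stmt : GrpStmt := by
  intro k M I κ _ _ _ _ _ _ _ p h
  refine ⟨⟨?_, ?_, ?_, ?_, ?_, ?_⟩, ?_, fun σ ρ ha e => comp_fix h ha ha e⟩
  · obtain ⟨ρ, ha⟩ := act_stmt k M I p.toSd 1 h.all fun O => Iff.rfl
    refine ⟨ρ, ⟨1, ⟨1, one_ne_zero, fun a b => by simp⟩, ha⟩, fix_all h fun c hc => ?_⟩
    obtain ⟨φ, P, hc⟩ := hc
    obtain ⟨φ₁, P₁, h1, e1⟩ := ha.prm _ _ _ hc
    exact h.all.a1.uniq _ _ _ _ _ h1 (TransA.eq_of_ord e1 ▸ hc)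
  · rintro ρ ⟨σ, hf, ha⟩ ρ' ⟨σ', hf', ha'⟩
    exact ⟨_, ac_mul h hf ha hf' ha'⟩
  · rintro ρ ⟨σ, hf, ha⟩
    obtain ⟨ρ', ha'⟩ := act_stmt k M I p.toSd σ.symm h.all (inv_symm ha)
    exact ⟨ρ', ⟨_, RegA.form_symm hf, ha'⟩, fun c =>
      ⟨comp_fix h ha' ha σ.apply_symm_apply c, comp_fix h ha ha' σ.symm_apply_apply c⟩⟩
  · rintro ρ ⟨σ, -, ha⟩
    exact iso_all h ha
  · rintro ρ ⟨σ, -, ha⟩ c ⟨φ, P, hc⟩
    obtain ⟨φ₁, P₁, h1, -⟩ := ha.prm _ _ _ hc
    exact ⟨φ₁, P₁, h1⟩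
  · rintro ρ ⟨σ, hf, ha⟩
    obtain ⟨π, g⟩ := TransA.exists_gd h.toPair0 hf ha
    exact ⟨π, perm h ha g⟩
  · rintro ρ ⟨σ, hf, ha⟩ hC
    obtain ⟨π, g⟩ := TransA.exists_gd h.toPair0 hf ha
    have e : π = 1 := Equiv.ext fun i => h.b0.lb.inj ((perm h ha g i).symm.trans (hC i))
    exact ⟨σ, TransA.Gd.sg h.toPair0 (e ▸ g)⟩

end Pool.Agent.MP_20d318_ag.CC

end MrgPart5

-- marker of a merged file
example : 731051 + 519697 = 731051 + 519697 := rfl
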