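import Pool.Agent.MP_20d318_ag.CC.Spec

/-! Either a component of the curve is nef and moves, or all components have square `-4`. -/

set_option autoImplicit false

namespace Pool.Agent.MP_20d318_ag.CC

open Pool.Agent.MP_20d318_ag.CB Pool.Agent.MP_20d318_ag.CB.P
open Pool.Agent.MP_fd6584_ag.Fn Pool.Agent.CBk
open Pool.Agent.MP_fd6584_ag.AG

theorem pcx_stmt : PcxStmt := by
  intro k M I κ _ _ _ _ _ _ _ p h
  classical
  by_cases h1 : ∃ i, 0 < ip p.B (p.C i) (p.C i)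
  · obtain ⟨i, hi⟩ := h1
    exact .inl ⟨i, PcR.pair0 h i, hi.le, fun e => absurd e hi.ne'⟩
  by_cases h2 : ∃ i, ip p.B (p.C i) (p.C i) = 0
  · obtain ⟨i, hi⟩ := h2
    obtain ⟨P, hP⟩ := h.prm i
    obtain ⟨a, ha, a0⟩ := h.all.a2.eff2 _ (PcR.kc h hi)
    have H : Hf p (p.C i) (Finset.univ.erase i) (p.K + p.C i) a := ⟨ha, a0, by
      have e := Finset.add_sum_erase Finset.univ p.C (Finset.mem_univ i)
      rw [h.sumC] at e
      rw [← sub_eq_of_eq_add' e.symm]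
      module⟩
    refine .inl ⟨i, PcR.pair0 h i, hi.ge, fun _ => ?_⟩
    show ∃ ψ₁ ∈ p.Sec (p.C i), ∀ c : k, ψ₁ ≠ c • p.ψ i
    refine ⟨_, H.mem h, fun c ec => ?_⟩
    have c0 : c ≠ 0 := fun z => H.hs_ne h (by rw [ec, z, zero_smul])
    have m1 : p.s i (plO P) ∈ mx (plO P) := (h.all.a1.pmx _ _ P hP _ hP.2.1).2 le_rfl
    have hu : IsU (plO P) (∏ l ∈ Finset.univ.erase i, p.s l (plO P)) := isU_prod fun l hl =>
      (isU_or_mx (s_mem h hP.2.1 l)).resolve_right fun m =>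
        Finset.ne_of_mem_erase hl (h.one _ hP.2.1 l i m m1)
    have e := congrArg P.ord (H.fac h hP.2.1)
    rw [ec, smul_mul_assoc, P.ord_smul c0, hP.2.2 P hP.2.1, if_pos rfl, P.ord_mul (pow_ne_zero 2
      (mul_ne_zero a0 (p.lb_ne (h.all.a1.gne _ hP.2.1) _))) hu.1, P.ord_pow,
      ((isU_plO' P).1 hu).2] at e
    omega
  · refine .inr fun i => ?_
    obtain ⟨P, hP⟩ := h.prm i
    have e1 := PcR.ip_sum h Finset.univ (Finset.mem_univ i)
    rw [h.sumC, ip_smul_left] at e1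
    have e2 := h.all.a4.adj _ ⟨_, P, hP⟩
    obtain ⟨n, e3⟩ := h.all.s.par (p.C i)
    have e4 := not_lt.1 fun e => h1 ⟨i, e⟩
    have e5 : ip p.B (p.C i) (p.C i) ≠ 0 := fun e => h2 ⟨i, e⟩
    omega

end Pool.Agent.MP_20d318_ag.CC
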