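import Pool.Agent.MP_20d318_ag.CC.Spec

-- ======== part 0: formerly Pool.Agent.MP_20d318_ag.CC.Us1
section MrgPart0

/-! The involution attached to a pencil and a curve of square `-2`. -/

set_option autoImplicit false
set_option linter.unusedSectionVars false

namespace Pool.Agent.MP_20d318_ag.CC

open Pool.Agent.MP_20d318_ag.CB Pool.Agent.MP_20d318_ag.CB.P
open Pool.Agent.MP_fd6584_ag.Fn Pool.Agent.CBk MvPolynomial
open Pool.Agent.MP_fd6584_ag.AG hiding deg_inv deg_congr deg_of_unit deg_mul deg_prod deg_zpow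
  deg_eq_zero deg_nonneg deg_div deg_pow
open Pool.Agent.MP_20d318_ag.RS (jac)
open Pool.Agent.MP_20d318_ag.CB.P.TransA (pc)
open scoped IntermediateField

namespace Us1R

variable {k M I κ : Type} [Field k] [Field M] [Algebra k M] [Fintype I] [Fintype κ]
  {p : Pd k M I κ} {F G G' θ : I → ℤ} {J J' : Finset κ} {a a' t φ : M} {Θ : Place k M}

theorem clF {ψ ψ' r : M} (H : PcB p F ψ ψ' t) (hr : Fr k t r) {P : Place k M} (hP : plO P ∈ p.T)
    (h : 0 < P.ord r) : ip p.B (p.cl P) F = 0 := by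
  obtain ⟨s, h1, -, h3⟩ := H.fd r hr
  exact h3 P ((h1 P).2 ⟨hP, h⟩)

theorem zero (h : Cob p) (H : Hs p F J J' G G' a a' t) (hθ : θ ∈ p.PP)
    (hC : ∀ i, ip p.B (p.C i) θ = 0) (hF : ip p.B θ F = 2) {P Q : Place k M} (hP : plO P ∈ p.T)
    (hQ : plO Q ∈ p.T) (oP : 0 < P.ord t) (oQ : 0 < Q.ord t) (nP : ip p.B (p.cl P) θ ≠ 0)
    (nQ : ip p.B (p.cl Q) θ ≠ 0) : Q = P := by
  classical
  obtain ⟨s, h1, h2, h3⟩ := H.pc.fd (t - algebraMap k M 0) (Or.inr ⟨0, rfl⟩)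
  rw [map_zero, sub_zero] at h1 h2
  have sy := h.all.s.sym
  have nn : ∀ R ∈ s, 0 ≤ ip p.B (p.cl R) θ := fun R hR => by
    obtain ⟨χ, hχ⟩ := h.all.a2.cl R ((h1 R).1 hR).1
    refine h.all.a2.pos _ ⟨χ, R, hχ⟩ _ hθ fun e => ?_
    have := h3 R hR
    rw [e, hF] at this
    exact absurd this (by decide)
  have two : ∀ R ∈ s, ip p.B (p.cl R) θ ≠ 0 → 2 ≤ R.ord t * ip p.B (p.cl R) θ := fun R hR nR => by
    obtain ⟨r1, r2⟩ := (h1 R).1 hR
    have e := H.zo R r1 r2 fun i => isU_of_not_mx (s_mem h.toPair0 r1 i) fun hm => by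
      obtain ⟨Pi, hi⟩ := h.prm i
      have := h.all.a1.peq _ _ _ hi R r1 hm
      subst this
      exact nR (by rw [h.all.a2.clp _ _ _ hi]; exact hC i)
    have := nn R hR
    have h1' : 1 ≤ ip p.B (p.cl R) θ := by omega
    have h2' : 2 ≤ R.ord t := by omega
    nlinarith
  by_contra ne
  have e : ip p.B F θ = ∑ R ∈ s, R.ord t * ip p.B (p.cl R) θ := by
    conv_lhs => rw [h2]
    rw [ip_sum_left]
    exact Finset.sum_congr rfl fun R _ => ip_smul_left _ _ _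
  have mP := (h1 P).2 ⟨hP, oP⟩
  have mQ := (h1 Q).2 ⟨hQ, oQ⟩
  have le : ∑ R ∈ ({Q, P} : Finset (Place k M)), R.ord t * ip p.B (p.cl R) θ ≤
      ∑ R ∈ s, R.ord t * ip p.B (p.cl R) θ :=
    Finset.sum_le_sum_of_subset_of_nonneg
      (Finset.insert_subset mQ (Finset.singleton_subset_iff.2 mP))
      fun R hR _ => mul_nonneg ((h1 R).1 hR).2.le (nn R hR)
  rw [Finset.sum_pair ne, ← e, ip_comm sy F, hF] at le
  have := two P mP nP
  have := two Q mQ nQ
  omega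

end Us1R

open Us1R in
theorem us1_stmt : Us1Stmt := by
  intro k M I κ _ _ _ _ _ _ _ p F G G' θ J J' a a' t h H hθ sq hF
  obtain ⟨φ, Θ, hp⟩ := id hθ
  have sy := h.all.s.sym
  have A1 := h.all.a1
  have A2 := h.all.a2
  have pc' := H.l.pc
  obtain ⟨hK, hC⟩ : ip p.B p.K θ = 0 ∧ ∀ i, ip p.B (p.C i) θ = 0 := by
    have s' : ip p.ld.B θ θ = -2 := sq
    rcases h.b0.lb.neg θ hθ (by rw [s']; decide) with ⟨i, e⟩ | ⟨-, e, -⟩ | ⟨-, -, e⟩
    · have := h.b0.nc.m4 i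
      rw [← e, s'] at this
      exact absurd this (by decide)
    · rw [s'] at e
      exact absurd e (by decide)
    · exact e
  have FF : ip p.B F F = 0 := pc'.sq
  have KF : ip p.B p.K F = 0 := pc'.KF
  have FK : ip p.B F p.K = 0 := by rw [ip_comm sy, KF]
  have Fθ : ip p.B F θ = 2 := by rw [ip_comm sy, hF]
  have θK : ip p.B θ p.K = 0 := by rw [ip_comm sy, hK]
  have sa := H.l.h.sec
  have sa' := H.r.h.sec
  have sφ := A1.pmem _ _ _ hp
  obtain ⟨D, hD⟩ : ∃ D, D = F + p.K + θ := ⟨_, rfl⟩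
  have m' : a * a' * φ ∈ p.Sec D := by
    rw [hD, ← H.l.gk]
    exact A2.mul _ _ _ (A2.mul _ _ _ sa _ sa') _ sφ
  have n' : a * a' * φ ≠ 0 := mul_ne_zero (mul_ne_zero H.l.h.ne H.r.h.ne) hp.1
  have fac : ∀ O ∈ p.T, a * a' * φ * p.lb D O =
      a * p.lb G O * (a' * p.lb G' O) * (φ * p.lb θ O) := fun O hO => by
    have g := A1.gne O hO
    rw [hD, ← H.l.gk, p.lb_add g, p.lb_add g]
    ring
  have h2 : 2 ≤ p.h0 D := by
    have r := h.all.a4.rr2 D fun e => by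
      have := h.b0.lb.efn F pc'.nef _ e
      have e2 : ip p.B F (p.K - D) = -2 := by
        rw [hD]
        simp only [ip_sub_right, ip_add_right, FF, FK, Fθ]
        ring
      exact absurd (e2 ▸ this : (0 : ℤ) ≤ -2) (by decide)
    have c : chi2 p.B p.K D = 4 := by
      rw [hD]
      simp only [chi2, ip_add_left, ip_add_right, FF, FK, Fθ, KF, hK, hF, θK, sq]
      ring
    omega
  obtain ⟨s, ms, ns⟩ := h.ta.h02 D h2 (a * a' * φ)
  have s0 : s ≠ 0 := fun e => ns 0 (by rw [e, zero_smul])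
  have uΘ : IsU (plO Θ) (s * p.lb D (plO Θ)) := isU_of_not_mx (ms _ hp.2.1) fun hm => by
    have := A2.sub _ _ _ hp D s ms hm
    rw [hD, add_sub_cancel_right] at this
    obtain ⟨c, e⟩ := H.l.one _ this
    exact ns c (by rw [← smul_mul_assoc, ← e, div_mul_cancel₀ _ hp.1])
  have us : ∀ O ∈ p.T, O ≤ plO Θ → IsU O (s * p.lb D O) :=
    (A2.nn _ _ _ hp D s ms uΘ).2.1 (by
      rw [hD]
      simp only [ip_add_left, Fθ, hK, sq]
      ring)
  obtain ⟨u, hu⟩ : ∃ u, u = s / (a * a' * φ) := ⟨_, rfl⟩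
  have u0 : u ≠ 0 := hu ▸ div_ne_zero s0 n'
  have ue : ∀ O ∈ p.T, u = s * p.lb D O / (a * a' * φ * p.lb D O) := fun O hO => by
    rw [hu, mul_div_mul_right _ _ (p.lb_ne (A1.gne O hO) D)]
  have ui : ∀ O ∈ p.T, O ≤ plO Θ → u⁻¹ ∈ mx O := fun O hO hle => by
    rw [ue O hO, inv_div, fac O hO]
    exact mx_div (mx_mul_left (O.mul_mem (sa O hO) (sa' O hO))
      ((A1.pmx _ _ _ hp O hO).2 hle)) (us O hO hle)
  have um : ∀ P : Place k M, plO P ∈ p.T → P ≠ Θ → IsU (plO P) (a * p.lb G (plO P)) →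
      IsU (plO P) (a' * p.lb G' (plO P)) → u ∈ plO P := fun P hP ne ua ua' => by
    rw [ue _ hP, fac _ hP]
    exact ((ua.mul ua').mul (isU_of_not_mx (sφ _ hP) fun hm =>
      ne (A1.peq _ _ _ hp P hP hm))).div_mem (ms _ hP)
  have L : ∀ β : k, β ≠ 0 → ∀ P : Place k M, plO P ∈ p.T → 0 < P.ord (t - algebraMap k M β) →
      ip p.B (p.cl P) θ ≠ 0 → Ind (plO P) ![u] := fun β hβ P hP o n => by
    have ne : P ≠ Θ := fun e => by
      have := clF pc'.toPcB (Or.inr ⟨β, rfl⟩) hP o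
      rw [e, A2.clp _ _ _ hp, hF] at this
      exact absurd this (by decide)
    obtain ⟨χ, hχ⟩ := A2.cl P hP
    obtain ⟨O, hO, l1, l2⟩ := (h.ta.meet _ _ _ _ _ _ hχ hp ne).1 n
    obtain ⟨ua, ua', -⟩ := H.l.zg β hβ P hP o _ hP le_rfl
    exact h.tb.nc P hP O hO l1 u (um P hP ne ua ua') u0 (ui O hO l2)
  have nz : ∀ (P : Place k M) (r : M), 0 < P.ord r → r ≠ 0 := fun P r o e => by
    rw [e] at o
    simp at o
  refine ⟨D, s, ms, a * a' * φ, m', ?_, n', ?_, ?_, fun σ ρ U => ⟨?_, fun r hr => ?_⟩⟩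
  · rw [hD]
    simp only [ip_add_left, FF, KF, hF]
    ring
  · obtain ⟨τ, χ, P₀, hτ, hχ, o, -⟩ := pc'.gen
    have o' : 0 < P₀.ord (t - algebraMap k M τ) := by omega
    rw [← hu]
    exact h.tb.ind2 (plO P₀) t u τ (nz _ _ o') ((mx_plO (nz _ _ o')).2 o')
      (L τ hτ P₀ hχ.2.1 o' (by rw [A2.clp _ _ _ hχ, Fθ]; decide))
  · rw [show (2 : ℤ) • D - ((2 : ℤ) • F + (2 : ℤ) • θ) = (2 : ℤ) • p.K by rw [hD]; module]
    exact vf_K h pc'.vC
  · rw [← hu] at U
    have i1 := h.tb.fix σ t Θ U.iv.ft ((pc'.hor _ _ _ hp).1 (by rw [hF]; decide))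
    obtain ⟨φ', hp'⟩ := h.tb.plc σ ρ U.ac U.iv.inv _ _ _ hp
    have e : pc σ Θ = Θ := by
      by_contra ne
      have m := um _ hp'.2.1 ne (H.l.hz _ i1).1 (H.l.hz _ i1).2
      have m2 : σ u ∈ plO Θ := m
      rw [U.iv.fu] at m2
      exact (ui _ hp.2.1 le_rfl).2 ⟨inv_ne_zero u0, (ui _ hp.2.1 le_rfl).1, by rwa [inv_inv]⟩
    rw [e] at hp'
    rw [act_add, act_smul, act_smul, U.fF, A1.uniq _ _ _ _ _ hp' hp]
  · rw [← hu] at U
    intro P Q hP hQ oP oQ nP nQ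
    have red : ∀ R : Place k M, plO R ∈ p.T → 0 < R.ord r →
        ip p.B (p.cl R) ((2 : ℤ) • F + (2 : ℤ) • θ) ≠ 0 → ip p.B (p.cl R) θ ≠ 0 :=
      fun R hR o n e => n (by
        rw [ip_add_right, ip_smul_right, ip_smul_right, clF pc'.toPcB hr hR o, e]
        ring)
    have nP' := red P hP oP nP
    have nQ' := red Q hQ oQ nQ
    rcases hr with e | ⟨β, e⟩
    · rw [e] at oP oQ
      exact Or.inl (zero h H.r hθ hC hF hP hQ oP oQ nP' nQ')
    · rw [e] at oP oQ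
      by_cases hβ : β = 0
      · rw [hβ, map_zero, sub_zero] at oP oQ
        exact Or.inl (zero h H.l hθ hC hF hP hQ oP oQ nP' nQ')
      · have b1 : t - algebraMap k M β ∈ k⟮u, t - algebraMap k M β⟯ :=
          IntermediateField.subset_adjoin _ _ (by simp)
        refine h.tb.cj σ t u (t - algebraMap k M β) u P Q U.iv.inv U.iv.fix ?_
          (IntermediateField.subset_adjoin _ _ (by simp)) (L β hβ P hP oP nP') (L β hβ Q hQ oQ nQ')
          (nz _ _ oP) ((mx_plO (nz _ _ oP)).2 oP) ((mx_plO (nz _ _ oP)).2 oQ)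
        have := add_mem b1 (IntermediateField.algebraMap_mem _ β)
        rwa [sub_add_cancel] at this

end Pool.Agent.MP_20d318_ag.CC

end MrgPart0

-- ======== part 1: formerly Pool.Agent.MP_20d318_ag.CC.Us2a
section MrgPart1

/-! US2A: a pencil and a curve of square `-1`. -/

set_option autoImplicit false
set_option linter.unusedSectionVars false

namespace Pool.Agent.MP_20d318_ag.CC

open Pool.Agent.MP_20d318_ag.CB Pool.Agent.MP_20d318_ag.CB.P
open Pool.Agent.MP_fd6584_ag.Fn Pool.Agent.CBk MvPolynomial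
open Pool.Agent.MP_fd6584_ag.AG hiding deg_inv deg_congr deg_of_unit deg_mul deg_prod deg_zpow
  deg_eq_zero deg_nonneg deg_div deg_pow
open scoped IntermediateField

namespace Us2aR

variable {k M I κ : Type} [Field k] [Field M] [Algebra k M] [Fintype I] [Fintype κ]
  {p : Pd k M I κ} {F G G' e : I → ℤ} {J J' : Finset κ} {a a' t φ : M} {E : Place k M} {i j : κ}

theorem half (h : Cob p) (H : Hf p F J G a) (hij : i ≠ j) (Ci : ip p.B (p.C i) e = 1)
    (Cj : ip p.B (p.C j) e = 1) (Cm : ∀ m, m ≠ i → m ≠ j → ip p.B (p.C m) e = 0)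
    (eF : ip p.B e F = 1) : (i ∈ J ↔ j ∉ J) ∧ ip p.B G e = 0 := by
  classical
  have h1 : ∀ m, ip p.B (p.C m) e = (if m = i then 1 else 0) + if m = j then 1 else 0 := by
    intro m
    by_cases a : m = i
    · subst a
      rw [if_pos rfl, if_neg hij, Ci, add_zero]
    · by_cases b : m = j
      · subst b
        rw [if_neg a, if_pos rfl, Cj, zero_add]
      · rw [if_neg a, if_neg b, Cm m a b, add_zero]
  rw [ip_comm h.all.s.sym, H.eq, ip_add_left, ip_smul_left, ip_sum_left] at eF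
  simp only [h1, Finset.sum_add_distrib, Finset.sum_ite_eq'] at eF
  by_cases a : i ∈ J <;> by_cases b : j ∈ J <;> simp only [a, b, if_true, if_false] at eF ⊢ <;>
    refine ⟨?_, by omega⟩ <;> first | omega | simp

theorem main (h : Cob p) (H : Hq p F J J' G G' a a' t) (hE : p.Prm e φ E) (hij : i ≠ j)
    (sq : ip p.B e e = -1) (Ke : ip p.B p.K e = -1) (Ci : ip p.B (p.C i) e = 1)
    (Cj : ip p.B (p.C j) e = 1) (Cm : ∀ m, m ≠ i → m ≠ j → ip p.B (p.C m) e = 0)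
    (eF : ip p.B e F = 1) (iJ : i ∈ J) (jJ : j ∈ J') :
    ∃ s, U2 p F J J' G G' a a' t e φ E i j s := by
  have a1 := h.all.a1
  have a2 := h.all.a2
  have cm : ∀ x y : I → ℤ, ip p.B x y = ip p.B y x := ip_comm h.all.s.sym
  have pc := H.l.pc
  obtain ⟨Pi, hPi⟩ := h.prm i
  obtain ⟨Pj, hPj⟩ := h.prm j
  have ii : ip p.B (p.C i) (p.C i) = -4 := h.b0.nc.m4 i
  have jj : ip p.B (p.C j) (p.C j) = -4 := h.b0.nc.m4 j
  have ij : ip p.B (p.C i) (p.C j) = 0 := h.disj i j hij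
  have ji : ip p.B (p.C j) (p.C i) = 0 := h.disj j i hij.symm
  have Ki : ip p.B p.K (p.C i) = 2 := h.b0.lb.KC i
  have Kj : ip p.B p.K (p.C j) = 2 := h.b0.lb.KC j
  have FF := pc.sq
  have iF := pc.vC i
  have jF := pc.vC j
  have KF := pc.KF
  have Fi := (cm _ _).trans iF
  have Fj := (cm _ _).trans jF
  have FK := (cm _ _).trans KF
  have Fe := (cm _ _).trans eF
  have ei := (cm _ _).trans Ci
  have ej := (cm _ _).trans Cj
  have eK := (cm _ _).trans Ke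
  have iK := (cm _ _).trans Ki
  have jK := (cm _ _).trans Kj
  have hz := H.l.hz E ((pc.hor e φ E hE).1 (by rw [eF]; exact one_ne_zero))
  have fac : ∀ O ∈ p.T, s2 p a a' φ i j * p.lb (D2 p F e i j) O =
      a * p.lb G O * (a' * p.lb G' O) * (φ * p.lb e O) ^ 2 * (p.s i O * p.s j O) := by
    intro O hO
    have g := a1.gne O hO
    rw [D2, ← H.l.gk, p.lb_add g, p.lb_add g, p.lb_add g, p.lb_add g, p.lb_zsmul, zpow_ofNat]
    simp only [s2, Pd.s]
    ring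
  have rr : chi2 p.B p.K (D2 p F e i j) ≤ 2 * p.h0 (D2 p F e i j) := by
    refine h.all.a4.rr2 _ fun hk => ?_
    have : 0 ≤ ip p.B F (p.K - D2 p F e i j) := h.b0.lb.efn F pc.nef _ hk
    simp only [D2, ip_sub_right, ip_add_right, ip_smul_right] at this
    omega
  have h2 : 2 ≤ p.h0 (D2 p F e i j) := by
    have : chi2 p.B p.K (D2 p F e i j) = 4 := by
      simp only [chi2, D2, ip_add_left, ip_add_right, ip_smul_left, ip_smul_right, FF, iF, jF, KF,
        Fi, Fj, FK, Fe, ei, ej, eK, iK, jK, ii, jj, ij, ji, Ki, Kj, sq, Ke, Ci, Cj, eF]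
      ring
    omega
  obtain ⟨s, hs, hn⟩ := h.ta.h02 _ h2 (s2 p a a' φ i j)
  have De : ip p.B (D2 p F e i j) e = 0 := by
    simp only [D2, ip_add_left, ip_smul_left]
    omega
  have Di : ip p.B (D2 p F e i j) (p.C i) = 0 := by
    simp only [D2, ip_add_left, ip_smul_left]
    omega
  have Dj : ip p.B (D2 p F e i j) (p.C j) = 0 := by
    simp only [D2, ip_add_left, ip_smul_left]
    omega
  have uE : IsU (plO E) (s * p.lb (D2 p F e i j) (plO E)) := by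
    refine isU_of_not_mx (hs _ hE.2.1) fun hm => ?_
    have s1 := a2.sub e φ E hE _ s hs hm
    have s2' := h.ta.van _ _ Pi hPi _ _ s1 (by rw [ip_sub_left]; omega)
    have s3 := h.ta.van _ _ Pj hPj _ _ s2' (by rw [ip_sub_left, ip_sub_left]; omega)
    have s4 := h.ta.van _ _ E hE _ _ s3 (by rw [ip_sub_left, ip_sub_left, ip_sub_left]; omega)
    have e4 : D2 p F e i j - e - p.C i - p.C j - e = F + p.K := by
      rw [D2, two_smul]
      abel
    rw [e4] at s4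
    obtain ⟨c, hc⟩ := H.l.one _ s4
    refine hn c ?_
    have n1 := hE.1
    have n2 := hPi.1
    have n3 := hPj.1
    rw [Algebra.smul_def] at hc ⊢
    rw [s2]
    field_simp at hc
    rw [hc]
    ring
  have onE := (a2.nn e φ E hE _ s hs uE).2.1 De
  have onC : ∀ m P, p.Prm (p.C m) (p.ψ m) P → ip p.B (p.C m) e = 1 →
      ip p.B (D2 p F e i j) (p.C m) = 0 → ∀ O ∈ p.T, p.s m O ∈ mx O →
      IsU O (s * p.lb (D2 p F e i j) O) := by
    intro m P hP h1 h0 O hO hm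
    have ne : P ≠ E := by
      rintro rfl
      have := a1.uniq _ _ _ _ _ hP hE
      rw [this] at h1
      omega
    obtain ⟨R, hR, l1, l2⟩ := (h.ta.meet _ _ _ _ _ _ hP hE ne).1 (by rw [h1]; exact one_ne_zero)
    exact (a2.nn _ _ P hP _ s hs (h.ta.dn _ _ R hR _ hP.2.1 l1 (onE R hR l2))).2.1 h0 O hO
      ((a1.pmx _ _ P hP O hO).1 hm)
  refine ⟨s, H, hE, iJ, jJ, sq, Ci, Cj, Cm, eF, fun O hO l => ⟨?_, ?_⟩, hs, fun O hO => ?_, ?_,
    fac, fun O hO l => ?_⟩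
  · exact (a2.nn e φ E hE G a H.l.h.sec hz.1).2.1 (half h H.l.h hij Ci Cj Cm eF).2 O hO l
  · exact (a2.nn e φ E hE G' a' H.r.h.sec hz.2).2.1 (half h H.r.h hij Ci Cj Cm eF).2 O hO l
  · rw [fac O hO]
    exact O.mul_mem (O.mul_mem (O.mul_mem (H.l.h.sec O hO) (H.r.h.sec O hO))
      (O.pow_mem (a1.pmem _ _ _ hE O hO) 2))
      (O.mul_mem (s_mem h.toPair0 hO i) (s_mem h.toPair0 hO j))
  · exact mul_ne_zero (mul_ne_zero (mul_ne_zero H.l.h.ne H.r.h.ne) (pow_ne_zero 2 hE.1))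
      (mul_ne_zero hPi.1 hPj.1)
  · rcases l with l | l | l
    · exact onE O hO l
    · exact onC i Pi hPi Ci Di O hO l
    · exact onC j Pj hPj Cj Dj O hO l

end Us2aR

theorem us2a_stmt : Us2aStmt := by
  intro k M I κ _ _ _ _ _ _ _ p F G G' e J J' a a' t φ E i j h H hE hij sq Ci Cj eF
  have he : e ∈ p.ld.P := ⟨φ, E, hE⟩
  have lt : ip p.ld.B e e < 0 := by
    have : ip p.ld.B e e = -1 := sq
    omega
  have hk : e ∉ Set.range p.C ∧ ip p.B p.K e = -1 := by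
    rcases h.b0.lb.neg e he lt with ⟨m, hm⟩ | ⟨h1, -, h2⟩ | ⟨-, h1, -⟩
    · have h4 : ip p.B (p.C m) (p.C m) = -4 := h.b0.nc.m4 m
      have hm' : e = p.C m := hm
      rw [← hm'] at h4
      omega
    · exact ⟨h1, h2⟩
    · have : ip p.B e e = -2 := h1
      omega
  have Cm : ∀ m, m ≠ i → m ≠ j → ip p.B (p.C m) e = 0 := by
    intro m mi mj
    rcases h.b0.lb.pat e (h.b0.lb.Cc e he hk.1) hk.2 with ⟨l, h1, h2⟩ | ⟨l, l', -, -, -, h2⟩
    · have h1' : ip p.B (p.C l) e = 2 := h1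
      by_cases c : i = l
      · rw [← c] at h1'
        omega
      · have : ip p.B (p.C i) e = 0 := h2 i c
        omega
    · refine h2 m (fun c => ?_) fun c => ?_
      · subst c
        by_cases d : i = l'
        · have : ip p.B (p.C j) e = 0 := h2 j mj.symm fun x => hij (d.trans x.symm)
          omega
        · have : ip p.B (p.C i) e = 0 := h2 i mi.symm d
          omega
      · subst c
        by_cases d : i = l
        · have : ip p.B (p.C j) e = 0 := h2 j (fun x => hij (d.trans x.symm)) mj.symm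
          omega
        · have : ip p.B (p.C i) e = 0 := h2 i d mi.symm
          omega
  have hx := (Us2aR.half h H.l.h hij Ci Cj Cm eF).1
  by_cases iJ : i ∈ J
  · exact Or.inl (Us2aR.main h H hE hij sq hk.2 Ci Cj Cm eF iJ ((H.l.cpl j).2 (hx.1 iJ)))
  · refine Or.inr (Us2aR.main h H hE hij.symm sq hk.2 Cj Ci (fun m x y => Cm m y x) eF ?_
      ((H.l.cpl i).2 iJ))
    by_contra c
    exact iJ (hx.2 c)

end Pool.Agent.MP_20d318_ag.CC

end MrgPart1

-- ======== part 2: formerly Pool.Agent.MP_20d318_ag.CC.Us2c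
section MrgPart2

/-! Row US2C: the fibre components that meet the class `H2` are conjugate. -/

set_option autoImplicit false
set_option linter.unusedSectionVars false

namespace Pool.Agent.MP_20d318_ag.CC

open Pool.Agent.MP_20d318_ag.CB Pool.Agent.MP_20d318_ag.CB.P
open Pool.Agent.MP_fd6584_ag.Fn Pool.Agent.CBk MvPolynomial
open Pool.Agent.MP_fd6584_ag.AG hiding deg_inv deg_congr deg_of_unit deg_mul deg_prod deg_zpow
  deg_eq_zero deg_nonneg deg_div deg_pow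
open Pool.Agent.MP_20d318_ag.RS (jac)
open Pool.Agent.MP_20d318_ag.CB.P.TransA (pc)
open scoped IntermediateField

namespace Us2cR

theorem alg {M : Type} [Field M] {s z ψ ψ' l l' A A' Φ x y q q' : M}
    (e1 : z * l = A * A' * Φ ^ 2 * (x * y)) (e2 : ψ * l' = A ^ 2 * (x * q))
    (e3 : ψ' * l' = A' ^ 2 * q') (hl : l ≠ 0) (hl' : l' ≠ 0) (hz : z ≠ 0) (hψ : ψ' ≠ 0) :
    (s / z) ^ 2 * (ψ / ψ') = (s * l) ^ 2 * q / (x * (A' ^ 4 * Φ ^ 4 * y ^ 2 * q')) := by
  have n1 := mul_ne_zero hz hl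
  have n3 := mul_ne_zero hψ hl'
  rw [← mul_div_mul_right s z hl, ← mul_div_mul_right ψ ψ' hl', e1, e2, e3]
  rw [e1] at n1
  rw [e3] at n3
  simp only [ne_eq, mul_eq_zero, pow_eq_zero_iff', not_or, not_and, not_not] at n1 n3
  obtain ⟨⟨⟨a1, a2⟩, a3⟩, a4, a5⟩ := n1
  have a6 : Φ ≠ 0 := fun h => absurd (a3 h) (by norm_num)
  have a7 := n3.2
  field_simp

variable {k M I κ : Type} [Field k] [NeZero (2 : k)] [IsAlgClosed k] [Field M] [Algebra k M]
  [Fintype I] [Fintype κ] {p : Pd k M I κ} {F G G' e : I → ℤ} {J J' : Finset κ}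
  {a a' t φ s r : M} {E X Y : Place k M} {i j : κ}

theorem clF (U : U2 p F J J' G G' a a' t e φ E i j s) (hr : Fr k t r) (hX : plO X ∈ p.T)
    (oX : 0 < X.ord r) : ip p.B (p.cl X) F = 0 := by
  obtain ⟨u, h1, -, h3⟩ := U.hq.l.pc.fd r hr
  exact h3 X ((h1 X).2 ⟨hX, oX⟩)

/-- Only one component of a fibre meets the section. -/
theorem one (h : Cob p) (U : U2 p F J J' G G' a a' t e φ E i j s) (hr : Fr k t r)
    (hX : plO X ∈ p.T) (oX : 0 < X.ord r) (eX : ip p.B e (p.cl X) ≠ 0)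
    (hY : plO Y ∈ p.T) (oY : 0 < Y.ord r) (eY : ip p.B e (p.cl Y) ≠ 0) : Y = X := by
  classical
  obtain ⟨u, h1, h2, h3⟩ := U.hq.l.pc.fd r hr
  have nn : ∀ Z ∈ u, 0 ≤ ip p.B e (p.cl Z) := fun Z hZ => by
    obtain ⟨z, hz⟩ := h.all.a2.cl Z ((h1 Z).1 hZ).1
    refine h.all.a2.pos e ⟨φ, E, U.prm⟩ _ ⟨z, Z, hz⟩ fun q => ?_
    have := h3 Z hZ
    rw [← q, U.eF] at this
    exact one_ne_zero this
  have mX := (h1 X).2 ⟨hX, oX⟩
  have mY := (h1 Y).2 ⟨hY, oY⟩
  by_contra hne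
  have e1 : ip p.B e F = ∑ Z ∈ u, Z.ord r * ip p.B e (p.cl Z) := by
    conv_lhs => rw [h2]
    simp only [ip_sum_right, ip_smul_right]
  have le := Finset.sum_le_sum_of_subset_of_nonneg
    (f := fun Z => Z.ord r * ip p.B e (p.cl Z)) (s := {Y, X}) (t := u)
    (by simp [Finset.insert_subset_iff, mX, mY])
    (fun Z hZ _ => mul_nonneg ((h1 Z).1 hZ).2.le (nn Z hZ))
  rw [Finset.sum_pair hne, ← e1, U.eF] at le
  have a1 := mul_pos oX ((nn X mX).lt_of_ne' eX)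
  have a2 := mul_pos oY ((nn Y mY).lt_of_ne' eY)
  omega

theorem hH (h : Cob p) (c : I → ℤ) : ip p.B c (H2 p F e i j) =
    2 * ip p.B c F + 4 * ip p.B e c + (ip p.B (p.C i) c + ip p.B (p.C j) c) := by
  have sy := h.all.s.sym
  simp only [H2, ip_add_right, ip_smul_right, ip_comm sy c e, ip_comm sy c (p.C i),
    ip_comm sy c (p.C j)]

theorem c0 (h : Cob p) (hX : plO X ∈ p.T) {m : κ}
    (hu : ∀ O ∈ p.T, O ≤ plO X → IsU O (p.s m O)) : ip p.B (p.C m) (p.cl X) = 0 := by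
  obtain ⟨z, hz⟩ := h.all.a2.cl X hX
  exact (h.all.a2.nn _ _ _ hz _ _ (h.all.a1.pmem _ _ _ (h.prm m).choose_spec)
    (hu _ hX le_rfl)).2.2 hu

open Classical in
theorem form (h : Cob p) (U : U2 p F J J' G G' a a' t e φ E i j s) {O : Subalgebra k M}
    (hO : O ∈ p.T) : (s / s2 p a a' φ i j) ^ 2 * t =
      (s * p.lb (D2 p F e i j) O) ^ 2 * (∏ m ∈ J.erase i, p.s m O) / (p.s i O *
        ((a' * p.lb G' O) ^ 4 * (φ * p.lb e O) ^ 4 * p.s j O ^ 2 * ∏ m ∈ J', p.s m O)) := by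
  have g := h.all.a1.gne O hO
  have e2 := U.hq.l.h.fac h.toPair0 hO
  rw [← Finset.mul_prod_erase J _ U.iJ] at e2
  rw [U.hq.l.pc.eq]
  exact alg (U.fac O hO) e2 (U.hq.r.h.fac h.toPair0 hO) (p.lb_ne g _) (p.lb_ne g _) U.ne'
    U.hq.l.pc.ne'

theorem t0 (U : U2 p F J J' G G' a a' t e φ E i j s) : t ≠ 0 := by
  rw [U.hq.l.pc.eq]
  exact div_ne_zero U.hq.l.pc.ne U.hq.l.pc.ne'

/-- The component `C i` lies in the fibre `t = 0`. -/
theorem oi (h : Cob p) (U : U2 p F J J' G G' a a' t e φ E i j s)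
    (hY : p.Prm (p.C i) (p.ψ i) Y) : 0 < Y.ord t := by
  classical
  have hO := hY.2.1
  have e2 := U.hq.l.h.fac h.toPair0 hO
  have m1 : hs p J a * p.lb F (plO Y) ∈ mx (plO Y) := by
    rw [e2, ← Finset.mul_prod_erase J _ U.iJ]
    exact mx_mul_left ((plO Y).pow_mem (U.hq.l.h.sec _ hO) 2) (mx_mul_right
      ((h.all.a1.pmx _ _ _ hY _ hO).2 le_rfl)
      ((plO Y).prod_mem fun m _ => s_mem h.toPair0 hO m))
  have u := (U.hq.l.pc.bpf _ hO).resolve_left fun q => q.not_mx m1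
  have := mx_div m1 u
  rw [mul_div_mul_right _ _ (p.lb_ne (h.all.a1.gne _ hO) _), ← U.hq.l.pc.eq] at this
  exact (mx_plO (t0 U)).1 this

/-- A component of the fibre `t = 0` that meets `H2`. -/
theorem zero (h : Cob p) (U : U2 p F J J' G G' a a' t e φ E i j s) (hX : plO X ∈ p.T)
    (oX : 0 < X.ord t) (nX : ip p.B (p.cl X) (H2 p F e i j) ≠ 0) :
    s ≠ 0 ∧ Ind (plO X) ![(s / s2 p a a' φ i j) ^ 2 * t] ∧
      (s / s2 p a a' φ i j)⁻¹ ∈ mx (plO X) := by
  classical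
  have hr : Fr k t t := Or.inr ⟨0, by rw [map_zero, sub_zero]⟩
  obtain ⟨Y, hY⟩ := h.prm i
  obtain ⟨z, hz⟩ := h.all.a2.cl X hX
  have sy := h.all.s.sym
  have ij : j ≠ i := fun q => (U.hq.l.cpl j).1 U.jJ (q ▸ U.iJ)
  have cY := h.all.a2.clp _ _ _ hY
  have xF := clF U hr hX oX
  have XY : X ≠ Y := fun q => nX (by
    have m4 : ip p.B (p.C i) (p.C i) = -4 := h.b0.nc.m4 i
    rw [q, cY, hH h, U.hq.l.pc.vC i, ip_comm sy e, U.Ci, m4, h.disj j i ij]
    norm_num)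
  have XE : X ≠ E := fun q => by
    rw [q, h.all.a2.clp _ _ _ U.prm, U.eF] at xF
    exact one_ne_zero xF
  have e0 : ip p.B e (p.cl X) = 0 := by_contra fun q =>
    XY (one h U hr hY.2.1 (oi h U hY) (by rw [cY, ip_comm sy e, U.Ci]; exact one_ne_zero) hX oX q)
  have zd := U.hq.l.zd X hX oX
  have j0 := c0 h hX fun O hO le => (zd O hO le).2 j U.jJ
  have i0 : ip p.B (p.C i) (p.cl X) ≠ 0 := fun q => nX (by rw [hH h, xF, e0, q, j0]; norm_num)
  obtain ⟨O, hO, l1, l2⟩ := (h.ta.meet _ _ _ _ _ _ hY hz XY.symm).1 i0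
  have si : p.s i O ∈ mx O := (h.all.a1.pmx _ _ _ hY O hO).2 l1
  have us := U.us O hO (Or.inr (Or.inl si))
  have s0 : s ≠ 0 := left_ne_zero_of_mul us.1
  have u0 : s / s2 p a a' φ i j ≠ 0 := div_ne_zero s0 U.ne'
  have b0 : (s / s2 p a a' φ i j) ^ 2 * t ≠ 0 := mul_ne_zero (pow_ne_zero 2 u0) (t0 U)
  have sm := fun R hR m => s_mem h.toPair0 (O := R) hR m
  have pm := h.all.a1.pmem _ _ _ U.prm
  have bm : (s / s2 p a a' φ i j) ^ 2 * t ∈ plO X := by
    rw [form h U hX]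
    have w := zd _ hX le_rfl
    refine IsU.div_mem (IsU.mul (isU_of_not_mx (sm _ hX i) fun q => XY
      (h.all.a1.peq _ _ _ hY X hX q)) ((((w.1.pow 4).mul (IsU.pow (isU_of_not_mx (pm _ hX)
      fun q => XE (h.all.a1.peq _ _ _ U.prm X hX q)) 4)).mul ((w.2 j U.jJ).pow 2)).mul
      (isU_prod w.2))) ?_
    exact (plO X).mul_mem ((plO X).pow_mem (U.sec _ hX) 2) ((plO X).prod_mem fun m _ => sm _ hX m)
  have bi : ((s / s2 p a a' φ i j) ^ 2 * t)⁻¹ ∈ mx O := by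
    rw [form h U hO, inv_div]
    refine mx_div (mx_mul_right si ?_) ((us.pow 2).mul (isU_prod fun m hm =>
      isU_of_not_mx (sm _ hO m) fun q => (Finset.mem_erase.1 hm).1 (h.one O hO m i q si)))
    exact O.mul_mem (O.mul_mem (O.mul_mem (O.pow_mem (U.hq.r.h.sec O hO) 4)
      (O.pow_mem (pm O hO) 4)) (O.pow_mem (sm _ hO j) 2)) (O.prod_mem fun m _ => sm _ hO m)
  have ind := h.tb.nc X hX O hO l2 _ bm b0 bi
  refine ⟨s0, ind, XTst.val_mx (plO_isVal X) ?_⟩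
  have bu := ind_one ind 0
  rw [map_zero, sub_zero] at bu
  have := mx_div ((mx_plO (t0 U)).2 oX) bu
  rwa [mul_comm _ t, div_mul_eq_div_div, div_self (t0 U), one_div, ← inv_pow] at this

end Us2cR

open Us2cR in
theorem us2c_stmt : Us2cStmt := by
  intro k M I κ _ _ _ _ _ _ _ p F G G' e J J' a a' t φ s E i j σ h U h2 hf β P Q hP hQ oP oQ nP nQ
  by_cases hβ : β = 0
  · rw [hβ, map_zero, sub_zero] at oP oQ
    obtain ⟨s0, p1, p2⟩ := zero h U hP oP nP
    obtain ⟨-, q1, q2⟩ := zero h U hQ oQ nQ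
    have u0 : s / s2 p a a' φ i j ≠ 0 := div_ne_zero s0 U.ne'
    generalize s / s2 p a a' φ i j = u at *
    have m1 : u ^ 2 * t ∈ k⟮u ^ 2 * t, u⁻¹⟯ := IntermediateField.subset_adjoin _ _ (by simp)
    have m2 : u⁻¹ ∈ k⟮u ^ 2 * t, u⁻¹⟯ := IntermediateField.subset_adjoin _ _ (by simp)
    refine h.tb.cj σ t u u⁻¹ (u ^ 2 * t) P Q h2 hf ?_ ?_ p1 q1 (inv_ne_zero u0) p2 q2
    · have := mul_mem m1 (pow_mem m2 2)
      rwa [show u ^ 2 * t * u⁻¹ ^ 2 = t by field_simp] at this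
    · simpa using inv_mem m2
  · have hr : Fr k t (t - algebraMap k M β) := Or.inr ⟨β, rfl⟩
    have w : ∀ X : Place k M, plO X ∈ p.T → 0 < X.ord (t - algebraMap k M β) →
        ip p.B (p.cl X) (H2 p F e i j) ≠ 0 → ip p.B e (p.cl X) ≠ 0 := fun X hX oX nX q => by
      have z := fun m => c0 h hX fun O hO le => (U.hq.l.zg β hβ X hX oX O hO le).2.2 m
      exact nX (by rw [hH h, clF U hr hX oX, q, z i, z j]; norm_num)
    exact Or.inl (one h U hr hP oP (w P hP oP nP) hQ oQ (w Q hQ oQ nQ))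

end Pool.Agent.MP_20d318_ag.CC

end MrgPart2

-- marker of a merged file
example : 731051 + 618708 = 731051 + 618708 := rfl
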