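import Pool.Agent.MP_20d318_ag.CC.Fin
import Pool.Agent.MP_20d318_ag.CC.Ga
import Pool.Agent.MP_20d318_ag.CC.Grp
import Pool.Agent.MP_20d318_ag.CC.Gluex
import Pool.Agent.MP_20d318_ag.CC.Gb2
import Pool.Agent.MP_20d318_ag.CC.Pcx
import Pool.Agent.MP_20d318_ag.CC.Gr2a
import Pool.Agent.MP_20d318_ag.CC.Us2c
import Pool.Agent.MP_20d318_ag.CC.Eff

/-! All geometric rows hold. -/

set_option autoImplicit false

namespace Pool.Agent.MP_20d318_ag.CC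

theorem gmods : GMods := ⟨ta_stmt, tb_stmt, gcd_stmt, st_stmt, pax_stmt, pcx_stmt, par_stmt,
  half_stmt, pn1_stmt, pen2_stmt, pen3_stmt, alg_stmt, ht_stmt, inv12_stmt, inv3x_stmt, inv4x_stmt,
  orbx_stmt, grp_stmt, fibc_stmt, un_stmt, us1_stmt, us2a_stmt, us2b_stmt, us2c_stmt, ga_stmt,
  gb1_stmt, gb2_stmt, gr2a_stmt, gr2b_stmt, eff_stmt, gluex_stmt⟩

end Pool.Agent.MP_20d318_ag.CC
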